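import Pool.Agent.Lib.TNF.AB.SpecB

/-!
# PROJECT TNF, package AB: Abel, existence of the function (Ab1)
-/

set_option autoImplicit false

open SEJ TATE Topology Metric MeasureTheory

noncomputable section

namespace TNF.AB

namespace Ab1_aux

variable {m r : ℕ} {b : Fin (r + 1) → ℕ} {t : Fin (r + 1) → ℂ}

theorem Qf_sub (β c c' : Ix2 m r → ℂ) :
    Qf m b t β (c - c') = Qf m b t β c - Qf m b t β c' := by
  unfold Qf
  rw [← Finset.sum_sub_distrib]
  refine Finset.sum_congr rfl fun p _ => ?_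
  rw [← Finset.sum_sub_distrib]
  refine Finset.sum_congr rfl fun q _ => ?_
  split_ifs with h
  · rw [Pi.sub_apply]
    ring
  · ring

theorem ne_of_pts {X : ℂ × ℂ} (hX : X ∈ Pts m b t) (j : Fin (r + 1)) : X.1 ≠ t j := by
  intro h
  exact hX.1 ⟨j, h.symm⟩

theorem bp_self {X : ℂ × ℂ} (hX : X ∈ Pts m b t) : bp m b t X X.1 = X := by
  unfold bp br
  have h : ∏ j, ((X.1 - t j) / (X.1 - t j)) ^ ((b j : ℂ) / m) = 1 := by
    refine Finset.prod_eq_one fun j _ => ?_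
    rw [div_self (sub_ne_zero.mpr (ne_of_pts hX j)), Complex.one_cpow]
  rw [h, mul_one]

theorem bp_pts (hm : m ≠ 0) {X : ℂ × ℂ} (hX : X ∈ Pts m b t) {x : ℂ} (hx : x ∉ Set.range t) :
    bp m b t X x ∈ Pts m b t := by
  refine ⟨hx, ?_⟩
  show (br m b t X x) ^ m = ∏ j, (x - t j) ^ b j
  unfold br
  rw [mul_pow, hX.2, ← Finset.prod_pow, ← Finset.prod_mul_distrib]
  refine Finset.prod_congr rfl fun j _ => ?_
  have h1 : (((x - t j) / (X.1 - t j)) ^ ((b j : ℂ) / m)) ^ m =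
      ((x - t j) / (X.1 - t j)) ^ b j := by
    rw [← Complex.cpow_nat_mul, mul_div_cancel₀ _ (Nat.cast_ne_zero.mpr hm),
      Complex.cpow_natCast]
  rw [h1, div_pow, mul_div_cancel₀]
  exact pow_ne_zero _ (sub_ne_zero.mpr (ne_of_pts hX j))

theorem Kd_nonneg (S : Finset ℂ) (x : ℂ) : 0 ≤ Kd S x := by
  unfold Kd
  exact Finset.sum_nonneg fun a _ => by positivity

theorem Kd_mono {S S' : Finset ℂ} (h : S ⊆ S') (x : ℂ) : Kd S x ≤ Kd S' x := by
  unfold Kd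
  exact Finset.sum_le_sum_of_subset_of_nonneg h fun a _ _ => by positivity

/-- The finite set of the poles. -/
def AF {k : ℕ} (Q' Q : Fin k → ℂ × ℂ) : Finset ℂ :=
  (Finset.univ.image fun a => (Q' a).1) ∪ Finset.univ.image fun a => (Q a).1

theorem mem_AF {k : ℕ} (Q' Q : Fin k → ℂ × ℂ) (x : ℂ) : x ∈ AF Q' Q ↔ x ∈ Ad Q' Q := by
  unfold AF Ad
  simp only [Finset.mem_union, Finset.mem_image, Finset.mem_univ, true_and, Set.mem_ofPred_eq]
  constructor
  · rintro (⟨a, ha⟩ | ⟨a, ha⟩)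
    · exact ⟨a, Or.inl ha.symm⟩
    · exact ⟨a, Or.inr ha.symm⟩
  · rintro ⟨a, ha | ha⟩
    · exact Or.inl ⟨a, ha.symm⟩
    · exact Or.inr ⟨a, ha.symm⟩

theorem Ad_finite {k : ℕ} (Q' Q : Fin k → ℂ × ℂ) : (Ad Q' Q).Finite := by
  have h : Ad Q' Q = (AF Q' Q : Set ℂ) := by
    ext x
    exact (mem_AF Q' Q x).symm
  rw [h]
  exact Finset.finite_toSet _

/-- The bound of `hD`. -/
theorem hD_bound (h5 : S_Bhm) (hc : Cvb m b) (ht : Function.Injective t) {k : ℕ}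
    (Q' Q : Fin k → ℂ × ℂ) (hQ' : ∀ a, Q' a ∈ Pts m b t) (hQ : ∀ a, Q a ∈ Pts m b t)
    (w : Ix m b → ℂ) : ∃ C : ℝ, 0 ≤ C ∧ ∀ X ∈ Pts m b t, X.1 ∉ (St t ∪ AF Q' Q : Finset ℂ) →
      ‖hD m b t Q' Q w X‖ ≤ C * Kd (St t ∪ AF Q' Q) X.1 := by
  obtain ⟨-, hom, heta⟩ := h5 m r b t hc ht
  choose C1 hC1 hB1 using hom
  choose C2 hC2 hB2 using fun a => heta (Q a) (hQ a)
  choose C3 hC3 hB3 using fun a => heta (Q' a) (hQ' a)
  refine ⟨∑ a, (C2 a + C3 a) + ∑ q, ‖w q‖ * C1 q, ?_, fun X hX hXS => ?_⟩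
  · refine add_nonneg (Finset.sum_nonneg fun a _ => add_nonneg (hC2 a) (hC3 a))
      (Finset.sum_nonneg fun q _ => mul_nonneg (norm_nonneg _) (hC1 q))
  · have hK := Kd_nonneg (St t ∪ AF Q' Q) X.1
    have hQm : ∀ a, (Q a).1 ∈ AF Q' Q := fun a => (mem_AF Q' Q _).mpr ⟨a, Or.inr rfl⟩
    have hQm' : ∀ a, (Q' a).1 ∈ AF Q' Q := fun a => (mem_AF Q' Q _).mpr ⟨a, Or.inl rfl⟩
    have hne : ∀ a ∈ AF Q' Q, X.1 ≠ a := by
      intro a ha h
      exact hXS (Finset.mem_union_right _ (h ▸ ha))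
    have hsub : ∀ a ∈ AF Q' Q, insert a (St t) ⊆ St t ∪ AF Q' Q := by
      intro a ha x hx
      rcases Finset.mem_insert.mp hx with rfl | hx
      · exact Finset.mem_union_right _ ha
      · exact Finset.mem_union_left _ hx
    have e2 : ∀ a, ‖eta m b t (Q a) X‖ ≤ C2 a * Kd (St t ∪ AF Q' Q) X.1 := fun a =>
      (hB2 a X hX (hne _ (hQm a))).trans
        (mul_le_mul_of_nonneg_left (Kd_mono (hsub _ (hQm a)) _) (hC2 a))
    have e3 : ∀ a, ‖eta m b t (Q' a) X‖ ≤ C3 a * Kd (St t ∪ AF Q' Q) X.1 := fun a =>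
      (hB3 a X hX (hne _ (hQm' a))).trans
        (mul_le_mul_of_nonneg_left (Kd_mono (hsub _ (hQm' a)) _) (hC3 a))
    have e1 : ∀ q, ‖om m b t X q‖ ≤ C1 q * Kd (St t ∪ AF Q' Q) X.1 := fun q =>
      (hB1 q X hX).trans
        (mul_le_mul_of_nonneg_left (Kd_mono Finset.subset_union_left _) (hC1 q))
    unfold hD
    refine (norm_sub_le _ _).trans ?_
    rw [add_mul, Finset.sum_mul, Finset.sum_mul]
    refine add_le_add ((norm_sum_le _ _).trans (Finset.sum_le_sum fun a _ => ?_))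
      ((norm_sum_le _ _).trans (Finset.sum_le_sum fun q _ => ?_))
    · refine (norm_sub_le _ _).trans ?_
      rw [add_mul]
      exact add_le_add (e2 a) (e3 a)
    · rw [norm_mul, mul_assoc]
      exact mul_le_mul_of_nonneg_left (e1 q) (norm_nonneg _)

theorem exists_pt (hm : m ≠ 0) (A : Set ℂ) (hA : A.Finite) : ∃ X ∈ Pts m b t, X.1 ∉ A := by
  have h : (Set.range t ∪ A).Finite := (Set.finite_range t).union hA
  obtain ⟨x, hx⟩ := h.infinite_compl.nonempty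
  obtain ⟨y, hy⟩ := IsAlgClosed.exists_pow_nat_eq (∏ j, (x - t j) ^ b j) (Nat.pos_of_ne_zero hm)
  exact ⟨(x, y), ⟨fun h => hx (Or.inl h), hy⟩, fun h => hx (Or.inr h)⟩

end Ab1_aux

open Ab1_aux in
/-- (Ab1) Abel, existence of the function. -/
theorem tAb1 (h1 : S_Alg2) (h2 : S_Qw) (_h3 : S_Lin) (h4 : S_Pot) (h5 : S_Bhm) (h6 : S_Grw)
    (h7 : S_Al3) (h8 : S_Dva) (h9 : S_Hdi) : S_Ab1 := by
  intro m r b t hc ht k Q' Q c hLP
  have hm3 : 3 ≤ m := hc.1
  have hm1 : 1 ≤ m := by omega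
  have hm0 : m ≠ 0 := by omega
  have hQ' : ∀ a, Q' a ∈ Pts m b t := fun a => ((h1 m r b t hm1).1 _ _ (c a)).1
  have hQ : ∀ a, Q a ∈ Pts m b t := fun a => ((h1 m r b t hm1).1 _ _ (c a)).2
  obtain ⟨c', hc', hpr⟩ := hLP
  have hd : (pr (∑ a, (c a).v - c') : Ix m b → ℂ) = 0 := by
    funext q
    have hq := congrFun hpr q
    simp only [pr] at hq
    simp only [pr, Pi.sub_apply, Pi.zero_apply, hq, sub_self]
  obtain ⟨w, hw⟩ := (h2 m r b t hc).1 _ hd
  obtain ⟨hReg, hint⟩ := h9 m r b t hc ht k Q' Q w c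
  have hAfin := Ad_finite Q' Q
  -- the closed integrals
  have hper : ∀ (P : ℂ × ℂ) (p : Path m b t P P), Disjoint p.on (Ad Q' Q) →
      ∃ n : ℤ, p.int (hD m b t Q' Q w) = 2 * Real.pi * Complex.I * n := by
    intro P p hp
    obtain ⟨n, hn⟩ := hint P p hp
    obtain ⟨n', hn'⟩ := hc' p.v ⟨P, p, rfl⟩
    have hq := hw p.v
    rw [Qf_sub] at hq
    refine ⟨n' + n, ?_⟩
    have hpv : ∑ q, w q * pr p.v q = ∑ q, w q * p.v (inc q) := rfl
    rw [hpv] at hq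
    rw [hn]
    push_cast
    linear_combination hq + hn'
  obtain ⟨f, hf, hf0⟩ := (h4 m r b t hc ht (Ad Q' Q) hAfin _ hReg).2 hper
  -- growth
  set S : Finset ℂ := St t ∪ AF Q' Q with hS
  have hAS : Ad Q' Q ⊆ (S : Set ℂ) := by
    intro x hx
    exact Finset.mem_coe.mpr (Finset.mem_union_right _ ((mem_AF Q' Q x).mpr hx))
  have hStS : St t ⊆ S := Finset.subset_union_left
  have hXS : ∀ X ∈ Pts m b t, X.1 ∉ Ad Q' Q → X.1 ∉ S := by
    intro X hX hXA h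
    rcases Finset.mem_union.mp h with h | h
    · obtain ⟨j, -, hj⟩ := Finset.mem_image.mp h
      exact hX.1 ⟨j, hj⟩
    · exact hXA ((mem_AF Q' Q _).mp h)
  have hDvS : Dv m b t (S : Set ℂ) f fun X => f X * hD m b t Q' Q w X := by
    intro X hX hXA
    exact hf X hX fun h => hXA (hAS h)
  obtain ⟨C, hC, hbd⟩ := hD_bound h5 hc ht Q' Q hQ' hQ w
  have hgr := h6 m r b t hm1 S f (fun X => f X * hD m b t Q' Q w X) C 0 hStS hC hDvS ?_
  swap
  · intro X hX hXA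
    rw [norm_mul, pow_zero]
    have hb := hbd X hX hXA
    have hK : 0 ≤ C * Kd S X.1 := mul_nonneg hC (Kd_nonneg S X.1)
    calc ‖f X‖ * ‖hD m b t Q' Q w X‖ ≤ ‖f X‖ * (C * Kd S X.1) :=
          mul_le_mul_of_nonneg_left hb (norm_nonneg _)
      _ = C * Kd S X.1 * ‖f X‖ := by ring
      _ ≤ C * Kd S X.1 * (‖f X‖ + 1) :=
          mul_le_mul_of_nonneg_left (by linarith) hK
  obtain ⟨C', N', M', hC', hg⟩ := hgr
  obtain ⟨A, N, hAN⟩ := h7 m r b t hm1 S f (fun X => f X * hD m b t Q' Q w X) hStS hDvS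
    ⟨C', N', M', hC', hg⟩
  -- the denominator
  set B : Polynomial ℂ := ∏ a ∈ S, (Polynomial.X - Polynomial.C a) ^ N with hB
  have hBe : ∀ x, B.eval x = ∏ a ∈ S, (x - a) ^ N := by
    intro x
    rw [hB, Polynomial.eval_prod]
    refine Finset.prod_congr rfl fun a _ => ?_
    rw [Polynomial.eval_pow, Polynomial.eval_sub, Polynomial.eval_X, Polynomial.eval_C]
  have hB0 : B ≠ 0 := by
    rw [hB]
    exact Finset.prod_ne_zero_iff.mpr fun a _ => pow_ne_zero _ (Polynomial.X_sub_C_ne_zero a)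
  have hBx : ∀ x ∉ S, B.eval x ≠ 0 := by
    intro x hx
    rw [hBe]
    refine Finset.prod_ne_zero_iff.mpr fun a ha => pow_ne_zero _ (sub_ne_zero.mpr ?_)
    rintro rfl
    exact hx ha
  refine ⟨A, B, w, hB0, ?_, ?_⟩
  · obtain ⟨X, hX, hXA⟩ := exists_pt (b := b) (t := t) hm0 (Ad Q' Q) hAfin
    have hXS' := hXS X hX hXA
    refine ⟨X, hX, hXA, hBx _ hXS', ?_⟩
    rw [← hAN X hX hXS', ← hBe]
    exact mul_ne_zero (hf0 X hX hXA) (hBx _ hXS')
  · intro X hX hXA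
    have hXS' := hXS X hX hXA
    have hv : evA m A X = f X * B.eval X.1 := by
      rw [← hAN X hX hXS', ← hBe]
    -- the derivative
    have hd1 : HasDerivAt (fun x => f (bp m b t X x) * B.eval x)
        (f X * hD m b t Q' Q w X * B.eval X.1 +
          f (bp m b t X X.1) * B.derivative.eval X.1) X.1 :=
      (hf X hX hXA).mul (B.hasDerivAt X.1)
    have hd2 : HasDerivAt (fun x => evA m A (bp m b t X x)) (dvA m b t A X) X.1 :=
      h8 m r b t hm1 A X hX (Set.notMem_empty _)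
    have hev : (fun x => f (bp m b t X x) * B.eval x) =ᶠ[𝓝 X.1]
        fun x => evA m A (bp m b t X x) := by
      have hop : IsOpen ((S : Set ℂ)ᶜ) := (Finset.finite_toSet S).isClosed.isOpen_compl
      filter_upwards [hop.mem_nhds (fun h => hXS' (Finset.mem_coe.mp h))] with x hx
      have hxS : x ∉ S := fun h => hx (Finset.mem_coe.mpr h)
      have hxr : x ∉ Set.range t := by
        rintro ⟨j, rfl⟩
        exact hxS (hStS (Finset.mem_image_of_mem _ (Finset.mem_univ j)))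
      rw [← hAN (bp m b t X x) (bp_pts hm0 hX hxr) hxS, hBe]
      rfl
    have hu := (hd2.congr_of_eventuallyEq hev).unique hd1
    rw [bp_self hX] at hu
    rw [hu, hv]
    ring

end TNF.AB
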