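import Pool.Agent.Lib.TNF.AB.SpecB

/-!
# PROJECT TNF, package AB, module Ab2: Abel, the converse (helper84)
-/

set_option autoImplicit false

open SEJ TATE Topology Metric MeasureTheory

noncomputable section

namespace TNF.AB

namespace Ab2_aux

theorem Qf_sub {m r : ℕ} (b : Fin (r + 1) → ℕ) (t : Fin (r + 1) → ℂ) (β c d : Ix2 m r → ℂ) :
    Qf m b t β (c - d) = Qf m b t β c - Qf m b t β d := by
  unfold Qf
  rw [← Finset.sum_sub_distrib]
  refine Finset.sum_congr rfl fun p _ => ?_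
  rw [← Finset.sum_sub_distrib]
  refine Finset.sum_congr rfl fun q _ => ?_
  split_ifs
  · simp only [Pi.sub_apply]
    ring
  · ring

theorem pr_sub {m r : ℕ} {b : Fin (r + 1) → ℕ} (c d : Ix2 m r → ℂ) :
    (pr (c - d) : Ix m b → ℂ) = pr c - pr d := rfl

end Ab2_aux

open Ab2_aux in
theorem tAb2 (h1 : S_Alg2) (h2 : S_Gp) (h3 : S_Qw) (h4 : S_Per) (h5 : S_Hdi) : S_Ab2 := by
  intro m r b t hc ht k Q' Q c hP
  have hm : 1 ≤ m := by
    have := hc
    unfold Cvb at this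
    omega
  have hpt : ∀ a, Q' a ∈ Pts m b t ∧ Q a ∈ Pts m b t := fun a =>
    (h1 m r b t hm).1 (Q' a) (Q a) (c a)
  obtain ⟨w, A', hA, hAd, hper⟩ := h4 m r b t hc ht k Q' Q hpt hP
  obtain ⟨cw, hcw0, hcw⟩ := (h3 m r b t hc).2.1 w
  refine ⟨(∑ a, (c a).v) - cw, ?_, ?_⟩
  · intro β hβ
    obtain ⟨P, p, hp, hdis⟩ := (h2 m r b t hc ht A' hA).2.1 β hβ
    obtain ⟨n, hn⟩ := hper P p hdis
    obtain ⟨n', hn'⟩ := (h5 m r b t hc ht k Q' Q w c).2 P p
      (hdis.mono_right hAd)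
    refine ⟨n - n', ?_⟩
    rw [Qf_sub, hcw, ← hp]
    rw [hn] at hn'
    have e : (∑ q, w q * pr (b := b) p.v q) = ∑ q, w q * p.v (inc q) := rfl
    rw [e]
    push_cast
    linear_combination -hn'
  · rw [pr_sub, hcw0, sub_zero]

end TNF.AB
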