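import Pool.Agent.Lib.TNF.AB.SpecB

set_option autoImplicit false

open SEJ TATE Topology Metric MeasureTheory

noncomputable section

namespace TNF.AB

namespace Al3_aux

lemma ze_prim {m : ℕ} (hm : m ≠ 0) : IsPrimitiveRoot (ze m 1) m := by
  have h2 : ze m 1 = Complex.exp (2 * Real.pi * Complex.I / m) := by
    unfold ze
    simp
  rw [h2]
  exact Complex.isPrimitiveRoot_exp m hm

lemma sum_step {m : ℕ} (g : ℂ → ℂ) (z y : ℂ) (hz : z ^ m = 1) :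
    ∑ n ∈ Finset.range m, g (z ^ n * (z * y)) = ∑ n ∈ Finset.range m, g (z ^ n * y) := by
  have h1 := Finset.sum_range_succ (fun n => g (z ^ n * y)) m
  have h2 := Finset.sum_range_succ' (fun n => g (z ^ n * y)) m
  rw [h1] at h2
  simp only [hz, pow_zero] at h2
  have h3 := add_right_cancel h2
  rw [h3]
  refine Finset.sum_congr rfl fun n _ => ?_
  congr 1
  ring

lemma sum_shift {m : ℕ} (g : ℂ → ℂ) (z y : ℂ) (hz : z ^ m = 1) (k : ℕ) :
    ∑ n ∈ Finset.range m, g (z ^ n * (z ^ k * y)) = ∑ n ∈ Finset.range m, g (z ^ n * y) := by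
  induction k with
  | zero => simp
  | succ k ih =>
    rw [← ih, ← sum_step g z (z ^ k * y) hz]
    refine Finset.sum_congr rfl fun n _ => ?_
    congr 1
    ring

lemma poly_bd (p : Polynomial ℂ) :
    ∃ (C : ℝ) (M : ℕ), 0 ≤ C ∧ ∀ x : ℂ, ‖p.eval x‖ ≤ C * (1 + ‖x‖) ^ M := by
  refine ⟨∑ i ∈ Finset.range (p.natDegree + 1), ‖p.coeff i‖, p.natDegree,
    Finset.sum_nonneg fun i _ => norm_nonneg _, fun x => ?_⟩
  rw [Polynomial.eval_eq_sum_range, Finset.sum_mul]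
  refine (norm_sum_le _ _).trans (Finset.sum_le_sum fun i hi => ?_)
  rw [norm_mul, norm_pow]
  refine mul_le_mul_of_nonneg_left ?_ (norm_nonneg _)
  have hi' := Finset.mem_range.1 hi
  calc ‖x‖ ^ i ≤ (1 + ‖x‖) ^ i := pow_le_pow_left₀ (norm_nonneg _) (by linarith) _
    _ ≤ (1 + ‖x‖) ^ p.natDegree :=
      pow_le_pow_right₀ (by linarith [norm_nonneg x]) (by omega)

lemma fact {r : ℕ} (b : Fin (r + 1) → ℕ) (t : Fin (r + 1) → ℂ) (S : Finset ℂ) (hS : St t ⊆ S)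
    (x : ℂ) : (∏ j, (x - t j) ^ b j) * ∏ j, (∏ a ∈ S.erase (t j), (x - a)) ^ b j =
      ∏ a ∈ S, (x - a) ^ (∑ j, b j) := by
  rw [← Finset.prod_mul_distrib]
  have h : ∀ j, (x - t j) ^ b j * (∏ a ∈ S.erase (t j), (x - a)) ^ b j =
      (∏ a ∈ S, (x - a)) ^ b j := by
    intro j
    have hj : t j ∈ S := hS (Finset.mem_image_of_mem _ (Finset.mem_univ j))
    rw [← mul_pow, Finset.mul_prod_erase S (fun a => x - a) hj]
  rw [Finset.prod_congr rfl fun j _ => h j, Finset.prod_pow_eq_pow_sum, Finset.prod_pow]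

/-- the geometric sum -/
lemma geom {m : ℕ} (hm : 0 < m) (n : ℕ) (hn : n < m) :
    ∑ c ∈ Finset.range m, ((ze m 1 ^ n) ^ c)⁻¹ = if n = 0 then (m : ℂ) else 0 := by
  have hp := ze_prim (m := m) hm.ne'
  split_ifs with h
  · subst h
    simp
  · have h1 : (ze m 1 ^ n)⁻¹ ≠ 1 := by
      intro h2
      rw [inv_eq_one] at h2
      exact hp.pow_ne_one_of_pos_of_lt h hn h2
    have h2 : ∑ c ∈ Finset.range m, ((ze m 1 ^ n)⁻¹) ^ c = 0 := by
      rw [geom_sum_eq h1, inv_pow, ← pow_mul, mul_comm n m, pow_mul, hp.pow_eq_one]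
      simp
    rw [← h2]
    refine Finset.sum_congr rfl fun c _ => ?_
    rw [inv_pow]

end Al3_aux

open Al3_aux in
theorem tAl3 (h1 : S_Brs) (h2 : S_Ent) : S_Al3 := by
  intro m r b t hm S f f' hS hDv hbd
  obtain ⟨C, N, M, hC, hbd⟩ := hbd
  have hm0 : 0 < m := hm
  have hp := ze_prim (m := m) hm0.ne'
  have hzm : ze m 1 ^ m = 1 := hp.pow_eq_one
  have hz0 : ze m 1 ≠ 0 := hp.ne_zero hm0.ne'
  have hzn : ‖ze m 1‖ = 1 := hp.norm'_eq_one hm0.ne'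
  have hSt : ∀ x, x ∉ S → x ∉ Set.range t := by
    rintro x hx ⟨j, rfl⟩
    exact hx (hS (Finset.mem_image_of_mem _ (Finset.mem_univ j)))
  have hex : ∀ x : ℂ, ∃ y : ℂ, y ^ m = ∏ j, (x - t j) ^ b j := fun x =>
    IsAlgClosed.exists_pow_nat_eq _ hm0
  choose Y hY using hex
  have hYP : ∀ x, x ∉ S → (x, Y x) ∈ Pts m b t := fun x hx => ⟨hSt x hx, hY x⟩
  have hne : ∀ X ∈ Pts m b t, X.2 ≠ 0 := by
    intro X hX h0
    have h3 := hX.2
    rw [h0, zero_pow hm0.ne'] at h3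
    refine Finset.prod_ne_zero_iff.2 (fun j _ => pow_ne_zero _ ?_) h3.symm
    intro h4
    exact hX.1 ⟨j, (sub_eq_zero.1 h4).symm⟩
  have hrot : ∀ X ∈ Pts m b t, ∀ n : ℕ, (X.1, ze m 1 ^ n * X.2) ∈ Pts m b t := by
    intro X hX n
    refine ⟨hX.1, ?_⟩
    show (ze m 1 ^ n * X.2) ^ m = _
    rw [mul_pow, ← pow_mul, mul_comm n m, pow_mul, hzm, one_pow, one_mul, hX.2]
  -- the coefficient functions
  let R : ℕ → ℂ → ℂ := fun c x =>
    (m : ℂ)⁻¹ * ∑ n ∈ Finset.range m, f (x, ze m 1 ^ n * Y x) * ((ze m 1 ^ n * Y x) ^ c)⁻¹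
  have hR : ∀ c : ℕ, ∀ x, x ∉ S → ∀ y, (x, y) ∈ Pts m b t →
      R c x = (m : ℂ)⁻¹ * ∑ n ∈ Finset.range m, f (x, ze m 1 ^ n * y) * ((ze m 1 ^ n * y) ^ c)⁻¹ := by
    intro c x hx y hy
    obtain ⟨k, hk⟩ := (h1 m r b t hm (x, Y x) (hYP x hx)).2.2.2.2.2.2.2.2.2 y hy
    have h3 := sum_shift (m := m) (fun z => f (x, z) * (z ^ c)⁻¹) (ze m 1) (Y x) hzm k
    simp only at h3 hk
    rw [hk, h3]
  have hRd : ∀ c : ℕ, ∀ x, x ∉ S → DifferentiableAt ℂ (R c) x := by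
    intro c x₀ hx₀
    set P : ℂ × ℂ := (x₀, Y x₀) with hPdef
    have hP : P ∈ Pts m b t := hYP x₀ hx₀
    obtain ⟨hop, hmem, -, -, -, hbp, hder, -, -, -⟩ := h1 m r b t hm P hP
    have hev : ∀ᶠ x in 𝓝 x₀, x ∈ st t P.1 ∧ x ∉ S := by
      refine Filter.Eventually.and (hop.mem_nhds hmem) ?_
      exact S.finite_toSet.isClosed.isOpen_compl.mem_nhds hx₀
    have heq : R c =ᶠ[𝓝 x₀] fun x => (m : ℂ)⁻¹ * ∑ n ∈ Finset.range m,
        f (bp m b t (x₀, ze m 1 ^ n * Y x₀) x) * ((ze m 1 ^ n * br m b t P x) ^ c)⁻¹ := by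
      filter_upwards [hev] with x hx
      rw [hR c x hx.2 (br m b t P x) (hder x hx.1).1]
      congr 1
      refine Finset.sum_congr rfl fun n _ => ?_
      have h4 : bp m b t (x₀, ze m 1 ^ n * Y x₀) x = (x, ze m 1 ^ n * br m b t P x) := by
        unfold bp br
        simp only [hPdef]
        rw [mul_assoc]
      rw [h4]
    refine DifferentiableAt.congr_of_eventuallyEq ?_ heq
    refine DifferentiableAt.const_mul ?_ _
    have hfun : (fun x => ∑ n ∈ Finset.range m,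
        f (bp m b t (x₀, ze m 1 ^ n * Y x₀) x) * ((ze m 1 ^ n * br m b t P x) ^ c)⁻¹) =
        ∑ n ∈ Finset.range m, fun x =>
          f (bp m b t (x₀, ze m 1 ^ n * Y x₀) x) * ((ze m 1 ^ n * br m b t P x) ^ c)⁻¹ := by
      ext x
      simp
    rw [hfun]
    refine DifferentiableAt.sum fun n _ => ?_
    refine DifferentiableAt.mul ?_ ?_
    · have h5 := hDv (x₀, ze m 1 ^ n * Y x₀) (hrot P hP n) hx₀
      exact h5.differentiableAt
    · have h6 : DifferentiableAt ℂ (fun x => (ze m 1 ^ n * br m b t P x) ^ c) x₀ :=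
        ((hder x₀ hmem).2.differentiableAt.const_mul _).pow c
      refine h6.inv ?_
      have h7 : br m b t P x₀ = P.2 := congrArg Prod.snd hbp
      rw [h7]
      exact pow_ne_zero _ (mul_ne_zero (pow_ne_zero _ hz0) (hne P hP))
  -- the polynomials
  let wp : Polynomial ℂ := ∏ j, (Polynomial.X - Polynomial.C (t j)) ^ b j
  let vp : Polynomial ℂ := ∏ j, (∏ a ∈ S.erase (t j), (Polynomial.X - Polynomial.C a)) ^ b j
  have hwp : ∀ x, wp.eval x = ∏ j, (x - t j) ^ b j := by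
    intro x
    simp [wp, Polynomial.eval_prod]
  have hvp : ∀ x, vp.eval x = ∏ j, (∏ a ∈ S.erase (t j), (x - a)) ^ b j := by
    intro x
    simp [vp, Polynomial.eval_prod]
  obtain ⟨C₁, M₁, hC₁, hb₁⟩ := poly_bd wp
  obtain ⟨C₂, M₂, hC₂, hb₂⟩ := poly_bd vp
  have hRb : ∀ c < m, ∀ x, x ∉ S → ‖R c x‖ * ∏ a ∈ S, ‖x - a‖ ^ (N + ∑ j, b j) ≤
      (C * (1 + C₁) * C₂) * (1 + ‖x‖) ^ (M + M₁ + M₂) := by
    intro c hc x hx
    have hx1 : 1 ≤ 1 + ‖x‖ := by linarith [norm_nonneg x]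
    set y := Y x with hy
    have hyP : (x, y) ∈ Pts m b t := hYP x hx
    have hy0 : y ≠ 0 := hne _ hyP
    have hym : ‖y‖ ^ m = ‖wp.eval x‖ := by
      rw [← norm_pow, hwp, hY x]
    have hA : ‖y‖ ^ (m - c) ≤ 1 + ‖wp.eval x‖ := by
      rw [← hym]
      rcases le_total ‖y‖ 1 with h | h
      · have h3 : ‖y‖ ^ (m - c) ≤ 1 := pow_le_one₀ (norm_nonneg _) h
        have h4 : 0 ≤ ‖y‖ ^ m := by positivity
        linarith
      · have h3 : ‖y‖ ^ (m - c) ≤ ‖y‖ ^ m := pow_le_pow_right₀ h (by omega)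
        linarith
    have hterm : ∀ n ∈ Finset.range m,
        ‖f (x, ze m 1 ^ n * y) * ((ze m 1 ^ n * y) ^ c)⁻¹‖ * (∏ a ∈ S, ‖x - a‖ ^ N) * ‖wp.eval x‖ ≤
          C * (1 + ‖x‖) ^ M * (1 + ‖wp.eval x‖) := by
      intro n _
      have h3 := hbd (x, ze m 1 ^ n * y) (hrot (x, y) hyP n) hx
      simp only at h3
      rw [norm_mul, norm_inv, norm_pow, norm_mul, norm_pow, hzn, one_pow, one_mul]
      have h5 : (‖y‖ ^ c)⁻¹ * ‖wp.eval x‖ = ‖y‖ ^ (m - c) := by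
        rw [← hym]
        have h6 : ‖y‖ ^ m = ‖y‖ ^ c * ‖y‖ ^ (m - c) := by
          rw [← pow_add]
          congr 1
          omega
        have h7 : ‖y‖ ^ c ≠ 0 := pow_ne_zero _ (norm_ne_zero_iff.2 hy0)
        rw [h6]
        field_simp
      calc ‖f (x, ze m 1 ^ n * y)‖ * (‖y‖ ^ c)⁻¹ * (∏ a ∈ S, ‖x - a‖ ^ N) * ‖wp.eval x‖
          = (‖f (x, ze m 1 ^ n * y)‖ * ∏ a ∈ S, ‖x - a‖ ^ N) * ((‖y‖ ^ c)⁻¹ * ‖wp.eval x‖) := by ring
        _ = (‖f (x, ze m 1 ^ n * y)‖ * ∏ a ∈ S, ‖x - a‖ ^ N) * ‖y‖ ^ (m - c) := by rw [h5]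
        _ ≤ (C * (1 + ‖x‖) ^ M) * (1 + ‖wp.eval x‖) :=
          mul_le_mul h3 hA (by positivity) (by positivity)
    have hsum : ‖R c x‖ * (∏ a ∈ S, ‖x - a‖ ^ N) * ‖wp.eval x‖ ≤
        C * (1 + ‖x‖) ^ M * (1 + ‖wp.eval x‖) := by
      have h3 : ‖R c x‖ ≤ (m : ℝ)⁻¹ * ∑ n ∈ Finset.range m,
          ‖f (x, ze m 1 ^ n * y) * ((ze m 1 ^ n * y) ^ c)⁻¹‖ := by
        show ‖(m : ℂ)⁻¹ * ∑ n ∈ Finset.range m, f (x, ze m 1 ^ n * y) * ((ze m 1 ^ n * y) ^ c)⁻¹‖ ≤ _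
        rw [norm_mul, norm_inv, Complex.norm_natCast]
        exact mul_le_mul_of_nonneg_left (norm_sum_le _ _) (by positivity)
      have hmR : (0 : ℝ) < m := by exact_mod_cast hm0
      calc ‖R c x‖ * (∏ a ∈ S, ‖x - a‖ ^ N) * ‖wp.eval x‖
          ≤ ((m : ℝ)⁻¹ * ∑ n ∈ Finset.range m,
            ‖f (x, ze m 1 ^ n * y) * ((ze m 1 ^ n * y) ^ c)⁻¹‖) * (∏ a ∈ S, ‖x - a‖ ^ N) * ‖wp.eval x‖ := by
            gcongr
        _ = (m : ℝ)⁻¹ * ∑ n ∈ Finset.range m,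
            (‖f (x, ze m 1 ^ n * y) * ((ze m 1 ^ n * y) ^ c)⁻¹‖ * (∏ a ∈ S, ‖x - a‖ ^ N) *
              ‖wp.eval x‖) := by
            rw [mul_assoc, mul_assoc, Finset.sum_mul]
            congr 1
            refine Finset.sum_congr rfl fun n _ => ?_
            ring
        _ ≤ (m : ℝ)⁻¹ * ∑ _n ∈ Finset.range m, (C * (1 + ‖x‖) ^ M * (1 + ‖wp.eval x‖)) :=
            mul_le_mul_of_nonneg_left (Finset.sum_le_sum hterm) (by positivity)
        _ = C * (1 + ‖x‖) ^ M * (1 + ‖wp.eval x‖) := by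
            rw [Finset.sum_const, Finset.card_range, nsmul_eq_mul]
            field_simp
    have hprod : ∏ a ∈ S, ‖x - a‖ ^ (N + ∑ j, b j) =
        (∏ a ∈ S, ‖x - a‖ ^ N) * (‖wp.eval x‖ * ‖vp.eval x‖) := by
      have h3 := congrArg norm (fact b t S hS x)
      rw [norm_mul, ← hwp, ← hvp, norm_prod] at h3
      rw [h3, ← Finset.prod_mul_distrib]
      refine Finset.prod_congr rfl fun a _ => ?_
      rw [norm_pow, pow_add]
    have hw1 : 1 + ‖wp.eval x‖ ≤ (1 + C₁) * (1 + ‖x‖) ^ M₁ := by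
      have h3 := hb₁ x
      have h4 : (1 : ℝ) ≤ (1 + ‖x‖) ^ M₁ := one_le_pow₀ hx1
      nlinarith
    rw [hprod]
    calc ‖R c x‖ * ((∏ a ∈ S, ‖x - a‖ ^ N) * (‖wp.eval x‖ * ‖vp.eval x‖))
        = (‖R c x‖ * (∏ a ∈ S, ‖x - a‖ ^ N) * ‖wp.eval x‖) * ‖vp.eval x‖ := by ring
      _ ≤ (C * (1 + ‖x‖) ^ M * (1 + ‖wp.eval x‖)) * (C₂ * (1 + ‖x‖) ^ M₂) :=
        mul_le_mul hsum (hb₂ x) (norm_nonneg _) (by positivity)
      _ ≤ (C * (1 + ‖x‖) ^ M * ((1 + C₁) * (1 + ‖x‖) ^ M₁)) * (C₂ * (1 + ‖x‖) ^ M₂) := by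
        gcongr
      _ = (C * (1 + C₁) * C₂) * (1 + ‖x‖) ^ (M + M₁ + M₂) := by
        rw [pow_add, pow_add]
        ring
  have hA : ∀ c : ℕ, ∃ A : Polynomial ℂ, c < m → ∀ x, x ∉ S →
      R c x * ∏ a ∈ S, (x - a) ^ (N + ∑ j, b j) = A.eval x := by
    intro c
    by_cases hc : c < m
    · obtain ⟨A, hA⟩ := h2 S (R c) _ _ _ (hRd c) (hRb c hc)
      exact ⟨A, fun _ => hA⟩
    · exact ⟨0, fun h => absurd h hc⟩
  choose A hA using hA
  refine ⟨A, N + ∑ j, b j, fun X hX hXS => ?_⟩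
  obtain ⟨x, y⟩ := X
  simp only at hXS
  have hy0 : y ≠ 0 := hne _ hX
  have hmC : (m : ℂ) ≠ 0 := Nat.cast_ne_zero.2 hm0.ne'
  have hkey : ∑ c ∈ Finset.range m, R c x * y ^ c = f (x, y) := by
    have h3 : ∀ c ∈ Finset.range m, R c x * y ^ c = (m : ℂ)⁻¹ * ∑ n ∈ Finset.range m,
        f (x, ze m 1 ^ n * y) * ((ze m 1 ^ n) ^ c)⁻¹ := by
      intro c _
      rw [hR c x hXS y hX, mul_assoc, Finset.sum_mul]
      congr 1
      refine Finset.sum_congr rfl fun n _ => ?_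
      rw [mul_pow, mul_inv]
      have h4 : (y ^ c)⁻¹ * y ^ c = 1 := inv_mul_cancel₀ (pow_ne_zero _ hy0)
      rw [mul_assoc, mul_assoc, h4, mul_one]
    rw [Finset.sum_congr rfl h3, ← Finset.mul_sum, Finset.sum_comm]
    have h5 : ∀ n ∈ Finset.range m, ∑ c ∈ Finset.range m,
        f (x, ze m 1 ^ n * y) * ((ze m 1 ^ n) ^ c)⁻¹ =
          if n = 0 then f (x, y) * m else 0 := by
      intro n hn
      rw [← Finset.mul_sum, geom hm0 n (Finset.mem_range.1 hn)]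
      split_ifs with h
      · subst h
        simp
      · simp
    rw [Finset.sum_congr rfl h5, Finset.sum_ite_eq' (Finset.range m) 0]
    rw [if_pos (Finset.mem_range.2 hm0)]
    field_simp
  show f (x, y) * ∏ a ∈ S, (x - a) ^ (N + ∑ j, b j) =
    ∑ c ∈ Finset.range m, (A c).eval x * y ^ c
  rw [← hkey, Finset.sum_mul]
  refine Finset.sum_congr rfl fun c hc => ?_
  rw [← hA c (Finset.mem_range.1 hc) x hXS]
  ring

end TNF.AB
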