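import Pool.Agent.Lib.TNF.AB.SpecA

/-!
# PROJECT TNF, package AB: **Alg2**, algebra of paths (helper43)
-/

set_option autoImplicit false

open Topology Metric

noncomputable section

namespace TNF.AB

open SEJ TATE

namespace Alg2M

variable {m r : ℕ} {b : Fin (r + 1) → ℕ} {t : Fin (r + 1) → ℂ}

lemma ne_of_mem {P : ℂ × ℂ} (h : P ∈ Pts m b t) (j : Fin (r + 1)) : t j ≠ P.1 :=
  fun he => h.1 ⟨j, he⟩

lemma left_mem (x y : ℂ) : x ∈ sx x y '' Set.Icc (0 : ℝ) 1 :=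
  ⟨0, ⟨le_refl _, zero_le_one⟩, by simp [sx]⟩

lemma right_mem (x y : ℂ) : y ∈ sx x y '' Set.Icc (0 : ℝ) 1 :=
  ⟨1, ⟨zero_le_one, le_refl _⟩, by simp [sx]⟩

/-- the data of a segment -/
lemma seg (hL : S_Loc) (hS : S_Seg) (hm : 1 ≤ m) {Q R : ℂ × ℂ} (hQ : Q ∈ Pts m b t)
    (h : Sg m b t Q R) :
    (∀ z ∈ sx Q.1 R.1 '' Set.Icc (0 : ℝ) 1, ∀ j, z ≠ t j) ∧
    R ∈ Pts m b t ∧ Sg m b t R Q ∧
    ∀ z ∈ sx Q.1 R.1 '' Set.Icc (0 : ℝ) 1, br m b t R z = br m b t Q z := by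
  have hs := hS r t Q.1 R.1 (ne_of_mem hQ)
  have hC : Cx t (segment ℝ Q.1 R.1) := hs.1.1 h.1
  have hRe : R = bp m b t Q R.1 := Prod.ext rfl h.2
  have h0 : Q.1 ∈ segment ℝ Q.1 R.1 := left_mem_segment ℝ _ _
  have h1 : R.1 ∈ segment ℝ Q.1 R.1 := right_mem_segment ℝ _ _
  obtain ⟨l1, l2, l3, l4, -, -, -⟩ := hL m r b t hm _ hC Q hQ h0
  have hR : R ∈ Pts m b t := by rw [hRe]; exact l3 _ h1
  have hbr : ∀ z ∈ segment ℝ Q.1 R.1, br m b t R z = br m b t Q z := by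
    intro z hz
    have := l4 R.1 h1 z hz
    rw [← hRe] at this
    exact this
  refine ⟨?_, hR, ⟨l1 _ h1 h0, ?_⟩, ?_⟩
  · intro z hz j he
    rw [← hs.2] at hz
    exact hC.not j (he ▸ hz)
  · rw [hbr _ h0, l2]
  · intro z hz
    rw [← hs.2] at hz
    exact hbr z hz

lemma ends (hL : S_Loc) (hS : S_Seg) (hm : 1 ≤ m) {P Q : ℂ × ℂ} (p : Path m b t P Q) :
    P ∈ Pts m b t ∧ Q ∈ Pts m b t := by
  induction p with
  | nil h => exact ⟨h, h⟩
  | snoc p h ih => exact ⟨ih.1, (seg hL hS hm ih.2 h).2.1⟩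

lemma concat {P Q R : ℂ × ℂ} (p : Path m b t P Q) (p' : Path m b t Q R) :
    ∃ p'' : Path m b t P R,
      (∀ h, p''.int h = p.int h + p'.int h) ∧ p''.on ⊆ p.on ∪ p'.on := by
  induction p' with
  | nil h => exact ⟨p, fun h => by simp [Path.int], Set.subset_union_left⟩
  | snoc p' h ih =>
    obtain ⟨q, h1, h2⟩ := ih
    refine ⟨q.snoc h, fun g => ?_, ?_⟩
    · simp only [Path.int, h1, add_assoc]
    · simp only [Path.on]
      intro z hz
      rcases hz with hz | hz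
      · rcases h2 hz with hz | hz
        · exact Or.inl hz
        · exact Or.inr (Or.inl hz)
      · exact Or.inr (Or.inr hz)

lemma sx_rev (x y : ℂ) (u : ℝ) : sx y x u = sx x y (1 - u) := by
  simp only [sx]
  push_cast
  ring

lemma sgi_rev {Q R : ℂ × ℂ}
    (h : ∀ z ∈ sx Q.1 R.1 '' Set.Icc (0 : ℝ) 1, br m b t R z = br m b t Q z) (g : ℂ × ℂ → ℂ) :
    sgi m b t R Q.1 g = -sgi m b t Q R.1 g := by
  have e1 : sgi m b t R Q.1 g =
      ∫ u in (0 : ℝ)..1, -((R.1 - Q.1) * g (bp m b t Q (sx Q.1 R.1 (1 - u)))) := by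
    unfold sgi
    refine intervalIntegral.integral_congr fun u hu => ?_
    rw [Set.uIcc_of_le zero_le_one] at hu
    have hz : sx Q.1 R.1 (1 - u) ∈ sx Q.1 R.1 '' Set.Icc (0 : ℝ) 1 :=
      ⟨1 - u, ⟨by linarith [hu.2], by linarith [hu.1]⟩, rfl⟩
    have hb : bp m b t R (sx R.1 Q.1 u) = bp m b t Q (sx Q.1 R.1 (1 - u)) := by
      rw [sx_rev]
      exact Prod.ext rfl (h _ hz)
    simp only [hb]
    ring
  rw [e1, intervalIntegral.integral_neg,
    intervalIntegral.integral_comp_sub_left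
      (fun u : ℝ => (R.1 - Q.1) * g (bp m b t Q (sx Q.1 R.1 u))) 1]
  simp only [sub_self, sub_zero]
  rfl

lemma rev (hL : S_Loc) (hS : S_Seg) (hm : 1 ≤ m) {P Q : ℂ × ℂ} (p : Path m b t P Q) :
    ∃ p' : Path m b t Q P, (∀ h, p'.int h = -p.int h) ∧ p'.on ⊆ p.on := by
  induction p with
  | nil h => exact ⟨Path.nil P h, fun g => by simp [Path.int], subset_rfl⟩
  | snoc p h ih =>
    obtain ⟨q, h1, h2⟩ := ih
    obtain ⟨-, hR, hrev, hbr⟩ := seg hL hS hm (ends hL hS hm p).2 h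
    obtain ⟨w, w1, w2⟩ := concat ((Path.nil _ hR).snoc hrev) q
    refine ⟨w, fun g => ?_, ?_⟩
    · rw [w1, h1]
      simp only [Path.int]
      rw [sgi_rev hbr]
      ring
    · intro z hz
      simp only [Path.on]
      rcases w2 hz with hz | hz
      · simp only [Path.on] at hz
        rcases hz with hz | hz
        · rw [Set.mem_singleton_iff] at hz
          rw [hz]
          exact Or.inr (right_mem _ _)
        · obtain ⟨u, hu, rfl⟩ := hz
          refine Or.inr ⟨1 - u, ⟨by linarith [hu.2], by linarith [hu.1]⟩, ?_⟩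
          exact (sx_rev _ _ u).symm
      · exact Or.inl (h2 hz)

lemma ze_pow (hm : 1 ≤ m) : ze m 1 ^ m = 1 := by
  have hm' : (m : ℂ) ≠ 0 := by exact_mod_cast (by omega : m ≠ 0)
  unfold ze
  rw [← Complex.exp_nat_mul]
  have : (m : ℂ) * (2 * Real.pi * Complex.I * ((1 : ℕ) : ℂ) / m) = 2 * Real.pi * Complex.I := by
    push_cast
    field_simp
  rw [this, Complex.exp_two_pi_mul_I]

lemma br_mul (Q : ℂ × ℂ) (w z : ℂ) : br m b t (Q.1, w * Q.2) z = w * br m b t Q z := by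
  simp only [br]
  ring

lemma sheet (hm : 1 ≤ m) {P Q : ℂ × ℂ} (p : Path m b t P Q) (n : ℕ) :
    ∃ p' : Path m b t (P.1, ze m 1 ^ n * P.2) (Q.1, ze m 1 ^ n * Q.2),
      (∀ h, p'.int h = p.int fun X => h (X.1, ze m 1 ^ n * X.2)) ∧ p'.on ⊆ p.on := by
  induction p with
  | nil h =>
    have hP : (P.1, ze m 1 ^ n * P.2) ∈ Pts m b t := by
      refine ⟨h.1, ?_⟩
      have e : (ze m 1 ^ n * P.2) ^ m = P.2 ^ m := by
        rw [mul_pow, ← pow_mul, mul_comm n m, pow_mul, ze_pow hm, one_pow, one_mul]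
      exact e.trans h.2
    exact ⟨Path.nil _ hP, fun g => by simp [Path.int], by simp [Path.on]⟩
  | @snoc Q R p h ih =>
    obtain ⟨q, h1, h2⟩ := ih
    have hs : Sg m b t (Q.1, ze m 1 ^ n * Q.2) (R.1, ze m 1 ^ n * R.2) := by
      refine ⟨h.1, ?_⟩
      rw [br_mul]
      show ze m 1 ^ n * R.2 = _
      rw [h.2]
    refine ⟨q.snoc hs, fun g => ?_, ?_⟩
    · simp only [Path.int, h1]
      congr 1
      unfold sgi
      refine intervalIntegral.integral_congr fun u _ => ?_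
      simp only [bp, br_mul]
    · simp only [Path.on]
      intro z hz
      rcases hz with hz | hz
      · exact Or.inl (h2 hz)
      · exact Or.inr hz

lemma sx_cont (x y : ℂ) : Continuous (sx x y) := by
  unfold sx
  fun_prop

lemma cpt (hL : S_Loc) (hS : S_Seg) (hm : 1 ≤ m) {P Q : ℂ × ℂ} (p : Path m b t P Q) :
    IsCompact p.on ∧ p.on ⊆ {x | ∀ j, x ≠ t j} ∧ P.1 ∈ p.on ∧ Q.1 ∈ p.on := by
  induction p with
  | nil h =>
    refine ⟨by simp only [Path.on]; exact isCompact_singleton, ?_, by simp [Path.on],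
      by simp [Path.on]⟩
    intro x hx j
    have hx' : x = P.1 := by simpa only [Path.on, Set.mem_singleton_iff] using hx
    rw [hx']
    exact (ne_of_mem h j).symm
  | snoc p h ih =>
    obtain ⟨h1, h2, h3, h4⟩ := ih
    have hs := seg hL hS hm (ends hL hS hm p).2 h
    simp only [Path.on]
    refine ⟨h1.union (isCompact_Icc.image (sx_cont _ _)), ?_, Or.inl h3,
      Or.inr (right_mem _ _)⟩
    intro x hx
    rcases hx with hx | hx
    · exact h2 hx
    · exact hs.1 x hx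

end Alg2M

open Alg2M in
/-- **Alg2**: algebra of paths. -/
theorem tAlg2 : S_Loc → S_Seg → S_Alg2 := fun hL hS _ _ _ _ hm =>
  ⟨fun _ _ p => ends hL hS hm p, fun _ _ _ p p' => concat p p', fun _ _ p => rev hL hS hm p,
    fun _ _ p n => sheet hm p n, fun _ _ p => cpt hL hS hm p⟩

end TNF.AB
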