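import Pool.Agent.Lib.TNF.AB.SpecB
import Pool.Agent.Lib.TNF.Iface

/-!
# PROJECT TNF, package AB: the assembly (helper45)
-/

set_option autoImplicit false

open Topology Metric

noncomputable section

namespace TNF.AB

open SEJ TATE

theorem Asm_aux.prs {m r : ℕ} {b : Fin (r + 1) → ℕ} {k : ℕ} (v : Fin k → (Ix2 m r → ℂ)) :
    (pr (∑ a, v a) : Ix m b → ℂ) = ∑ a, pr (v a) := by
  funext q
  simp [pr, Finset.sum_apply]

/-- **StmtAB** from the modules. -/
theorem tAsm (h1 : S_Itp) (h2 : S_Lpg) (h3 : S_Flp) (h4 : S_Ab1) (h5 : S_Ab2) (h6 : S_Tau) :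
    TNF.StmtAB := by
  intro m r b hb
  have hm : 1 ≤ m := by have := hb.1; omega
  refine ⟨{
    L := fun t => LP m b t
    zero := fun t ht => (h2 m r b t hb ht).1
    sub := fun t ht => (h2 m r b t hb ht).2.1
    le := fun t ht => (h2 m r b t hb ht).2.2.1
    fin := fun t ht => (h2 m r b t hb ht).2.2.2.1
    stb := fun t ht => (h2 m r b t hb ht).2.2.2.2
    flat := fun Φ t ht t' ht' => h3 m r b Φ hb t ht t' ht'
    aut := ?_ }⟩
  intro σ _ t ht k Q' Q w w' hw hw' hs
  have ht' : Function.Injective fun j => σ (t j) := σ.injective.comp ht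
  have e1 : ∀ a, ∃ p : Path m b t (Q' a) (Q a), pr p.v = w a := fun a =>
    (h1 m r b t hm _ _ _).1 (hw a)
  choose c hc using e1
  have e2 : ∀ a, ∃ p : Path m b (fun j => σ (t j)) (σ (Q' a).1, σ (Q' a).2)
      (σ (Q a).1, σ (Q a).2), pr p.v = w' a := fun a =>
    (h1 m r b _ hm _ _ _).1 (hw' a)
  choose c' hc' using e2
  have f1 : (pr (∑ a, (c a).v) : Ix m b → ℂ) ∈ LP m b t := by
    rw [Asm_aux.prs]
    simpa only [hc] using hs
  have f2 := h4 m r b t hb ht k Q' Q c f1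
  have f3 := h6 m r b t σ k Q' Q f2
  have f4 := h5 m r b _ hb ht' k _ _ c' f3
  rw [Asm_aux.prs] at f4
  simpa only [hc'] using f4

end TNF.AB
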