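import Pool.Agent.Lib.TNF.AB.SpecB

/-!
# TNF/AB, module Bhm: bounds of the forms
-/

set_option autoImplicit false

open SEJ TATE Topology Metric MeasureTheory

noncomputable section

namespace TNF.AB

namespace Bhm_aux

variable {m r : ℕ} {b : Fin (r + 1) → ℕ} {t : Fin (r + 1) → ℂ}

lemma pos_of {X : ℂ × ℂ} (hX : X ∈ Pts m b t) (j : Fin (r + 1)) : 0 < ‖X.1 - t j‖ := by
  rw [norm_pos_iff]
  intro h
  exact hX.1 ⟨j, (sub_eq_zero.1 h).symm⟩

lemma gu_pow (hm : 0 < m) (u : ℕ) {X : ℂ × ℂ} (hX : X ∈ Pts m b t) :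
    ‖gu m b t u X‖ ^ m = ∏ j, ‖X.1 - t j‖ ^ (u * b j % m) := by
  have h1 : ‖X.2‖ ^ m = ∏ j, ‖X.1 - t j‖ ^ b j := by
    rw [← norm_pow, hX.2, norm_prod]
    exact Finset.prod_congr rfl fun j _ => norm_pow _ _
  unfold gu
  rw [norm_div, div_pow, norm_pow, ← pow_mul, mul_comm u m, pow_mul, h1, norm_prod,
    ← Finset.prod_pow, ← Finset.prod_pow, ← Finset.prod_div_distrib]
  refine Finset.prod_congr rfl fun j _ => ?_
  have h2 := pos_of hX j
  rw [norm_pow, ← pow_mul, ← pow_mul, div_eq_iff (by positivity), ← pow_add, mul_comm (b j) u]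
  congr 1
  exact (Nat.mod_add_div' (u * b j) m).symm

/-- the constant -/
def C0 (t : Fin (r + 1) → ℂ) : ℝ := 1 + ∑ j, ‖t j‖

lemma C0_one (t : Fin (r + 1) → ℂ) : 1 ≤ C0 t := by
  unfold C0
  have : 0 ≤ ∑ j, ‖t j‖ := Finset.sum_nonneg fun j _ => norm_nonneg _
  linarith

lemma dist_le (t : Fin (r + 1) → ℂ) (x : ℂ) (j : Fin (r + 1)) :
    ‖x - t j‖ ≤ C0 t * (1 + ‖x‖) := by
  have h1 : ‖x - t j‖ ≤ ‖x‖ + ‖t j‖ := norm_sub_le _ _
  have h2 : ‖t j‖ ≤ ∑ j, ‖t j‖ :=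
    Finset.single_le_sum (f := fun j => ‖t j‖) (fun j _ => norm_nonneg _) (Finset.mem_univ j)
  have h3 : 0 ≤ ‖x‖ := norm_nonneg x
  have h4 : 0 ≤ ∑ j, ‖t j‖ := Finset.sum_nonneg fun j _ => norm_nonneg _
  unfold C0
  nlinarith

lemma base_one (t : Fin (r + 1) → ℂ) (x : ℂ) : 1 ≤ C0 t * (1 + ‖x‖) := by
  have h1 := C0_one t
  have h3 : 0 ≤ ‖x‖ := norm_nonneg x
  nlinarith

/-- `(base ^ i |g_u|) ^ m ≤ base ^ (m N)` -/
lemma gu_le (hm : 0 < m) (u i N : ℕ) (h : m * i + ∑ j, u * b j % m ≤ m * N) {X : ℂ × ℂ}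
    (hX : X ∈ Pts m b t) :
    (C0 t * (1 + ‖X.1‖)) ^ i * ‖gu m b t u X‖ ≤ (C0 t * (1 + ‖X.1‖)) ^ N := by
  have hb := base_one t X.1
  set B : ℝ := C0 t * (1 + ‖X.1‖) with hB
  have hB0 : 0 ≤ B := by linarith
  have h1 : ‖gu m b t u X‖ ^ m ≤ B ^ ∑ j, u * b j % m := by
    rw [gu_pow hm u hX, ← Finset.prod_pow_eq_pow_sum]
    refine Finset.prod_le_prod (fun j _ => by positivity) fun j _ => ?_
    exact pow_le_pow_left₀ (norm_nonneg _) (dist_le t X.1 j) _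
  have h2 : (B ^ i * ‖gu m b t u X‖) ^ m ≤ (B ^ N) ^ m := by
    rw [mul_pow, ← pow_mul, ← pow_mul, mul_comm i m, mul_comm N m]
    calc B ^ (m * i) * ‖gu m b t u X‖ ^ m ≤ B ^ (m * i) * B ^ ∑ j, u * b j % m :=
          mul_le_mul_of_nonneg_left h1 (by positivity)
      _ = B ^ (m * i + ∑ j, u * b j % m) := (pow_add _ _ _).symm
      _ ≤ B ^ (m * N) := pow_le_pow_right₀ hb h
  exact le_of_pow_le_pow_left₀ hm.ne' (by positivity) h2

lemma sum_le (hm : 0 < m) (u : ℕ) : ∑ j, u * b j % m ≤ m * (r + 1) := by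
  have h1 : ∑ j : Fin (r + 1), u * b j % m ≤ ∑ _j : Fin (r + 1), m :=
    Finset.sum_le_sum fun j _ => (Nat.mod_lt _ hm).le
  rw [Finset.sum_const, Finset.card_univ, Fintype.card_fin, smul_eq_mul, mul_comm] at h1
  exact h1

lemma qq_norm (ht : Function.Injective t) (x : ℂ) : ‖qq t x‖ = ∏ a ∈ St t, ‖x - a‖ := by
  unfold qq St
  rw [norm_prod, Finset.prod_image fun i _ j _ h => ht h]

lemma not_mem_St {X : ℂ × ℂ} (hX : X ∈ Pts m b t) : X.1 ∉ St t := by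
  unfold St
  rw [Finset.mem_image]
  rintro ⟨j, -, hj⟩
  exact hX.1 ⟨j, hj⟩

lemma card_St (ht : Function.Injective t) : (St t).card = r + 1 := by
  unfold St
  rw [Finset.card_image_of_injective _ ht, Finset.card_univ, Fintype.card_fin]

lemma om_eq {X : ℂ × ℂ} (q : Ix m b) :
    om m b t X q = X.1 ^ ex q * gu m b t (ch q) X / qq t X.1 := by
  unfold om gu qq
  rw [mul_div_assoc' (X.1 ^ ex q), div_div, ← Finset.prod_mul_distrib]
  congr 1
  refine Finset.prod_congr rfl fun j _ => ?_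
  rw [add_comm, pow_succ]

end Bhm_aux

open Bhm_aux in
/-- **Bhm.** -/
theorem tBhm (h1 : S_Dst) : S_Bhm := by
  intro m r b t hcv ht
  have hm : 0 < m := lt_of_lt_of_le (by norm_num) hcv.1
  obtain ⟨C, hC, hD⟩ := h1 (St t) r (card_St ht)
  have hC1 := C0_one t
  have hK : ∀ x, 0 ≤ Kd (St t) x := fun x => Finset.sum_nonneg fun a _ => by positivity
  refine ⟨?_, ?_, ?_⟩
  · intro q
    refine ⟨C0 t ^ (e2 q + (r + 1)) * C, e2 q + 1, by positivity, ?_⟩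
    intro X hX
    have h2 := gu_le hm (c2 q) 0 (r + 1) (by
      rw [Nat.mul_zero, Nat.zero_add]
      exact sum_le hm (c2 q)) hX
    rw [pow_zero, one_mul] at h2
    have h3 := hD X.1 (not_mem_St hX)
    rw [← qq_norm ht] at h3
    have h4 : ‖X.1‖ ^ e2 q ≤ (C0 t * (1 + ‖X.1‖)) ^ e2 q := by
      refine pow_le_pow_left₀ (norm_nonneg _) ?_ _
      have : 0 ≤ ‖X.1‖ := norm_nonneg _
      nlinarith
    unfold om2
    rw [norm_div, norm_mul, norm_pow]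
    calc ‖X.1‖ ^ e2 q * ‖gu m b t (c2 q) X‖ / ‖qq t X.1‖
        ≤ (C0 t * (1 + ‖X.1‖)) ^ e2 q * (C0 t * (1 + ‖X.1‖)) ^ (r + 1) / ‖qq t X.1‖ := by
          refine div_le_div_of_nonneg_right ?_ (norm_nonneg _)
          exact mul_le_mul h4 h2 (norm_nonneg _) (by positivity)
      _ = C0 t ^ (e2 q + (r + 1)) * (1 + ‖X.1‖) ^ (e2 q + 1) *
            ((1 + ‖X.1‖) ^ r / ‖qq t X.1‖) := by
          rw [mul_pow, mul_pow]
          ring
      _ ≤ C0 t ^ (e2 q + (r + 1)) * (1 + ‖X.1‖) ^ (e2 q + 1) * (C * Kd (St t) X.1) :=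
          mul_le_mul_of_nonneg_left h3 (by positivity)
      _ = C0 t ^ (e2 q + (r + 1)) * C * (1 + ‖X.1‖) ^ (e2 q + 1) * Kd (St t) X.1 := by ring
  · intro q
    refine ⟨C0 t ^ r * C, by positivity, ?_⟩
    intro X hX
    have h2 := gu_le hm (ch q) (ex q) r q.2.2.le hX
    have h3 := hD X.1 (not_mem_St hX)
    rw [← qq_norm ht] at h3
    have h4 : ‖X.1‖ ^ ex q ≤ (C0 t * (1 + ‖X.1‖)) ^ ex q := by
      refine pow_le_pow_left₀ (norm_nonneg _) ?_ _
      have : 0 ≤ ‖X.1‖ := norm_nonneg _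
      nlinarith
    rw [om_eq, norm_div, norm_mul, norm_pow]
    calc ‖X.1‖ ^ ex q * ‖gu m b t (ch q) X‖ / ‖qq t X.1‖
        ≤ (C0 t * (1 + ‖X.1‖)) ^ r / ‖qq t X.1‖ := by
          refine div_le_div_of_nonneg_right ?_ (norm_nonneg _)
          exact (mul_le_mul_of_nonneg_right h4 (norm_nonneg _)).trans h2
      _ = C0 t ^ r * ((1 + ‖X.1‖) ^ r / ‖qq t X.1‖) := by
          rw [mul_pow]
          ring
      _ ≤ C0 t ^ r * (C * Kd (St t) X.1) := mul_le_mul_of_nonneg_left h3 (by positivity)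
      _ = C0 t ^ r * C * Kd (St t) X.1 := by ring
  · intro P hP
    have hP' := not_mem_St hP
    obtain ⟨C', hC', hD'⟩ := h1 (insert P.1 (St t)) (r + 1) (by
      rw [Finset.card_insert_of_notMem hP', card_St ht])
    refine ⟨∑ u ∈ Us m, ‖gu m b t (m - u) P‖ * C0 t ^ (r + 1) * C', ?_, ?_⟩
    · exact Finset.sum_nonneg fun u _ => by positivity
    intro X hX hXP
    have hXS : X.1 ∉ insert P.1 (St t) := by
      rw [Finset.mem_insert, not_or]
      exact ⟨hXP, not_mem_St hX⟩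
    have h3 := hD' X.1 hXS
    rw [Finset.prod_insert hP', ← qq_norm ht] at h3
    unfold eta
    refine (norm_sum_le _ _).trans ?_
    rw [Finset.sum_mul]
    refine Finset.sum_le_sum fun u _ => ?_
    have h2 := gu_le hm u 0 (r + 1) (by
      rw [Nat.mul_zero, Nat.zero_add]
      exact sum_le hm u) hX
    rw [pow_zero, one_mul] at h2
    rw [norm_div, norm_mul, norm_mul]
    calc ‖gu m b t u X‖ * ‖gu m b t (m - u) P‖ / (‖qq t X.1‖ * ‖X.1 - P.1‖)
        ≤ (C0 t * (1 + ‖X.1‖)) ^ (r + 1) * ‖gu m b t (m - u) P‖ /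
            (‖qq t X.1‖ * ‖X.1 - P.1‖) := by
          refine div_le_div_of_nonneg_right ?_ (by positivity)
          exact mul_le_mul_of_nonneg_right h2 (norm_nonneg _)
      _ = ‖gu m b t (m - u) P‖ * C0 t ^ (r + 1) *
            ((1 + ‖X.1‖) ^ (r + 1) / (‖X.1 - P.1‖ * ‖qq t X.1‖)) := by
          rw [mul_pow]
          ring
      _ ≤ ‖gu m b t (m - u) P‖ * C0 t ^ (r + 1) * (C' * Kd (insert P.1 (St t)) X.1) :=
          mul_le_mul_of_nonneg_left h3 (by positivity)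
      _ = _ := by ring

end TNF.AB
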