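import Pool.Agent.Lib.TNF.AB.SpecB

/-!
# PROJECT TNF, package AB, module Cmp: compactness
-/

set_option autoImplicit false

open SEJ TATE Topology Metric MeasureTheory

noncomputable section

namespace TNF.AB

namespace Cmp_aux

/-- The `m`-th roots of unity are discrete. -/
theorem root_near (m : ℕ) (hm : 1 ≤ m) : ∀ᶠ z in 𝓝 (1 : ℂ), z ^ m = 1 → z = 1 := by
  have hfin : ({z : ℂ | z ^ m = 1} \ {1}).Finite := by
    refine Set.Finite.subset (Polynomial.nthRoots m (1 : ℂ)).toFinset.finite_toSet ?_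
    intro z hz
    rw [Finset.mem_coe, Multiset.mem_toFinset, Polynomial.mem_nthRoots (by omega)]
    exact hz.1
  have h1 : ({z : ℂ | z ^ m = 1} \ {1})ᶜ ∈ 𝓝 (1 : ℂ) :=
    hfin.isClosed.isOpen_compl.mem_nhds fun h => h.2 rfl
  filter_upwards [h1] with z hz hzm
  by_contra hne
  exact hz ⟨hzm, hne⟩

variable {m r : ℕ} {b : Fin (r + 1) → ℕ} {t : Fin (r + 1) → ℂ}

theorem snd_ne (hm : 1 ≤ m) {X : ℂ × ℂ} (hX : X ∈ Pts m b t) : X.2 ≠ 0 := by
  intro h0
  have h1 := hX.2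
  rw [h0, zero_pow (by omega)] at h1
  obtain ⟨j, -, hj⟩ := Finset.prod_eq_zero_iff.1 h1.symm
  exact hX.1 ⟨j, (sub_eq_zero.1 (eq_zero_of_pow_eq_zero hj)).symm⟩

/-- Near a point of the curve the curve is the graph of the branch. -/
theorem graph_near (h1 : S_Brs) (hm : 1 ≤ m) {X₀ : ℂ × ℂ} (hX₀ : X₀ ∈ Pts m b t) :
    ∀ᶠ X in 𝓝[Pts m b t] X₀, bp m b t X₀ X.1 = X := by
  obtain ⟨b1, b2, -, -, -, b6, b7, -⟩ := h1 m r b t hm X₀ hX₀
  have hc : ContinuousAt (br m b t X₀) X₀.1 := (b7 X₀.1 b2).2.continuousAt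
  have hb0 : br m b t X₀ X₀.1 = X₀.2 := congrArg Prod.snd b6
  have hne := snd_ne hm hX₀
  have hc1 : ContinuousAt (fun X : ℂ × ℂ => X.2 / br m b t X₀ X.1) X₀ := by
    refine continuousAt_snd.div (hc.comp continuousAt_fst) ?_
    rw [hb0]
    exact hne
  have hv : X₀.2 / br m b t X₀ X₀.1 = 1 := by
    rw [hb0, div_self hne]
  have hev : ∀ᶠ X in 𝓝 X₀, (X.2 / br m b t X₀ X.1) ^ m = 1 → X.2 / br m b t X₀ X.1 = 1 := by
    have h2 := hc1.tendsto
    rw [hv] at h2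
    exact h2.eventually (root_near m hm)
  have hst : ∀ᶠ X : ℂ × ℂ in 𝓝 X₀, X.1 ∈ st t X₀.1 :=
    continuousAt_fst.eventually (b1.mem_nhds b2)
  filter_upwards [mem_nhdsWithin_of_mem_nhds hev, mem_nhdsWithin_of_mem_nhds hst,
    self_mem_nhdsWithin] with X h3 h4 h5
  have h6 := (b7 X.1 h4).1
  have h7 : br m b t X₀ X.1 ^ m = ∏ j, (X.1 - t j) ^ b j := h6.2
  have h8 : br m b t X₀ X.1 ≠ 0 := snd_ne hm h6
  have h9 : X.2 / br m b t X₀ X.1 = 1 := by
    apply h3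
    rw [div_pow, h7, h5.2]
    exact div_self (by rw [← h5.2]; exact pow_ne_zero _ (snd_ne hm h5))
  rw [div_eq_one_iff_eq h8] at h9
  exact Prod.ext rfl h9.symm

end Cmp_aux

open Cmp_aux

theorem tCmp (h1 : S_Brs) : S_Cmp := by
  intro m r b t hm S f f' hS hd R ρ hρ
  set K : Set (ℂ × ℂ) := {X | X.2 ^ m = ∏ j, (X.1 - t j) ^ b j ∧ ‖X.1‖ ≤ R ∧
    ∀ a ∈ S, ρ ≤ ‖X.1 - a‖} with hK
  have hKS : ∀ X ∈ K, X.1 ∉ S := by
    intro X hX hs
    have := hX.2.2 X.1 hs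
    rw [sub_self, norm_zero] at this
    linarith
  have hKP : K ⊆ Pts m b t := by
    intro X hX
    refine ⟨?_, hX.1⟩
    rintro ⟨j, hj⟩
    refine hKS X hX (hS ?_)
    rw [← hj]
    exact Finset.mem_image_of_mem _ (Finset.mem_univ j)
  have hclosed : IsClosed K := by
    have e1 : IsClosed {X : ℂ × ℂ | X.2 ^ m = ∏ j, (X.1 - t j) ^ b j} := by
      refine isClosed_eq (continuous_snd.pow m) (continuous_finsetProd _ fun j _ => ?_)
      exact (continuous_fst.sub continuous_const).pow _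
    have e2 : IsClosed {X : ℂ × ℂ | ‖X.1‖ ≤ R} := isClosed_le continuous_fst.norm continuous_const
    have e3 : IsClosed {X : ℂ × ℂ | ∀ a ∈ S, ρ ≤ ‖X.1 - a‖} := by
      have e4 : {X : ℂ × ℂ | ∀ a ∈ S, ρ ≤ ‖X.1 - a‖} = ⋂ a ∈ S, {X : ℂ × ℂ | ρ ≤ ‖X.1 - a‖} := by
        ext X
        simp
      rw [e4]
      exact isClosed_biInter fun a _ =>
        isClosed_le continuous_const (continuous_fst.sub continuous_const).norm
    exact e1.inter (e2.inter e3)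
  have hbd : ∀ X ∈ K, ‖X‖ ≤ max R (1 + ∏ j, (R + ‖t j‖) ^ b j) := by
    intro X hX
    rw [Prod.norm_def]
    refine max_le_max hX.2.1 ?_
    by_contra hcon
    push Not at hcon
    have h2 : ‖X.2‖ ^ m ≤ ∏ j, (R + ‖t j‖) ^ b j := by
      rw [← norm_pow, hX.1, norm_prod]
      refine Finset.prod_le_prod (fun _ _ => norm_nonneg _) fun j _ => ?_
      rw [norm_pow]
      refine pow_le_pow_left₀ (norm_nonneg _) ?_ _
      exact (norm_sub_le _ _).trans (add_le_add_left hX.2.1 _)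
    have h3 : 0 ≤ ∏ j, (R + ‖t j‖) ^ b j := (pow_nonneg (norm_nonneg _) m).trans h2
    have h4 : 1 ≤ ‖X.2‖ := by linarith
    have h5 : ‖X.2‖ ≤ ‖X.2‖ ^ m := le_self_pow₀ h4 (by omega)
    linarith
  have hcomp : IsCompact K := by
    refine Metric.isCompact_of_isClosed_isBounded hclosed ?_
    rw [isBounded_iff_forall_norm_le]
    exact ⟨_, hbd⟩
  have hcont : ContinuousOn f K := by
    intro X₀ hX₀
    have hP₀ := hKP hX₀
    have hc := (hd X₀ hP₀ (fun h => hKS X₀ hX₀ (by simpa using h))).continuousAt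
    obtain ⟨-, -, -, -, -, b6, -⟩ := h1 m r b t hm X₀ hP₀
    have h2 : ContinuousWithinAt (fun X : ℂ × ℂ => f (bp m b t X₀ X.1)) K X₀ :=
      (ContinuousAt.comp (f := fun X : ℂ × ℂ => X.1) (g := fun x => f (bp m b t X₀ x)) hc
        continuousAt_fst).continuousWithinAt
    refine h2.congr_of_eventuallyEq ?_ (by rw [b6])
    filter_upwards [nhdsWithin_mono X₀ hKP (graph_near h1 hm hP₀)] with X hX
    rw [hX]
  obtain ⟨M, hM⟩ := hcomp.exists_bound_of_continuousOn hcont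
  exact ⟨M, fun X hX hR hr => hM X ⟨hX.2, hR, hr⟩⟩

end TNF.AB
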