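import Pool.Agent.Lib.TNF.AB.SpecB

/-!
# TNF/AB, module Cnt2: continuity of the pairing
-/

set_option autoImplicit false

open SEJ TATE Topology Metric MeasureTheory

noncomputable section

namespace TNF.AB

namespace Cnt2_aux

/-- The coefficients of `X - t_l` are continuous in `t`. -/
lemma cont_lin {ι : Type} (l : ι) (n : ℕ) :
    Continuous fun t : ι → ℂ => (Polynomial.X - Polynomial.C (t l)).coeff n := by
  by_cases hn : n = 0
  · subst hn
    simp only [Polynomial.coeff_sub, Polynomial.coeff_X_zero, Polynomial.coeff_C_zero, zero_sub]
    fun_prop
  · simp only [Polynomial.coeff_sub, Polynomial.coeff_C_ne_zero hn, sub_zero]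
    exact continuous_const

/-- The coefficients of `∏ (X - t_l)` are continuous in `t`. -/
lemma cont_prod {ι : Type} (s : Finset ι) : ∀ n : ℕ,
    Continuous fun t : ι → ℂ => (∏ l ∈ s, (Polynomial.X - Polynomial.C (t l))).coeff n := by
  classical
  induction s using Finset.induction_on with
  | empty =>
    intro n
    simp only [Finset.prod_empty]
    exact continuous_const
  | insert a s ha ih =>
    intro n
    simp only [Finset.prod_insert ha, Polynomial.coeff_mul]
    exact continuous_finset_sum _ fun x _ => (cont_lin a x.1).mul (ih x.2)

/-- The coefficients of the kernel identity are continuous. -/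
lemma cont_sf (m r : ℕ) (b : Fin (r + 1) → ℕ) (u i k : ℕ) :
    Continuous fun t : Fin (r + 1) → ℂ => sf m b t u i k := by
  unfold sf pp qp
  simp only [Polynomial.finset_sum_coeff, Polynomial.coeff_C_mul]
  refine Continuous.sub (continuous_finset_sum _ fun j _ => ?_) ?_
  · exact continuous_const.mul (cont_prod _ _)
  · exact continuous_const.mul (cont_prod _ _)

end Cnt2_aux

/-- **Cnt2**: continuity of the pairing. -/
theorem tCnt2 : S_Cnt2 := by
  intro m r b
  unfold Qf
  refine continuous_finset_sum _ fun p _ => continuous_finset_sum _ fun q _ => ?_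
  by_cases h : c2 p + c2 q = m
  · simp only [h, if_true]
    refine Continuous.mul (Continuous.mul ?_ ?_) ?_
    · exact (Cnt2_aux.cont_sf m r b (c2 p) (e2 p) (e2 q)).comp continuous_fst
    · exact (continuous_apply p).comp (continuous_fst.comp continuous_snd)
    · exact (continuous_apply q).comp (continuous_snd.comp continuous_snd)
  · simp only [h, if_false]
    exact continuous_const

end TNF.AB
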