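import Pool.Agent.Lib.TNF.AB.SpecB

/-!
# TNF/AB, module Dst (helper97): an elementary inequality for products of distances
-/

set_option autoImplicit false

open SEJ TATE Topology Metric MeasureTheory

noncomputable section

namespace TNF.AB

private theorem Dst_one (a c x : ℂ) (hac : a ≠ c) (h : ‖x - a‖ ≤ ‖x - c‖) :
    1 + ‖x‖ ≤ (1 + 2 * (1 + ‖c‖) / ‖a - c‖) * ‖x - c‖ := by
  have h1 : 0 < ‖a - c‖ := norm_pos_iff.2 (sub_ne_zero.2 hac)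
  have h2 : ‖a - c‖ ≤ 2 * ‖x - c‖ := by
    have e : a - c = (x - c) - (x - a) := by ring
    have h3 : ‖a - c‖ ≤ ‖x - c‖ + ‖x - a‖ := by
      rw [e]
      exact norm_sub_le _ _
    linarith
  have h4 : ‖x‖ ≤ ‖x - c‖ + ‖c‖ := by
    have e : x = (x - c) + c := by ring
    calc ‖x‖ = ‖(x - c) + c‖ := by rw [← e]
      _ ≤ ‖x - c‖ + ‖c‖ := norm_add_le _ _
  have h5 : 1 + ‖c‖ ≤ 2 * (1 + ‖c‖) / ‖a - c‖ * ‖x - c‖ := by
    rw [div_mul_eq_mul_div, le_div_iff₀ h1]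
    have h6 : 0 ≤ 1 + ‖c‖ := by positivity
    nlinarith
  have h7 : (1 + 2 * (1 + ‖c‖) / ‖a - c‖) * ‖x - c‖ =
      ‖x - c‖ + 2 * (1 + ‖c‖) / ‖a - c‖ * ‖x - c‖ := by ring
  rw [h7]
  linarith

theorem tDst : S_Dst := by
  classical
  intro S n hS
  set C0 : ℝ := 1 + ∑ c ∈ S, ∑ a ∈ S, 2 * (1 + ‖c‖) / ‖a - c‖ with hC0
  have hterm : ∀ c a : ℂ, 0 ≤ 2 * (1 + ‖c‖) / ‖a - c‖ := fun c a => by positivity
  have hC0pos : 0 ≤ C0 := by
    rw [hC0]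
    have : 0 ≤ ∑ c ∈ S, ∑ a ∈ S, 2 * (1 + ‖c‖) / ‖a - c‖ :=
      Finset.sum_nonneg fun c _ => Finset.sum_nonneg fun a _ => hterm c a
    linarith
  have hC0le : ∀ c ∈ S, ∀ a ∈ S, 1 + 2 * (1 + ‖c‖) / ‖a - c‖ ≤ C0 := by
    intro c hc a ha
    rw [hC0]
    have h1 : 2 * (1 + ‖c‖) / ‖a - c‖ ≤ ∑ a ∈ S, 2 * (1 + ‖c‖) / ‖a - c‖ :=
      Finset.single_le_sum (f := fun a => 2 * (1 + ‖c‖) / ‖a - c‖) (fun a _ => hterm c a) ha
    have h2 : ∑ a ∈ S, 2 * (1 + ‖c‖) / ‖a - c‖ ≤ ∑ c ∈ S, ∑ a ∈ S, 2 * (1 + ‖c‖) / ‖a - c‖ :=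
      Finset.single_le_sum (f := fun c => ∑ a ∈ S, 2 * (1 + ‖c‖) / ‖a - c‖)
        (fun c _ => Finset.sum_nonneg fun a _ => hterm c a) hc
    linarith
  refine ⟨C0 ^ n, pow_nonneg hC0pos n, ?_⟩
  intro x hx
  have hne : S.Nonempty := by
    rw [← Finset.card_pos, hS]
    exact Nat.succ_pos n
  obtain ⟨a, ha, hmin⟩ := Finset.exists_min_image S (fun c => ‖x - c‖) hne
  have hpos : ∀ c ∈ S, 0 < ‖x - c‖ := by
    intro c hc
    apply norm_pos_iff.2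
    intro h0
    apply hx
    rw [sub_eq_zero.1 h0]
    exact hc
  have hcard : (S.erase a).card = n := by
    rw [Finset.card_erase_of_mem ha, hS]
    rfl
  have h1 : (1 + ‖x‖) ^ n ≤ C0 ^ n * ∏ c ∈ S.erase a, ‖x - c‖ := by
    have e1 : (1 + ‖x‖) ^ n = ∏ _c ∈ S.erase a, (1 + ‖x‖) := by
      rw [Finset.prod_const, hcard]
    have e2 : C0 ^ n * ∏ c ∈ S.erase a, ‖x - c‖ = ∏ c ∈ S.erase a, (C0 * ‖x - c‖) := by
      rw [Finset.prod_mul_distrib, Finset.prod_const, hcard]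
    rw [e1, e2]
    apply Finset.prod_le_prod
    · intro c _
      positivity
    · intro c hc
      rw [Finset.mem_erase] at hc
      refine le_trans (Dst_one a c x (Ne.symm hc.1) (hmin c hc.2)) ?_
      exact mul_le_mul_of_nonneg_right (hC0le c hc.2 a ha) (norm_nonneg _)
  have hprod : ∏ c ∈ S, ‖x - c‖ = ‖x - a‖ * ∏ c ∈ S.erase a, ‖x - c‖ :=
    (Finset.mul_prod_erase S (fun c => ‖x - c‖) ha).symm
  have hP : 0 < ∏ c ∈ S.erase a, ‖x - c‖ :=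
    Finset.prod_pos fun c hc => hpos c (Finset.mem_of_mem_erase hc)
  have hK : 1 / ‖x - a‖ ≤ Kd S x := by
    unfold Kd
    exact Finset.single_le_sum (f := fun a => 1 / ‖x - a‖) (fun c _ => by positivity) ha
  calc (1 + ‖x‖) ^ n / ∏ c ∈ S, ‖x - c‖
      ≤ (C0 ^ n * ∏ c ∈ S.erase a, ‖x - c‖) / ∏ c ∈ S, ‖x - c‖ := by
        apply div_le_div_of_nonneg_right h1
        exact Finset.prod_nonneg fun c _ => norm_nonneg _
    _ = C0 ^ n * (1 / ‖x - a‖) := by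
        rw [hprod]
        have := hpos a ha
        field_simp
    _ ≤ C0 ^ n * Kd S x := mul_le_mul_of_nonneg_left hK (pow_nonneg hC0pos n)

end TNF.AB
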