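import Pool.Agent.Lib.TNF.AB.SpecB

/-!
# The derivative of an algebraic function
-/

set_option autoImplicit false

open SEJ TATE Topology Metric MeasureTheory

noncomputable section

namespace TNF.AB

theorem tDva (h1 : S_Brs) : S_Dva := by
  intro m r b t hm A X hX _
  obtain ⟨-, h0, -, -, -, hbp, hder, -⟩ := h1 m r b t hm X hX
  have hbr : br m b t X X.1 = X.2 := congrArg Prod.snd hbp
  have hd := (hder X.1 h0).2
  rw [hbr] at hd
  show HasDerivAt (fun x => ∑ c ∈ Finset.range m, (A c).eval x * (br m b t X x) ^ c)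
    (dvA m b t A X) X.1
  unfold dvA
  refine HasDerivAt.fun_sum fun c _ => ?_
  have h2 := ((A c).hasDerivAt X.1).mul (hd.pow c)
  refine h2.congr_deriv ?_
  rw [Pi.pow_apply, hbr]
  rcases c with _ | c
  · simp
  · rw [Nat.add_sub_cancel]
    push_cast
    ring

end TNF.AB
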