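import Pool.Agent.Lib.TNF.AB.SpecB

/-!
# PROJECT TNF, package AB: rational functions of one variable (helper10)
-/

set_option autoImplicit false

open SEJ TATE Topology Metric MeasureTheory

noncomputable section

namespace TNF.AB

namespace Ent_aux

/-- The extension over the finitely many points. -/
def ext (S : Finset ℂ) (G : ℂ → ℂ) (x : ℂ) : ℂ := by
  classical
  exact if x ∈ S then Filter.limUnder (𝓝[≠] x) G else G x

theorem ext_off (S : Finset ℂ) (G : ℂ → ℂ) {x : ℂ} (hx : x ∉ S) : ext S G x = G x := by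
  unfold ext
  exact if_neg hx

theorem ext_on (S : Finset ℂ) (G : ℂ → ℂ) {x : ℂ} (hx : x ∈ S) :
    ext S G x = Filter.limUnder (𝓝[≠] x) G := by
  unfold ext
  exact if_pos hx

theorem ext_diff (S : Finset ℂ) (G : ℂ → ℂ) (C : ℝ) (M : ℕ)
    (h1 : ∀ x ∉ S, DifferentiableAt ℂ G x) (h2 : ∀ x ∉ S, ‖G x‖ ≤ C * (1 + ‖x‖) ^ M) :
    Differentiable ℂ (ext S G) := by
  classical
  intro c
  by_cases hc : c ∈ S
  · set s : Set ℂ := (↑(S.erase c))ᶜ ∩ ball c 1 with hs
    have hsn : s ∈ 𝓝 c := by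
      refine Filter.inter_mem ?_ (ball_mem_nhds c one_pos)
      exact (S.erase c).finite_toSet.isClosed.isOpen_compl.mem_nhds (by simp)
    have hoff : ∀ x ∈ s, x ≠ c → x ∉ S := by
      intro x hx hxc hxS
      exact hx.1 (Finset.mem_coe.mpr (Finset.mem_erase.mpr ⟨hxc, hxS⟩))
    have hd : DifferentiableOn ℂ G (s \ {c}) := fun x hx =>
      (h1 x (hoff x hx.1 hx.2)).differentiableWithinAt
    have hb : BddAbove (norm ∘ G '' (s \ {c})) := by
      refine ⟨|C| * (1 + (‖c‖ + 1)) ^ M, ?_⟩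
      rintro _ ⟨x, hx, rfl⟩
      have h3 := h2 x (hoff x hx.1 hx.2)
      have h4 : ‖x‖ ≤ ‖c‖ + 1 := by
        have h5 : ‖x - c‖ < 1 := by
          have := hx.1.2
          rwa [mem_ball_iff_norm] at this
        calc ‖x‖ = ‖c + (x - c)‖ := by rw [add_sub_cancel]
          _ ≤ ‖c‖ + ‖x - c‖ := norm_add_le _ _
          _ ≤ ‖c‖ + 1 := by linarith
      have h6 : (1 + ‖x‖) ^ M ≤ (1 + (‖c‖ + 1)) ^ M :=
        pow_le_pow_left₀ (by positivity) (by linarith) M
      calc ‖G x‖ ≤ C * (1 + ‖x‖) ^ M := h3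
        _ ≤ |C| * (1 + ‖x‖) ^ M := mul_le_mul_of_nonneg_right (le_abs_self C) (by positivity)
        _ ≤ |C| * (1 + (‖c‖ + 1)) ^ M := mul_le_mul_of_nonneg_left h6 (abs_nonneg C)
    have h7 := Complex.differentiableOn_update_limUnder_of_bddAbove hsn hd hb
    have h8 : Set.EqOn (ext S G) (Function.update G c (Filter.limUnder (𝓝[≠] c) G)) s := by
      intro x hx
      by_cases hxc : x = c
      · subst hxc
        rw [Function.update_self, ext_on S G hc]
      · rw [Function.update_of_ne hxc, ext_off S G (hoff x hx hxc)]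
    exact (h7.congr h8).differentiableAt hsn
  · have h3 : ext S G =ᶠ[𝓝 c] G := by
      filter_upwards [S.finite_toSet.isClosed.isOpen_compl.mem_nhds hc] with x hx
      exact ext_off S G hx
    exact (h1 c hc).congr_of_eventuallyEq h3

theorem ext_bd (S : Finset ℂ) (G : ℂ → ℂ) (C : ℝ) (M : ℕ)
    (h1 : ∀ x ∉ S, DifferentiableAt ℂ G x) (h2 : ∀ x ∉ S, ‖G x‖ ≤ C * (1 + ‖x‖) ^ M) (x : ℂ) :
    ‖ext S G x‖ ≤ C * (1 + ‖x‖) ^ M := by
  have hc := (ext_diff S G C M h1 h2).continuous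
  have hcl : IsClosed {x | ‖ext S G x‖ ≤ C * (1 + ‖x‖) ^ M} :=
    isClosed_le hc.norm (continuous_const.mul ((continuous_const.add continuous_norm).pow M))
  have hd : Dense ((S : Set ℂ)ᶜ) := S.countable_toSet.dense_compl ℂ
  have hsub : (S : Set ℂ)ᶜ ⊆ {x | ‖ext S G x‖ ≤ C * (1 + ‖x‖) ^ M} := by
    intro y hy
    show ‖ext S G y‖ ≤ C * (1 + ‖y‖) ^ M
    rw [ext_off S G hy]
    exact h2 y hy
  have h3 := hcl.closure_subset_iff.mpr hsub
  rw [hd.closure_eq] at h3
  exact h3 (Set.mem_univ x)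

/-- Liouville. -/
theorem poly (F : ℂ → ℂ) (hF : Differentiable ℂ F) (C : ℝ) (M : ℕ)
    (hb : ∀ x, ‖F x‖ ≤ C * (1 + ‖x‖) ^ M) : ∃ A : Polynomial ℂ, ∀ x, F x = A.eval x := by
  have hC : 0 ≤ C := by
    have := (norm_nonneg _).trans (hb 0)
    simpa using this
  have hz : ∀ n, M < n → iteratedDeriv n F 0 = 0 := by
    intro n hn
    by_contra hne
    have hpos : 0 < ‖iteratedDeriv n F 0‖ := norm_pos_iff.mpr hne
    set K : ℝ := n.factorial * C * 2 ^ M with hK
    have hK0 : 0 ≤ K := by positivity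
    obtain ⟨R, hR⟩ : ∃ R : ℝ, 1 ≤ R ∧ K < R * ‖iteratedDeriv n F 0‖ := by
      refine ⟨K / ‖iteratedDeriv n F 0‖ + 1, ?_, ?_⟩
      · have : 0 ≤ K / ‖iteratedDeriv n F 0‖ := by positivity
        linarith
      · rw [add_mul, div_mul_cancel₀ _ hpos.ne', one_mul]
        linarith
    have hR0 : 0 < R := by linarith [hR.1]
    have h1 := Complex.norm_iteratedDeriv_le_of_forall_mem_sphere_norm_le (c := 0) (f := F)
      (C := C * (2 * R) ^ M) n hR0 hF.diffContOnCl (by
        intro z hz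
        have h2 : ‖z‖ = R := by simpa using hz
        refine (hb z).trans (mul_le_mul_of_nonneg_left ?_ hC)
        rw [h2]
        exact pow_le_pow_left₀ (by positivity) (by linarith [hR.1]) M)
    have h3 : n.factorial * (C * (2 * R) ^ M) / R ^ n ≤ K / R := by
      rw [div_le_div_iff₀ (by positivity) hR0]
      have h4 : R ^ (M + 1) ≤ R ^ n := pow_le_pow_right₀ hR.1 hn
      calc n.factorial * (C * (2 * R) ^ M) * R = K * R ^ (M + 1) := by
            rw [hK, mul_pow, pow_succ]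
            ring
        _ ≤ K * R ^ n := mul_le_mul_of_nonneg_left h4 hK0
    have h5 : ‖iteratedDeriv n F 0‖ ≤ K / R := h1.trans h3
    rw [le_div_iff₀ hR0] at h5
    linarith [hR.2, mul_comm R ‖iteratedDeriv n F 0‖]
  refine ⟨∑ n ∈ Finset.range (M + 1),
    Polynomial.C ((n.factorial : ℂ)⁻¹ * iteratedDeriv n F 0) * Polynomial.X ^ n, fun x => ?_⟩
  have h6 := Complex.taylorSeries_eq_of_entire' 0 x hF
  rw [← h6, tsum_eq_sum (s := Finset.range (M + 1))]
  · rw [Polynomial.eval_finsetSum]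
    refine Finset.sum_congr rfl fun n _ => ?_
    simp
  · intro n hn
    rw [Finset.mem_range, not_lt] at hn
    rw [hz n (by omega)]
    simp

end Ent_aux

open Ent_aux in
/-- **Ent.** -/
theorem tEnt : S_Ent := by
  intro S g C N M hg hb
  set G : ℂ → ℂ := fun x => g x * ∏ a ∈ S, (x - a) ^ N with hG
  have h1 : ∀ x ∉ S, DifferentiableAt ℂ G x := by
    intro x hx
    refine (hg x hx).mul ?_
    fun_prop
  have h2 : ∀ x ∉ S, ‖G x‖ ≤ C * (1 + ‖x‖) ^ M := by
    intro x hx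
    have h3 : ‖G x‖ = ‖g x‖ * ∏ a ∈ S, ‖x - a‖ ^ N := by
      simp only [hG, norm_mul, norm_prod, norm_pow]
    rw [h3]
    exact hb x hx
  obtain ⟨A, hA⟩ := poly (ext S G) (ext_diff S G C M h1 h2) C M (ext_bd S G C M h1 h2)
  refine ⟨A, fun x hx => ?_⟩
  rw [← hA x, ext_off S G hx]

end TNF.AB
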