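import Pool.Agent.Lib.TNF.AB.SpecB

/-!
# PROJECT TNF, package AB: finite index of the dual lattice (module Fin2)
-/

set_option autoImplicit false

open SEJ TATE Topology Metric MeasureTheory

noncomputable section

namespace TNF.AB

namespace Fin2_aux

variable {m r : ℕ} (b : Fin (r + 1) → ℕ) (t : Fin (r + 1) → ℂ)

/-- `Qf` is linear in the second variable. -/
def QR (β : Ix2 m r → ℂ) : (Ix2 m r → ℂ) →ₗ[ℂ] ℂ where
  toFun c := Qf m b t β c
  map_add' c c' := by
    simp only [Qf, ← Finset.sum_add_distrib]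
    refine Finset.sum_congr rfl fun p _ => Finset.sum_congr rfl fun q _ => ?_
    split_ifs
    · rw [Pi.add_apply]; ring
    · ring
  map_smul' a c := by
    simp only [Qf, smul_eq_mul, Finset.mul_sum, RingHom.id_apply]
    refine Finset.sum_congr rfl fun p _ => Finset.sum_congr rfl fun q _ => ?_
    split_ifs
    · rw [Pi.smul_apply, smul_eq_mul]; ring
    · ring

/-- `Qf` is linear in the first variable. -/
def QL (c : Ix2 m r → ℂ) : (Ix2 m r → ℂ) →ₗ[ℂ] ℂ where
  toFun β := Qf m b t β c
  map_add' β β' := by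
    simp only [Qf, ← Finset.sum_add_distrib]
    refine Finset.sum_congr rfl fun p _ => Finset.sum_congr rfl fun q _ => ?_
    split_ifs
    · rw [Pi.add_apply]; ring
    · ring
  map_smul' a β := by
    simp only [Qf, smul_eq_mul, Finset.mul_sum, RingHom.id_apply]
    refine Finset.sum_congr rfl fun p _ => Finset.sum_congr rfl fun q _ => ?_
    split_ifs
    · rw [Pi.smul_apply, smul_eq_mul]; ring
    · ring

/-- The group of the periods. -/
def grp (L : Set (Ix2 m r → ℂ)) (h0 : (0 : Ix2 m r → ℂ) ∈ L) (hsub : ∀ u ∈ L, ∀ v ∈ L, u - v ∈ L) :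
    AddSubgroup (Ix2 m r → ℂ) where
  carrier := L
  zero_mem' := h0
  add_mem' := fun {u v} hu hv => by
    have h := hsub u hu (0 - v) (hsub 0 h0 v hv)
    rwa [zero_sub, sub_neg_eq_add] at h
  neg_mem' := fun {v} hv => by
    have h := hsub 0 h0 v hv
    rwa [zero_sub] at h

end Fin2_aux

open Fin2_aux in
theorem tFin2 (h1 : S_Nd) (h2 : S_Qz) (h3 : S_Lzg2) (h4 : S_Spn) : S_Fin2 := by
  classical
  intro m r b t hb ht
  obtain ⟨hz0, hzs, -, -⟩ := h3 m r b t hb ht
  have hsp : ⊤ ≤ Submodule.span ℂ (LZ2 m b t) := (h4 m r b t hb ht).ge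
  have hp : (2 * Real.pi * Complex.I : ℂ) ≠ 0 := by
    simp [Real.pi_ne_zero, Complex.I_ne_zero]
  -- a basis of periods
  let B := Module.Basis.ofSpan hsp
  have hB : ∀ i, B i ∈ LZ2 m b t := fun i => Module.Basis.ofSpan_subset hsp (Set.mem_range_self i)
  let _ := FiniteDimensional.fintypeBasisIndex B
  choose M hM using fun i j => h2 m r b t hb ht (B i) (hB i) (B j) (hB j)
  -- the matrix of a vector
  have hrow : ∀ (x : _ → ℂ) i, Qf m b t (B i) (∑ j, x j • B j) =
      2 * Real.pi * Complex.I * ((Matrix.of M).map (Int.cast : ℤ → ℂ)).mulVec x i := by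
    intro x i
    have h : Qf m b t (B i) (∑ j, x j • B j) = ∑ j, x j * Qf m b t (B i) (B j) := by
      have h' := map_sum (QR b t (B i)) (fun j => x j • B j) Finset.univ
      simp only [map_smul, smul_eq_mul] at h'
      exact h'
    rw [h, Matrix.mulVec, dotProduct, Finset.mul_sum]
    refine Finset.sum_congr rfl fun j _ => ?_
    rw [hM, Matrix.map_apply, Matrix.of_apply]
    ring
  have hdet : ((Matrix.of M).map (Int.cast : ℤ → ℂ)).det ≠ 0 := by
    intro h0
    obtain ⟨x, hx0, hx⟩ := Matrix.exists_mulVec_eq_zero_iff.2 h0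
    apply hx0
    have hc : (∑ j, x j • B j) = 0 := by
      refine (h1 m r b t hb).2 _ fun β => ?_
      have hβ : QL b t (∑ j, x j • B j) = 0 := by
        refine B.ext fun i => ?_
        show Qf m b t (B i) (∑ j, x j • B j) = 0
        rw [hrow, hx, Pi.zero_apply, mul_zero]
      exact LinearMap.congr_fun hβ β
    funext j
    exact (Fintype.linearIndependent_iff.1 B.linearIndependent) x hc j
  have hcast : (((Matrix.of M).det : ℤ) : ℂ) = ((Matrix.of M).map (Int.cast : ℤ → ℂ)).det :=
    Int.cast_det (R := ℂ) (Matrix.of M)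
  refine ⟨(Matrix.of M).det.natAbs, ?_, ?_⟩
  · intro h0
    apply hdet
    rw [← hcast, Int.natAbs_eq_zero.1 h0, Int.cast_zero]
  · intro c hc
    choose n hn using fun i => hc (B i) (hB i)
    have hcx : (∑ j, B.repr c j • B j) = c := B.sum_repr c
    have hMx : ((Matrix.of M).map (Int.cast : ℤ → ℂ)).mulVec (fun j => B.repr c j) = fun i => (n i : ℂ) := by
      funext i
      have h := hrow (fun j => B.repr c j) i
      rw [hcx, hn] at h
      exact (mul_left_cancel₀ hp h).symm
    have hadj : ((Matrix.of M).adjugate).map (Int.cast : ℤ → ℂ) =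
        ((Matrix.of M).map (Int.cast : ℤ → ℂ)).adjugate :=
      (Int.castRingHom ℂ).map_adjugate (Matrix.of M)
    have hint : ∀ j, (((Matrix.of M).det : ℤ) : ℂ) * B.repr c j = (((Matrix.of M).adjugate.mulVec n j : ℤ) : ℂ) := by
      intro j
      have h := congrArg (fun v => ((Matrix.of M).map (Int.cast : ℤ → ℂ)).adjugate.mulVec v j) hMx
      simp only [Matrix.mulVec_mulVec, Matrix.adjugate_mul, Matrix.smul_mulVec, Matrix.one_mulVec] at h
      rw [hcast]
      rw [Pi.smul_apply, smul_eq_mul] at h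
      rw [h, ← hadj, Matrix.mulVec, Matrix.mulVec, dotProduct, dotProduct]
      push_cast
      rfl
    have hmem : (((Matrix.of M).det : ℤ) : ℂ) • c ∈ grp (LZ2 m b t) hz0 hzs := by
      rw [← hcx, Finset.smul_sum]
      refine sum_mem fun j _ => ?_
      rw [smul_smul, hint, Int.cast_smul_eq_zsmul]
      exact zsmul_mem (show B j ∈ grp (LZ2 m b t) hz0 hzs from hB j) _
    show _ ∈ grp (LZ2 m b t) hz0 hzs
    rcases Int.natAbs_eq (Matrix.of M).det with h | h
    · have h' : (((Matrix.of M).det.natAbs : ℕ) : ℂ) = (((Matrix.of M).det : ℤ) : ℂ) := by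
        conv_rhs => rw [h]
        exact (Int.cast_natCast _).symm
      rw [h']
      exact hmem
    · have h' : (((Matrix.of M).det.natAbs : ℕ) : ℂ) = -(((Matrix.of M).det : ℤ) : ℂ) := by
        conv_rhs => rw [h]
        rw [Int.cast_neg, neg_neg]
        exact (Int.cast_natCast _).symm
      rw [h', neg_smul]
      exact neg_mem hmem

end TNF.AB
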