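import Pool.Agent.Lib.TNF.AB.SpecB

/-! # The pairing is flat -/

set_option autoImplicit false

open SEJ TATE Topology Metric MeasureTheory

noncomputable section

namespace TNF.AB

namespace Fla_aux

/-- A continuous function on a preconnected set with values in `a ℤ` is constant. -/
theorem const_of_int {X : Type} [TopologicalSpace X] {S : Set X} (hS : IsPreconnected S)
    (F : X → ℂ) (hF : ContinuousOn F S) {a : ℂ} (ha : a ≠ 0) (hZ : ∀ s ∈ S, ∃ n : ℤ, F s = a * n)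
    {x y : X} (hx : x ∈ S) (hy : y ∈ S) : F x = F y := by
  have hd : DiscreteTopology (Set.range ((↑) : ℤ → ℝ)) :=
    (Int.isClosedEmbedding_coe_real.isEmbedding.toHomeomorph).symm.isEmbedding.discreteTopology
  have hval : ∀ s ∈ S, ∀ n : ℤ, F s = a * n → (F s / a).re = n := by
    intro s _ n hn
    rw [hn, mul_div_cancel_left₀ _ ha, Complex.intCast_re]
  have h1 : ContinuousOn (fun s => (F s / a).re) S :=
    Complex.continuous_re.comp_continuousOn (hF.div_const a)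
  have h2 : Set.MapsTo (fun s => (F s / a).re) S (Set.range ((↑) : ℤ → ℝ)) := by
    intro s hs
    obtain ⟨n, hn⟩ := hZ s hs
    exact ⟨n, (hval s hs n hn).symm⟩
  have h3 : (F x / a).re = (F y / a).re := hS.constant_of_mapsTo ⟨hd⟩ h1 h2 hx hy
  obtain ⟨n, hn⟩ := hZ x hx
  obtain ⟨k, hk⟩ := hZ y hy
  rw [hval x hx n hn, hval y hy k hk] at h3
  have h4 : n = k := by exact_mod_cast h3
  rw [hn, hk, h4]

variable {m r : ℕ} {b : Fin (r + 1) → ℕ} {Φ : FamD m b} {t : Fin (r + 1) → ℂ}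

theorem uniq (h1 : S_Lzg2) (h3 : S_Inj) (hC : Cvb m b) {s : Fin (r + 1) → ℂ}
    (hs : Function.Injective s) {u v : Ix2 m r → ℂ} (hu : u ∈ LZ2 m b s) (hv : v ∈ LZ2 m b s)
    (huv : (pr u : Ix m b → ℂ) = pr v) : u = v := by
  have h7 := h3 m r b s hC hs (u - v) ((h1 m r b s hC hs).2.1 u hu v hv) (by
    funext p
    have h8 := congrFun huv p
    change u (inc p) - v (inc p) = 0
    exact sub_eq_zero.2 h8)
  exact sub_eq_zero.1 h7

theorem exi (h1 : S_Lzg2) (hC : Cvb m b) (ht : Function.Injective t) {γ : Ix2 m r → ℂ}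
    (hγ : γ ∈ LZ2 m b t) : ∃ G : (Fin (r + 1) → ℂ) → (Ix2 m r → ℂ), ∀ s ∈ ball t (Φ.ρ t),
      G s ∈ LZ2 m b s ∧ (pr (G s) : Ix m b → ℂ) = Φ.τ t s (pr γ) := by
  have h7 : ∀ s : Fin (r + 1) → ℂ, ∃ g : Ix2 m r → ℂ, s ∈ ball t (Φ.ρ t) →
      g ∈ LZ2 m b s ∧ (pr g : Ix m b → ℂ) = Φ.τ t s (pr γ) := by
    intro s
    by_cases hs : s ∈ ball t (Φ.ρ t)
    · have ha : Φ.τ t s (pr γ) ∈ LZ m b s := by
        rw [← Φ.latZ t ht s hs]
        refine ⟨_, ?_, rfl⟩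
        rw [(h1 m r b t hC ht).2.2.2]
        exact ⟨γ, hγ, rfl⟩
      rw [(h1 m r b s hC (Φ.dom t ht s hs)).2.2.2] at ha
      obtain ⟨g, hg, hg'⟩ := ha
      exact ⟨g, fun _ => ⟨hg, hg'⟩⟩
    · exact ⟨0, fun h => absurd h hs⟩
  choose G hG using h7
  exact ⟨G, fun s hs => hG s hs⟩

theorem cont (h1 : S_Lzg2) (h3 : S_Inj) (h4 : S_Prp) (h6 : S_Tin) (hC : Cvb m b)
    (ht : Function.Injective t) {γ : Ix2 m r → ℂ}
    {G : (Fin (r + 1) → ℂ) → (Ix2 m r → ℂ)} (hG : ∀ s ∈ ball t (Φ.ρ t),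
      G s ∈ LZ2 m b s ∧ (pr (G s) : Ix m b → ℂ) = Φ.τ t s (pr γ)) :
    ContinuousOn G (ball t (Φ.ρ t)) := by
  have hm : 1 ≤ m := le_trans (by norm_num) hC.1
  intro s₁ hs₁
  obtain ⟨P, p, hp⟩ := (hG s₁ hs₁).1
  obtain ⟨δ, hδ, V, hV, hVt, hVp⟩ := h4 m r b s₁ hm P P p
  obtain ⟨δ', hδ', hsub'⟩ := Metric.isOpen_iff.1 isOpen_ball s₁ hs₁
  have hδ₁ : 0 < min δ δ' := lt_min hδ hδ'
  have hsub : ball s₁ (min δ δ') ⊆ ball t (Φ.ρ t) :=
    (ball_subset_ball (min_le_right _ _)).trans hsub'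
  have hsub₂ : ball s₁ (min δ δ') ⊆ ball s₁ δ := ball_subset_ball (min_le_left _ _)
  have hVZ : ∀ s ∈ ball s₁ (min δ δ'), V s ∈ LZ2 m b s := by
    intro s hs
    obtain ⟨p', hp'⟩ := hVp s (hsub₂ hs)
    exact ⟨_, p', hp'⟩
  have hprc : Continuous (pr : (Ix2 m r → ℂ) → (Ix m b → ℂ)) :=
    continuous_pi fun i => continuous_apply (inc i)
  have h7 : ∀ s ∈ ball s₁ (min δ δ'), (pr (V s) : Ix m b → ℂ) ∈ LZ m b s := by
    intro s hs
    rw [(h1 m r b s hC (Φ.dom t ht s (hsub hs))).2.2.2]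
    exact ⟨_, hVZ s hs, rfl⟩
  have h7' : (pr (V s₁) : Ix m b → ℂ) = Φ.τ t s₁ (pr γ) := by
    rw [hVt, hp, (hG s₁ hs₁).2]
  have h8 := h6 m r b Φ hC t ht s₁ hs₁ (min δ δ') hδ₁ hsub (fun s => pr (V s))
    (hprc.comp_continuousOn (hV.mono hsub₂)) h7 (pr γ) h7'
  have h9 : ∀ s ∈ ball s₁ (min δ δ'), G s = V s := by
    intro s hs
    refine uniq h1 h3 hC (Φ.dom t ht s (hsub hs)) (hG s (hsub hs)).1 (hVZ s hs) ?_
    rw [(hG s (hsub hs)).2]
    exact (h8 s hs).symm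
  have h10 : ContinuousAt V s₁ :=
    (hV s₁ (mem_ball_self hδ)).continuousAt (ball_mem_nhds s₁ hδ)
  refine (h10.congr ?_).continuousWithinAt
  filter_upwards [ball_mem_nhds s₁ hδ₁] with s hs
  exact (h9 s hs).symm

theorem comp_gen {X Y Z W : Type} [TopologicalSpace X] [TopologicalSpace Y] [TopologicalSpace Z]
    [TopologicalSpace W] {q : X → Y → Z → W} (hq : Continuous fun z : X × Y × Z => q z.1 z.2.1 z.2.2)
    {B : Set X} {G : X → Y} {H : X → Z} (hG : ContinuousOn G B) (hH : ContinuousOn H B) :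
    ContinuousOn (fun s => q s (G s) (H s)) B :=
  hq.comp_continuousOn (continuousOn_id.prodMk (hG.prodMk hH))

theorem comp_qf (hq : Continuous fun z : (Fin (r + 1) → ℂ) × (Ix2 m r → ℂ) × (Ix2 m r → ℂ) =>
      Qf m b z.1 z.2.1 z.2.2) {B : Set (Fin (r + 1) → ℂ)}
    {G H : (Fin (r + 1) → ℂ) → (Ix2 m r → ℂ)} (hG : ContinuousOn G B) (hH : ContinuousOn H B) :
    ContinuousOn (fun s => Qf m b s (G s) (H s)) B :=
  comp_gen (q := fun s u v => Qf m b s u v) hq hG hH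

end Fla_aux

open Fla_aux

theorem tFla (h1 : S_Lzg2) (h2 : S_Qz) (h3 : S_Inj) (h4 : S_Prp) (h5 : S_Cnt2) (h6 : S_Tin) :
    S_Fla := by
  intro m r b Φ hC t ht t' ht' β hβ c hc β' hβ' c' hc' hββ hcc
  have htB : t ∈ ball t (Φ.ρ t) := mem_ball_self (Φ.rpos t ht)
  obtain ⟨G, hG⟩ := exi (Φ := Φ) h1 hC ht hβ
  obtain ⟨H, hH⟩ := exi (Φ := Φ) h1 hC ht hc
  have hGc := cont h1 h3 h4 h6 hC ht hG
  have hHc := cont h1 h3 h4 h6 hC ht hH
  have hF : ContinuousOn (fun s => Qf m b s (G s) (H s)) (ball t (Φ.ρ t)) :=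
    comp_qf (h5 m r b) hGc hHc
  have h11 := const_of_int (convex_ball t (Φ.ρ t)).isPreconnected
    (fun s => Qf m b s (G s) (H s)) hF Complex.two_pi_I_ne_zero (fun s hs =>
    h2 m r b s hC (Φ.dom t ht s hs) (G s) (hG s hs).1 (H s) (hH s hs).1) ht' htB
  have hi' := Φ.dom t ht t' ht'
  have h12 : G t' = β' := uniq h1 h3 hC hi' (hG t' ht').1 hβ' (by rw [(hG t' ht').2, hββ])
  have h13 : H t' = c' := uniq h1 h3 hC hi' (hH t' ht').1 hc' (by rw [(hH t' ht').2, hcc])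
  have h14 : G t = β := uniq h1 h3 hC ht (hG t htB).1 hβ (by rw [(hG t htB).2, Φ.one t ht])
  have h15 : H t = c := uniq h1 h3 hC ht (hH t htB).1 hc (by rw [(hH t htB).2, Φ.one t ht])
  rw [← h12, ← h13, ← h14, ← h15]
  exact h11

end TNF.AB
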