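import Pool.Agent.Lib.TNF.AB.SpecB

/-! # The lattice is flat -/

set_option autoImplicit false

open SEJ TATE Topology Metric MeasureTheory

noncomputable section

namespace TNF.AB

namespace Flp_aux

variable {m r : ℕ} {b : Fin (r + 1) → ℕ} {t : Fin (r + 1) → ℂ}

theorem Qf_smul (β c : Ix2 m r → ℂ) (a : ℂ) : Qf m b t β (a • c) = a * Qf m b t β c := by
  unfold Qf
  rw [Finset.mul_sum]
  refine Finset.sum_congr rfl fun p _ => ?_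
  rw [Finset.mul_sum]
  refine Finset.sum_congr rfl fun q _ => ?_
  rw [Pi.smul_apply, smul_eq_mul]
  split_ifs
  · ring
  · rw [mul_zero]

theorem pr_smul (c : Ix2 m r → ℂ) (a : ℂ) : (pr (a • c) : Ix m b → ℂ) = a • pr c := rfl

theorem nat_smul (N : ℕ) (v : Ix m b → ℂ) : (N : ℂ) • v = (N : ℝ) • v := by
  funext i
  rw [Pi.smul_apply, Pi.smul_apply, smul_eq_mul, Complex.real_smul, Complex.ofReal_natCast]

end Flp_aux

open Flp_aux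

theorem tFlp (h1 : S_Lzg2) (h2 : S_Fin2) (h3 : S_Fla) : S_Flp := by
  intro m r b Φ hC t ht t' ht'
  have hi' := Φ.dom t ht t' ht'
  obtain ⟨-, -, -, hLt⟩ := h1 m r b t hC ht
  obtain ⟨-, -, -, hLt'⟩ := h1 m r b t' hC hi'
  have hlat := Φ.latZ t ht t' ht'
  have hF := h3 m r b Φ hC t ht t' ht'
  -- the lattices correspond to each other
  have hfw : ∀ γ ∈ LZ2 m b t, ∃ γ' ∈ LZ2 m b t', (pr γ' : Ix m b → ℂ) = Φ.τ t t' (pr γ) := by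
    intro γ hγ
    have ha : Φ.τ t t' (pr γ) ∈ LZ m b t' := by
      rw [← hlat]
      refine ⟨_, ?_, rfl⟩
      rw [hLt]
      exact ⟨γ, hγ, rfl⟩
    rw [hLt'] at ha
    exact ha
  have hbw : ∀ γ' ∈ LZ2 m b t', ∃ γ ∈ LZ2 m b t, (pr γ' : Ix m b → ℂ) = Φ.τ t t' (pr γ) := by
    intro γ' hγ'
    have ha : (pr γ' : Ix m b → ℂ) ∈ LZ m b t' := by
      rw [hLt']
      exact ⟨γ', hγ', rfl⟩
    rw [← hlat] at ha
    obtain ⟨w, hw, hw'⟩ := ha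
    rw [hLt] at hw
    obtain ⟨γ, hγ, rfl⟩ := hw
    exact ⟨γ, hγ, hw'.symm⟩
  apply Set.Subset.antisymm
  · rintro _ ⟨_, ⟨c, hc, rfl⟩, rfl⟩
    obtain ⟨N, hN, hNc⟩ := h2 m r b t hC ht
    have hN' : (N : ℂ) ≠ 0 := Nat.cast_ne_zero.2 hN
    obtain ⟨c₁, hc₁, hpr⟩ := hfw _ (hNc c hc)
    refine ⟨(N : ℂ)⁻¹ • c₁, fun β' hβ' => ?_, ?_⟩
    · obtain ⟨β, hβ, hββ⟩ := hbw β' hβ'
      obtain ⟨n, hn⟩ := hc β hβ
      refine ⟨n, ?_⟩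
      rw [Qf_smul, hF β hβ _ (hNc c hc) β' hβ' c₁ hc₁ hββ hpr, Qf_smul, inv_mul_cancel_left₀ hN', hn]
    · rw [pr_smul, hpr, pr_smul, nat_smul, map_smul, ← nat_smul, inv_smul_smul₀ hN']
  · rintro _ ⟨c', hc', rfl⟩
    obtain ⟨N, hN, hNc⟩ := h2 m r b t' hC hi'
    have hN' : (N : ℂ) ≠ 0 := Nat.cast_ne_zero.2 hN
    obtain ⟨c₁, hc₁, hpr⟩ := hbw _ (hNc c' hc')
    refine ⟨pr ((N : ℂ)⁻¹ • c₁), ⟨_, fun β hβ => ?_, rfl⟩, ?_⟩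
    · obtain ⟨β', hβ', hββ⟩ := hfw β hβ
      obtain ⟨n, hn⟩ := hc' β' hβ'
      refine ⟨n, ?_⟩
      rw [Qf_smul, ← hF β hβ c₁ hc₁ β' hβ' _ (hNc c' hc') hββ hpr, Qf_smul,
        inv_mul_cancel_left₀ hN', hn]
    · have h5 : (N : ℂ) • Φ.τ t t' (pr ((N : ℂ)⁻¹ • c₁)) = (N : ℂ) • (pr c' : Ix m b → ℂ) := by
        rw [nat_smul, ← map_smul, ← nat_smul, pr_smul, smul_inv_smul₀ hN', ← hpr, pr_smul]
      exact smul_right_injective _ hN' h5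

end TNF.AB
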