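import Pool.Agent.Lib.TNF.AB.SpecB

/-!
# PROJECT TNF, package AB: the fundamental theorem along polygonal paths (helper48)
-/

set_option autoImplicit false

open SEJ TATE Topology Metric MeasureTheory

noncomputable section

namespace TNF.AB

namespace Ftc_aux

variable {m r : ℕ} {b : Fin (r + 1) → ℕ} {t : Fin (r + 1) → ℂ}

/-- The derivative along the branch of `Q`. -/
private lemma deriv_bp (h1 : S_Brs) (hm : 1 ≤ m) {A : Set ℂ} {f f' : ℂ × ℂ → ℂ}
    (hf : Dv m b t A f f') {Q : ℂ × ℂ} (hQ : Q ∈ Pts m b t) {x : ℂ} (hx : x ∈ st t Q.1)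
    (hxA : x ∉ A) : HasDerivAt (fun x' => f (bp m b t Q x')) (f' (bp m b t Q x)) x := by
  obtain ⟨-, -, -, -, -, -, a7, a8, -, -⟩ := h1 m r b t hm Q hQ
  have h2 := hf (bp m b t Q x) (a7 x hx).1 hxA
  refine h2.congr_of_eventuallyEq ?_
  filter_upwards [a8 x hx] with x' hx'
  simp only [bp] at hx' ⊢
  rw [hx']

private lemma hasDerivAt_sx (a c : ℂ) (u : ℝ) : HasDerivAt (sx a c) (c - a) u := by
  have h : HasDerivAt (fun u : ℝ => a + (u : ℂ) * (c - a)) (1 * (c - a)) u :=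
    ((Complex.ofRealCLM.hasDerivAt (x := u)).mul_const (c - a)).const_add a
  rw [one_mul] at h
  exact h

private lemma continuous_sx (a c : ℂ) : Continuous (sx a c) := by
  unfold sx
  fun_prop

private lemma sx_zero (a c : ℂ) : sx a c 0 = a := by simp [sx]

private lemma sx_one (a c : ℂ) : sx a c 1 = c := by simp [sx]

/-- The integrand of a segment is continuous. -/
private lemma cont_seg (h1 : S_Brs) (hm : 1 ≤ m) {A : Set ℂ} {h : ℂ × ℂ → ℂ}
    (hh : Reg m b t A h) {Q : ℂ × ℂ} (hQ : Q ∈ Pts m b t) {x : ℂ} (hx : x ∈ st t Q.1)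
    (hA : ∀ u ∈ Set.Icc (0 : ℝ) 1, sx Q.1 x u ∉ A) :
    ContinuousOn (fun u : ℝ => (x - Q.1) * h (bp m b t Q (sx Q.1 x u))) (Set.Icc 0 1) := by
  obtain ⟨-, -, a3, -⟩ := h1 m r b t hm Q hQ
  intro u hu
  have h2 := (hh Q hQ (sx Q.1 x u) (a3 x hx u hu) (hA u hu)).continuousAt
  have h3 : ContinuousAt (fun u : ℝ => h (bp m b t Q (sx Q.1 x u))) u :=
    ContinuousAt.comp (f := sx Q.1 x) (g := fun x' => h (bp m b t Q x')) h2
      (continuous_sx Q.1 x).continuousAt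
  exact (continuousAt_const.mul h3).continuousWithinAt

/-- The derivative along a segment. -/
private lemma deriv_seg (h1 : S_Brs) (hm : 1 ≤ m) {A : Set ℂ} {f f' : ℂ × ℂ → ℂ}
    (hf : Dv m b t A f f') {Q : ℂ × ℂ} (hQ : Q ∈ Pts m b t) {x : ℂ} (hx : x ∈ st t Q.1)
    (hA : ∀ u ∈ Set.Icc (0 : ℝ) 1, sx Q.1 x u ∉ A) (u : ℝ) (hu : u ∈ Set.Icc (0 : ℝ) 1) :
    HasDerivAt (fun u : ℝ => f (bp m b t Q (sx Q.1 x u)))
      ((x - Q.1) * f' (bp m b t Q (sx Q.1 x u))) u := by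
  obtain ⟨-, -, a3, -⟩ := h1 m r b t hm Q hQ
  have h2 := deriv_bp h1 hm hf hQ (a3 x hx u hu) (hA u hu)
  have h3 := HasDerivAt.comp u h2 (hasDerivAt_sx Q.1 x u)
  rw [mul_comm] at h3
  exact h3

/-- One segment, additive. -/
private lemma seg_add (h1 : S_Brs) (hm : 1 ≤ m) {A : Set ℂ} {f h : ℂ × ℂ → ℂ}
    (hh : Reg m b t A h) (hf : Dv m b t A f h) {Q : ℂ × ℂ} (hQ : Q ∈ Pts m b t) {x : ℂ}
    (hx : x ∈ st t Q.1) (hA : ∀ u ∈ Set.Icc (0 : ℝ) 1, sx Q.1 x u ∉ A) :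
    sgi m b t Q x h = f (bp m b t Q x) - f Q := by
  obtain ⟨-, -, -, -, -, a6, -⟩ := h1 m r b t hm Q hQ
  have h01 : Set.uIcc (0 : ℝ) 1 = Set.Icc 0 1 := Set.uIcc_of_le zero_le_one
  have h2 := intervalIntegral.integral_eq_sub_of_hasDerivAt
    (f := fun u : ℝ => f (bp m b t Q (sx Q.1 x u)))
    (f' := fun u : ℝ => (x - Q.1) * h (bp m b t Q (sx Q.1 x u))) (a := 0) (b := 1)
    (fun u hu => deriv_seg h1 hm hf hQ hx hA u (h01 ▸ hu))
    ((h01 ▸ cont_seg h1 hm hh hQ hx hA : ContinuousOn _ (Set.uIcc (0 : ℝ) 1)).intervalIntegrable)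
  simp only [sx_one, sx_zero, a6] at h2
  exact h2

/-- One segment, multiplicative. -/
private lemma seg_mul (h1 : S_Brs) (hm : 1 ≤ m) {A : Set ℂ} {f h : ℂ × ℂ → ℂ}
    (hh : Reg m b t A h) (hf : Dv m b t A f fun X => f X * h X) {Q : ℂ × ℂ}
    (hQ : Q ∈ Pts m b t) {x : ℂ} (hx : x ∈ st t Q.1)
    (hA : ∀ u ∈ Set.Icc (0 : ℝ) 1, sx Q.1 x u ∉ A) :
    f (bp m b t Q x) = f Q * Complex.exp (sgi m b t Q x h) := by
  obtain ⟨-, -, -, -, -, a6, -⟩ := h1 m r b t hm Q hQ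
  set φ : ℝ → ℂ := fun u => (x - Q.1) * h (bp m b t Q (sx Q.1 x u)) with hφ
  have hc : ContinuousOn φ (Set.Icc 0 1) := cont_seg h1 hm hh hQ hx hA
  set ψ : ℝ → ℂ := Set.IccExtend (zero_le_one' ℝ) (Set.domRestrict (Set.Icc 0 1) φ) with hψ
  have hψc : Continuous ψ := (continuousOn_iff_continuous_domRestrict.1 hc).Icc_extend'
  have hψφ : ∀ u ∈ Set.Icc (0 : ℝ) 1, ψ u = φ u := fun u hu => by
    rw [hψ, Set.IccExtend_of_mem _ _ hu]
    rfl
  set G : ℝ → ℂ := fun u => f (bp m b t Q (sx Q.1 x u)) *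
    Complex.exp (-∫ s in (0 : ℝ)..u, ψ s) with hG
  have hd : ∀ u ∈ Set.Icc (0 : ℝ) 1, HasDerivAt G 0 u := by
    intro u hu
    have e1 := deriv_seg h1 hm hf hQ hx hA u hu
    have e2 := (hψc.integral_hasStrictDerivAt 0 u).hasDerivAt
    have e3 := e2.neg.cexp
    have e4 := e1.mul e3
    refine e4.congr_deriv ?_
    rw [hψφ u hu, hφ]
    ring
  have hk := constant_of_has_deriv_right_zero (f := G) (a := 0) (b := 1)
    (fun u hu => (hd u hu).continuousAt.continuousWithinAt)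
    (fun u hu => (hd u ⟨hu.1, hu.2.le⟩).hasDerivWithinAt) 1 ⟨zero_le_one, le_rfl⟩
  have hI : ∫ s in (0 : ℝ)..1, ψ s = sgi m b t Q x h := by
    refine intervalIntegral.integral_congr fun u hu => ?_
    rw [Set.uIcc_of_le (zero_le_one' ℝ)] at hu
    exact hψφ u hu
  simp only [hG, sx_one, sx_zero, a6, hI, intervalIntegral.integral_same, neg_zero,
    Complex.exp_zero, mul_one] at hk
  rw [← hk, mul_assoc, ← Complex.exp_add, neg_add_cancel, Complex.exp_zero, mul_one]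

/-- A primitive near a point. -/
private lemma seg_prim (h1 : S_Brs) (hm : 1 ≤ m) {A : Set ℂ} (hAf : A.Finite) {h : ℂ × ℂ → ℂ}
    (hh : Reg m b t A h) {X : ℂ × ℂ} (hX : X ∈ Pts m b t) (hXA : X.1 ∉ A) :
    HasDerivAt (fun x => sgi m b t X x h) (h X) X.1 := by
  obtain ⟨a1, a2, a3, -, -, a6, -⟩ := h1 m r b t hm X hX
  have hopen : IsOpen (st t X.1 ∩ Aᶜ) := a1.inter hAf.isClosed.isOpen_compl
  obtain ⟨ε, hε, hball⟩ := Metric.isOpen_iff.1 hopen X.1 ⟨a2, hXA⟩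
  have hdiff : DifferentiableOn ℂ (fun x => h (bp m b t X x)) (ball X.1 ε) := fun x hx =>
    (hh X hX x (hball hx).1 (hball hx).2).differentiableWithinAt
  obtain ⟨g, hg⟩ := hdiff.isExactOn_ball
  have hself : X.1 ∈ ball X.1 ε := mem_ball_self hε
  have hseg : ∀ x ∈ ball X.1 ε, ∀ u ∈ Set.Icc (0 : ℝ) 1, sx X.1 x u ∈ ball X.1 ε := by
    intro x hx u hu
    rw [mem_ball, dist_eq_norm] at hx ⊢
    have e1 : sx X.1 x u - X.1 = (u : ℂ) * (x - X.1) := by simp [sx]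
    rw [e1, norm_mul, Complex.norm_real, Real.norm_eq_abs, abs_of_nonneg hu.1]
    calc u * ‖x - X.1‖ ≤ 1 * ‖x - X.1‖ := mul_le_mul_of_nonneg_right hu.2 (norm_nonneg _)
      _ < ε := by rw [one_mul]; exact hx
  have hsgi : ∀ x ∈ ball X.1 ε, sgi m b t X x h = g x - g X.1 := by
    intro x hx
    have h01 : Set.uIcc (0 : ℝ) 1 = Set.Icc 0 1 := Set.uIcc_of_le zero_le_one
    have hc := cont_seg h1 hm hh hX (hball hx).1
      (fun u hu => (hball (hseg x hx u hu)).2)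
    have h2 := intervalIntegral.integral_eq_sub_of_hasDerivAt
      (f := fun u : ℝ => g (sx X.1 x u))
      (f' := fun u : ℝ => (x - X.1) * h (bp m b t X (sx X.1 x u))) (a := 0) (b := 1)
      (fun u hu => by
        have e1 := HasDerivAt.comp u (hg _ (hseg x hx u (h01 ▸ hu))) (hasDerivAt_sx X.1 x u)
        rw [mul_comm] at e1
        exact e1)
      ((h01 ▸ hc : ContinuousOn _ (Set.uIcc (0 : ℝ) 1)).intervalIntegrable)
    simp only [sx_one, sx_zero] at h2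
    exact h2
  have h3 : HasDerivAt (fun x => g x - g X.1) (h X) X.1 := by
    have := (hg X.1 hself).sub_const (g X.1)
    simpa only [a6] using this
  refine h3.congr_of_eventuallyEq ?_
  filter_upwards [ball_mem_nhds X.1 hε] with x hx
  exact hsgi x hx

/-- The last segment of a path. -/
private lemma last_seg {A : Set ℂ} {P Q R : ℂ × ℂ} {p : Path m b t P Q} {hs : Sg m b t Q R}
    (hd : Disjoint (Path.snoc p hs).on A) :
    Disjoint p.on A ∧ ∀ u ∈ Set.Icc (0 : ℝ) 1, sx Q.1 R.1 u ∉ A := by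
  simp only [Path.on, Set.disjoint_union_left] at hd
  exact ⟨hd.1, fun u hu => Set.disjoint_left.1 hd.2 ⟨u, hu, rfl⟩⟩

private lemma bp_eq {Q R : ℂ × ℂ} (hs : Sg m b t Q R) : bp m b t Q R.1 = R := by
  obtain ⟨-, h2⟩ := hs
  exact Prod.ext rfl h2.symm

end Ftc_aux

open Ftc_aux

theorem tFtc (h1 : S_Brs) (h2 : S_Alg2) : S_Ftc := by
  intro m r b t hm A hAf h hh
  have hends := (h2 m r b t hm).1
  refine ⟨fun f hf P Q p => ?_, fun f hf P Q p => ?_, fun X hX hXA => seg_prim h1 hm hAf hh hX hXA⟩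
  · induction p with
    | nil hP => intro _; simp [Path.int]
    | snoc p hs ih =>
      intro hd
      obtain ⟨d1, d2⟩ := last_seg hd
      rw [Path.int, ih d1, seg_add h1 hm hh hf (hends _ _ p).2 hs.1 d2, bp_eq hs]
      ring
  · induction p with
    | nil hP => intro _; simp [Path.int]
    | snoc p hs ih =>
      intro hd
      obtain ⟨d1, d2⟩ := last_seg hd
      have e := seg_mul h1 hm hh hf (hends _ _ p).2 hs.1 d2
      rw [bp_eq hs, ih d1] at e
      rw [e, Path.int, Complex.exp_add, mul_assoc]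

end TNF.AB
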