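import Pool.Agent.Lib.TNF.AB.SpecB

/-!
# PROJECT TNF, package AB: module Grn (Gronwall on a segment, log trick)
-/

set_option autoImplicit false

open SEJ TATE Topology Metric MeasureTheory

noncomputable section

namespace TNF.AB

namespace Grn_aux

theorem sx_hasDerivAt (a c : ℂ) (u : ℝ) : HasDerivAt (fun v : ℝ => sx a c v) (c - a) u := by
  unfold sx
  have h1 : HasDerivAt (fun v : ℝ => (v : ℂ)) 1 u := Complex.ofRealCLM.hasDerivAt
  have h2 : HasDerivAt (fun v : ℝ => (v : ℂ) * (c - a)) (1 * (c - a)) u := h1.mul_const _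
  rw [one_mul] at h2
  exact h2.const_add a

theorem sx_zero (a c : ℂ) : sx a c 0 = a := by simp [sx]

theorem sx_one (a c : ℂ) : sx a c 1 = c := by simp [sx]

theorem kd_cont (S : Finset ℂ) (a c : ℂ) (h : ∀ u ∈ Set.Icc (0 : ℝ) 1, sx a c u ∉ S) :
    ContinuousOn (fun u : ℝ => Kd S (sx a c u)) (Set.Icc 0 1) := by
  unfold Kd
  refine continuousOn_finsetSum _ fun d hd => ?_
  refine ContinuousOn.div continuousOn_const ?_ ?_
  · refine ContinuousOn.norm (ContinuousOn.sub ?_ continuousOn_const)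
    exact fun u _ => (sx_hasDerivAt a c u).continuousAt.continuousWithinAt
  · intro u hu h0
    rw [norm_eq_zero, sub_eq_zero] at h0
    exact h u hu (h0 ▸ hd)

/-- The log trick. -/
theorem key (g g' : ℝ → ℂ) (k : ℝ → ℝ) (C E : ℝ) (hC : 0 ≤ C) (hE : 0 < E)
    (hg : ∀ u ∈ Set.Icc (0 : ℝ) 1, HasDerivAt g (g' u) u)
    (hk : ContinuousOn k (Set.Icc 0 1)) (hk0 : ∀ u ∈ Set.Icc (0 : ℝ) 1, 0 ≤ k u)
    (hb : ∀ u ∈ Set.Icc (0 : ℝ) 1, ‖g' u‖ ≤ C * k u * (‖g u‖ + E)) :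
    ‖g 1‖ ≤ (‖g 0‖ + E) * Real.exp (2 * C * ∫ u in (0 : ℝ)..1, k u) := by
  set G : ℝ → ℝ := fun u => Real.log (‖g u‖ ^ 2 + E ^ 2) with hG
  have hpos : ∀ u, 0 < ‖g u‖ ^ 2 + E ^ 2 := fun u => by positivity
  have hd : ∀ u ∈ Set.Icc (0 : ℝ) 1,
      HasDerivAt G (2 * inner ℝ (g u) (g' u) / (‖g u‖ ^ 2 + E ^ 2)) u := by
    intro u hu
    have h1 : HasDerivAt (fun v => ‖g v‖ ^ 2) (2 * inner ℝ (g u) (g' u)) u := (hg u hu).norm_sq
    exact (h1.add_const (E ^ 2)).log (hpos u).ne'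
  have hle : ∀ u ∈ Set.Icc (0 : ℝ) 1,
      2 * inner ℝ (g u) (g' u) / (‖g u‖ ^ 2 + E ^ 2) ≤ 4 * C * k u := by
    intro u hu
    rw [div_le_iff₀ (hpos u)]
    have h1 : inner ℝ (g u) (g' u) ≤ ‖g u‖ * ‖g' u‖ := real_inner_le_norm _ _
    have h2 := hb u hu
    have h3 : ‖g u‖ * ‖g' u‖ ≤ ‖g u‖ * (C * k u * (‖g u‖ + E)) :=
      mul_le_mul_of_nonneg_left h2 (norm_nonneg _)
    have h4 : 0 ≤ C * k u := mul_nonneg hC (hk0 u hu)
    have h5 : ‖g u‖ * (‖g u‖ + E) ≤ 2 * (‖g u‖ ^ 2 + E ^ 2) := by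
      nlinarith [sq_nonneg (‖g u‖ - E)]
    have h6 : C * k u * (‖g u‖ * (‖g u‖ + E)) ≤ C * k u * (2 * (‖g u‖ ^ 2 + E ^ 2)) :=
      mul_le_mul_of_nonneg_left h5 h4
    nlinarith
  have hint : IntegrableOn (fun u => 4 * C * k u) (Set.Icc 0 1) :=
    (ContinuousOn.mul continuousOn_const hk).integrableOn_Icc
  have hcont : ContinuousOn G (Set.Icc 0 1) := fun u hu =>
    (hd u hu).continuousAt.continuousWithinAt
  have hmain : G 1 - G 0 ≤ ∫ u in (0 : ℝ)..1, 4 * C * k u :=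
    intervalIntegral.sub_le_integral_of_hasDeriv_right_of_le zero_le_one hcont
      (fun u hu => (hd u (Set.Ioo_subset_Icc_self hu)).hasDerivWithinAt) hint
      (fun u hu => hle u (Set.Ioo_subset_Icc_self hu))
  rw [intervalIntegral.integral_const_mul] at hmain
  set I : ℝ := ∫ u in (0 : ℝ)..1, k u
  have h7 : Real.log (‖g 1‖ ^ 2 + E ^ 2) ≤ Real.log (‖g 0‖ ^ 2 + E ^ 2) + 4 * C * I := by
    have := hmain
    simp only [hG] at this
    linarith
  have h8 : ‖g 1‖ ^ 2 + E ^ 2 ≤ (‖g 0‖ ^ 2 + E ^ 2) * Real.exp (4 * C * I) := by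
    rw [← Real.log_le_log_iff (hpos 1) (mul_pos (hpos 0) (Real.exp_pos _)),
      Real.log_mul (hpos 0).ne' (Real.exp_pos _).ne', Real.log_exp]
    exact h7
  have h9 : Real.exp (4 * C * I) = Real.exp (2 * C * I) ^ 2 := by
    rw [← Real.exp_nat_mul]
    congr 1
    push_cast
    ring
  have h10 : ‖g 1‖ ^ 2 ≤ ((‖g 0‖ + E) * Real.exp (2 * C * I)) ^ 2 := by
    rw [mul_pow]
    rw [h9] at h8
    have h11 : ‖g 0‖ ^ 2 + E ^ 2 ≤ (‖g 0‖ + E) ^ 2 := by
      nlinarith [mul_nonneg (norm_nonneg (g 0)) hE.le]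
    have h12 := mul_le_mul_of_nonneg_right h11 (sq_nonneg (Real.exp (2 * C * I)))
    nlinarith [sq_nonneg E]
  exact le_of_sq_le_sq' h10 (by positivity)
where
  le_of_sq_le_sq' {a b : ℝ} (h : a ^ 2 ≤ b ^ 2) (hb : 0 ≤ b) : a ≤ b :=
    le_trans (le_abs_self a) (abs_le_of_sq_le_sq h hb)

end Grn_aux

open Grn_aux in
theorem tGrn (h1 : S_Brs) : S_Grn := by
  intro m r b t hm S f f' C E hS hC hE hDv P hP x hx
  obtain ⟨-, -, hseg, hst, -, hbp, hder, hbr, -⟩ := h1 m r b t hm P hP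
  have hxst : x ∈ st t P.1 := by
    refine hst x fun u hu j h0 => ?_
    exact (hx u hu).1 (hS (by
      rw [h0]
      exact Finset.mem_image_of_mem _ (Finset.mem_univ j)))
  have hg : ∀ u ∈ Set.Icc (0 : ℝ) 1,
      HasDerivAt (fun v : ℝ => f (bp m b t P (sx P.1 x v)))
        ((x - P.1) * f' (bp m b t P (sx P.1 x u))) u := by
    intro u hu
    have hu1 : sx P.1 x u ∈ st t P.1 := hseg x hxst u hu
    have e1 : HasDerivAt (fun x' => f (bp m b t (bp m b t P (sx P.1 x u)) x'))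
        (f' (bp m b t P (sx P.1 x u))) (sx P.1 x u) :=
      hDv _ (hder _ hu1).1 (fun h => (hx u hu).1 (Finset.mem_coe.1 h))
    have e2 : (fun x' => f (bp m b t P x')) =ᶠ[𝓝 (sx P.1 x u)]
        fun x' => f (bp m b t (bp m b t P (sx P.1 x u)) x') := by
      filter_upwards [hbr _ hu1] with x' hx'
      show f (x', br m b t P x') = f (x', br m b t (bp m b t P (sx P.1 x u)) x')
      rw [hx']
    have e3 : HasDerivAt (fun x' => f (bp m b t P x'))
        (f' (bp m b t P (sx P.1 x u))) (sx P.1 x u) := e1.congr_of_eventuallyEq e2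
    have e4 := HasDerivAt.scomp u e3 (sx_hasDerivAt P.1 x u)
    rw [smul_eq_mul] at e4
    exact e4
  have hk := kd_cont S P.1 x fun u hu => (hx u hu).1
  have hk0 : ∀ y : ℂ, 0 ≤ Kd S y := fun y =>
    Finset.sum_nonneg fun a _ => by positivity
  have h2 := key (fun v : ℝ => f (bp m b t P (sx P.1 x v)))
    (fun u : ℝ => (x - P.1) * f' (bp m b t P (sx P.1 x u)))
    (fun u : ℝ => ‖x - P.1‖ * Kd S (sx P.1 x u)) C E hC hE hg
    (ContinuousOn.mul continuousOn_const hk)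
    (fun u _ => mul_nonneg (norm_nonneg _) (hk0 _))
    (fun u hu => by
      rw [norm_mul]
      calc ‖x - P.1‖ * ‖f' (bp m b t P (sx P.1 x u))‖
          ≤ ‖x - P.1‖ * (C * Kd S (sx P.1 x u) * (‖f (bp m b t P (sx P.1 x u))‖ + E)) :=
            mul_le_mul_of_nonneg_left (hx u hu).2 (norm_nonneg _)
        _ = C * (‖x - P.1‖ * Kd S (sx P.1 x u)) *
            (‖f (bp m b t P (sx P.1 x u))‖ + E) := by ring)
  simp only [sx_one, sx_zero, hbp] at h2
  exact h2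

end TNF.AB
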