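import Pool.Agent.Lib.TNF.AB.SpecB

/-!
# TNF, package AB: polynomial growth of the solutions
-/

set_option autoImplicit false

open SEJ TATE Topology Metric MeasureTheory

noncomputable section

namespace TNF.AB

namespace Grw_aux

theorem sx_rev (a c : ℂ) (u : ℝ) : sx a c (1 - u) = sx c a u := by
  unfold sx
  push_cast
  ring

theorem sx_zero (a c : ℂ) : sx a c 0 = a := by simp [sx]

theorem sx_one (a c : ℂ) : sx a c 1 = c := by simp [sx]

theorem sx_cont (a c : ℂ) : Continuous (sx a c) := by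
  unfold sx
  fun_prop

theorem sx_norm (a c : ℂ) (R : ℝ) (ha : ‖a‖ ≤ R) (hc : ‖c‖ ≤ R) (u : ℝ)
    (hu : u ∈ Set.Icc (0 : ℝ) 1) : ‖sx a c u‖ ≤ R := by
  have h : sx a c u = ((1 - u : ℝ) : ℂ) * a + (u : ℂ) * c := by
    unfold sx
    push_cast
    ring
  have h1 : 0 ≤ 1 - u := by linarith [hu.2]
  have h2 : (0 : ℝ) ≤ u := hu.1
  rw [h]
  calc ‖((1 - u : ℝ) : ℂ) * a + (u : ℂ) * c‖ ≤ ‖((1 - u : ℝ) : ℂ) * a‖ + ‖(u : ℂ) * c‖ :=
        norm_add_le _ _
    _ = (1 - u) * ‖a‖ + u * ‖c‖ := by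
        rw [norm_mul, norm_mul, Complex.norm_real, Complex.norm_real, Real.norm_of_nonneg h1,
          Real.norm_of_nonneg h2]
    _ ≤ (1 - u) * R + u * R :=
        add_le_add (mul_le_mul_of_nonneg_left ha h1) (mul_le_mul_of_nonneg_left hc h2)
    _ = R := by ring

theorem Kd_nonneg (S : Finset ℂ) (x : ℂ) : 0 ≤ Kd S x :=
  Finset.sum_nonneg fun a _ => by positivity

/-- A point of the curve as the end point of a segment. -/
theorem lift (h1 : S_Brs) {m r : ℕ} {b : Fin (r + 1) → ℕ} {t : Fin (r + 1) → ℂ} (hm : 1 ≤ m)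
    {X : ℂ × ℂ} (hX : X ∈ Pts m b t) (z : ℂ)
    (hz : ∀ u ∈ Set.Icc (0 : ℝ) 1, ∀ j, sx z X.1 u ≠ t j) :
    ∃ P ∈ Pts m b t, P.1 = z ∧ X.1 ∈ st t P.1 ∧ bp m b t P X.1 = X := by
  obtain ⟨-, -, hseg, hst, -, hbp, hcur, -, -, -⟩ := h1 m r b t hm X hX
  have hrev : ∀ u ∈ Set.Icc (0 : ℝ) 1, 1 - u ∈ Set.Icc (0 : ℝ) 1 := fun u hu =>
    ⟨by linarith [hu.2], by linarith [hu.1]⟩
  have hzst : z ∈ st t X.1 := hst z (fun u hu j => by
    have h := hz (1 - u) (hrev u hu) j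
    rwa [sx_rev] at h)
  have hP : bp m b t X z ∈ Pts m b t := (hcur z hzst).1
  refine ⟨bp m b t X z, hP, rfl, ?_⟩
  obtain ⟨-, -, -, -, -, -, -, -, h9, -⟩ := h1 m r b t hm _ hP
  have hmem : ∀ u ∈ Set.Icc (0 : ℝ) 1, sx z X.1 u ∈ st t X.1 := fun u hu => by
    have h := hseg z hzst (1 - u) (hrev u hu)
    rwa [sx_rev] at h
  have key := h9 (fun u => br m b t X (sx z X.1 u)) X.1
    (fun u hu => (ContinuousAt.comp (f := sx z X.1) (g := br m b t X)
      (hcur _ (hmem u hu)).2.continuousAt (sx_cont z X.1).continuousAt).continuousWithinAt)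
    (by
      show br m b t X (sx z X.1 0) = br m b t X z
      rw [sx_zero])
    (fun u hu => (hcur _ (hmem u hu)).1)
  refine ⟨key.1, ?_⟩
  have h3 : br m b t X (sx z X.1 1) = br m b t (bp m b t X z) (sx z X.1 1) :=
    key.2 1 ⟨zero_le_one, le_rfl⟩
  rw [sx_one] at h3
  have h4 : br m b t X X.1 = X.2 := congrArg Prod.snd hbp
  rw [h4] at h3
  exact Prod.ext rfl h3.symm

/-- The bound on a segment. -/
theorem key (h1 : S_Brs) (h2 : S_Grn) {m r : ℕ} {b : Fin (r + 1) → ℕ} {t : Fin (r + 1) → ℂ}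
    (hm : 1 ≤ m) {S : Finset ℂ} {f f' : ℂ × ℂ → ℂ} {C : ℝ} {N : ℕ} (hSt : St t ⊆ S) (hC : 0 ≤ C)
    (hD : Dv m b t (S : Set ℂ) f f')
    (hf : ∀ X ∈ Pts m b t, X.1 ∉ S → ‖f' X‖ ≤ C * Kd S X.1 * (‖f X‖ + (1 + ‖X.1‖) ^ N))
    {X : ℂ × ℂ} (hX : X ∈ Pts m b t) (z : ℂ) (R M I : ℝ)
    (hz : ∀ u ∈ Set.Icc (0 : ℝ) 1, sx z X.1 u ∉ S) (hzR : ‖z‖ ≤ R) (hXR : ‖X.1‖ ≤ R)
    (hM0 : 0 ≤ M) (hM : ∀ P ∈ Pts m b t, P.1 = z → ‖f P‖ ≤ M)
    (hI : ∫ u in (0 : ℝ)..1, ‖X.1 - z‖ * Kd S (sx z X.1 u) ≤ I) :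
    ‖f X‖ ≤ (M + (1 + R) ^ N) * Real.exp (2 * C * I) := by
  have hR : 0 ≤ R := (norm_nonneg _).trans hzR
  have hE : 0 < (1 + R) ^ N := by positivity
  obtain ⟨P, hP, rfl, hst, hbp⟩ := lift h1 hm hX z (fun u hu j h => hz u hu (by
    rw [h]
    exact hSt (Finset.mem_image_of_mem t (Finset.mem_univ j))))
  obtain ⟨-, -, hseg, -, -, -, hcur, -, -, -⟩ := h1 m r b t hm P hP
  have h3 := h2 m r b t hm S f f' C ((1 + R) ^ N) hSt hC hE hD P hP X.1 (fun u hu => by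
    refine ⟨hz u hu, ?_⟩
    have h4 := hf (bp m b t P (sx P.1 X.1 u)) (hcur _ (hseg _ hst u hu)).1 (hz u hu)
    refine h4.trans (mul_le_mul_of_nonneg_left ?_ (mul_nonneg hC (Kd_nonneg _ _)))
    have h5 : ‖(bp m b t P (sx P.1 X.1 u)).1‖ ≤ R := sx_norm _ _ R hzR hXR u hu
    have h6 : (1 + ‖(bp m b t P (sx P.1 X.1 u)).1‖) ^ N ≤ (1 + R) ^ N :=
      pow_le_pow_left₀ (by positivity) (by linarith) N
    linarith)
  rw [hbp] at h3
  have h7 := hM P hP rfl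
  refine h3.trans (mul_le_mul (by linarith) (Real.exp_le_exp.2
    (mul_le_mul_of_nonneg_left hI (by positivity))) (Real.exp_pos _).le (by positivity))

/-- The radius. -/
theorem ex_rho (S : Finset ℂ) : ∃ ρ : ℝ, 0 < ρ ∧ ρ ≤ 1 ∧
    ∀ a ∈ S, ∀ c ∈ S, c ≠ a → 2 * ρ ≤ ‖c - a‖ := by
  classical
  let T : Finset ℝ := insert 1
    (((S ×ˢ S).filter fun p => p.2 ≠ p.1).image fun p => ‖p.2 - p.1‖ / 2)
  have hT : T.Nonempty := ⟨1, Finset.mem_insert_self _ _⟩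
  refine ⟨T.min' hT, ?_, T.min'_le 1 (Finset.mem_insert_self _ _), fun a ha c hc hca => ?_⟩
  · rcases Finset.mem_insert.1 (T.min'_mem hT) with h | h
    · rw [h]
      exact one_pos
    · obtain ⟨p, hp, hpe⟩ := Finset.mem_image.1 h
      rw [← hpe]
      have h1 := (Finset.mem_filter.1 hp).2
      have h2 : 0 < ‖p.2 - p.1‖ := norm_pos_iff.2 (sub_ne_zero.2 h1)
      linarith
  · have h1 : T.min' hT ≤ ‖c - a‖ / 2 := T.min'_le _ (Finset.mem_insert_of_mem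
      (Finset.mem_image.2 ⟨(a, c), Finset.mem_filter.2 ⟨Finset.mem_product.2 ⟨ha, hc⟩, hca⟩, rfl⟩))
    linarith

/-- Products of distances. -/
theorem prod_le (S T : Finset ℂ) (hT : T ⊆ S) (R : ℝ) (hR : 1 ≤ R) (hc : ∀ c ∈ S, ‖c‖ ≤ R)
    (x : ℂ) (n : ℕ) : ∏ a ∈ T, ‖x - a‖ ^ n ≤ (R * (1 + ‖x‖)) ^ (n * S.card) := by
  have hB : 1 ≤ R * (1 + ‖x‖) := by nlinarith [norm_nonneg x]
  calc ∏ a ∈ T, ‖x - a‖ ^ n ≤ ∏ _a ∈ T, (R * (1 + ‖x‖)) ^ n := by
        apply Finset.prod_le_prod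
        · intro a _
          positivity
        · intro a ha
          apply pow_le_pow_left₀ (norm_nonneg _)
          have h1 := norm_sub_le x a
          have h2 := hc a (hT ha)
          nlinarith [norm_nonneg x]
    _ = (R * (1 + ‖x‖)) ^ (n * T.card) := by rw [Finset.prod_const, ← pow_mul]
    _ ≤ (R * (1 + ‖x‖)) ^ (n * S.card) :=
        pow_le_pow_right₀ hB (Nat.mul_le_mul_left n (Finset.card_le_card hT))

/-- Exponentials of logarithms. -/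
theorem exp_log_le (C y c : ℝ) (n : ℕ) (hn : 2 * C ≤ n) (hy : 1 ≤ y) (hc : 0 ≤ c) :
    Real.exp (2 * C * (Real.log y + c)) ≤ y ^ n * Real.exp (n * c) := by
  have hy0 : 0 < y := by linarith
  have hl : 0 ≤ Real.log y := Real.log_nonneg hy
  have h1 : y ^ n * Real.exp (n * c) = Real.exp (n * (Real.log y + c)) := by
    rw [mul_add, Real.exp_add, ← Real.log_pow, Real.exp_log (pow_pos hy0 n)]
  rw [h1]
  exact Real.exp_le_exp.2 (mul_le_mul_of_nonneg_right hn (by linarith))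

end Grw_aux

open Grw_aux in
theorem tGrw (h1 : S_Brs) (h2 : S_Grn) (h3 : S_Rad) (h4 : S_Cmp) : S_Grw := by
  classical
  intro m r b t hm S f f' C N hSt hC hD hf
  obtain ⟨ρ, hρ, hρ1, hρS⟩ := ex_rho S
  obtain ⟨R, hR2, hRS⟩ : ∃ R : ℝ, 2 ≤ R ∧ ∀ c ∈ S, 2 * ‖c‖ + 2 ≤ R := by
    refine ⟨2 + ∑ c ∈ S, 2 * ‖c‖, ?_, fun c hc => ?_⟩
    · have : 0 ≤ ∑ c ∈ S, 2 * ‖c‖ := Finset.sum_nonneg fun c _ => by positivity
      linarith
    · have := Finset.single_le_sum (f := fun c : ℂ => 2 * ‖c‖) (fun c _ => by positivity) hc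
      linarith
  obtain ⟨M₀, hM₀⟩ := h4 m r b t hm S f f' hSt hD R ρ hρ
  obtain ⟨M, hM0, hM⟩ : ∃ M : ℝ, 0 ≤ M ∧ ∀ X ∈ Pts m b t, ‖X.1‖ ≤ R →
      (∀ a ∈ S, ρ ≤ ‖X.1 - a‖) → ‖f X‖ ≤ M :=
    ⟨max M₀ 0, le_max_right _ _, fun X hX hXR hXa => (hM₀ X hX hXR hXa).trans (le_max_left _ _)⟩
  obtain ⟨n, hn⟩ := exists_nat_ge (2 * C)
  set K : ℕ := n * S.card with hK
  have hR0 : 0 < R := by linarith
  have hRc : ∀ c ∈ S, ‖c‖ ≤ R := fun c hc => by linarith [hRS c hc, norm_nonneg c]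
  have hE1 : 1 ≤ (1 + R) ^ N := one_le_pow₀ (by linarith)
  have hX1 : 1 ≤ Real.exp ((n : ℝ) * S.card) := Real.one_le_exp (by positivity)
  refine ⟨(M + 1 + (1 + R) ^ N) * Real.exp ((n : ℝ) * S.card) * R ^ K, n, N + 3 * K,
    by positivity, ?_⟩
  intro X hX hXS
  set x : ℂ := X.1 with hx
  have hx0 : 0 ≤ ‖x‖ := norm_nonneg x
  have hx1 : 1 ≤ 1 + ‖x‖ := by linarith
  have hpr : ∏ a ∈ S, ‖x - a‖ ^ n ≤ R ^ K * (1 + ‖x‖) ^ K := by
    rw [← mul_pow]
    exact prod_le S S subset_rfl R (by linarith) hRc x n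
  have hpr0 : 0 ≤ ∏ a ∈ S, ‖x - a‖ ^ n := Finset.prod_nonneg fun a _ => by positivity
  have hRK : 0 ≤ R ^ K := by positivity
  have hpow : (1 + ‖x‖) ^ K ≤ (1 + ‖x‖) ^ (N + 3 * K) := pow_le_pow_right₀ hx1 (by omega)
  by_cases hA : ∃ a ∈ S, ‖x - a‖ < ρ
  · -- near a point of S
    obtain ⟨a, ha, hax⟩ := hA
    have hxa : x ≠ a := fun h => hXS (by rw [h]; exact ha)
    have hδ : 0 < ‖x - a‖ := norm_pos_iff.2 (sub_ne_zero.2 hxa)
    obtain ⟨hseg, hint⟩ := (h3 S).1 a ha ρ hρ (hρS a ha) x hxa hax.le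
    set z : ℂ := a + ((ρ / ‖x - a‖ : ℝ) : ℂ) * (x - a) with hz
    have hza : ‖z - a‖ = ρ := by
      rw [hz, add_sub_cancel_left, norm_mul, Complex.norm_real, Real.norm_of_nonneg (by positivity),
        div_mul_cancel₀ _ hδ.ne']
    have hzR : ‖z‖ ≤ R := by
      have e1 : z = (z - a) + a := by ring
      have e2 : ‖z‖ ≤ ‖z - a‖ + ‖a‖ := by
        calc ‖z‖ = ‖(z - a) + a‖ := by rw [← e1]
          _ ≤ _ := norm_add_le _ _
      have e3 := hRS a ha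
      linarith [norm_nonneg a]
    have hxR : ‖x‖ ≤ R := by
      have e1 : x = (x - a) + a := by ring
      have e2 : ‖x‖ ≤ ‖x - a‖ + ‖a‖ := by
        calc ‖x‖ = ‖(x - a) + a‖ := by rw [← e1]
          _ ≤ _ := norm_add_le _ _
      have e3 := hRS a ha
      linarith [norm_nonneg a]
    have hzM : ∀ P ∈ Pts m b t, P.1 = z → ‖f P‖ ≤ M := by
      intro P hP hPz
      refine hM P hP (by rw [hPz]; exact hzR) (fun c hc => ?_)
      rw [hPz]
      by_cases hca : c = a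
      · rw [hca, hza]
      · have e1 := hρS a ha c hc hca
        have e2 : ‖c - a‖ ≤ ‖z - c‖ + ‖z - a‖ := by
          calc ‖c - a‖ = ‖(z - a) - (z - c)‖ := by congr 1; ring
            _ ≤ ‖z - a‖ + ‖z - c‖ := norm_sub_le _ _
            _ = _ := add_comm _ _
        linarith
    have h5 := key h1 h2 hm hSt hC hD hf hX z R M _ hseg hzR hxR hM0 hzM hint
    have h6 := exp_log_le C (ρ / ‖x - a‖) S.card n hn ((one_le_div hδ).2 hax.le) (by positivity)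
    have h7 : ‖f X‖ ≤ (M + (1 + R) ^ N) *
        ((ρ / ‖x - a‖) ^ n * Real.exp ((n : ℝ) * S.card)) :=
      h5.trans (mul_le_mul_of_nonneg_left h6 (by positivity))
    have h8 : ∏ c ∈ S, ‖x - c‖ ^ n = ‖x - a‖ ^ n * ∏ c ∈ S.erase a, ‖x - c‖ ^ n :=
      (Finset.mul_prod_erase S (fun c => ‖x - c‖ ^ n) ha).symm
    have h9 : ∏ c ∈ S.erase a, ‖x - c‖ ^ n ≤ R ^ K * (1 + ‖x‖) ^ K := by
      rw [← mul_pow]
      exact prod_le S (S.erase a) (Finset.erase_subset _ _) R (by linarith) hRc x n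
    have h90 : 0 ≤ ∏ c ∈ S.erase a, ‖x - c‖ ^ n := Finset.prod_nonneg fun a _ => by positivity
    have h10 : (ρ / ‖x - a‖) ^ n * ‖x - a‖ ^ n ≤ 1 := by
      rw [← mul_pow, div_mul_cancel₀ _ hδ.ne']
      exact pow_le_one₀ hρ.le hρ1
    calc ‖f X‖ * ∏ c ∈ S, ‖x - c‖ ^ n
        ≤ ((M + (1 + R) ^ N) * ((ρ / ‖x - a‖) ^ n * Real.exp ((n : ℝ) * S.card))) *
          ∏ c ∈ S, ‖x - c‖ ^ n := mul_le_mul_of_nonneg_right h7 hpr0
      _ = (M + (1 + R) ^ N) * Real.exp ((n : ℝ) * S.card) *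
          (((ρ / ‖x - a‖) ^ n * ‖x - a‖ ^ n) * ∏ c ∈ S.erase a, ‖x - c‖ ^ n) := by
          rw [h8]
          ring
      _ ≤ (M + (1 + R) ^ N) * Real.exp ((n : ℝ) * S.card) * (1 * (R ^ K * (1 + ‖x‖) ^ K)) := by
          apply mul_le_mul_of_nonneg_left _ (by positivity)
          exact mul_le_mul h10 h9 h90 zero_le_one
      _ = (M + (1 + R) ^ N) * Real.exp ((n : ℝ) * S.card) * R ^ K * (1 + ‖x‖) ^ K := by ring
      _ ≤ (M + 1 + (1 + R) ^ N) * Real.exp ((n : ℝ) * S.card) * R ^ K *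
          (1 + ‖x‖) ^ (N + 3 * K) := by
          apply mul_le_mul _ hpow (by positivity) (by positivity)
          apply mul_le_mul_of_nonneg_right _ hRK
          apply mul_le_mul_of_nonneg_right _ (Real.exp_pos _).le
          linarith
  · push Not at hA
    by_cases hB : ‖x‖ ≤ R
    · -- the compact part
      have h5 := hM X hX hB hA
      calc ‖f X‖ * ∏ c ∈ S, ‖x - c‖ ^ n ≤ M * (R ^ K * (1 + ‖x‖) ^ K) :=
            mul_le_mul h5 hpr hpr0 hM0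
        _ = M * 1 * R ^ K * (1 + ‖x‖) ^ K := by ring
        _ ≤ (M + 1 + (1 + R) ^ N) * Real.exp ((n : ℝ) * S.card) * R ^ K *
          (1 + ‖x‖) ^ (N + 3 * K) := by
            apply mul_le_mul _ hpow (by positivity) (by positivity)
            apply mul_le_mul_of_nonneg_right _ hRK
            exact mul_le_mul (by linarith) hX1 zero_le_one (by positivity)
    · -- near infinity
      push Not at hB
      have hxp : 0 < ‖x‖ := hR0.trans hB
      obtain ⟨hseg, hint⟩ := (h3 S).2 R hR0 (fun c hc => by linarith [hRS c hc]) x hB.le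
      set z : ℂ := ((R / ‖x‖ : ℝ) : ℂ) * x with hz
      have hzn : ‖z‖ = R := by
        rw [hz, norm_mul, Complex.norm_real, Real.norm_of_nonneg (by positivity),
          div_mul_cancel₀ _ hxp.ne']
      have hzM : ∀ P ∈ Pts m b t, P.1 = z → ‖f P‖ ≤ M := by
        intro P hP hPz
        refine hM P hP (by rw [hPz, hzn]) (fun c hc => ?_)
        rw [hPz]
        have e1 := hRS c hc
        have e2 : ‖z‖ ≤ ‖z - c‖ + ‖c‖ := by
          calc ‖z‖ = ‖(z - c) + c‖ := by congr 1; ring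
            _ ≤ _ := norm_add_le _ _
        rw [hzn] at e2
        linarith [norm_nonneg c]
      have h5 := key h1 h2 hm hSt hC hD hf hX z ‖x‖ M _ hseg (by rw [hzn]; exact hB.le) le_rfl hM0
        hzM hint
      have hy : 1 ≤ ‖x‖ / R := (one_le_div hR0).2 hB.le
      have hl : 0 ≤ Real.log (‖x‖ / R) := Real.log_nonneg hy
      have h6 : Real.exp (2 * C * (2 * S.card * Real.log (‖x‖ / R))) ≤ (1 + ‖x‖) ^ (2 * K) := by
        have e1 : 2 * C * (2 * S.card * Real.log (‖x‖ / R)) ≤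
            ((2 * K : ℕ) : ℝ) * Real.log (‖x‖ / R) := by
          have e2 : 2 * C * (2 * S.card * Real.log (‖x‖ / R)) =
              (2 * C) * (2 * S.card * Real.log (‖x‖ / R)) := by ring
          have e3 : ((2 * K : ℕ) : ℝ) * Real.log (‖x‖ / R) =
              (n : ℝ) * (2 * S.card * Real.log (‖x‖ / R)) := by
            rw [hK]
            push_cast
            ring
          rw [e2, e3]
          exact mul_le_mul_of_nonneg_right hn (by positivity)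
        refine (Real.exp_le_exp.2 e1).trans ?_
        rw [← Real.log_pow, Real.exp_log (by positivity)]
        apply pow_le_pow_left₀ (by positivity)
        rw [div_le_iff₀ hR0]
        nlinarith
      have h7 : M + (1 + ‖x‖) ^ N ≤ (M + 1) * (1 + ‖x‖) ^ N := by
        have e1 : 1 ≤ (1 + ‖x‖) ^ N := one_le_pow₀ hx1
        nlinarith
      have h8 : ‖f X‖ ≤ (M + 1) * (1 + ‖x‖) ^ N * (1 + ‖x‖) ^ (2 * K) :=
        h5.trans (mul_le_mul h7 h6 (Real.exp_pos _).le (by positivity))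
      calc ‖f X‖ * ∏ c ∈ S, ‖x - c‖ ^ n
          ≤ ((M + 1) * (1 + ‖x‖) ^ N * (1 + ‖x‖) ^ (2 * K)) * (R ^ K * (1 + ‖x‖) ^ K) :=
            mul_le_mul h8 hpr hpr0 (by positivity)
        _ = (M + 1) * 1 * R ^ K * (1 + ‖x‖) ^ (N + 3 * K) := by
            have e1 : N + 3 * K = N + 2 * K + K := by ring
            rw [e1, pow_add, pow_add]
            ring
        _ ≤ (M + 1 + (1 + R) ^ N) * Real.exp ((n : ℝ) * S.card) * R ^ K *
          (1 + ‖x‖) ^ (N + 3 * K) := by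
            apply mul_le_mul_of_nonneg_right _ (by positivity)
            apply mul_le_mul_of_nonneg_right _ hRK
            exact mul_le_mul (by linarith) hX1 zero_le_one (by positivity)

end TNF.AB
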