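import Pool.Agent.Lib.TNF.AB.SpecB

/-!
# PROJECT TNF, package AB: the periods of the form of the third kind of a divisor
-/

set_option autoImplicit false

open SEJ TATE Topology Metric MeasureTheory

noncomputable section

namespace TNF.AB

namespace Hdi_aux

/-- The pairing is additive in the second variable. -/
theorem Qf_sum (m : ℕ) {r : ℕ} (b : Fin (r + 1) → ℕ) (t : Fin (r + 1) → ℂ) (β : Ix2 m r → ℂ)
    {k : ℕ} (c : Fin k → Ix2 m r → ℂ) : Qf m b t β (∑ a, c a) = ∑ a, Qf m b t β (c a) := by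
  unfold Qf
  rw [Finset.sum_comm]
  conv_rhs => rw [Finset.sum_comm]
  rw [Finset.sum_comm]
  refine Finset.sum_congr rfl fun p _ => ?_
  rw [Finset.sum_comm]
  refine Finset.sum_congr rfl fun q _ => ?_
  rw [Finset.sum_apply]
  split_ifs with h
  · rw [Finset.mul_sum]
  · rw [Finset.sum_const_zero]

/-- The coefficients of `hD`. -/
def co {m r k : ℕ} {b : Fin (r + 1) → ℕ} (w : Ix m b → ℂ) : (Fin k ⊕ Fin k) ⊕ Ix m b → ℂ :=
  Sum.elim (Sum.elim (fun _ => 1) fun _ => -1) fun q => -w q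

/-- The forms of which `hD` is a combination. -/
def fo (m : ℕ) {r k : ℕ} (b : Fin (r + 1) → ℕ) (t : Fin (r + 1) → ℂ) (Q' Q : Fin k → ℂ × ℂ) :
    (Fin k ⊕ Fin k) ⊕ Ix m b → ℂ × ℂ → ℂ :=
  Sum.elim (Sum.elim (fun a => eta m b t (Q a)) fun a => eta m b t (Q' a))
    fun q X => om m b t X q

theorem hD_eq (m : ℕ) {r k : ℕ} (b : Fin (r + 1) → ℕ) (t : Fin (r + 1) → ℂ)
    (Q' Q : Fin k → ℂ × ℂ) (w : Ix m b → ℂ) :
    hD m b t Q' Q w = fun X => ∑ i, co w i * fo m b t Q' Q i X := by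
  funext X
  unfold hD co fo
  rw [Fintype.sum_sum_type, Fintype.sum_sum_type]
  simp only [Sum.elim_inl, Sum.elim_inr]
  rw [Finset.sum_sub_distrib, sub_eq_add_neg, sub_eq_add_neg, ← Finset.sum_neg_distrib,
    ← Finset.sum_neg_distrib]
  congr 1
  · congr 1
    · exact Finset.sum_congr rfl fun a _ => (one_mul _).symm
    · exact Finset.sum_congr rfl fun a _ => by ring
  · exact Finset.sum_congr rfl fun q _ => by ring

end Hdi_aux

theorem tHdi (h1 : S_Lin) (h2 : S_Alg2) (h3 : S_Key) : S_Hdi := by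
  intro m r b t hC ht k Q' Q w c
  have hm : 1 ≤ m := by
    have := hC.1
    omega
  obtain ⟨-, L2, L3, L4, L5, L6⟩ := h1 m r b t hm
  obtain ⟨A1, -⟩ := h2 m r b t hm
  have hreg : ∀ i ∈ (Finset.univ : Finset ((Fin k ⊕ Fin k) ⊕ Ix m b)),
      Reg m b t (Ad Q' Q) (Hdi_aux.fo m b t Q' Q i) := by
    intro i _
    rcases i with (a | a) | q
    · refine L4 {(Q a).1} _ _ ?_ (L3 (Q a) (A1 _ _ (c a)).2)
      intro x hx
      exact ⟨a, Or.inr hx⟩
    · refine L4 {(Q' a).1} _ _ ?_ (L3 (Q' a) (A1 _ _ (c a)).1)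
      intro x hx
      exact ⟨a, Or.inl hx⟩
    · exact L4 ∅ _ _ (Set.empty_subset _) (L2 q)
  obtain ⟨L5a, L5b⟩ := L5 _ Finset.univ (Hdi_aux.co w) (Hdi_aux.fo m b t Q' Q) (Ad Q' Q) hreg
  rw [Hdi_aux.hD_eq]
  refine ⟨L5a, fun P p hp => ?_⟩
  have hnot : ∀ a, (Q' a).1 ∉ p.on ∧ (Q a).1 ∉ p.on := fun a =>
    ⟨fun h => Set.disjoint_left.1 hp h ⟨a, Or.inl rfl⟩,
      fun h => Set.disjoint_left.1 hp h ⟨a, Or.inr rfl⟩⟩
  have hkey : ∀ a, ∃ n : ℤ, p.int (eta m b t (Q a)) - p.int (eta m b t (Q' a)) -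
      Qf m b t p.v (c a).v = 2 * Real.pi * Complex.I * n := fun a =>
    h3 m r b t hC ht P (Q' a) (Q a) p (c a) (hnot a).1 (hnot a).2
  choose n hn using hkey
  refine ⟨∑ a, n a, ?_⟩
  rw [L5b P P p hp, Fintype.sum_sum_type, Fintype.sum_sum_type, Hdi_aux.Qf_sum]
  simp only [Hdi_aux.co, Hdi_aux.fo, Sum.elim_inl, Sum.elim_inr]
  have e1 : ∀ a, p.int (eta m b t (Q a)) = p.int (eta m b t (Q' a)) + Qf m b t p.v (c a).v +
      2 * Real.pi * Complex.I * n a := fun a => by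
    have := hn a
    linear_combination this
  have e2 : ∑ a, (1 : ℂ) * p.int (eta m b t (Q a)) = ∑ a, p.int (eta m b t (Q' a)) +
      ∑ a, Qf m b t p.v (c a).v + 2 * Real.pi * Complex.I * ∑ a, (n a : ℂ) := by
    rw [Finset.mul_sum, ← Finset.sum_add_distrib, ← Finset.sum_add_distrib]
    refine Finset.sum_congr rfl fun a _ => ?_
    rw [one_mul, e1 a]
  have e3 : ∑ a, (-1 : ℂ) * p.int (eta m b t (Q' a)) = -∑ a, p.int (eta m b t (Q' a)) := by
    rw [← Finset.sum_neg_distrib]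
    exact Finset.sum_congr rfl fun a _ => by ring
  have e4 : ∑ q, -w q * p.int (fun X => om m b t X q) = -∑ q, w q * p.v (inc q) := by
    rw [← Finset.sum_neg_distrib]
    refine Finset.sum_congr rfl fun q _ => ?_
    rw [L6 P P p q]
    ring
  rw [e2, e3, e4]
  push_cast
  ring

end TNF.AB
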