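import Pool.Agent.Lib.TNF.AB.SpecB

/-!
MP_640417_ag, project TNF, package AB, module Inj (helper28): the projection to the first kind is injective on the
periods.
-/

set_option autoImplicit false

open SEJ TATE Topology Metric MeasureTheory

noncomputable section

namespace TNF.AB

namespace Inj_aux

/-- a complex linear form with purely imaginary values on a set which spans over the reals -/
theorem form_zero {ι : Type} [Fintype ι] (w : ι → ℂ) (S S' : Set (ι → ℂ))
    (hS : Submodule.span ℝ S' = ⊤) (hSS : ∀ v ∈ S', ∃ k : ℕ, k ≠ 0 ∧ k • v ∈ S)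
    (h : ∀ v ∈ S, (∑ p, w p * v p).re = 0) (v : ι → ℂ) : ∑ p, w p * v p = 0 := by
  let f : (ι → ℂ) →ₗ[ℝ] ℝ :=
    { toFun := fun v => (∑ p, w p * v p).re
      map_add' := fun u v => by
        simp only [Pi.add_apply, mul_add, Finset.sum_add_distrib, Complex.add_re]
      map_smul' := fun a v => by
        have e : ∑ p, w p * (a • v) p = (a : ℂ) * ∑ p, w p * v p := by
          rw [Finset.mul_sum]
          refine Finset.sum_congr rfl fun p _ => ?_
          rw [Pi.smul_apply, Complex.real_smul]; ring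
        rw [e, Complex.re_ofReal_mul]
        simp }
  have hf : ∀ v, f v = (∑ p, w p * v p).re := fun v => rfl
  have h0 : ∀ v, f v = 0 := by
    intro v
    have hv : v ∈ Submodule.span ℝ S' := by rw [hS]; trivial
    induction hv using Submodule.span_induction with
    | mem x hx =>
      obtain ⟨k, hk, hkx⟩ := hSS x hx
      have h1 : f (k • x) = 0 := h _ hkx
      rw [map_nsmul, nsmul_eq_mul] at h1
      rcases mul_eq_zero.1 h1 with h2 | h2
      · exact absurd (Nat.cast_eq_zero.1 h2) hk
      · exact h2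
    | zero => exact map_zero f
    | add x y _ _ hx hy => rw [map_add, hx, hy, add_zero]
    | smul a x _ hx => rw [map_smul, hx, smul_zero]
  apply Complex.ext
  · exact (hf v).symm.trans (h0 v)
  · have h1 := (hf (Complex.I • v)).symm.trans (h0 _)
    have e : ∑ p, w p * (Complex.I • v) p = Complex.I * ∑ p, w p * v p := by
      rw [Finset.mul_sum]
      refine Finset.sum_congr rfl fun p _ => ?_
      rw [Pi.smul_apply, smul_eq_mul]; ring
    rw [e, Complex.I_mul_re] at h1
    simpa using h1

end Inj_aux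

theorem tInj (h1 : S_Nd) (h2 : S_Qw) (h3 : S_Qz) (h4 : S_Lzg2) (h6 : TATE.StmtFA1) : S_Inj := by
  intro m r b t hC ht β hβ hpr
  obtain ⟨w, hw⟩ := (h2 m r b t hC).2.2 β hpr
  obtain ⟨Φ⟩ := h6 m r b hC
  obtain ⟨-, -, -, hLZ⟩ := h4 m r b t hC ht
  refine (h1 m r b t hC).1 β fun c => ?_
  rw [hw c]
  refine Inj_aux.form_zero w (LZ m b t) (LQ m b t) (Φ.spn t ht) (fun v hv => hv) ?_ _
  intro v hv
  rw [hLZ] at hv
  obtain ⟨c', hc', rfl⟩ := hv
  obtain ⟨n, hn⟩ := h3 m r b t hC ht β hβ c' hc'
  rw [← hw c', hn]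
  simp

end TNF.AB
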