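import Pool.Agent.Lib.TNF.AB.SpecB

/-!
# PROJECT TNF, package AB: module Per (periods of an algebraic solution)
-/

set_option autoImplicit false

open SEJ TATE Topology Metric MeasureTheory

noncomputable section

namespace TNF.AB

namespace Per_aux

variable {m r : ℕ} {b : Fin (r + 1) → ℕ} {t : Fin (r + 1) → ℂ}

theorem bp_self {X : ℂ × ℂ} (hX : X ∈ Pts m b t) : bp m b t X X.1 = X := by
  unfold bp br
  have h1 : ∏ j, ((X.1 - t j) / (X.1 - t j)) ^ ((b j : ℂ) / m) = 1 := by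
    apply Finset.prod_eq_one
    intro j _
    have h2 : X.1 - t j ≠ 0 := by
      intro h0
      exact hX.1 ⟨j, (sub_eq_zero.1 h0).symm⟩
    rw [div_self h2, Complex.one_cpow]
  rw [h1, mul_one]

theorem ad_finite {k : ℕ} (Q' Q : Fin k → ℂ × ℂ) : (Ad Q' Q).Finite := by
  have h : Ad Q' Q ⊆ Set.range (fun a => (Q' a).1) ∪ Set.range (fun a => (Q a).1) := by
    rintro x ⟨a, ha | ha⟩
    · exact Or.inl ⟨a, ha.symm⟩
    · exact Or.inr ⟨a, ha.symm⟩
  exact ((Set.finite_range _).union (Set.finite_range _)).subset h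

theorem hD_reg (h3 : S_Lin) (hm : 1 ≤ m) {k : ℕ} (Q' Q : Fin k → ℂ × ℂ) (w : Ix m b → ℂ)
    (hQ : ∀ a, Q' a ∈ Pts m b t ∧ Q a ∈ Pts m b t) (A' : Set ℂ) (hA : Ad Q' Q ⊆ A') :
    Reg m b t A' (hD m b t Q' Q w) := by
  obtain ⟨-, hom, heta, -⟩ := h3 m r b t hm
  intro P hP x hx hxA
  have hne : ∀ a, x ≠ (Q' a).1 ∧ x ≠ (Q a).1 := fun a =>
    ⟨fun h => hxA (hA ⟨a, Or.inl h⟩), fun h => hxA (hA ⟨a, Or.inr h⟩)⟩
  unfold hD
  refine DifferentiableAt.sub (DifferentiableAt.fun_sum fun a _ => DifferentiableAt.sub ?_ ?_)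
    (DifferentiableAt.fun_sum fun q _ => DifferentiableAt.const_mul ?_ _)
  · exact heta _ (hQ a).2 P hP x hx (hne a).2
  · exact heta _ (hQ a).1 P hP x hx (hne a).1
  · exact hom q P hP x hx (Set.notMem_empty x)

end Per_aux

open Per_aux in
theorem tPer (h1 : S_Alg2) (h2 : S_Gp) (h3 : S_Lin) (h4 : S_Ftc) (h5 : S_Dva) : S_Per := by
  intro m r b t hb ht k Q' Q hQ hPD
  obtain ⟨A, B, w, hB, ⟨X₀, hX₀, hX₀A, hX₀B, hX₀e⟩, hid⟩ := hPD
  have hm : 1 ≤ m := le_trans (by norm_num) hb.1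
  have hfin : (Ad Q' Q ∪ {x : ℂ | B.eval x = 0}).Finite := by
    refine (ad_finite Q' Q).union ?_
    have h6 : {x : ℂ | B.eval x = 0} ⊆ (B.roots.toFinset : Set ℂ) := by
      intro x hx
      rw [Finset.mem_coe, Multiset.mem_toFinset, Polynomial.mem_roots hB]
      exact hx
    exact (Finset.finite_toSet _).subset h6
  have hreg : Reg m b t (Ad Q' Q ∪ {x : ℂ | B.eval x = 0}) (hD m b t Q' Q w) :=
    hD_reg h3 hm Q' Q w hQ _ Set.subset_union_left
  obtain ⟨-, hexp, -⟩ := h4 m r b t hm _ hfin _ hreg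
  have hDv : Dv m b t (Ad Q' Q ∪ {x : ℂ | B.eval x = 0}) (fun X => evA m A X / B.eval X.1)
      fun X => evA m A X / B.eval X.1 * hD m b t Q' Q w X := by
    intro X hX hXA
    have hXd : X.1 ∉ Ad Q' Q := fun h => hXA (Or.inl h)
    have hXB : B.eval X.1 ≠ 0 := fun h => hXA (Or.inr h)
    have e1 : HasDerivAt (fun x => evA m A (bp m b t X x)) (dvA m b t A X) X.1 :=
      h5 m r b t hm A X hX (Set.notMem_empty _)
    have e2 : HasDerivAt (fun x => B.eval x) (B.derivative.eval X.1) X.1 := B.hasDerivAt X.1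
    have e3 := e1.div e2 hXB
    rw [bp_self hX, hid X hX hXd] at e3
    have e4 : evA m A X * B.eval X.1 * hD m b t Q' Q w X / B.eval X.1 ^ 2 =
        evA m A X / B.eval X.1 * hD m b t Q' Q w X := by
      field_simp
    rw [e4] at e3
    exact e3
  have hG := hexp _ hDv
  refine ⟨w, _, hfin, Set.subset_union_left, fun P p hp => ?_⟩
  obtain ⟨hend, -, -, -, hon⟩ := h1 m r b t hm
  have hP := (hend P P p).1
  have hPA : P.1 ∉ Ad Q' Q ∪ {x : ℂ | B.eval x = 0} := fun h =>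
    Set.disjoint_left.1 hp (hon P P p).2.2.1 h
  have hX₀A' : X₀.1 ∉ Ad Q' Q ∪ {x : ℂ | B.eval x = 0} := by
    rintro (h | h)
    · exact hX₀A h
    · exact hX₀B h
  obtain ⟨p₀, hp₀⟩ := (h2 m r b t hb ht _ hfin).2.2 X₀ hX₀ P hP hX₀A' hPA
  have hGP := hG X₀ P p₀ hp₀
  have hne : evA m A P / B.eval P.1 ≠ 0 := by
    rw [hGP]
    exact mul_ne_zero (div_ne_zero hX₀e hX₀B) (Complex.exp_ne_zero _)
  have hc := hG P P p hp
  have hone : Complex.exp (p.int (hD m b t Q' Q w)) = 1 := by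
    have h7 : evA m A P / B.eval P.1 * Complex.exp (p.int (hD m b t Q' Q w)) =
        evA m A P / B.eval P.1 * 1 := by
      rw [mul_one]
      exact hc.symm
    exact mul_left_cancel₀ hne h7
  obtain ⟨n, hn⟩ := Complex.exp_eq_one_iff.1 hone
  exact ⟨n, by rw [hn]; ring⟩

end TNF.AB
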