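import Pool.Agent.Lib.TNF.AB.SpecB

/-!
# PROJECT TNF, package AB, module Pot: potentials from vanishing periods
-/

set_option autoImplicit false

open SEJ TATE Topology Metric MeasureTheory

noncomputable section

namespace TNF.AB

namespace Pot_aux

variable {m r : ℕ} {b : Fin (r + 1) → ℕ} {t : Fin (r + 1) → ℂ}

/-- A point of the curve which is not over `A`. -/
theorem exists_pt (hm : 1 ≤ m) (A : Set ℂ) (hA : A.Finite) : ∃ X ∈ Pts m b t, X.1 ∉ A := by
  have hfin : (A ∪ Set.range t).Finite := hA.union (Set.finite_range t)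
  obtain ⟨x, hx⟩ := hfin.infinite_compl.nonempty
  obtain ⟨y, hy⟩ := IsAlgClosed.exists_pow_nat_eq (∏ j, (x - t j) ^ b j) (by omega : 0 < m)
  exact ⟨(x, y), ⟨fun h => hx (Or.inr h), hy⟩, fun h => hx (Or.inl h)⟩

open Classical in
/-- The potential. -/
def F (A : Set ℂ) (h : ℂ × ℂ → ℂ) (X₀ X : ℂ × ℂ) : ℂ :=
  if hX : ∃ p : Path m b t X₀ X, Disjoint p.on A then (Classical.choose hX).int h else 0

theorem F_spec (A : Set ℂ) (h : ℂ × ℂ → ℂ) (X₀ X : ℂ × ℂ)
    (hX : ∃ p : Path m b t X₀ X, Disjoint p.on A) :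
    ∃ p : Path m b t X₀ X, Disjoint p.on A ∧ F (m := m) (b := b) (t := t) A h X₀ X = p.int h := by
  refine ⟨Classical.choose hX, Classical.choose_spec hX, ?_⟩
  unfold F
  rw [dif_pos hX]

theorem near (h1 : S_Brs) (h2 : S_Alg2) (h3 : S_Gp) (hC : Cvb m b) (ht : Function.Injective t)
    (A : Set ℂ) (hA : A.Finite) (h : ℂ × ℂ → ℂ) (X₀ : ℂ × ℂ) (hX₀ : X₀ ∈ Pts m b t)
    (hX₀A : X₀.1 ∉ A) (X : ℂ × ℂ) (hX : X ∈ Pts m b t) (hXA : X.1 ∉ A) :
    ∀ᶠ x in 𝓝 X.1, ∃ p : Path m b t X₀ X₀, Disjoint p.on A ∧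
      p.int h = F (m := m) (b := b) (t := t) A h X₀ X + sgi m b t X x h -
        F (m := m) (b := b) (t := t) A h X₀ (bp m b t X x) := by
  have hm : 1 ≤ m := by have := hC.1; omega
  obtain ⟨-, -, h33⟩ := h3 m r b t hC ht A hA
  obtain ⟨-, h22, h23, -, -⟩ := h2 m r b t hm
  obtain ⟨b1, b2, -, -, -, -, b7, -⟩ := h1 m r b t hm X hX
  obtain ⟨p₁, hp₁, hF₁⟩ := F_spec A h X₀ X (h33 X₀ hX₀ X hX hX₀A hXA)
  have hopen : IsOpen (st t X.1 ∩ Aᶜ) := b1.inter hA.isClosed.isOpen_compl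
  obtain ⟨ε, hε, hball⟩ := Metric.isOpen_iff.1 hopen X.1 ⟨b2, hXA⟩
  filter_upwards [ball_mem_nhds X.1 hε] with x hx
  have hseg : ∀ u ∈ Set.Icc (0 : ℝ) 1, sx X.1 x u ∈ ball X.1 ε := by
    intro u hu
    rw [mem_ball, dist_eq_norm] at hx ⊢
    have e1 : sx X.1 x u - X.1 = (u : ℂ) * (x - X.1) := by
      unfold sx
      ring
    rw [e1, norm_mul, Complex.norm_real, Real.norm_eq_abs, abs_of_nonneg hu.1]
    exact (mul_le_of_le_one_left (norm_nonneg _) hu.2).trans_lt hx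
  have hxs : x ∈ st t X.1 := (hball hx).1
  have hxA : x ∉ A := (hball hx).2
  have hY : bp m b t X x ∈ Pts m b t := (b7 x hxs).1
  obtain ⟨p₂, hp₂, hF₂⟩ := F_spec A h X₀ (bp m b t X x) (h33 X₀ hX₀ _ hY hX₀A hxA)
  have hSg : Sg m b t X (bp m b t X x) := ⟨hxs, rfl⟩
  let q : Path m b t X₀ (bp m b t X x) := Path.snoc p₁ hSg
  have hq : q.int h = p₁.int h + sgi m b t X x h := by
    change (Path.snoc p₁ hSg).int h = _
    simp only [Path.int, bp]
  have hqon : Disjoint q.on A := by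
    have e2 : q.on = p₁.on ∪ sx X.1 x '' Set.Icc (0 : ℝ) 1 := by
      change (Path.snoc p₁ hSg).on = _
      simp only [Path.on, bp]
    rw [e2, Set.disjoint_union_left]
    refine ⟨hp₁, ?_⟩
    rw [Set.disjoint_left]
    rintro _ ⟨u, hu, rfl⟩
    exact (hball (hseg u hu)).2
  obtain ⟨p₃, hp₃, hp₃on⟩ := h23 _ _ p₂
  obtain ⟨p₄, hp₄, hp₄on⟩ := h22 _ _ _ q p₃
  refine ⟨p₄, ?_, ?_⟩
  · refine Disjoint.mono_left (hp₄on.trans (Set.union_subset_union_right _ hp₃on)) ?_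
    rw [Set.disjoint_union_left]
    exact ⟨hqon, hp₂⟩
  · rw [hp₄, hp₃, hq, hF₁, hF₂]
    ring

end Pot_aux

open Pot_aux

theorem tPot (h1 : S_Brs) (h2 : S_Alg2) (h3 : S_Gp) (h4 : S_Ftc) : S_Pot := by
  intro m r b t hC ht A hA h hh
  have hm : 1 ≤ m := by have := hC.1; omega
  obtain ⟨X₀, hX₀, hX₀A⟩ := exists_pt (b := b) (t := t) hm A hA
  obtain ⟨-, -, h43⟩ := h4 m r b t hm A hA h hh
  have hbp : ∀ X ∈ Pts m b t, bp m b t X X.1 = X := fun X hX => (h1 m r b t hm X hX).2.2.2.2.2.1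
  constructor
  · intro hp
    refine ⟨F (m := m) (b := b) (t := t) A h X₀, ?_⟩
    intro X hX hXA
    have hn := near h1 h2 h3 hC ht A hA h X₀ hX₀ hX₀A X hX hXA
    have he : (fun x => F (m := m) (b := b) (t := t) A h X₀ (bp m b t X x)) =ᶠ[𝓝 X.1]
        fun x => F (m := m) (b := b) (t := t) A h X₀ X + sgi m b t X x h := by
      filter_upwards [hn] with x hx
      obtain ⟨p, hpA, hpi⟩ := hx
      rw [hp X₀ p hpA] at hpi
      linear_combination hpi
    exact ((h43 X hX hXA).const_add _).congr_of_eventuallyEq he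
  · intro hp
    refine ⟨fun X => Complex.exp (F (m := m) (b := b) (t := t) A h X₀ X), ?_, fun X _ _ =>
      Complex.exp_ne_zero _⟩
    intro X hX hXA
    have hn := near h1 h2 h3 hC ht A hA h X₀ hX₀ hX₀A X hX hXA
    have he : (fun x => Complex.exp (F (m := m) (b := b) (t := t) A h X₀ (bp m b t X x)))
        =ᶠ[𝓝 X.1] fun x => Complex.exp (F (m := m) (b := b) (t := t) A h X₀ X +
          sgi m b t X x h) := by
      filter_upwards [hn] with x hx
      obtain ⟨p, hpA, hpi⟩ := hx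
      obtain ⟨n, hn⟩ := hp X₀ p hpA
      rw [hn] at hpi
      refine Complex.exp_eq_exp_iff_exists_int.2 ⟨-n, ?_⟩
      push_cast
      linear_combination hpi
    have hd : HasDerivAt (fun x => Complex.exp (F (m := m) (b := b) (t := t) A h X₀ X +
        sgi m b t X x h)) (Complex.exp (F (m := m) (b := b) (t := t) A h X₀ X +
        sgi m b t X X.1 h) * h X) X.1 := ((h43 X hX hXA).const_add _).cexp
    have hv := he.eq_of_nhds
    rw [hbp X hX] at hv
    rw [← hv] at hd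
    exact hd.congr_of_eventuallyEq he

end TNF.AB
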