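import Pool.Agent.Lib.TNF.AB.SpecB

/-!
# PROJECT TNF, package AB: deformation of paths

Proof of `S_Prp` by induction on the path.
-/

set_option autoImplicit false

open SEJ TATE Topology Metric MeasureTheory Filter

noncomputable section

namespace TNF.AB

namespace Prp_aux

variable {m r : ℕ} {b : Fin (r + 1) → ℕ}

/-- The `m`-th power of a power with the exponent `k / m`. -/
theorem cpow_pow (hm : 1 ≤ m) (w : ℂ) (k : ℕ) : (w ^ ((k : ℂ) / m)) ^ m = w ^ k := by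
  have h : (m : ℂ) ≠ 0 := by exact_mod_cast (by omega : m ≠ 0)
  rw [← Complex.cpow_mul_nat, div_mul_cancel₀ _ h, Complex.cpow_natCast]

/-- `x` is far from the branch points, compared with the distance of `t'` and `t`. -/
def Nr (t t' : Fin (r + 1) → ℂ) (x : ℂ) : Prop :=
  ∀ j, (x - t' j) / (x - t j) ∈ Complex.slitPlane

theorem nr_ne {t t' : Fin (r + 1) → ℂ} {x : ℂ} (h : Nr t t' x) (j : Fin (r + 1)) :
    x - t' j ≠ 0 ∧ x - t j ≠ 0 := by
  have h1 := Complex.slitPlane_ne_zero (h j)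
  exact ⟨fun h2 => h1 (by rw [h2, zero_div]), fun h2 => h1 (by rw [h2, div_zero])⟩

theorem pts_ne {t : Fin (r + 1) → ℂ} {P : ℂ × ℂ} (hP : P ∈ Pts m b t) (j : Fin (r + 1)) :
    P.1 - t j ≠ 0 := fun h => hP.1 ⟨j, (sub_eq_zero.1 h).symm⟩

theorem nr_ev {t : Fin (r + 1) → ℂ} {P : ℂ × ℂ} (hP : P ∈ Pts m b t) :
    ∀ᶠ t' in 𝓝 t, Nr t t' P.1 := by
  unfold Nr
  rw [eventually_all]
  intro j
  have hc : ContinuousAt (fun t' : Fin (r + 1) → ℂ => (P.1 - t' j) / (P.1 - t j)) t :=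
    (continuousAt_const.sub (continuous_apply j).continuousAt).div_const _
  have h1 : (P.1 - t j) / (P.1 - t j) ∈ Complex.slitPlane := by
    rw [div_self (pts_ne hP j)]
    exact Complex.one_mem_slitPlane
  exact hc.eventually_mem (Complex.isOpen_slitPlane.mem_nhds h1)

theorem st_ev {t : Fin (r + 1) → ℂ} {P : ℂ × ℂ} (hP : P ∈ Pts m b t) {x : ℂ} (hx : x ∈ st t P.1) :
    ∀ᶠ t' in 𝓝 t, x ∈ st t' P.1 := by
  unfold st
  simp only [Set.mem_ofPred_eq]
  rw [eventually_all]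
  intro j
  have hc : ContinuousAt (fun t' : Fin (r + 1) → ℂ => (x - t' j) / (P.1 - t' j)) t :=
    (continuousAt_const.sub (continuous_apply j).continuousAt).div
      (continuousAt_const.sub (continuous_apply j).continuousAt) (pts_ne hP j)
  exact hc.eventually_mem (Complex.isOpen_slitPlane.mem_nhds (hx j))

/-- The `m`-th power of the branch. -/
theorem br_pow (hm : 1 ≤ m) {t : Fin (r + 1) → ℂ} {P : ℂ × ℂ} (hP : P ∈ Pts m b t) (x : ℂ) :
    (br m b t P x) ^ m = ∏ j, (x - t j) ^ b j := by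
  unfold br
  rw [mul_pow, hP.2, ← Finset.prod_pow, ← Finset.prod_mul_distrib]
  refine Finset.prod_congr rfl fun j _ => ?_
  rw [cpow_pow hm, div_pow, mul_div_cancel₀ _ (pow_ne_zero _ (pts_ne hP j))]

theorem rb_pow (hm : 1 ≤ m) {t t' : Fin (r + 1) → ℂ} {P : ℂ × ℂ} (hP : P ∈ Pts m b t) :
    (rb m b t t' P).2 ^ m = ∏ j, (P.1 - t' j) ^ b j := by
  change (P.2 * ∏ j, ((P.1 - t' j) / (P.1 - t j)) ^ ((b j : ℂ) / m)) ^ m = _
  rw [mul_pow, hP.2, ← Finset.prod_pow, ← Finset.prod_mul_distrib]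
  refine Finset.prod_congr rfl fun j _ => ?_
  rw [cpow_pow hm, div_pow, mul_div_cancel₀ _ (pow_ne_zero _ (pts_ne hP j))]

theorem rb_pts (hm : 1 ≤ m) {t t' : Fin (r + 1) → ℂ} {P : ℂ × ℂ} (hP : P ∈ Pts m b t)
    (h : Nr t t' P.1) : rb m b t t' P ∈ Pts m b t' := by
  refine ⟨?_, rb_pow hm hP⟩
  rintro ⟨j, hj⟩
  exact (nr_ne h j).1 (sub_eq_zero.2 hj.symm)

theorem rb_self {t : Fin (r + 1) → ℂ} {P : ℂ × ℂ} (hP : P ∈ Pts m b t) : rb m b t t P = P := by
  have h : ∏ j, ((P.1 - t j) / (P.1 - t j)) ^ ((b j : ℂ) / m) = 1 :=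
    Finset.prod_eq_one fun j _ => by rw [div_self (pts_ne hP j), Complex.one_cpow]
  change (P.1, P.2 * ∏ j, ((P.1 - t j) / (P.1 - t j)) ^ ((b j : ℂ) / m)) = P
  rw [h, mul_one]

/-- The point `rb` depends continuously on `t'`. -/
theorem rb_cont {t t' : Fin (r + 1) → ℂ} {P : ℂ × ℂ} (h : Nr t t' P.1) :
    ContinuousAt (fun s : Fin (r + 1) → ℂ => (rb m b t s P).2) t' := by
  change ContinuousAt (fun s : Fin (r + 1) → ℂ =>
    P.2 * ∏ j, ((P.1 - s j) / (P.1 - t j)) ^ ((b j : ℂ) / m)) t'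
  refine continuousAt_const.mul (tendsto_finsetProd _ fun j _ => ?_)
  have hc : ContinuousAt (fun s : Fin (r + 1) → ℂ => (P.1 - s j) / (P.1 - t j)) t' :=
    (continuousAt_const.sub (continuous_apply j).continuousAt).div_const _
  exact hc.cpow continuousAt_const (h j)

/-- The branch depends continuously on `t'` and `x`. -/
theorem br_cont {t t' : Fin (r + 1) → ℂ} {P : ℂ × ℂ} {x : ℂ} (h : Nr t t' P.1)
    (hx : x ∈ st t' P.1) :
    ContinuousAt (fun z : (Fin (r + 1) → ℂ) × ℂ => br m b z.1 (rb m b t z.1 P) z.2) (t', x) := by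
  change ContinuousAt (fun z : (Fin (r + 1) → ℂ) × ℂ =>
    (rb m b t z.1 P).2 * ∏ j, ((z.2 - z.1 j) / (P.1 - z.1 j)) ^ ((b j : ℂ) / m)) (t', x)
  refine ContinuousAt.mul ?_ (tendsto_finsetProd _ fun j _ => ?_)
  · exact ContinuousAt.comp (g := fun s : Fin (r + 1) → ℂ => (rb m b t s P).2)
      (f := fun z : (Fin (r + 1) → ℂ) × ℂ => z.1) (rb_cont h) continuousAt_fst
  · have hj : ContinuousAt (fun z : (Fin (r + 1) → ℂ) × ℂ => z.1 j) (t', x) :=
      (continuous_apply j).continuousAt.comp continuousAt_fst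
    have hc : ContinuousAt (fun z : (Fin (r + 1) → ℂ) × ℂ => (z.2 - z.1 j) / (P.1 - z.1 j))
        (t', x) :=
      (continuousAt_snd.sub hj).div (continuousAt_const.sub hj) (nr_ne h j).1
    exact hc.cpow continuousAt_const (hx j)

/-- The forms depend continuously on `t'` and `x`. -/
theorem om_cont {t t' : Fin (r + 1) → ℂ} {P : ℂ × ℂ} {x : ℂ} (h : Nr t t' P.1)
    (hx : x ∈ st t' P.1) (q : Ix2 m r) :
    ContinuousAt (fun z : (Fin (r + 1) → ℂ) × ℂ =>
      om2 m b z.1 (bp m b z.1 (rb m b t z.1 P) z.2) q) (t', x) := by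
  have hb := br_cont (m := m) (b := b) h hx
  have hne : ∀ j, x - t' j ≠ 0 := fun j h1 =>
    Complex.slitPlane_ne_zero (hx j) (by rw [h1, zero_div])
  have hj : ∀ j, ContinuousAt (fun z : (Fin (r + 1) → ℂ) × ℂ => z.2 - z.1 j) (t', x) := fun j =>
    continuousAt_snd.sub ((continuous_apply j).continuousAt.comp continuousAt_fst)
  change ContinuousAt (fun z : (Fin (r + 1) → ℂ) × ℂ =>
    z.2 ^ e2 q * ((br m b z.1 (rb m b t z.1 P) z.2) ^ c2 q /
      ∏ j, (z.2 - z.1 j) ^ (c2 q * b j / m)) / ∏ j, (z.2 - z.1 j)) (t', x)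
  refine ((continuousAt_snd.pow _).mul ((hb.pow _).div ?_ ?_)).div ?_ ?_
  · exact tendsto_finsetProd _ fun j _ => (hj j).pow _
  · exact Finset.prod_ne_zero_iff.2 fun j _ => pow_ne_zero _ (hne j)
  · exact tendsto_finsetProd _ fun j _ => hj j
  · exact Finset.prod_ne_zero_iff.2 fun j _ => hne j

/-- Continuity of an integral with a parameter. -/
theorem int_cont {X : Type} [TopologicalSpace X] (U : Set X) [LocallyCompactSpace U]
    (G : X × ℝ → ℂ) (hG : ContinuousOn G (U ×ˢ Set.Icc (0 : ℝ) 1)) :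
    ContinuousOn (fun t' => ∫ u in (0 : ℝ)..1, G (t', u)) U := by
  rw [continuousOn_iff_continuous_domRestrict]
  have h1 : (U.domRestrict fun t' => ∫ u in (0 : ℝ)..1, G (t', u)) =
      fun t' : U => ∫ u in (0 : ℝ)..1, G ((t' : X), (Set.projIcc (0 : ℝ) 1 zero_le_one u : ℝ)) := by
    funext t'
    refine intervalIntegral.integral_congr fun u hu => ?_
    rw [Set.uIcc_of_le zero_le_one] at hu
    simp only [Set.projIcc_of_mem zero_le_one hu]
  rw [h1]
  refine intervalIntegral.continuous_parametric_intervalIntegral_of_continuous'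
    (f := fun (t' : U) (u : ℝ) => G ((t' : X), (Set.projIcc (0 : ℝ) 1 zero_le_one u : ℝ))) ?_ 0 1
  refine hG.comp_continuous ?_ fun z => ⟨z.1.2, (Set.projIcc (0 : ℝ) 1 zero_le_one z.2).2⟩
  exact (continuous_subtype_val.comp continuous_fst).prodMk
    (continuous_subtype_val.comp (continuous_projIcc.comp continuous_snd))

/-- Roots of unity are isolated. -/
theorem root_ev {t : Fin (r + 1) → ℂ} (hm : 1 ≤ m) (g : (Fin (r + 1) → ℂ) → ℂ)
    (hg : ContinuousAt g t) (h1 : g t = 1) (h2 : ∀ᶠ t' in 𝓝 t, g t' ^ m = 1) :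
    ∀ᶠ t' in 𝓝 t, g t' = 1 := by
  have hs : ContinuousAt (fun t' => ∑ i ∈ Finset.range m, g t' ^ i) t :=
    tendsto_finsetSum _ fun i _ => hg.pow i
  have h0 : ∑ i ∈ Finset.range m, g t ^ i ≠ 0 := by
    rw [h1]
    simp only [one_pow, Finset.sum_const, Finset.card_range, nsmul_eq_mul, mul_one]
    exact_mod_cast (by omega : m ≠ 0)
  filter_upwards [h2, hs.eventually_ne h0] with t' h3 h4
  have h5 : (∑ i ∈ Finset.range m, g t' ^ i) * (g t' - 1) = 0 := by
    rw [geom_sum_mul, h3, sub_self]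
  rcases mul_eq_zero.1 h5 with h6 | h6
  · exact absurd h6 h4
  · exact sub_eq_zero.1 h6

/-- The lift of a segment is deformed. -/
theorem seg_ev (hm : 1 ≤ m) {t : Fin (r + 1) → ℂ} {Q R : ℂ × ℂ} (hQ : Q ∈ Pts m b t)
    (hR : R ∈ Pts m b t) (h : Sg m b t Q R) :
    ∀ᶠ t' in 𝓝 t, Nr t t' Q.1 ∧ R.1 ∈ st t' Q.1 ∧ Sg m b t' (rb m b t t' Q) (rb m b t t' R) := by
  have hQ1 := nr_ev hQ
  have hR1 := nr_ev hR
  have hS := st_ev hQ h.1
  have hQt : Nr t t Q.1 := hQ1.self_of_nhds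
  have hRt : Nr t t R.1 := hR1.self_of_nhds
  have hbt : br m b t (rb m b t t Q) R.1 = R.2 := by
    rw [rb_self hQ]
    exact h.2.symm
  have hR2 : R.2 ≠ 0 := by
    intro h0
    have h3 := hR.2
    rw [h0, zero_pow (by omega)] at h3
    exact Finset.prod_ne_zero_iff.2 (fun j _ => pow_ne_zero (b j) (pts_ne hR j)) h3.symm
  have hcb : ContinuousAt (fun t' : Fin (r + 1) → ℂ => br m b t' (rb m b t t' Q) R.1) t :=
    ContinuousAt.comp (f := fun t' : Fin (r + 1) → ℂ => (t', R.1))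
      (g := fun z : (Fin (r + 1) → ℂ) × ℂ => br m b z.1 (rb m b t z.1 Q) z.2)
      (br_cont hQt h.1) (continuousAt_id.prodMk continuousAt_const)
  have hcr : ContinuousAt (fun t' : Fin (r + 1) → ℂ => (rb m b t t' R).2) t := rb_cont hRt
  have hne : br m b t (rb m b t t Q) R.1 ≠ 0 := by rw [hbt]; exact hR2
  have hr := root_ev hm (fun t' => (rb m b t t' R).2 / br m b t' (rb m b t t' Q) R.1)
    (hcr.div hcb hne) (by
      show (rb m b t t R).2 / br m b t (rb m b t t Q) R.1 = 1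
      rw [hbt, rb_self hR, div_self hR2]) (by
      filter_upwards [hQ1, hcb.eventually_ne hne] with t' h3 h4
      rw [div_pow, rb_pow hm hR, br_pow hm (rb_pts hm hQ h3), div_self]
      rw [← br_pow hm (rb_pts hm hQ h3)]
      exact pow_ne_zero _ h4)
  filter_upwards [hQ1, hS, hr, hcb.eventually_ne hne] with t' h3 h4 h5 h6
  exact ⟨h3, h4, h4, (div_eq_one_iff_eq h6).1 h5⟩

/-- The integrand is continuous. -/
theorem ig_cont {t t' : Fin (r + 1) → ℂ} {Q : ℂ × ℂ} {x : ℂ} (h : Nr t t' Q.1) {u : ℝ}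
    (hu : sx Q.1 x u ∈ st t' Q.1) (q : Ix2 m r) :
    ContinuousAt (fun z : (Fin (r + 1) → ℂ) × ℝ => (x - Q.1) *
      om2 m b z.1 (bp m b z.1 (rb m b t z.1 Q) (sx Q.1 x z.2)) q) (t', u) := by
  have h6 : ContinuousAt (fun z : (Fin (r + 1) → ℂ) × ℝ => (z.1, sx Q.1 x z.2)) (t', u) := by
    refine continuousAt_fst.prodMk ?_
    unfold sx
    exact continuousAt_const.add
      ((Complex.continuous_ofReal.continuousAt.comp continuousAt_snd).mul continuousAt_const)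
  have h7 := ContinuousAt.comp (x := (t', u))
    (f := fun z : (Fin (r + 1) → ℂ) × ℝ => (z.1, sx Q.1 x z.2))
    (g := fun z : (Fin (r + 1) → ℂ) × ℂ => om2 m b z.1 (bp m b z.1 (rb m b t z.1 Q) z.2) q)
    (om_cont h hu q) h6
  exact continuousAt_const.mul h7

/-- The integral is continuous. -/
theorem sgi_cont {t : Fin (r + 1) → ℂ} {Q : ℂ × ℂ} {x : ℂ} (U : Set (Fin (r + 1) → ℂ))
    (hU : IsOpen U) (h : ∀ t' ∈ U, Nr t t' Q.1 ∧ ∀ u ∈ Set.Icc (0 : ℝ) 1, sx Q.1 x u ∈ st t' Q.1)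
    (q : Ix2 m r) :
    ContinuousOn (fun t' => sgi m b t' (rb m b t t' Q) x fun X => om2 m b t' X q) U := by
  have hLC : LocallyCompactSpace U := hU.locallyCompactSpace
  have h1 := int_cont U (fun z : (Fin (r + 1) → ℂ) × ℝ => (x - Q.1) *
      om2 m b z.1 (bp m b z.1 (rb m b t z.1 Q) (sx Q.1 x z.2)) q) (fun z hz =>
        (ig_cont (h z.1 hz.1).1 ((h z.1 hz.1).2 z.2 hz.2) q).continuousWithinAt)
  refine h1.congr fun t' _ => ?_
  unfold sgi
  rfl

theorem v_nil {t : Fin (r + 1) → ℂ} (P : ℂ × ℂ) (h : P ∈ Pts m b t) :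
    (Path.nil P h : Path m b t P P).v = fun _ => 0 := by
  funext q
  simp only [Path.v, Path.int]

theorem v_snoc {t : Fin (r + 1) → ℂ} {P Q R : ℂ × ℂ} (p : Path m b t P Q) (h : Sg m b t Q R) :
    (Path.snoc p h).v = p.v + fun q => sgi m b t Q R.1 fun X => om2 m b t X q := by
  funext q
  simp only [Path.v, Path.int, Pi.add_apply]

end Prp_aux

open Prp_aux in
theorem tPrp (h1 : S_Brs) (h2 : S_Alg2) : S_Prp := by
  intro m r b t hm P Q p
  induction p with
  | nil h =>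
    obtain ⟨δ, hδ, hb⟩ := Metric.eventually_nhds_iff_ball.1 (nr_ev h)
    exact ⟨δ, hδ, fun _ _ => 0, continuousOn_const, (v_nil _ _).symm, fun t' ht' =>
      ⟨.nil _ (rb_pts hm h (hb t' ht')), v_nil _ _⟩⟩
  | @snoc Q R p h ih =>
    obtain ⟨δ₁, hδ₁, V₁, hV₁, hV₁t, hp₁⟩ := ih
    have hQ := ((h2 m r b t hm).1 P Q p).2
    have hR := ((h2 m r b t hm).1 P R (.snoc p h)).2
    obtain ⟨δ₂, hδ₂, hb⟩ := Metric.eventually_nhds_iff_ball.1 (seg_ev hm hQ hR h)
    refine ⟨min δ₁ δ₂, lt_min hδ₁ hδ₂, fun t' => V₁ t' + fun q =>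
      sgi m b t' (rb m b t t' Q) R.1 fun X => om2 m b t' X q, ?_, ?_, ?_⟩
    · refine (hV₁.mono (ball_subset_ball (min_le_left _ _))).add ?_
      refine continuousOn_pi.2 fun q => ?_
      refine sgi_cont (ball t (min δ₁ δ₂)) isOpen_ball (fun t' ht' => ?_) q
      obtain ⟨h3, h4, -⟩ := hb t' (ball_subset_ball (min_le_right _ _) ht')
      exact ⟨h3, (h1 m r b t' hm _ (rb_pts hm hQ h3)).2.2.1 R.1 h4⟩
    · rw [v_snoc]
      beta_reduce
      rw [hV₁t, rb_self hQ]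
    · intro t' ht'
      obtain ⟨p', hp'⟩ := hp₁ t' (ball_subset_ball (min_le_left _ _) ht')
      obtain ⟨-, -, h5⟩ := hb t' (ball_subset_ball (min_le_right _ _) ht')
      exact ⟨.snoc p' h5, by rw [v_snoc, hp']; rfl⟩

end TNF.AB
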