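import Pool.Agent.Lib.TNF.AB.SpecB

/-!
# PROJECT TNF, package AB: radial integrals (`S_Rad`)
-/

set_option autoImplicit false

open SEJ TATE Topology Metric MeasureTheory

noncomputable section

namespace TNF.AB

namespace Rad_aux

theorem spos {d ρ u : ℝ} (hd : 0 < d) (hρ : 0 < ρ) (hu : u ∈ Set.Icc (0 : ℝ) 1) :
    0 < ρ + u * (d - ρ) := by
  have h2 : ρ + u * (d - ρ) = (1 - u) * ρ + u * d := by ring
  rcases eq_or_lt_of_le hu.1 with h | h
  · rw [← h]
    linarith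
  · have h1 : 0 ≤ (1 - u) * ρ := mul_nonneg (by linarith [hu.2]) hρ.le
    have h3 := mul_pos h hd
    rw [h2]
    linarith

theorem logint {d ρ : ℝ} (hd : 0 < d) (hρ : 0 < ρ) :
    ∫ u in (0 : ℝ)..1, (d - ρ) / (ρ + u * (d - ρ)) = Real.log d - Real.log ρ := by
  have h1 : ∀ u ∈ Set.uIcc (0 : ℝ) 1, HasDerivAt (fun u : ℝ => Real.log (ρ + u * (d - ρ)))
      ((d - ρ) / (ρ + u * (d - ρ))) u := by
    intro u hu
    rw [Set.uIcc_of_le zero_le_one] at hu
    have h2 : HasDerivAt (fun u : ℝ => ρ + u * (d - ρ)) (d - ρ) u := by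
      have h3 := ((hasDerivAt_id u).mul_const (d - ρ)).const_add ρ
      rw [one_mul] at h3
      exact h3
    exact h2.log (spos hd hρ hu).ne'
  have h2 : IntervalIntegrable (fun u : ℝ => (d - ρ) / (ρ + u * (d - ρ))) volume 0 1 := by
    apply ContinuousOn.intervalIntegrable
    rw [Set.uIcc_of_le zero_le_one]
    apply ContinuousOn.div continuousOn_const (by fun_prop)
    intro u hu
    exact (spos hd hρ hu).ne'
  rw [intervalIntegral.integral_eq_sub_of_hasDerivAt h1 h2]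
  simp

theorem contB {d ρ : ℝ} (hd : 0 < d) (hρ : 0 < ρ) :
    ContinuousOn (fun u : ℝ => (d - ρ) / (ρ + u * (d - ρ))) (Set.Icc (0 : ℝ) 1) := by
  apply ContinuousOn.div continuousOn_const (by fun_prop)
  intro u hu
  exact (spos hd hρ hu).ne'

theorem mono {S : Finset ℂ} {x' x : ℂ} {B : ℝ → ℝ}
    (h : ∀ u ∈ Set.Icc (0 : ℝ) 1, sx x' x u ∉ S)
    (hB : ∀ u ∈ Set.Icc (0 : ℝ) 1, ‖x - x'‖ * Kd S (sx x' x u) ≤ B u)
    (hBc : ContinuousOn B (Set.Icc (0 : ℝ) 1)) :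
    ∫ u in (0 : ℝ)..1, ‖x - x'‖ * Kd S (sx x' x u) ≤ ∫ u in (0 : ℝ)..1, B u := by
  have hc : ContinuousOn (fun u : ℝ => ‖x - x'‖ * Kd S (sx x' x u)) (Set.Icc (0 : ℝ) 1) := by
    apply ContinuousOn.mul continuousOn_const
    unfold Kd
    apply continuousOn_finsetSum
    intro a ha
    apply ContinuousOn.div continuousOn_const
    · unfold sx
      fun_prop
    · intro u hu h0
      rw [norm_eq_zero, sub_eq_zero] at h0
      apply h u hu
      rw [h0]
      exact ha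
  apply intervalIntegral.integral_mono_on zero_le_one
  · apply ContinuousOn.intervalIntegrable
    rw [Set.uIcc_of_le zero_le_one]
    exact hc
  · apply ContinuousOn.intervalIntegrable
    rw [Set.uIcc_of_le zero_le_one]
    exact hBc
  · exact hB

theorem sx_eq (a e : ℂ) {d : ℝ} (hd : 0 < d) (ρ u : ℝ) :
    sx (a + (ρ / d : ℝ) * e) (a + e) u = a + ((ρ + u * (d - ρ)) / d : ℝ) * e := by
  unfold sx
  have hd' : (d : ℂ) ≠ 0 := by exact_mod_cast hd.ne'
  push_cast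
  field_simp
  ring

theorem nrm (e : ℂ) {d : ℝ} (hd : 0 < d) (he : ‖e‖ = d) {s : ℝ} (hs : 0 ≤ s) :
    ‖((s / d : ℝ) : ℂ) * e‖ = s := by
  rw [norm_mul, Complex.norm_real, he, Real.norm_eq_abs, abs_of_nonneg (by positivity)]
  field_simp

theorem nrm2 (a e : ℂ) {d : ℝ} (hd : 0 < d) (he : ‖e‖ = d) (ρ : ℝ) :
    ‖a + e - (a + (ρ / d : ℝ) * e)‖ = |d - ρ| := by
  have hd' : (d : ℂ) ≠ 0 := by exact_mod_cast hd.ne'
  have e1 : a + e - (a + (ρ / d : ℝ) * e) = (((d - ρ) / d : ℝ) : ℂ) * e := by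
    push_cast
    field_simp
    ring
  rw [e1, norm_mul, Complex.norm_real, he, Real.norm_eq_abs, abs_div, abs_of_pos hd]
  field_simp

/-- Part (1), with `x = a + e`. -/
theorem part1 (S : Finset ℂ) (a : ℂ) (ha : a ∈ S) (ρ : ℝ) (hρ : 0 < ρ)
    (hS : ∀ c ∈ S, c ≠ a → 2 * ρ ≤ ‖c - a‖) (e : ℂ) (d : ℝ) (hd : 0 < d) (he : ‖e‖ = d)
    (hdρ : d ≤ ρ) :
    (∀ u ∈ Set.Icc (0 : ℝ) 1, sx (a + (ρ / d : ℝ) * e) (a + e) u ∉ S) ∧
      ∫ u in (0 : ℝ)..1, ‖a + e - (a + (ρ / d : ℝ) * e)‖ *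
        Kd S (sx (a + (ρ / d : ℝ) * e) (a + e) u) ≤ Real.log (ρ / d) + S.card := by
  have hsl : ∀ u ∈ Set.Icc (0 : ℝ) 1, ρ + u * (d - ρ) ≤ ρ := by
    intro u hu
    have h1 : u * (d - ρ) ≤ 0 := mul_nonpos_of_nonneg_of_nonpos hu.1 (by linarith)
    linarith
  have hca : ∀ u ∈ Set.Icc (0 : ℝ) 1, ‖sx (a + (ρ / d : ℝ) * e) (a + e) u - a‖ =
      ρ + u * (d - ρ) := by
    intro u hu
    rw [sx_eq a e hd, add_sub_cancel_left, nrm e hd he (spos hd hρ hu).le]
  have hcc : ∀ u ∈ Set.Icc (0 : ℝ) 1, ∀ c ∈ S, c ≠ a →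
      ρ ≤ ‖sx (a + (ρ / d : ℝ) * e) (a + e) u - c‖ := by
    intro u hu c hc hca'
    have h1 := hS c hc hca'
    have h2 := hca u hu
    have h3 := hsl u hu
    have h4 : ‖c - a‖ ≤ ‖sx (a + (ρ / d : ℝ) * e) (a + e) u - a‖ +
        ‖sx (a + (ρ / d : ℝ) * e) (a + e) u - c‖ := by
      have h5 : c - a = (sx (a + (ρ / d : ℝ) * e) (a + e) u - a) -
          (sx (a + (ρ / d : ℝ) * e) (a + e) u - c) := by ring
      rw [h5]
      exact norm_sub_le _ _
    linarith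
  have hn : ∀ u ∈ Set.Icc (0 : ℝ) 1, sx (a + (ρ / d : ℝ) * e) (a + e) u ∉ S := by
    intro u hu hmem
    by_cases h : sx (a + (ρ / d : ℝ) * e) (a + e) u = a
    · have h1 := hca u hu
      rw [h, sub_self, norm_zero] at h1
      have h2 := spos hd hρ hu
      linarith
    · have h1 := hcc u hu _ hmem h
      rw [sub_self, norm_zero] at h1
      linarith
  refine ⟨hn, ?_⟩
  have hB : ∀ u ∈ Set.Icc (0 : ℝ) 1, ‖a + e - (a + (ρ / d : ℝ) * e)‖ *
      Kd S (sx (a + (ρ / d : ℝ) * e) (a + e) u) ≤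
      -((d - ρ) / (ρ + u * (d - ρ))) + S.card := by
    intro u hu
    have hs := spos hd hρ hu
    rw [nrm2 a e hd he ρ, abs_of_nonpos (by linarith)]
    unfold Kd
    rw [← Finset.add_sum_erase S _ ha, hca u hu]
    have h1 : ∑ c ∈ S.erase a, 1 / ‖sx (a + (ρ / d : ℝ) * e) (a + e) u - c‖ ≤
        ∑ c ∈ S.erase a, 1 / ρ := by
      apply Finset.sum_le_sum
      intro c hc
      rw [Finset.mem_erase] at hc
      exact one_div_le_one_div_of_le hρ (hcc u hu c hc.2 hc.1)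
    rw [Finset.sum_const, nsmul_eq_mul] at h1
    have h2 : ((S.erase a).card : ℝ) ≤ S.card := by
      exact_mod_cast Finset.card_le_card (Finset.erase_subset a S)
    have h3 : 0 ≤ ρ - d := by linarith
    have h4 : (ρ - d) * (((S.erase a).card : ℝ) * (1 / ρ)) ≤ S.card := by
      rw [mul_one_div, mul_div_assoc', div_le_iff₀ hρ]
      have h5 : (ρ - d) * ((S.erase a).card : ℝ) ≤ ρ * S.card :=
        mul_le_mul (by linarith) h2 (Nat.cast_nonneg _) hρ.le
      linarith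
    calc -(d - ρ) * (1 / (ρ + u * (d - ρ)) +
          ∑ c ∈ S.erase a, 1 / ‖sx (a + (ρ / d : ℝ) * e) (a + e) u - c‖) =
          -((d - ρ) / (ρ + u * (d - ρ))) + (ρ - d) *
            ∑ c ∈ S.erase a, 1 / ‖sx (a + (ρ / d : ℝ) * e) (a + e) u - c‖ := by ring
      _ ≤ -((d - ρ) / (ρ + u * (d - ρ))) +
          (ρ - d) * (((S.erase a).card : ℝ) * (1 / ρ)) := by gcongr
      _ ≤ -((d - ρ) / (ρ + u * (d - ρ))) + S.card := by linarith
  refine (mono hn hB ((contB hd hρ).neg.add continuousOn_const)).trans (le_of_eq ?_)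
  have hint : IntervalIntegrable (fun u : ℝ => -((d - ρ) / (ρ + u * (d - ρ)))) volume 0 1 := by
    apply ContinuousOn.intervalIntegrable
    rw [Set.uIcc_of_le zero_le_one]
    exact (contB hd hρ).neg
  rw [intervalIntegral.integral_add hint (by simp), intervalIntegral.integral_neg, logint hd hρ,
    Real.log_div hρ.ne' hd.ne']
  simp

/-- Part (2). -/
theorem part2 (S : Finset ℂ) (R : ℝ) (hR : 0 < R) (hS : ∀ c ∈ S, 2 * ‖c‖ ≤ R) (x : ℂ) (d : ℝ)
    (hx : ‖x‖ = d) (hRd : R ≤ d) :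
    (∀ u ∈ Set.Icc (0 : ℝ) 1, sx ((R / d : ℝ) * x) x u ∉ S) ∧
      ∫ u in (0 : ℝ)..1, ‖x - (R / d : ℝ) * x‖ * Kd S (sx ((R / d : ℝ) * x) x u) ≤
        2 * S.card * Real.log (d / R) := by
  have hd : 0 < d := by linarith
  have hsx : ∀ u : ℝ, sx ((R / d : ℝ) * x) x u = ((R + u * (d - R)) / d : ℝ) * x := by
    intro u
    have h1 := sx_eq 0 x hd R u
    rw [zero_add, zero_add, zero_add] at h1
    exact h1
  have hsl : ∀ u ∈ Set.Icc (0 : ℝ) 1, R ≤ R + u * (d - R) := by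
    intro u hu
    have h1 : 0 ≤ u * (d - R) := mul_nonneg hu.1 (by linarith)
    linarith
  have hcc : ∀ u ∈ Set.Icc (0 : ℝ) 1, ∀ c ∈ S,
      (R + u * (d - R)) / 2 ≤ ‖sx ((R / d : ℝ) * x) x u - c‖ := by
    intro u hu c hc
    have h1 := hS c hc
    have h2 := hsl u hu
    have h3 : ‖sx ((R / d : ℝ) * x) x u‖ = R + u * (d - R) := by
      rw [hsx, nrm x hd hx (spos hd hR hu).le]
    have h4 := norm_sub_norm_le (sx ((R / d : ℝ) * x) x u) c
    linarith
  have hn : ∀ u ∈ Set.Icc (0 : ℝ) 1, sx ((R / d : ℝ) * x) x u ∉ S := by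
    intro u hu hmem
    have h1 := hcc u hu _ hmem
    rw [sub_self, norm_zero] at h1
    have h2 := spos hd hR hu
    linarith
  refine ⟨hn, ?_⟩
  have hB : ∀ u ∈ Set.Icc (0 : ℝ) 1, ‖x - (R / d : ℝ) * x‖ * Kd S (sx ((R / d : ℝ) * x) x u) ≤
      2 * S.card * ((d - R) / (R + u * (d - R))) := by
    intro u hu
    have hs := spos hd hR hu
    have h0 := nrm2 0 x hd hx R
    rw [zero_add, zero_add, abs_of_nonneg (by linarith)] at h0
    rw [h0]
    unfold Kd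
    have h1 : ∑ c ∈ S, 1 / ‖sx ((R / d : ℝ) * x) x u - c‖ ≤
        ∑ c ∈ S, 1 / ((R + u * (d - R)) / 2) := by
      apply Finset.sum_le_sum
      intro c hc
      exact one_div_le_one_div_of_le (by positivity) (hcc u hu c hc)
    rw [Finset.sum_const, nsmul_eq_mul] at h1
    have h3 : 0 ≤ d - R := by linarith
    calc (d - R) * ∑ c ∈ S, 1 / ‖sx ((R / d : ℝ) * x) x u - c‖ ≤
          (d - R) * (S.card * (1 / ((R + u * (d - R)) / 2))) := by gcongr
      _ = 2 * S.card * ((d - R) / (R + u * (d - R))) := by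
          field_simp
  refine (mono hn hB (continuousOn_const.mul (contB hd hR))).trans (le_of_eq ?_)
  rw [intervalIntegral.integral_const_mul, logint hd hR, Real.log_div hd.ne' hR.ne']

end Rad_aux

open Rad_aux in
/-- **Rad**. -/
theorem tRad : S_Rad := by
  intro S
  refine ⟨?_, ?_⟩
  · intro a ha ρ hρ hS x hx hxρ
    have hd : 0 < ‖x - a‖ := by
      rw [norm_pos_iff, sub_ne_zero]
      exact hx
    have h := part1 S a ha ρ hρ hS (x - a) ‖x - a‖ hd rfl hxρ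
    rw [add_sub_cancel] at h
    exact h
  · intro R hR hS x hRx
    exact part2 S R hR hS x ‖x‖ rfl hRx

end TNF.AB
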