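import Pool.Agent.Lib.TNF.AB.SpecB

/-!
# A differential identity for rational functions

Proof of `S_Spa`.
-/

set_option autoImplicit false

open SEJ TATE Topology Metric MeasureTheory

noncomputable section

namespace TNF.AB

namespace Spa_aux

open Polynomial

variable {r : ℕ}

theorem fj_ne (m : ℕ) (b : Fin (r + 1) → ℕ) (u : ℕ) (hm : 0 < m) (j : Fin (r + 1)) (n : ℕ) :
    fj m b u j ≠ (n : ℂ) + 1 := by
  intro h
  have hm' : (m : ℂ) ≠ 0 := by exact_mod_cast hm.ne'
  rw [fj, div_eq_iff hm'] at h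
  have h1 : u * b j % m = (n + 1) * m := by exact_mod_cast h
  have h2 := Nat.mod_lt (u * b j) hm
  nlinarith

theorem sum_ne (m : ℕ) (b : Fin (r + 1) → ℕ) (u : ℕ) (hm : 0 < m) (hu : u.Coprime m)
    (hb : ∀ j, ¬ m ∣ b j) (d : ℕ) : (d : ℂ) + ∑ j, fj m b u j ≠ 0 := by
  intro h
  have hm' : (m : ℂ) ≠ 0 := by exact_mod_cast hm.ne'
  have h1 : ∑ j, fj m b u j = ((∑ j, u * b j % m : ℕ) : ℂ) / m := by
    rw [Nat.cast_sum, Finset.sum_div]
    rfl
  have h2 : ((d * m + ∑ j, u * b j % m : ℕ) : ℂ) = 0 := by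
    have h3 : ((d * m + ∑ j, u * b j % m : ℕ) : ℂ) =
        ((d : ℂ) + ((∑ j, u * b j % m : ℕ) : ℂ) / m) * m := by
      rw [add_mul, div_mul_cancel₀ _ hm']
      push_cast
      ring
    rw [h3, ← h1, h, zero_mul]
  have h3 : d * m + ∑ j, u * b j % m = 0 := by exact_mod_cast h2
  have h4 : ∑ j, u * b j % m = 0 := by omega
  have h5 : u * b 0 % m = 0 := (Finset.sum_eq_zero_iff.1 h4) 0 (Finset.mem_univ _)
  exact hb 0 (hu.symm.dvd_of_dvd_mul_left (Nat.dvd_of_mod_eq_zero h5))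

/-- `∏_(l ≠ j) (X - t_l)` -/
def qj (t : Fin (r + 1) → ℂ) (j : Fin (r + 1)) : ℂ[X] :=
  ∏ l ∈ Finset.univ.erase j, (X - C (t l))

theorem qj_monic (t : Fin (r + 1) → ℂ) (j : Fin (r + 1)) : (qj t j).Monic :=
  monic_prod_of_monic _ _ fun l _ => monic_X_sub_C (t l)

theorem qj_deg (t : Fin (r + 1) → ℂ) (j : Fin (r + 1)) : (qj t j).natDegree = r := by
  rw [qj, natDegree_prod_of_monic _ _ fun l _ => monic_X_sub_C (t l)]
  simp only [natDegree_X_sub_C, Finset.sum_const, smul_eq_mul, mul_one]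
  rw [Finset.card_erase_of_mem (Finset.mem_univ _), Finset.card_univ, Fintype.card_fin,
    Nat.add_sub_cancel]

theorem qp_eq (t : Fin (r + 1) → ℂ) (j : Fin (r + 1)) : qp t = (X - C (t j)) * qj t j :=
  (Finset.mul_prod_erase Finset.univ (fun l => X - C (t l)) (Finset.mem_univ j)).symm

theorem qp_monic (t : Fin (r + 1) → ℂ) : (qp t).Monic :=
  monic_prod_of_monic _ _ fun l _ => monic_X_sub_C (t l)

theorem qp_deg (t : Fin (r + 1) → ℂ) : (qp t).natDegree = r + 1 := by
  rw [qp, natDegree_prod_of_monic _ _ fun l _ => monic_X_sub_C (t l)]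
  simp only [natDegree_X_sub_C, Finset.sum_const, smul_eq_mul, mul_one]
  rw [Finset.card_univ, Fintype.card_fin]

theorem qj_eval_ne (t : Fin (r + 1) → ℂ) (ht : Function.Injective t) (j : Fin (r + 1)) :
    (qj t j).eval (t j) ≠ 0 := by
  rw [qj, eval_prod, Finset.prod_ne_zero_iff]
  intro l hl
  rw [eval_sub, eval_X, eval_C, sub_ne_zero]
  intro h
  exact (Finset.mem_erase.1 hl).1 (ht h).symm

theorem qj_eval_zero (t : Fin (r + 1) → ℂ) (j l : Fin (r + 1)) (h : l ≠ j) :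
    (qj t l).eval (t j) = 0 := by
  rw [qj, eval_prod]
  refine Finset.prod_eq_zero (Finset.mem_erase.2 ⟨h.symm, Finset.mem_univ j⟩) ?_
  rw [eval_sub, eval_X, eval_C, sub_self]

theorem pp_eq (m : ℕ) (b : Fin (r + 1) → ℕ) (t : Fin (r + 1) → ℂ) (u : ℕ) :
    pp m b t u = ∑ j, C (fj m b u j) * qj t j := rfl

theorem pp_eval (m : ℕ) (b : Fin (r + 1) → ℕ) (t : Fin (r + 1) → ℂ) (u : ℕ) (j : Fin (r + 1)) :
    (pp m b t u).eval (t j) = fj m b u j * (qj t j).eval (t j) := by
  rw [pp_eq, eval_finset_sum, Finset.sum_eq_single j]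
  · rw [eval_mul, eval_C]
  · intro l _ hl
    rw [eval_mul, qj_eval_zero t j l hl, mul_zero]
  · intro h
    exact absurd (Finset.mem_univ j) h

theorem pp_deg (m : ℕ) (b : Fin (r + 1) → ℕ) (t : Fin (r + 1) → ℂ) (u : ℕ) :
    (pp m b t u).natDegree ≤ r := by
  rw [pp_eq]
  refine natDegree_sum_le_of_forall_le _ _ fun j _ => ?_
  refine (natDegree_C_mul_le _ _).trans ?_
  rw [qj_deg]

theorem pp_coeff (m : ℕ) (b : Fin (r + 1) → ℕ) (t : Fin (r + 1) → ℂ) (u : ℕ) :
    (pp m b t u).coeff r = ∑ j, fj m b u j := by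
  rw [pp_eq, finset_sum_coeff]
  refine Finset.sum_congr rfl fun j _ => ?_
  rw [coeff_C_mul]
  have h := (qj_monic t j).coeff_natDegree
  rw [qj_deg] at h
  rw [h, mul_one]

/-- No common root: contradiction. -/
theorem step (m : ℕ) (b : Fin (r + 1) → ℕ) (t : Fin (r + 1) → ℂ) (hm : 0 < m)
    (ht : Function.Injective t) (u : ℕ) (A B G : ℂ[X]) (hB : B ≠ 0)
    (h : (derivative A * B - A * derivative B) * qp t + A * B * pp m b t u = G * B ^ 2)
    (ρ : ℂ) (hρ : B.IsRoot ρ) : A.IsRoot ρ := by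
  by_contra hA
  obtain ⟨B₁, hB₁, hdvd⟩ := exists_eq_pow_rootMultiplicity_mul_and_not_dvd B hB ρ
  have hn : 0 < B.rootMultiplicity ρ := (rootMultiplicity_pos hB).2 hρ
  obtain ⟨k, hk⟩ : ∃ k, B.rootMultiplicity ρ = k + 1 := ⟨B.rootMultiplicity ρ - 1, by omega⟩
  rw [hk] at hB₁
  have hB1 : B₁.eval ρ ≠ 0 := fun h1 => hdvd (dvd_iff_isRoot.2 h1)
  have hA1 : A.eval ρ ≠ 0 := hA
  have hY0 : (X - C ρ : ℂ[X]) ≠ 0 := X_sub_C_ne_zero ρ
  have hder : derivative B = (X - C ρ) ^ k * (C ((k : ℂ) + 1) * B₁ + (X - C ρ) * derivative B₁) := by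
    rw [hB₁, derivative_mul, derivative_X_sub_C_pow]
    simp only [Nat.cast_add, Nat.cast_one, Nat.add_sub_cancel, C_add, C_1]
    rw [C_eq_natCast]
    ring
  have e1 : (derivative A * ((X - C ρ) * B₁) - A * (C ((k : ℂ) + 1) * B₁ + (X - C ρ) * derivative B₁)) *
      qp t + A * ((X - C ρ) * B₁) * pp m b t u = G * ((X - C ρ) ^ (k + 2) * B₁ ^ 2) := by
    apply mul_left_cancel₀ (pow_ne_zero k hY0)
    rw [hder, hB₁] at h
    linear_combination h
  have e2 : (qp t).eval ρ = 0 := by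
    have e3 := congrArg (fun P : ℂ[X] => P.eval ρ) e1
    simp only [eval_add, eval_sub, eval_mul, eval_X, eval_C, sub_self, eval_pow, zero_mul,
      mul_zero, add_zero, zero_sub] at e3
    rw [zero_pow (by omega), zero_mul, mul_zero] at e3
    have hk1 : ((k : ℂ) + 1) ≠ 0 := by exact_mod_cast Nat.succ_ne_zero k
    have e4 : A.eval ρ * (((k : ℂ) + 1) * B₁.eval ρ) ≠ 0 :=
      mul_ne_zero hA1 (mul_ne_zero hk1 hB1)
    have e5 : -(A.eval ρ * (((k : ℂ) + 1) * B₁.eval ρ)) ≠ 0 := neg_ne_zero.2 e4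
    exact (mul_eq_zero.1 e3).resolve_left e5
  obtain ⟨j, hj⟩ : ∃ j, ρ = t j := by
    rw [qp, eval_prod, Finset.prod_eq_zero_iff] at e2
    obtain ⟨j, _, hj⟩ := e2
    rw [eval_sub, eval_X, eval_C, sub_eq_zero] at hj
    exact ⟨j, hj⟩
  have e6 : (derivative A * ((X - C ρ) * B₁) - A * (C ((k : ℂ) + 1) * B₁ + (X - C ρ) * derivative B₁)) *
      qj t j + A * B₁ * pp m b t u = G * ((X - C ρ) ^ (k + 1) * B₁ ^ 2) := by
    apply mul_left_cancel₀ hY0
    rw [qp_eq t j, ← hj] at e1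
    linear_combination e1
  have e7 := congrArg (fun P : ℂ[X] => P.eval ρ) e6
  simp only [eval_add, eval_sub, eval_mul, eval_X, eval_C, sub_self, eval_pow, zero_mul,
    mul_zero, add_zero, zero_sub] at e7
  rw [zero_pow (by omega), zero_mul, mul_zero] at e7
  have e8 : (pp m b t u).eval ρ = fj m b u j * (qj t j).eval ρ := by
    rw [hj]
    exact pp_eval m b t u j
  have e9 : (qj t j).eval ρ ≠ 0 := by
    rw [hj]
    exact qj_eval_ne t ht j
  rw [e8] at e7
  have e10 : (fj m b u j - ((k : ℂ) + 1)) * (A.eval ρ * (B₁.eval ρ * (qj t j).eval ρ)) = 0 := by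
    linear_combination e7
  have e11 : A.eval ρ * (B₁.eval ρ * (qj t j).eval ρ) ≠ 0 :=
    mul_ne_zero hA1 (mul_ne_zero hB1 e9)
  exact fj_ne m b u hm j k (sub_eq_zero.1 ((mul_eq_zero.1 e10).resolve_right e11))

/-- The case of a constant denominator. -/
theorem base (m : ℕ) (b : Fin (r + 1) → ℕ) (t : Fin (r + 1) → ℂ) (hm : 0 < m)
    (hb : ∀ j, ¬ m ∣ b j) (u : ℕ) (hu : u.Coprime m) (A G : ℂ[X])
    (hG : ∀ i, r ≤ i → G.coeff i = 0)
    (h : derivative A * qp t + A * pp m b t u = G) : G = 0 := by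
  by_cases hA : A = 0
  · rw [← h, hA, derivative_zero, zero_mul, zero_mul, add_zero]
  exfalso
  have h1 : (A * pp m b t u).coeff (A.natDegree + r) = A.leadingCoeff * ∑ j, fj m b u j := by
    rw [coeff_mul_add_eq_of_natDegree_le le_rfl (pp_deg m b t u), pp_coeff]
    rfl
  have h2 : (derivative A * qp t).coeff (A.natDegree + r) = A.leadingCoeff * (A.natDegree : ℂ) := by
    rcases Nat.eq_zero_or_pos A.natDegree with h0 | h0
    · rw [h0, Nat.cast_zero, mul_zero]
      have h3 : derivative A = 0 := by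
        rw [eq_C_of_natDegree_eq_zero h0, derivative_C]
      rw [h3, zero_mul, coeff_zero]
    · obtain ⟨d, hd⟩ : ∃ d, A.natDegree = d + 1 := ⟨A.natDegree - 1, by omega⟩
      have h3 : (derivative A).natDegree ≤ d := by
        have h4 := natDegree_derivative_le A
        omega
      have h5 : A.natDegree + r = d + (r + 1) := by omega
      rw [h5, coeff_mul_add_eq_of_natDegree_le h3 (qp_deg t).le]
      have h6 := (qp_monic t).coeff_natDegree
      rw [qp_deg] at h6
      rw [h6, mul_one, coeff_derivative, ← hd]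
      have h7 : A.leadingCoeff = A.coeff A.natDegree := rfl
      rw [h7, hd]
      push_cast
      ring
  have h3 := congrArg (fun P : ℂ[X] => P.coeff (A.natDegree + r)) h
  simp only [coeff_add] at h3
  rw [h1, h2, hG _ (by omega), ← mul_add] at h3
  rcases mul_eq_zero.1 h3 with h4 | h4
  · exact hA (leadingCoeff_eq_zero.1 h4)
  · exact sum_ne m b u hm hu hb _ h4

theorem main (m : ℕ) (b : Fin (r + 1) → ℕ) (t : Fin (r + 1) → ℂ) (hm : 0 < m)
    (hb : ∀ j, ¬ m ∣ b j) (ht : Function.Injective t) (u : ℕ) (hu : u.Coprime m) (G : ℂ[X])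
    (hG : ∀ i, r ≤ i → G.coeff i = 0) : ∀ (N : ℕ) (A B : ℂ[X]), B ≠ 0 → B.natDegree = N →
    (derivative A * B - A * derivative B) * qp t + A * B * pp m b t u = G * B ^ 2 → G = 0 := by
  intro N
  induction N with
  | zero =>
    intro A B hB hN h
    have h1 := eq_C_of_natDegree_eq_zero hN
    set c := B.coeff 0 with hc
    have hc0 : c ≠ 0 := by
      intro h2
      rw [h2, C_0] at h1
      exact hB h1
    have h3 : derivative (C c⁻¹ * A) * qp t + C c⁻¹ * A * pp m b t u = G := by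
      have hcc : (C c : ℂ[X]) * C c⁻¹ = 1 := by
        rw [← C_mul, mul_inv_cancel₀ hc0, C_1]
      rw [h1, derivative_C, mul_zero, sub_zero] at h
      rw [derivative_C_mul]
      linear_combination (C c⁻¹ * C c⁻¹) * h +
        (-(C c⁻¹ * derivative A * qp t) - C c⁻¹ * A * pp m b t u + G * (C c * C c⁻¹ + 1)) * hcc
    exact base m b t hm hb u hu (C c⁻¹ * A) G hG h3
  | succ N ih =>
    intro A B hB hN h
    have hdeg : B.degree ≠ 0 := by
      intro h1
      have h2 : B.natDegree = 0 := natDegree_eq_of_degree_eq_some h1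
      omega
    obtain ⟨ρ, hρ⟩ := IsAlgClosed.exists_root B hdeg
    have hA := step m b t hm ht u A B G hB h ρ hρ
    obtain ⟨B₁, hB₁⟩ := dvd_iff_isRoot.2 hρ
    obtain ⟨A₁, hA₁⟩ := dvd_iff_isRoot.2 hA
    have hY0 : (X - C ρ : ℂ[X]) ≠ 0 := X_sub_C_ne_zero ρ
    have hB1 : B₁ ≠ 0 := by
      intro h1
      rw [h1, mul_zero] at hB₁
      exact hB hB₁
    refine ih A₁ B₁ hB1 ?_ ?_
    · rw [hB₁, natDegree_mul hY0 hB1, natDegree_X_sub_C] at hN
      omega
    · apply mul_left_cancel₀ (pow_ne_zero 2 hY0)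
      have hdA : derivative A = A₁ + (X - C ρ) * derivative A₁ := by
        rw [hA₁, derivative_mul, derivative_sub, derivative_X, derivative_C, sub_zero, one_mul]
      have hdB : derivative B = B₁ + (X - C ρ) * derivative B₁ := by
        rw [hB₁, derivative_mul, derivative_sub, derivative_X, derivative_C, sub_zero, one_mul]
      rw [hdA, hdB, hA₁, hB₁] at h
      linear_combination h

end Spa_aux

theorem tSpa : S_Spa := by
  intro m r b t hC ht u _ hu A B G hB hG h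
  exact Spa_aux.main m b t (by have := hC.1; omega) hC.2.1 ht u hu G hG B.natDegree A B hB rfl h

end TNF.AB
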