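import Pool.Agent.Lib.TNF.AB.SpecB

/-!
# PROJECT TNF, package AB: the periods span (`S_Spn`)
-/

set_option autoImplicit false

open SEJ TATE Topology Metric MeasureTheory

noncomputable section

namespace TNF.AB

namespace Spn_aux

/-- A linear form in coordinates. -/
private lemma lf_coord {m r : ℕ} (F : (Ix2 m r → ℂ) →ₗ[ℂ] ℂ) (v : Ix2 m r → ℂ) :
    F v = ∑ q, F (Pi.single q 1) * v q := by
  classical
  conv_lhs => rw [pi_eq_sum_univ v, map_sum]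
  refine Finset.sum_congr rfl fun q _ => ?_
  rw [map_smul, smul_eq_mul, mul_comm]
  congr 2
  funext j
  rw [Pi.single_apply]
  by_cases h : q = j
  · subst h; simp
  · rw [if_neg h, if_neg (fun h' => h h'.symm)]

private lemma kd_nonneg (S : Finset ℂ) (x : ℂ) : 0 ≤ Kd S x :=
  Finset.sum_nonneg fun a _ => by positivity

/-- The bound of the form. -/
private lemma h_bound {m r : ℕ} {b : Fin (r + 1) → ℕ} {t : Fin (r + 1) → ℂ} (ℓ : Ix2 m r → ℂ)
    (hb : ∀ q : Ix2 m r, ∃ (C : ℝ) (N : ℕ), 0 ≤ C ∧ ∀ X ∈ Pts m b t,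
      ‖om2 m b t X q‖ ≤ C * (1 + ‖X.1‖) ^ N * Kd (St t) X.1) :
    ∃ (C : ℝ) (N : ℕ), 0 ≤ C ∧ ∀ X ∈ Pts m b t,
      ‖∑ q, ℓ q * om2 m b t X q‖ ≤ C * Kd (St t) X.1 * (1 + ‖X.1‖) ^ N := by
  choose C N hC hX using hb
  refine ⟨∑ q, ‖ℓ q‖ * C q, ∑ q, N q, Finset.sum_nonneg fun q _ =>
    mul_nonneg (norm_nonneg _) (hC q), fun X hXm => ?_⟩
  refine (norm_sum_le _ _).trans ?_
  rw [Finset.sum_mul, Finset.sum_mul]
  refine Finset.sum_le_sum fun q _ => ?_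
  rw [norm_mul]
  have h1 : (1 + ‖X.1‖) ^ N q ≤ (1 + ‖X.1‖) ^ (∑ q, N q) :=
    pow_le_pow_right₀ (by linarith [norm_nonneg X.1])
      (Finset.single_le_sum (f := N) (fun i _ => Nat.zero_le _) (Finset.mem_univ q))
  have h2 := hX q X hXm
  have h3 : C q * (1 + ‖X.1‖) ^ N q * Kd (St t) X.1 ≤
      C q * (1 + ‖X.1‖) ^ (∑ q, N q) * Kd (St t) X.1 :=
    mul_le_mul_of_nonneg_right (mul_le_mul_of_nonneg_left h1 (hC q)) (kd_nonneg _ _)
  calc ‖ℓ q‖ * ‖om2 m b t X q‖ ≤ ‖ℓ q‖ * (C q * (1 + ‖X.1‖) ^ (∑ q, N q) * Kd (St t) X.1) :=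
        mul_le_mul_of_nonneg_left (h2.trans h3) (norm_nonneg _)
    _ = ‖ℓ q‖ * C q * Kd (St t) X.1 * (1 + ‖X.1‖) ^ (∑ q, N q) := by ring

/-- The coefficients of the polynomials `G_u`. -/
private lemma g_coeff {m r : ℕ} (ℓ : Ix2 m r → ℂ) (u i : ℕ) :
    (∑ q : Ix2 m r, if c2 q = u then Polynomial.C (ℓ q) * Polynomial.X ^ e2 q else 0).coeff i =
      ∑ q : Ix2 m r, if c2 q = u ∧ e2 q = i then ℓ q else 0 := by
  rw [Polynomial.finsetSum_coeff]
  refine Finset.sum_congr rfl fun q _ => ?_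
  by_cases h1 : c2 q = u
  · rw [if_pos h1, Polynomial.coeff_C_mul_X_pow]
    by_cases h2 : e2 q = i
    · rw [if_pos h2.symm, if_pos ⟨h1, h2⟩]
    · rw [if_neg (fun h => h2 h.symm), if_neg (fun h => h2 h.2)]
  · rw [if_neg h1, if_neg (fun h => h1 h.1), Polynomial.coeff_zero]

private lemma ix2_ext {m r : ℕ} {p q : Ix2 m r} (h1 : c2 p = c2 q) (h2 : e2 p = e2 q) : p = q :=
  Subtype.ext (Prod.ext (Fin.ext h1) (Fin.ext h2))

end Spn_aux

open Spn_aux in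
/-- **Spn**: THE PERIODS SPAN. -/
theorem tSpn (h1 : S_Lin) (h2 : S_Pot) (h3 : S_Bhm) (h4 : S_Grw) (h5 : S_Al3) (h6 : S_Spa)
    (h7 : S_Spc) (_h8 : S_Gp) : S_Spn := by
  classical
  intro m r b t hm ht
  by_contra hne
  have hm1 : 1 ≤ m := le_trans (by norm_num) hm.1
  obtain ⟨F, hF0, hF⟩ := Submodule.exists_le_ker_of_lt_top _ (lt_top_iff_ne_top.2 hne)
  set ℓ : Ix2 m r → ℂ := fun q => F (Pi.single q 1) with hℓ
  have hker : ∀ v ∈ LZ2 m b t, ∑ q, ℓ q * v q = 0 := fun v hv => by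
    rw [← lf_coord F v]
    exact LinearMap.mem_ker.1 (hF (Submodule.subset_span hv))
  obtain ⟨hr1, -, -, hmono, hlin, -⟩ := h1 m r b t hm1
  obtain ⟨hreg, hint⟩ := hlin (Ix2 m r) Finset.univ ℓ (fun q X => om2 m b t X q) ∅
    (fun q _ => hr1 q)
  -- the primitive
  obtain ⟨f, hf⟩ := (h2 m r b t hm ht ∅ Set.finite_empty _ hreg).1 (fun P p _ => by
    rw [hint P P p (Set.disjoint_empty _)]
    exact hker p.v ⟨P, p, rfl⟩)
  have hfS : Dv m b t (St t : Set ℂ) f fun X => ∑ q, ℓ q * om2 m b t X q :=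
    fun X hX _ => hf X hX (Set.notMem_empty _)
  -- growth
  obtain ⟨C, N, hC, hCb⟩ := h_bound ℓ (h3 m r b t hm ht).1
  obtain ⟨C', N', M', hC', hgr⟩ := h4 m r b t hm1 (St t) f _ C N (Finset.Subset.refl _) hC hfS
    (fun X hX _ => by
      refine (hCb X hX).trans ?_
      refine mul_le_mul_of_nonneg_left ?_ (mul_nonneg hC (kd_nonneg _ _))
      linarith [norm_nonneg (f X)])
  obtain ⟨A, n, hA⟩ := h5 m r b t hm1 (St t) f _ (Finset.Subset.refl _) hfS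
    ⟨C', N', M', hC', hgr⟩
  -- the denominator
  set B : Polynomial ℂ := ∏ a ∈ St t, (Polynomial.X - Polynomial.C a) ^ n with hB
  have hBe : ∀ x, B.eval x = ∏ a ∈ St t, (x - a) ^ n := fun x => by
    rw [hB, Polynomial.eval_prod]
    exact Finset.prod_congr rfl fun a _ => by simp
  have hB1 : ∀ x ∉ St t, B.eval x ≠ 0 := fun x hx => by
    rw [hBe]
    exact Finset.prod_ne_zero_iff.2 fun a ha => pow_ne_zero _
      (sub_ne_zero.2 fun h => hx (h ▸ ha))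
  have hB0 : B ≠ 0 := Finset.prod_ne_zero_iff.2 fun a _ =>
    pow_ne_zero _ (Polynomial.X_sub_C_ne_zero a)
  -- all the coefficients vanish
  have hz : ∀ q₀ : Ix2 m r, ℓ q₀ = 0 := fun q₀ => by
    have hu : c2 q₀ < m := q₀.1.1.2
    have hcop : (c2 q₀).Coprime m := q₀.2
    obtain ⟨A', hA'⟩ := h7 m r b t hm ht ℓ f A B (St t) (Finset.Subset.refl _) hB1 hfS
      (fun X hX hXS => by rw [hBe]; exact hA X hX hXS) (c2 q₀) hu hcop
    have hG := h6 m r b t hm ht (c2 q₀) hu hcop A' B _ hB0 (fun i hi => by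
      rw [g_coeff]
      refine Finset.sum_eq_zero fun q _ => if_neg ?_
      rintro ⟨-, h⟩
      have : e2 q < r := q.1.2.2
      omega) hA'
    have hc := g_coeff ℓ (c2 q₀) (e2 q₀)
    rw [hG, Polynomial.coeff_zero] at hc
    rw [Finset.sum_eq_single q₀] at hc
    · rw [if_pos ⟨rfl, rfl⟩] at hc
      exact hc.symm
    · intro q _ hq
      exact if_neg fun h => hq (ix2_ext h.1 h.2)
    · intro h
      exact absurd (Finset.mem_univ _) h
  apply hF0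
  ext1 q
  ext
  simpa [hℓ] using hz q

end TNF.AB
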