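import Pool.Agent.Lib.TNF.AB.SpecB

/-!
# PROJECT TNF, package AB, module Tau: conjugation of the algebraic condition
-/

set_option autoImplicit false

open SEJ TATE Topology Metric MeasureTheory

noncomputable section

namespace TNF.AB

namespace Tau_aux

variable {m r : ℕ} {b : Fin (r + 1) → ℕ} {t : Fin (r + 1) → ℂ} (σ : ℂ →+* ℂ)

theorem qq_map (x : ℂ) : qq (fun j => σ (t j)) (σ x) = σ (qq t x) := by
  unfold qq
  rw [map_prod]
  refine Finset.prod_congr rfl fun j _ => ?_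
  rw [map_sub]

theorem gu_map (u : ℕ) (P : ℂ × ℂ) :
    gu m b (fun j => σ (t j)) u (σ P.1, σ P.2) = σ (gu m b t u P) := by
  unfold gu
  rw [map_div₀, map_pow, map_prod]
  congr 1
  refine Finset.prod_congr rfl fun j _ => ?_
  rw [map_pow, map_sub]

theorem eta_map (P X : ℂ × ℂ) :
    eta m b (fun j => σ (t j)) (σ P.1, σ P.2) (σ X.1, σ X.2) = σ (eta m b t P X) := by
  unfold eta
  rw [map_sum]
  refine Finset.sum_congr rfl fun u _ => ?_
  rw [map_div₀, map_mul, map_mul, map_sub, gu_map, gu_map, qq_map]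

theorem om_map (X : ℂ × ℂ) (p : Ix m b) :
    om m b (fun j => σ (t j)) (σ X.1, σ X.2) p = σ (om m b t X p) := by
  unfold om
  rw [map_div₀, map_mul, map_pow, map_pow, map_prod]
  congr 1
  refine Finset.prod_congr rfl fun j _ => ?_
  rw [map_pow, map_sub]

theorem hD_map {k : ℕ} (Q' Q : Fin k → ℂ × ℂ) (w : Ix m b → ℂ) (X : ℂ × ℂ) :
    hD m b (fun j => σ (t j)) (fun a => (σ (Q' a).1, σ (Q' a).2)) (fun a => (σ (Q a).1, σ (Q a).2))
      (fun q => σ (w q)) (σ X.1, σ X.2) = σ (hD m b t Q' Q w X) := by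
  unfold hD
  rw [map_sub, map_sum, map_sum]
  congr 1
  · refine Finset.sum_congr rfl fun a _ => ?_
    rw [map_sub, eta_map, eta_map]
  · refine Finset.sum_congr rfl fun q _ => ?_
    rw [map_mul, om_map]

theorem eval_map' (B : Polynomial ℂ) (x : ℂ) : (B.map σ).eval (σ x) = σ (B.eval x) := by
  rw [Polynomial.eval_map, Polynomial.eval₂_at_apply]

theorem evA_map (A : ℕ → Polynomial ℂ) (X : ℂ × ℂ) :
    evA m (fun c => (A c).map σ) (σ X.1, σ X.2) = σ (evA m A X) := by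
  unfold evA
  rw [map_sum]
  refine Finset.sum_congr rfl fun c _ => ?_
  rw [map_mul, map_pow, eval_map']

theorem dvA_map (A : ℕ → Polynomial ℂ) (X : ℂ × ℂ) :
    dvA m b (fun j => σ (t j)) (fun c => (A c).map σ) (σ X.1, σ X.2) = σ (dvA m b t A X) := by
  unfold dvA
  rw [map_sum]
  refine Finset.sum_congr rfl fun c _ => ?_
  rw [map_mul, map_pow, map_add, map_mul, map_mul, map_sum, Polynomial.derivative_map, eval_map',
    eval_map', map_natCast]
  congr 3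
  congr 1
  refine Finset.sum_congr rfl fun j _ => ?_
  rw [map_div₀, map_mul, map_sub, map_natCast, map_natCast]

theorem pts_map (hσ : Function.Injective σ) (X : ℂ × ℂ) :
    (σ X.1, σ X.2) ∈ Pts m b (fun j => σ (t j)) ↔ X ∈ Pts m b t := by
  unfold Pts
  rw [Set.mem_ofPred_eq, Set.mem_ofPred_eq]
  refine and_congr (not_congr ?_) ?_
  · constructor
    · rintro ⟨j, hj⟩
      exact ⟨j, hσ hj⟩
    · rintro ⟨j, hj⟩
      exact ⟨j, congrArg σ hj⟩
  · have h1 : ∏ j, (σ X.1 - σ (t j)) ^ b j = σ (∏ j, (X.1 - t j) ^ b j) := by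
      rw [map_prod]
      refine Finset.prod_congr rfl fun j _ => ?_
      rw [map_pow, map_sub]
    show (σ X.2) ^ m = ∏ j, (σ X.1 - σ (t j)) ^ b j ↔ _
    rw [h1, ← map_pow]
    exact hσ.eq_iff

theorem ad_map (hσ : Function.Injective σ) {k : ℕ} (Q' Q : Fin k → ℂ × ℂ) (x : ℂ) :
    σ x ∈ Ad (fun a => (σ (Q' a).1, σ (Q' a).2)) (fun a => (σ (Q a).1, σ (Q a).2)) ↔
      x ∈ Ad Q' Q := by
  unfold Ad
  rw [Set.mem_ofPred_eq, Set.mem_ofPred_eq]
  refine exists_congr fun a => ?_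
  rw [hσ.eq_iff, hσ.eq_iff]

end Tau_aux

open Tau_aux in
theorem tTau : S_Tau := by
  intro m r b t σ k Q' Q h
  obtain ⟨A, B, w, hB, ⟨X, hX, hXA, hXB, hXe⟩, heq⟩ := h
  have hσ : Function.Injective (σ : ℂ →+* ℂ) := σ.injective
  refine ⟨fun c => (A c).map (σ : ℂ →+* ℂ), B.map (σ : ℂ →+* ℂ), fun q => σ (w q), ?_, ?_, ?_⟩
  · exact (Polynomial.map_ne_zero_iff hσ).2 hB
  · refine ⟨((σ : ℂ →+* ℂ) X.1, (σ : ℂ →+* ℂ) X.2), (pts_map _ hσ X).2 hX,
      fun h' => hXA ((ad_map _ hσ Q' Q X.1).1 h'), ?_, ?_⟩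
    · show (B.map (σ : ℂ →+* ℂ)).eval ((σ : ℂ →+* ℂ) X.1) ≠ 0
      rw [eval_map']
      exact (map_ne_zero_iff _ hσ).2 hXB
    · rw [evA_map]
      exact (map_ne_zero_iff _ hσ).2 hXe
  · rintro Y hY hYA
    obtain ⟨X, rfl⟩ : ∃ X : ℂ × ℂ, Y = ((σ : ℂ →+* ℂ) X.1, (σ : ℂ →+* ℂ) X.2) :=
      ⟨(σ.symm Y.1, σ.symm Y.2), Prod.ext (σ.apply_symm_apply Y.1).symm (σ.apply_symm_apply Y.2).symm⟩
    have hX := (pts_map _ hσ X).1 hY
    have hXA : X.1 ∉ Ad Q' Q := fun h' => hYA ((ad_map _ hσ Q' Q X.1).2 h')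
    have h1 := congrArg (σ : ℂ →+* ℂ) (heq X hX hXA)
    have h2 := dvA_map (m := m) (b := b) (t := t) (σ : ℂ →+* ℂ) A X
    have h3 := evA_map (m := m) (σ : ℂ →+* ℂ) A X
    have h4 := hD_map (m := m) (b := b) (t := t) (σ : ℂ →+* ℂ) Q' Q w X
    have h5 := eval_map' (σ : ℂ →+* ℂ) B X.1
    have h6 := eval_map' (σ : ℂ →+* ℂ) B.derivative X.1
    rw [map_sub, map_mul, map_mul, map_mul, map_mul, ← h2, ← h3, ← h4, ← h5, ← h6,
      ← Polynomial.derivative_map] at h1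
    exact h1

end TNF.AB
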