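import Pool.Agent.Lib.TNF.AB.SpecB
import Pool.Agent.Lib.TATE.Asm.Coc

/-! # PROJECT TNF, package AB: the inverse transport (helper4) -/

set_option autoImplicit false

open Topology Metric MeasureTheory

noncomputable section

namespace TNF.AB

open SEJ TATE

theorem tTin : S_Tin := by
  intro m r b Φ _ t ht t₁ _ δ hδ hball V hV hVL v hv t' ht'
  have hF : ContinuousOn (fun u => (Φ.τ t u).symm (V u)) (ball t₁ δ) :=
    Coc_aux.cont_inv (fun u => Φ.τ t u) V (fun y => (Φ.hol t ht y).continuousOn.mono hball) hV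
  have hL : (fun u => (Φ.τ t u).symm (V u)) '' ball t₁ δ ⊆ LZ m b t := by
    rintro _ ⟨u, hu, rfl⟩
    have h2 := hVL u hu
    rw [← Φ.latZ t ht u (hball hu)] at h2
    obtain ⟨l, hl, hl2⟩ := h2
    have h3 : (Φ.τ t u).symm (V u) = l := by
      rw [← hl2, LinearEquiv.symm_apply_apply]
    simp only [h3]
    exact hl
  have hc : (LZ m b t).Countable := by
    refine (Φ.cnt t ht).mono fun l hl => ?_
    exact ⟨1, one_ne_zero, by rwa [one_smul]⟩
  have hs : ((fun u => (Φ.τ t u).symm (V u)) '' ball t₁ δ).Subsingleton :=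
    hc.isTotallyDisconnected _ hL ((convex_ball t₁ δ).isPreconnected.image _ hF)
  have h := hs ⟨t', ht', rfl⟩ ⟨t₁, mem_ball_self hδ, rfl⟩
  simp only [hv, LinearEquiv.symm_apply_apply] at h
  rw [← h, LinearEquiv.apply_symm_apply]

end TNF.AB
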