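import Pool.Agent.Lib.TNF.AB.Lin
import Pool.Agent.Lib.TNF.AB.Ftc
import Pool.Agent.Lib.TNF.AB.Pot
import Pool.Agent.Lib.TNF.AB.Dst
import Pool.Agent.Lib.TNF.AB.Bhm
import Pool.Agent.Lib.TNF.AB.Grn
import Pool.Agent.Lib.TNF.AB.Rad
import Pool.Agent.Lib.TNF.AB.Cmp
import Pool.Agent.Lib.TNF.AB.Grw
import Pool.Agent.Lib.TNF.AB.Ent
import Pool.Agent.Lib.TNF.AB.Al3
import Pool.Agent.Lib.TNF.AB.Dva
import Pool.Agent.Lib.TNF.AB.Spa
import Pool.Agent.Lib.TNF.AB.Spc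
import Pool.Agent.Lib.TNF.AB.Spn
import Pool.Agent.Lib.TNF.AB.Inj
import Pool.Agent.Lib.TNF.AB.Fin2
import Pool.Agent.Lib.TNF.AB.Tau
import Pool.Agent.Lib.TNF.AB.Per
import Pool.Agent.Lib.TNF.AB.Hdi
import Pool.Agent.Lib.TNF.AB.Ab1
import Pool.Agent.Lib.TNF.AB.Ab2
import Pool.Agent.Lib.TNF.AB.Prp
import Pool.Agent.Lib.TNF.AB.Cnt2
import Pool.Agent.Lib.TNF.AB.Tin
import Pool.Agent.Lib.TNF.AB.Fla
import Pool.Agent.Lib.TNF.AB.Flp
import Pool.Agent.Lib.TNF.AB.Lpg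
import Pool.Agent.Lib.TNF.AB.Asm
import Pool.Agent.Lib.TATE.FA.All

/-!
# PROJECT TNF, package AB: `StmtAB` from the statements of `Ifc.lean` (helper45)
-/

set_option autoImplicit false

noncomputable section

namespace TNF.AB

/-- **StmtAB** from the interface. -/
theorem ofIfc (hBrs : S_Brs) (hAlg : S_Alg2) (hItp : S_Itp) (hGp : S_Gp) (hLzg : S_Lzg2)
    (hNd : S_Nd) (hQw : S_Qw) (hKey : S_Key) (hQz : S_Qz) : TNF.StmtAB := by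
  have hLin : S_Lin := tLin hBrs
  have hFtc : S_Ftc := tFtc hBrs hAlg
  have hPot : S_Pot := tPot hBrs hAlg hGp hFtc
  have hDst : S_Dst := tDst
  have hBhm : S_Bhm := tBhm hDst
  have hGrw : S_Grw := tGrw hBrs (tGrn hBrs) tRad (tCmp hBrs)
  have hAl3 : S_Al3 := tAl3 hBrs tEnt
  have hDva : S_Dva := tDva hBrs
  have hSpc : S_Spc := tSpc hBrs hDva
  have hSpn : S_Spn := tSpn hLin hPot hBhm hGrw hAl3 tSpa hSpc hGp
  have hInj : S_Inj := tInj hNd hQw hQz hLzg TATE.tFA1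
  have hFin : S_Fin2 := tFin2 hNd hQz hLzg hSpn
  have hPer : S_Per := tPer hAlg hGp hLin hFtc hDva
  have hHdi : S_Hdi := tHdi hLin hAlg hKey
  have hAb1 : S_Ab1 := tAb1 hAlg hQw hLin hPot hBhm hGrw hAl3 hDva hHdi
  have hAb2 : S_Ab2 := tAb2 hAlg hGp hQw hPer hHdi
  have hPrp : S_Prp := tPrp hBrs hAlg
  have hFla : S_Fla := tFla hLzg hQz hInj hPrp tCnt2 tTin
  have hFlp : S_Flp := tFlp hLzg hFin hFla
  have hLpg : S_Lpg := tLpg hLzg hQz hFin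
  exact tAsm hItp hLpg hFlp hAb1 hAb2 tTau

end TNF.AB
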