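import Pool.Agent.Lib.TNF.AB.AllA
import Pool.Agent.Lib.TNF.AB.AllB

/-!
# PROJECT TNF, package AB: Abel's theorem without hypotheses (helper12, helper45)
-/

set_option autoImplicit false

namespace TNF.AB

/-- **AB**: Abel's theorem for the new parts. -/
theorem main : TNF.StmtAB := ofIfc aBrs aAlg2 aItp aGp aLzg2 aNd aQw aKey aQz

end TNF.AB
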