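import Pool.Agent.Lib.TNF.AB.SpecA

/-!
# PROJECT TNF, package AB, module Brs (helper23): the branches, explicit form
-/

set_option autoImplicit false

open Topology Metric

noncomputable section

namespace TNF.AB

open SEJ TATE

namespace BrsM

variable {m r : ℕ} {b : Fin (r + 1) → ℕ} {t : Fin (r + 1) → ℂ}

theorem ne_of_mem {P : ℂ × ℂ} (hP : P ∈ Pts m b t) (j : Fin (r + 1)) : t j ≠ P.1 :=
  fun h => hP.1 ⟨j, h⟩

/-- An open convex neighbourhood of a segment without branch points. -/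
theorem exC {x₀ x : ℂ} (h : Cx t (segment ℝ x₀ x)) :
    ∃ C : Set ℂ, Cx t C ∧ IsOpen C ∧ segment ℝ x₀ x ⊆ C := by
  have hK : IsCompact (segment ℝ x₀ x) := by
    rw [segment_eq_image_lineMap]
    exact isCompact_Icc.image (AffineMap.lineMap_continuous)
  have hU : IsOpen (Set.range t)ᶜ := (Set.finite_range t).isClosed.isOpen_compl
  have hKU : segment ℝ x₀ x ⊆ (Set.range t)ᶜ := by
    rintro z hz ⟨j, rfl⟩
    exact h.not j hz
  obtain ⟨δ, hδ, hs⟩ := hK.exists_thickening_subset_open hU hKU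
  refine ⟨thickening δ (segment ℝ x₀ x), ⟨h.cvx.thickening δ, fun j hj => hs hj ⟨j, rfl⟩⟩,
    isOpen_thickening, self_subset_thickening hδ _⟩

theorem br_ne {Y : ℂ × ℂ} {x : ℂ} (hm : 1 ≤ m) (h : bp m b t Y x ∈ Pts m b t) :
    br m b t Y x ≠ 0 := by
  intro h0
  have h2 := h.2
  have h1 := h.1
  simp only [bp] at h1 h2
  rw [h0, zero_pow (by omega)] at h2
  have : ∏ j, (x - t j) ^ b j ≠ 0 := by
    refine Finset.prod_ne_zero_iff.2 fun j _ => pow_ne_zero _ (sub_ne_zero.2 ?_)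
    intro hx
    exact h1 ⟨j, hx.symm⟩
  exact this h2.symm

end BrsM

open BrsM in
/-- **Brs** -/
theorem tBrs : S_Loc → S_Seg → S_Brs := by
  intro hL hS m r b t hm P hP
  have hne : ∀ j, t j ≠ P.1 := ne_of_mem hP
  -- the segment
  have hseg : ∀ x ∈ st t P.1, Cx t (segment ℝ P.1 x) := fun x hx =>
    ((hS r t P.1 x hne).1).1 hx
  have himg : ∀ x, segment ℝ P.1 x = sx P.1 x '' Set.Icc (0 : ℝ) 1 := fun x => (hS r t P.1 x hne).2
  have h4 : ∀ x, (∀ u ∈ Set.Icc (0 : ℝ) 1, ∀ j, sx P.1 x u ≠ t j) → x ∈ st t P.1 := by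
    intro x hx
    refine ((hS r t P.1 x hne).1).2 ⟨convex_segment _ _, fun j hj => ?_⟩
    rw [himg x] at hj
    obtain ⟨u, hu, hj⟩ := hj
    exact hx u hu j hj
  have h3 : ∀ x ∈ st t P.1, ∀ u ∈ Set.Icc (0 : ℝ) 1, sx P.1 x u ∈ st t P.1 := by
    intro x hx u hu
    have h := (hL m r b t hm _ (hseg x hx) P hP (left_mem_segment ℝ _ _)).1 P.1
      (left_mem_segment ℝ _ _)
    exact h (by rw [himg x]; exact ⟨u, hu, rfl⟩)
  have hsing : Cx t {P.1} := ⟨convex_singleton _, fun j hj => hne j hj⟩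
  have hL1 := hL m r b t hm _ hsing P hP rfl
  refine ⟨?_, ?_, h3, h4, ?_, ?_, ?_, ?_, ?_, ?_⟩
  · -- open
    have : st t P.1 = ⋂ j, (fun x : ℂ => (x - t j) / (P.1 - t j)) ⁻¹' Complex.slitPlane := by
      ext x; simp [st]
    rw [this]
    exact isOpen_iInter_of_finite fun j => Complex.isOpen_slitPlane.preimage (by fun_prop)
  · exact hL1.1 P.1 rfl rfl
  · intro ε hε hb
    exact (hL m r b t hm (ball P.1 ε) ⟨convex_ball _ _, hb⟩ P hP (mem_ball_self hε)).1 P.1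
      (mem_ball_self hε)
  · exact Prod.ext rfl hL1.2.1
  · intro x hx
    obtain ⟨C, hC, hCo, hCs⟩ := exC (hseg x hx)
    have h := hL m r b t hm C hC P hP (hCs (left_mem_segment ℝ _ _))
    have hxC : x ∈ C := hCs (right_mem_segment ℝ _ _)
    exact ⟨h.2.2.1 x hxC, h.2.2.2.2.2.2 x (by rwa [hCo.interior_eq])⟩
  · intro x hx
    obtain ⟨C, hC, hCo, hCs⟩ := exC (hseg x hx)
    have h := hL m r b t hm C hC P hP (hCs (left_mem_segment ℝ _ _))
    have hxC : x ∈ C := hCs (right_mem_segment ℝ _ _)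
    filter_upwards [hCo.mem_nhds hxC] with x' hx'
    exact h.2.2.2.1 x hxC x' hx'
  · intro y x hyc hy0 hy
    have hx : x ∈ st t P.1 := h4 x fun u hu j hj => (hy u hu).1 ⟨j, hj.symm⟩
    refine ⟨hx, ?_⟩
    have h := hL m r b t hm _ (hseg x hx) P hP (left_mem_segment ℝ _ _)
    have hmem : ∀ u ∈ Set.Icc (0 : ℝ) 1, sx P.1 x u ∈ segment ℝ P.1 x := fun u hu => by
      rw [himg x]; exact ⟨u, hu, rfl⟩
    have hne0 : ∀ u ∈ Set.Icc (0 : ℝ) 1, br m b t P (sx P.1 x u) ≠ 0 := fun u hu =>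
      br_ne hm (h.2.2.1 _ (hmem u hu))
    have hsxc : Continuous (sx P.1 x) := by unfold sx; fun_prop
    have hc : ContinuousOn (fun u : ℝ => y u / br m b t P (sx P.1 x u)) (Set.Icc 0 1) :=
      hyc.div (h.2.2.2.2.2.1.comp hsxc.continuousOn hmem) hne0
    set T : Set ℂ := (((Finset.range m).image fun c => ze m 1 ^ c : Finset ℂ) : Set ℂ) with hT
    have hTf : T.Finite := Finset.finite_toSet _
    have hmaps : Set.MapsTo (fun u : ℝ => y u / br m b t P (sx P.1 x u)) (Set.Icc 0 1) T := by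
      intro u hu
      obtain ⟨c, hcm, hcy⟩ := h.2.2.2.2.1 _ (hmem u hu) (y u) (hy u hu)
      rw [hT, Finset.mem_coe, Finset.mem_image]
      refine ⟨c, Finset.mem_range.2 hcm, ?_⟩
      show ze m 1 ^ c = y u / _
      rw [hcy, mul_div_cancel_right₀ _ (hne0 u hu)]
    have hsx0 : sx P.1 x 0 = P.1 := by simp [sx]
    intro u hu
    have h0 : (0 : ℝ) ∈ Set.Icc (0 : ℝ) 1 := ⟨le_refl _, zero_le_one⟩
    have key := (isPreconnected_Icc (a := (0 : ℝ)) (b := 1)).constant_of_mapsTo hTf.isDiscrete hc hmaps hu h0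
    simp only [hsx0, h.2.1, hy0] at key
    have hP2 : P.2 ≠ 0 := by
      have := hne0 0 h0
      rwa [hsx0, h.2.1] at this
    rw [div_self hP2, div_eq_one_iff_eq (hne0 u hu)] at key
    exact key
  · intro y hy
    obtain ⟨c, _, hc⟩ := hL1.2.2.2.2.1 P.1 rfl y hy
    exact ⟨c, by rw [hc, hL1.2.1]⟩

end TNF.AB
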