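import Pool.Agent.Lib.TNF.AB.SpecA

/-!
# PROJECT TNF, package AB, module Chn: the chain principle
-/

set_option autoImplicit false

open Topology Metric

noncomputable section

namespace TNF.AB

open SEJ TATE

namespace ChnM

variable {m r : ℕ} {b : Fin (r + 1) → ℕ} {t : Fin (r + 1) → ℂ}

/-- The forms are continuous over a set without branch points. -/
theorem om2_cont (S : Set ℂ) (q : Ix2 m r) :
    ContinuousOn (fun X : ℂ × ℂ => om2 m b t X q) (ovr m b t S) := by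
  have hne : ∀ X ∈ ovr m b t S, ∀ j, X.1 - t j ≠ 0 := by
    intro X hX j h
    exact hX.1.1 ⟨j, (sub_eq_zero.1 h).symm⟩
  unfold om2 gu qq
  refine ContinuousOn.div (ContinuousOn.mul (by fun_prop) (ContinuousOn.div (by fun_prop)
    (by fun_prop) ?_)) (by fun_prop) ?_
  · intro X hX
    exact Finset.prod_ne_zero_iff.2 (fun j _ => pow_ne_zero _ (hne X hX j))
  · intro X hX
    exact Finset.prod_ne_zero_iff.2 (fun j _ => hne X hX j)

/-- The points of a segment. -/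
theorem sx_mem (x y : ℂ) {v : ℝ} (hv : v ∈ Set.Icc (0 : ℝ) 1) : sx x y v ∈ segment ℝ x y := by
  rw [segment_eq_image']
  exact ⟨v, hv, by simp [sx]⟩

/-- Order on a segment. -/
theorem sx_sub (x y : ℂ) {v w : ℝ} (hv : 0 ≤ v) (hvw : v ≤ w) :
    sx x y v ∈ segment ℝ x (sx x y w) := by
  rcases eq_or_lt_of_le (hv.trans hvw) with h0 | h0
  · have h1 : v = w := by linarith
    rw [h1]
    exact right_mem_segment ℝ _ _
  · rw [segment_eq_image']
    refine ⟨v / w, ⟨div_nonneg hv h0.le, (div_le_one h0).2 hvw⟩, ?_⟩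
    have h2 : (w : ℂ) ≠ 0 := by exact_mod_cast h0.ne'
    simp only [sx, Complex.real_smul, Complex.ofReal_div, add_sub_cancel_left]
    field_simp

/-- The integrals along the lift of the segment to `x`. -/
def II (m : ℕ) {r : ℕ} (b : Fin (r + 1) → ℕ) (t : Fin (r + 1) → ℂ) (Q : ℂ × ℂ) (x : ℂ) :
    Ix2 m r → ℂ := fun q => sgi m b t Q x (fun X => om2 m b t X q)

/-- One segment. -/
theorem one (hL : S_Loc) (hS : S_Seg) (hU : S_Sub) (hP : S_Prm) (hm : 1 ≤ m)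
    (R : ℂ × ℂ → ℂ × ℂ → (Ix2 m r → ℂ) → Prop) (h0 : ∀ P ∈ Pts m b t, R P P 0)
    (hadd : ∀ P Q S v w, R P Q v → R Q S w → R P S (v + w))
    (hloc : ∀ Y ∈ Pts m b t, ∃ ρ > 0, Cx t (ball Y.1 ρ) ∧ ∀ g, IsPm m b t Y (ball Y.1 ρ) g →
      ∀ x ∈ ball Y.1 ρ, ∀ x' ∈ ball Y.1 ρ, R (bp m b t Y x) (bp m b t Y x') (g x' - g x))
    (Q : ℂ × ℂ) (hQ : Q ∈ Pts m b t) (z : ℂ) (hz : z ∈ st t Q.1) :
    bp m b t Q z ∈ Pts m b t ∧ R Q (bp m b t Q z) (II m b t Q z) := by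
  have hQt : ∀ j, t j ≠ Q.1 := fun j h => hQ.1 ⟨j, h⟩
  obtain ⟨hseg, -⟩ := hS r t Q.1 z hQt
  have hC : Cx t (segment ℝ Q.1 z) := hseg.1 hz
  have hQC : Q.1 ∈ segment ℝ Q.1 z := left_mem_segment ℝ _ _
  have hzC : z ∈ segment ℝ Q.1 z := right_mem_segment ℝ _ _
  obtain ⟨hst, hQ2, hpts, hcomp, -, -, -⟩ := hL m r b t hm _ hC Q hQ hQC
  have hbpQ : bp m b t Q Q.1 = Q := by
    rw [bp, hQ2]
  refine ⟨hpts z hzC, ?_⟩
  -- the points of the segment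
  have hmem : ∀ v ∈ Set.Icc (0 : ℝ) 1, sx Q.1 z v ∈ segment ℝ Q.1 z := fun v hv => sx_mem _ _ hv
  -- additivity for `v ≤ w` in one ball
  have key : ∀ v ∈ Set.Icc (0 : ℝ) 1, ∀ w ∈ Set.Icc (0 : ℝ) 1, v ≤ w → ∀ (Y : ℂ × ℂ) (ρ : ℝ)
      (g : ℂ → Ix2 m r → ℂ), Y ∈ Pts m b t → 0 < ρ → Cx t (ball Y.1 ρ) →
      IsPm m b t Y (ball Y.1 ρ) g → sx Q.1 z v ∈ ball Y.1 ρ → sx Q.1 z w ∈ ball Y.1 ρ →
      bp m b t Y (sx Q.1 z v) = bp m b t Q (sx Q.1 z v) →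
      II m b t Q (sx Q.1 z w) = II m b t Q (sx Q.1 z v) + (g (sx Q.1 z w) - g (sx Q.1 z v)) := by
    intro v hv w hw hvw Y ρ g hY hρ hB hg hvB hwB hYv
    funext q
    have h1 := hU hL hS m r b t hm Q (sx Q.1 z w) (sx Q.1 z v) hQ (hst _ hQC (hmem w hw))
      (sx_sub _ _ hv.1 hvw)
    have h2 := h1.2.2 (fun X => om2 m b t X q) (om2_cont _ q)
    have h3 := (hP hL m r b t hm Y.1 ρ hB Y hY (mem_ball_self hρ)).2 g hg _ hvB _ hwB q
    rw [hYv] at h3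
    rw [Pi.add_apply, Pi.sub_apply]
    unfold II
    rw [h2, h3]
  have hind : ∀ v ∈ Set.Icc (0 : ℝ) 1, ∀ᶠ w in 𝓝[Set.Icc (0 : ℝ) 1] v,
      (R Q (bp m b t Q (sx Q.1 z v)) (II m b t Q (sx Q.1 z v)) ↔
        R Q (bp m b t Q (sx Q.1 z w)) (II m b t Q (sx Q.1 z w))) := by
    intro v hv
    have hvC := hmem v hv
    have hY : bp m b t Q (sx Q.1 z v) ∈ Pts m b t := hpts _ hvC
    obtain ⟨ρ, hρ, hB, hR⟩ := hloc _ hY
    obtain ⟨⟨g, hg⟩, -⟩ := hP hL m r b t hm _ ρ hB _ hY (mem_ball_self hρ)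
    have hcont : Continuous (fun w : ℝ => sx Q.1 z w) := by
      unfold sx
      fun_prop
    have hball : ∀ᶠ w in 𝓝[Set.Icc (0 : ℝ) 1] v, sx Q.1 z w ∈ ball (sx Q.1 z v) ρ :=
      (hcont.continuousWithinAt).eventually (ball_mem_nhds _ hρ)
    filter_upwards [hball, self_mem_nhdsWithin] with w hwB hw
    have hwC := hmem w hw
    have hvB : sx Q.1 z v ∈ ball (sx Q.1 z v) ρ := mem_ball_self hρ
    have e1 : ∀ u ∈ Set.Icc (0 : ℝ) 1, bp m b t (bp m b t Q (sx Q.1 z v)) (sx Q.1 z u) =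
        bp m b t Q (sx Q.1 z u) := by
      intro u hu
      have h1 := hcomp _ hvC _ (hmem u hu)
      unfold bp at h1 ⊢
      rw [h1]
    have hI : II m b t Q (sx Q.1 z w) =
        II m b t Q (sx Q.1 z v) + (g (sx Q.1 z w) - g (sx Q.1 z v)) := by
      rcases le_total v w with hvw | hvw
      · exact key v hv w hw hvw _ ρ g hY hρ hB hg hvB hwB (e1 v hv)
      · have h1 := key w hw v hv hvw _ ρ g hY hρ hB hg hwB hvB (e1 w hw)
        rw [h1]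
        abel
    constructor
    · intro h
      have h1 := hR g hg _ hvB _ hwB
      rw [e1 v hv, e1 w hw] at h1
      have h2 := hadd _ _ _ _ _ h h1
      rwa [← hI] at h2
    · intro h
      have h1 := hR g hg _ hwB _ hvB
      rw [e1 v hv, e1 w hw] at h1
      have h2 := hadd _ _ _ _ _ h h1
      have h3 : II m b t Q (sx Q.1 z w) + (g (sx Q.1 z v) - g (sx Q.1 z w)) =
          II m b t Q (sx Q.1 z v) := by
        rw [hI]
        abel
      rwa [h3] at h2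
  have hfin := (isPreconnected_Icc (a := (0 : ℝ)) (b := 1)).induction₂
    (fun v w : ℝ => (R Q (bp m b t Q (sx Q.1 z v)) (II m b t Q (sx Q.1 z v)) ↔
        R Q (bp m b t Q (sx Q.1 z w)) (II m b t Q (sx Q.1 z w)))) hind
    (fun _ _ _ _ _ _ h1 h2 => h1.trans h2) (fun _ _ _ _ h1 => h1.symm)
    (show (0 : ℝ) ∈ Set.Icc (0 : ℝ) 1 by simp) (show (1 : ℝ) ∈ Set.Icc (0 : ℝ) 1 by simp)
  have hs0 : sx Q.1 z 0 = Q.1 := by simp [sx]
  have hs1 : sx Q.1 z 1 = z := by simp [sx]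
  have hI0 : II m b t Q Q.1 = 0 := by
    funext q
    simp [II, sgi]
  rw [hs0, hs1, hbpQ, hI0] at hfin
  exact hfin.1 (h0 Q hQ)

/-- The induction along the path. -/
theorem all (hL : S_Loc) (hS : S_Seg) (hU : S_Sub) (hP : S_Prm) (hm : 1 ≤ m)
    (R : ℂ × ℂ → ℂ × ℂ → (Ix2 m r → ℂ) → Prop) (h0 : ∀ P ∈ Pts m b t, R P P 0)
    (hadd : ∀ P Q S v w, R P Q v → R Q S w → R P S (v + w))
    (hloc : ∀ Y ∈ Pts m b t, ∃ ρ > 0, Cx t (ball Y.1 ρ) ∧ ∀ g, IsPm m b t Y (ball Y.1 ρ) g →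
      ∀ x ∈ ball Y.1 ρ, ∀ x' ∈ ball Y.1 ρ, R (bp m b t Y x) (bp m b t Y x') (g x' - g x))
    {P Q : ℂ × ℂ} (p : Path m b t P Q) : Q ∈ Pts m b t ∧ R P Q p.v := by
  induction p with
  | nil h =>
    have e : (Path.nil P h : Path m b t P P).v = 0 := by
      funext q
      simp only [Path.v, Path.int, Pi.zero_apply]
    rw [e]
    exact ⟨h, h0 _ h⟩
  | @snoc Q S p h ih =>
    obtain ⟨hQ, hR⟩ := ih
    obtain ⟨h1, h2⟩ := one hL hS hU hP hm R h0 hadd hloc Q hQ S.1 h.1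
    have h3 : bp m b t Q S.1 = S := by
      unfold bp
      rw [← h.2]
    rw [h3] at h1 h2
    have e : (p.snoc h).v = p.v + II m b t Q S.1 := by
      funext q
      simp only [Path.v, Path.int, Pi.add_apply, II]
    rw [e]
    exact ⟨h1, hadd _ _ _ _ _ hR h2⟩

end ChnM

theorem tChn : S_Chn := by
  intro hL hS hU hP m r b t hm R h0 hadd hloc P Q p
  exact (ChnM.all hL hS hU hP hm R h0 hadd hloc p).2

end TNF.AB
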