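import Pool.Agent.Lib.TNF.AB.SpecA

/-!
# PROJECT TNF, package AB: the indices of the first kind (helper12)
-/

set_option autoImplicit false

open Topology Metric

noncomputable section

namespace TNF.AB

open SEJ TATE

theorem tCrd : S_Crd := by
  intro m r b hC u hu i k hik
  obtain ⟨hm, hb, hs, -⟩ := hC
  have hu' : u < m ∧ u.Coprime m := by
    have h := hu
    simp only [Us, Finset.mem_filter, Finset.mem_range] at h
    exact h
  obtain ⟨hum, hcop⟩ := hu'
  have h1 : ∀ j, (u * b j) % m + ((m - u) * b j) % m = m := by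
    intro j
    have e1 : ¬ m ∣ u * b j := fun h => hb j (hcop.symm.dvd_of_dvd_mul_left h)
    have e2 : m ∣ u * b j + (m - u) * b j := by
      rw [← Nat.add_mul, Nat.add_sub_of_le hum.le]
      exact Dvd.intro _ rfl
    have e3 : ((u * b j) % m + ((m - u) * b j) % m) % m = 0 := by
      rw [← Nat.add_mod]
      exact Nat.mod_eq_zero_of_dvd e2
    have e4 : 0 < (u * b j) % m := Nat.pos_of_ne_zero fun h => e1 (Nat.dvd_of_mod_eq_zero h)
    have e5 : (u * b j) % m < m := Nat.mod_lt _ (by omega)
    have e6 : ((m - u) * b j) % m < m := Nat.mod_lt _ (by omega)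
    obtain ⟨c, hc⟩ := Nat.dvd_of_mod_eq_zero e3
    have e7 : c = 1 := by
      rcases Nat.lt_trichotomy c 1 with h | h | h
      · have : c = 0 := by omega
        subst this
        omega
      · exact h
      · exfalso
        have : m * 2 ≤ m * c := Nat.mul_le_mul_left m h
        omega
    rw [hc, e7, mul_one]
  have h2 : ∑ j, (u * b j) % m + ∑ j, ((m - u) * b j) % m = m * (r + 1) := by
    rw [← Finset.sum_add_distrib, Finset.sum_congr rfl fun j _ => h1 j]
    simp [mul_comm]
  have h3 : ¬ m ∣ ∑ j, (u * b j) % m := by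
    intro h
    have e1 : (∑ j, (u * b j) % m) % m = (u * ∑ j, b j) % m := by
      rw [Finset.mul_sum, ← Finset.sum_nat_mod]
    have e2 : m ∣ u * ∑ j, b j := by
      apply Nat.dvd_of_mod_eq_zero
      rw [← e1]
      exact Nat.mod_eq_zero_of_dvd h
    exact hs (hcop.symm.dvd_of_dvd_mul_left e2)
  have hr : r = i + k + 1 := hik.symm
  have h4 : ∑ j, (u * b j) % m ≠ m * (k + 1) := fun h => h3 (h ▸ Dvd.intro _ rfl)
  have h5 : m * r = m * i + m * (k + 1) := by
    rw [hr]
    ring
  have h6 : m * (r + 1) = m * r + m := by ring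
  have h7 : m * (k + 1) = m * k + m := by ring
  omega

end TNF.AB
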