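import Pool.Agent.Lib.TNF.AB.SpecA

/-!
# The derivative of the integral of `eta`

Proof of `S_Der`: differentiation under the integral, the kernel identity, telescoping.
-/

set_option autoImplicit false

open Topology Metric

noncomputable section

namespace TNF.AB

open SEJ TATE

namespace DerM

variable {m r : ℕ} {b : Fin (r + 1) → ℕ} {t : Fin (r + 1) → ℂ}

/-- `gu` on a branch is continuous. -/
theorem cgu {T : Type*} [TopologicalSpace T] (hL : S_Loc) (hm : 1 ≤ m) {C : Set ℂ} (hC : Cx t C)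
    {P : ℂ × ℂ} (hP : P ∈ Pts m b t) (hPC : P.1 ∈ C) {S : Set T} {f : T → ℂ}
    (hf : ContinuousOn f S) (hfC : Set.MapsTo f S C) (n : ℕ) :
    ContinuousOn (fun z => gu m b t n (bp m b t P (f z))) S := by
  have h := hL m r b t hm C hC P hP hPC
  have hbr : ContinuousOn (fun z => br m b t P (f z)) S := h.2.2.2.2.2.1.comp hf hfC
  unfold gu bp
  refine ContinuousOn.div (hbr.pow n) ?_ ?_
  · exact continuousOn_finset_prod _ fun j _ => ((hf.sub continuousOn_const).pow _)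
  · intro z hz
    refine Finset.prod_ne_zero_iff.2 fun j _ => pow_ne_zero _ ?_
    intro h0
    exact hC.not j ((sub_eq_zero.1 h0) ▸ hfC hz)

theorem qne {C : Set ℂ} (hC : Cx t C) {x : ℂ} (hx : x ∈ C) : qq t x ≠ 0 := by
  refine Finset.prod_ne_zero_iff.2 fun j _ => ?_
  intro h0
  exact hC.not j ((sub_eq_zero.1 h0) ▸ hx)

theorem cqq {T : Type*} [TopologicalSpace T] {S : Set T} {f : T → ℂ} (hf : ContinuousOn f S) :
    ContinuousOn (fun z => qq t (f z)) S := by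
  unfold qq
  exact continuousOn_finset_prod _ fun j _ => hf.sub continuousOn_const

theorem com2 {T : Type*} [TopologicalSpace T] (hL : S_Loc) (hm : 1 ≤ m) {C : Set ℂ} (hC : Cx t C)
    {P : ℂ × ℂ} (hP : P ∈ Pts m b t) (hPC : P.1 ∈ C) {S : Set T} {f : T → ℂ}
    (hf : ContinuousOn f S) (hfC : Set.MapsTo f S C) (q : Ix2 m r) :
    ContinuousOn (fun z => om2 m b t (bp m b t P (f z)) q) S := by
  have h1 := cgu hL hm hC hP hPC hf hfC (c2 q)
  unfold om2
  refine ContinuousOn.div ((hf.pow (e2 q)).mul h1) (cqq hf) ?_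
  intro z hz
  exact qne hC (hfC hz)

variable {T : Type*} [TopologicalSpace T]

/-- Joint continuity of `eta`. -/
theorem ceta (hL : S_Loc) (hm : 1 ≤ m) {C C' : Set ℂ} (hC : Cx t C) (hC' : Cx t C')
    {Q Y : ℂ × ℂ} (hQ : Q ∈ Pts m b t) (hQC : Q.1 ∈ C) (hY : Y ∈ Pts m b t) (hYC : Y.1 ∈ C')
    {S : Set T} {x a : T → ℂ} (hx : ContinuousOn x S) (hxC : Set.MapsTo x S C)
    (ha : ContinuousOn a S) (haC : Set.MapsTo a S C') (hne : ∀ z ∈ S, x z ≠ a z) :
    ContinuousOn (fun z => eta m b t (bp m b t Y (a z)) (bp m b t Q (x z))) S := by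
  unfold eta
  refine continuousOn_finset_sum _ fun u _ => ?_
  refine ContinuousOn.div ((cgu hL hm hC hQ hQC hx hxC u).mul
    (cgu hL hm hC' hY hYC ha haC (m - u))) ((cqq hx).mul (hx.sub ha)) ?_
  intro z hz
  exact mul_ne_zero (qne hC (hxC hz)) (sub_ne_zero.2 (hne z hz))

/-- Joint continuity of `dkap`. -/
theorem cdkap (hL : S_Loc) (hm : 1 ≤ m) {C C' : Set ℂ} (hC : Cx t C) (hC' : Cx t C')
    {Q Y : ℂ × ℂ} (hQ : Q ∈ Pts m b t) (hQC : Q.1 ∈ C) (hY : Y ∈ Pts m b t) (hYC : Y.1 ∈ C')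
    {S : Set T} {x a : T → ℂ} (hx : ContinuousOn x S) (hxC : Set.MapsTo x S C)
    (ha : ContinuousOn a S) (haC : Set.MapsTo a S C') (hne : ∀ z ∈ S, x z ≠ a z) :
    ContinuousOn (fun z => dkap m b t (bp m b t Y (a z)) (bp m b t Q (x z))) S := by
  unfold dkap
  refine continuousOn_finset_sum _ fun u _ => ?_
  refine ContinuousOn.mul (ContinuousOn.div ((cgu hL hm hC hQ hQC hx hxC u).mul
    (cgu hL hm hC' hY hYC ha haC (m - u))) ((cqq ha).mul (hx.sub ha)) ?_) ?_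
  · intro z hz
    exact mul_ne_zero (qne hC' (haC hz)) (sub_ne_zero.2 (hne z hz))
  · refine ContinuousOn.sub (continuousOn_finset_sum _ fun j _ => ?_) ?_
    · refine ContinuousOn.div continuousOn_const (hx.sub continuousOn_const) ?_
      intro z hz h0
      exact hC.not j ((sub_eq_zero.1 h0) ▸ hxC hz)
    · refine ContinuousOn.div continuousOn_const (hx.sub ha) ?_
      intro z hz
      exact sub_ne_zero.2 (hne z hz)

/-- Joint continuity of the pairing. -/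
theorem cQf (hL : S_Loc) (hm : 1 ≤ m) {C C' : Set ℂ} (hC : Cx t C) (hC' : Cx t C')
    {Q Y : ℂ × ℂ} (hQ : Q ∈ Pts m b t) (hQC : Q.1 ∈ C) (hY : Y ∈ Pts m b t) (hYC : Y.1 ∈ C')
    {S : Set T} {x a : T → ℂ} (hx : ContinuousOn x S) (hxC : Set.MapsTo x S C)
    (ha : ContinuousOn a S) (haC : Set.MapsTo a S C') :
    ContinuousOn (fun z => Qf m b t (om2 m b t (bp m b t Q (x z)))
      (om2 m b t (bp m b t Y (a z)))) S := by
  unfold Qf
  refine continuousOn_finset_sum _ fun p _ => continuousOn_finset_sum _ fun q _ => ?_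
  by_cases h : c2 p + c2 q = m
  · simp only [h, if_true]
    exact (continuousOn_const.mul (com2 hL hm hC hQ hQC hx hxC p)).mul
      (com2 hL hm hC' hY hYC ha haC q)
  · simp only [h, if_false]
    exact continuousOn_const

/-- A neighbourhood of a segment without branch points. -/
theorem nbh {x y : ℂ} (h : ∀ j, t j ∉ segment ℝ x y) :
    ∃ C : Set ℂ, Cx t C ∧ IsOpen C ∧ segment ℝ x y ⊆ C := by
  have hcl : IsClosed (segment ℝ x y) := by
    have h1 : IsCompact (segment ℝ x y) := by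
      rw [segment_eq_image']
      exact isCompact_Icc.image (by fun_prop)
    exact h1.isClosed
  have hne : (segment ℝ x y).Nonempty := ⟨x, left_mem_segment ℝ x y⟩
  have hpos : ∀ j, 0 < infDist (t j) (segment ℝ x y) := fun j =>
    (hcl.notMem_iff_infDist_pos hne).1 (h j)
  obtain ⟨δ, hδ, hδj⟩ : ∃ δ > 0, ∀ j, δ ≤ infDist (t j) (segment ℝ x y) := by
    refine ⟨Finset.univ.inf' Finset.univ_nonempty fun j => infDist (t j) (segment ℝ x y), ?_, ?_⟩
    · rw [gt_iff_lt, Finset.lt_inf'_iff]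
      exact fun j _ => hpos j
    · intro j
      exact Finset.inf'_le _ (Finset.mem_univ j)
  refine ⟨thickening δ (segment ℝ x y), ⟨(convex_segment x y).thickening δ, ?_⟩,
    isOpen_thickening, self_subset_thickening hδ _⟩
  intro j hj
  rw [mem_thickening_iff] at hj
  obtain ⟨z, hz, hzj⟩ := hj
  exact absurd ((hδj j).trans (infDist_le_dist_of_mem hz)) (not_le.2 hzj)

theorem sx_mem (x y : ℂ) {u : ℝ} (hu : u ∈ Set.Icc (0 : ℝ) 1) : sx x y u ∈ segment ℝ x y := by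
  rw [segment_eq_image']
  exact ⟨u, hu, rfl⟩

theorem sx_cont (x y : ℂ) : Continuous (sx x y) := by
  unfold sx
  fun_prop

/-- The end points of a path are on the curve. -/
theorem pend (hL : S_Loc) (hS : S_Seg) (hm : 1 ≤ m) {A B : ℂ × ℂ} (p : Path m b t A B) :
    B ∈ Pts m b t := by
  induction p with
  | nil h => exact h
  | snoc p h ih =>
    rename_i Q R
    have hQt : ∀ j, t j ≠ Q.1 := fun j hj => ih.1 ⟨j, hj⟩
    have hC := (hS r t Q.1 R.1 hQt).1.1 h.1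
    have h1 := (hL m r b t hm _ hC Q ih (left_mem_segment ℝ _ _)).2.2.1 R.1
      (right_mem_segment ℝ _ _)
    have h2 : bp m b t Q R.1 = R := Prod.ext rfl h.2.symm
    rwa [h2] at h1

/-- Differentiation under the integral. -/
theorem dui {F F' : ℂ → ℝ → ℂ} {a₀ : ℂ} {ε : ℝ} (hε : 0 < ε)
    (hF : ∀ a ∈ ball a₀ ε, ContinuousOn (F a) (Set.Icc (0 : ℝ) 1))
    (hF' : ContinuousOn (fun z : ℂ × ℝ => F' z.1 z.2)
      (closedBall a₀ (ε / 2) ×ˢ Set.Icc (0 : ℝ) 1))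
    (hd : ∀ u ∈ Set.Icc (0 : ℝ) 1, ∀ a ∈ ball a₀ ε, HasDerivAt (fun a => F a u) (F' a u) a) :
    HasDerivAt (fun a => ∫ u in (0 : ℝ)..1, F a u) (∫ u in (0 : ℝ)..1, F' a₀ u) a₀ := by
  have hI : ∀ u ∈ Set.uIoc (0 : ℝ) 1, u ∈ Set.Icc (0 : ℝ) 1 := by
    intro u hu
    rw [Set.uIoc_of_le zero_le_one] at hu
    exact ⟨hu.1.le, hu.2⟩
  obtain ⟨K, hK⟩ := ((isCompact_closedBall a₀ (ε / 2)).prod
    (isCompact_Icc (a := (0 : ℝ)) (b := 1))).exists_bound_of_continuousOn hF'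
  have hYcb : a₀ ∈ closedBall a₀ (ε / 2) := mem_closedBall_self (by linarith)
  have hF'Y : ContinuousOn (F' a₀) (Set.Icc (0 : ℝ) 1) := by
    have h3 : ContinuousOn (fun u : ℝ => (a₀, u)) (Set.Icc (0 : ℝ) 1) :=
      (Continuous.prodMk continuous_const continuous_id).continuousOn
    have h4 : Set.MapsTo (fun u : ℝ => (a₀, u)) (Set.Icc (0 : ℝ) 1)
        (closedBall a₀ (ε / 2) ×ˢ Set.Icc (0 : ℝ) 1) := fun u hu => ⟨hYcb, hu⟩
    exact ContinuousOn.comp (g := fun z : ℂ × ℝ => F' z.1 z.2) hF' h3 h4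
  have hmeas : ∀ f : ℝ → ℂ, ContinuousOn f (Set.Icc (0 : ℝ) 1) →
      MeasureTheory.AEStronglyMeasurable f
        (MeasureTheory.volume.restrict (Set.uIoc (0 : ℝ) 1)) := by
    intro f hf
    exact (hf.mono hI).aestronglyMeasurable measurableSet_uIoc
  have hint : ∀ f : ℝ → ℂ, ContinuousOn f (Set.Icc (0 : ℝ) 1) →
      IntervalIntegrable f MeasureTheory.volume 0 1 := by
    intro f hf
    refine ContinuousOn.intervalIntegrable ?_
    rwa [Set.uIcc_of_le zero_le_one]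
  exact (intervalIntegral.hasDerivAt_integral_of_dominated_loc_of_deriv_le
    (F := F) (F' := F') (x₀ := a₀) (a := 0) (b := 1) (μ := MeasureTheory.volume)
    (bound := fun _ => K)
    (ball_mem_nhds a₀ (half_pos hε))
    (by
      filter_upwards [ball_mem_nhds a₀ hε] with a ha
      exact hmeas _ (hF a ha))
    (hint _ (hF a₀ (mem_ball_self hε)))
    (hmeas _ hF'Y)
    (by
      refine Filter.Eventually.of_forall fun u hu a ha => ?_
      exact hK (a, u) ⟨ball_subset_closedBall ha, hI u hu⟩)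
    intervalIntegrable_const
    (by
      refine Filter.Eventually.of_forall fun u hu a ha => ?_
      exact hd u (hI u hu) a (ball_subset_ball (by linarith) ha))).2

theorem icc_int {f : ℝ → ℂ} (hf : ContinuousOn f (Set.Icc (0 : ℝ) 1)) :
    IntervalIntegrable f MeasureTheory.volume 0 1 := by
  refine ContinuousOn.intervalIntegrable ?_
  rwa [Set.uIcc_of_le zero_le_one]

theorem seg_closed (x y : ℂ) : IsClosed (segment ℝ x y) := by
  have h1 : IsCompact (segment ℝ x y) := by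
    rw [segment_eq_image']
    exact isCompact_Icc.image (by fun_prop)
  exact h1.isClosed

/-- One segment: the data. -/
structure Dat (m : ℕ) {r : ℕ} (b : Fin (r + 1) → ℕ) (t : Fin (r + 1) → ℂ) (Q Y : ℂ × ℂ) (x : ℂ)
    (C : Set ℂ) (ε : ℝ) : Prop where
  hQ : Q ∈ Pts m b t
  hY : Y ∈ Pts m b t
  hC : Cx t C
  hCo : IsOpen C
  hsC : segment ℝ Q.1 x ⊆ C
  hε : 0 < ε
  hC' : Cx t (ball Y.1 ε)
  hdis : ∀ a ∈ ball Y.1 ε, a ∉ segment ℝ Q.1 x

theorem dat {Q Y : ℂ × ℂ} {x : ℂ}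
    (hQ : Q ∈ Pts m b t) (hY : Y ∈ Pts m b t) (hseg : Cx t (segment ℝ Q.1 x))
    (hYs : Y.1 ∉ segment ℝ Q.1 x) : ∃ C ε, Dat m b t Q Y x C ε := by
  obtain ⟨C, hC, hCo, hsC⟩ := nbh hseg.not
  have hU : IsOpen ((segment ℝ Q.1 x)ᶜ ∩ (Set.range t)ᶜ) :=
    (seg_closed _ _).isOpen_compl.inter (Set.finite_range t).isClosed.isOpen_compl
  have hYU : Y.1 ∈ (segment ℝ Q.1 x)ᶜ ∩ (Set.range t)ᶜ := ⟨hYs, hY.1⟩
  obtain ⟨ε, hε, hball⟩ := Metric.isOpen_iff.1 hU Y.1 hYU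
  exact ⟨C, ε, hQ, hY, hC, hCo, hsC, hε,
    ⟨convex_ball _ _, fun j hj => (hball hj).2 ⟨j, rfl⟩⟩, fun a ha => (hball ha).1⟩

section

variable {Q Y : ℂ × ℂ} {x : ℂ} {C : Set ℂ} {ε : ℝ}

theorem Dat.hQC (D : Dat m b t Q Y x C ε) : Q.1 ∈ C := D.hsC (left_mem_segment ℝ _ _)

theorem Dat.hYC (D : Dat m b t Q Y x C ε) : Y.1 ∈ ball Y.1 ε := mem_ball_self D.hε

theorem Dat.hne (D : Dat m b t Q Y x C ε) : ∀ u ∈ Set.Icc (0 : ℝ) 1, ∀ a ∈ ball Y.1 ε,
    sx Q.1 x u ≠ a := by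
  intro u hu a ha hE
  exact D.hdis a ha (hE ▸ sx_mem Q.1 x hu)

theorem Dat.hmap (D : Dat m b t Q Y x C ε) : Set.MapsTo (sx Q.1 x) (Set.Icc (0 : ℝ) 1) C :=
  fun _ hu => D.hsC (sx_mem _ _ hu)

theorem Dat.hbY (D : Dat m b t Q Y x C ε) (hL : S_Loc) (hm : 1 ≤ m) : bp m b t Y Y.1 = Y :=
  Prod.ext rfl (hL m r b t hm _ D.hC' Y D.hY D.hYC).2.1

theorem Dat.hbQ (D : Dat m b t Q Y x C ε) (hL : S_Loc) (hm : 1 ≤ m) : bp m b t Q Q.1 = Q :=
  Prod.ext rfl (hL m r b t hm _ D.hC Q D.hQ D.hQC).2.1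

/-- The derivative of the integrand. -/
def dF (m : ℕ) {r : ℕ} (b : Fin (r + 1) → ℕ) (t : Fin (r + 1) → ℂ) (Q Y : ℂ × ℂ) (x : ℂ)
    (a : ℂ) (u : ℝ) : ℂ :=
  (x - Q.1) * (Qf m b t (om2 m b t (bp m b t Q (sx Q.1 x u))) (om2 m b t (bp m b t Y a)) -
      dkap m b t (bp m b t Y a) (bp m b t Q (sx Q.1 x u)))

theorem Dat.cont1 (D : Dat m b t Q Y x C ε) (hL : S_Loc) (hm : 1 ≤ m) (a : ℂ)
    (ha : a ∈ ball Y.1 ε) :
    ContinuousOn (fun u => (x - Q.1) * eta m b t (bp m b t Y a) (bp m b t Q (sx Q.1 x u)))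
      (Set.Icc (0 : ℝ) 1) := by
  refine continuousOn_const.mul ?_
  exact ceta hL hm D.hC D.hC' D.hQ D.hQC D.hY D.hYC (sx_cont _ _).continuousOn D.hmap
    (continuousOn_const (c := a)) (fun _ _ => ha) (fun u hu => D.hne u hu a ha)

theorem Dat.cont2 (D : Dat m b t Q Y x C ε) (hL : S_Loc) (hm : 1 ≤ m) :
    ContinuousOn (fun z : ℂ × ℝ => dF m b t Q Y x z.1 z.2)
      (closedBall Y.1 (ε / 2) ×ˢ Set.Icc (0 : ℝ) 1) := by
  have hsub : closedBall Y.1 (ε / 2) ⊆ ball Y.1 ε :=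
    closedBall_subset_ball (by linarith [D.hε])
  have hx : ContinuousOn (fun z : ℂ × ℝ => sx Q.1 x z.2)
      (closedBall Y.1 (ε / 2) ×ˢ Set.Icc (0 : ℝ) 1) :=
    ((sx_cont _ _).comp continuous_snd).continuousOn
  have hxm : Set.MapsTo (fun z : ℂ × ℝ => sx Q.1 x z.2)
      (closedBall Y.1 (ε / 2) ×ˢ Set.Icc (0 : ℝ) 1) C := fun z hz => D.hmap hz.2
  have ha : ContinuousOn (fun z : ℂ × ℝ => z.1)
      (closedBall Y.1 (ε / 2) ×ˢ Set.Icc (0 : ℝ) 1) := continuous_fst.continuousOn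
  have ham : Set.MapsTo (fun z : ℂ × ℝ => z.1)
      (closedBall Y.1 (ε / 2) ×ˢ Set.Icc (0 : ℝ) 1) (ball Y.1 ε) := fun z hz => hsub hz.1
  unfold dF
  refine continuousOn_const.mul (ContinuousOn.sub ?_ ?_)
  · exact cQf hL hm D.hC D.hC' D.hQ D.hQC D.hY D.hYC hx hxm ha ham
  · exact cdkap hL hm D.hC D.hC' D.hQ D.hQC D.hY D.hYC hx hxm ha ham
      (fun z hz => D.hne z.2 hz.2 z.1 (hsub hz.1))

theorem Dat.contA (D : Dat m b t Q Y x C ε) (hL : S_Loc) (hm : 1 ≤ m) :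
    ContinuousOn (fun u : ℝ => (x - Q.1) *
      Qf m b t (om2 m b t (bp m b t Q (sx Q.1 x u))) (om2 m b t Y)) (Set.Icc (0 : ℝ) 1) := by
  refine continuousOn_const.mul ?_
  have h3 := cQf (T := ℝ) hL hm D.hC D.hC' D.hQ D.hQC D.hY D.hYC (sx_cont Q.1 x).continuousOn
    D.hmap (continuousOn_const (c := Y.1)) (fun _ _ => D.hYC)
  rwa [D.hbY hL hm] at h3

theorem Dat.contB (D : Dat m b t Q Y x C ε) (hL : S_Loc) (hm : 1 ≤ m) :
    ContinuousOn (fun u : ℝ => (x - Q.1) *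
      dkap m b t Y (bp m b t Q (sx Q.1 x u))) (Set.Icc (0 : ℝ) 1) := by
  refine continuousOn_const.mul ?_
  have h3 := cdkap (T := ℝ) hL hm D.hC D.hC' D.hQ D.hQC D.hY D.hYC (sx_cont Q.1 x).continuousOn
    D.hmap (continuousOn_const (c := Y.1)) (fun _ _ => D.hYC)
    (fun u hu => D.hne u hu Y.1 D.hYC)
  rwa [D.hbY hL hm] at h3

theorem Dat.ftc (D : Dat m b t Q Y x C ε) (h1 : S_Id1) (h2 : S_Id2) (hL : S_Loc)
    (hcv : Cvb m b) (hm : 1 ≤ m) :
    ∫ u in (0 : ℝ)..1, (x - Q.1) * dkap m b t Y (bp m b t Q (sx Q.1 x u)) =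
      kap m b t Y (bp m b t Q x) - kap m b t Y Q := by
  have key := h2 h1 hL m r b t hcv Q D.hQ Y D.hY C (ball Y.1 ε) D.hC D.hC' D.hCo isOpen_ball
    D.hQC D.hYC
  have h3 : ∀ u ∈ Set.uIcc (0 : ℝ) 1,
      HasDerivAt (fun u : ℝ => kap m b t Y (bp m b t Q (sx Q.1 x u)))
        ((x - Q.1) * dkap m b t Y (bp m b t Q (sx Q.1 x u))) u := by
    intro u hu
    rw [Set.uIcc_of_le zero_le_one] at hu
    have h4 := (key (sx Q.1 x u) (D.hmap hu) Y.1 D.hYC (D.hne u hu Y.1 D.hYC)).1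
    rw [D.hbY hL hm] at h4
    have h5 : HasDerivAt (fun u : ℝ => sx Q.1 x u) (x - Q.1) u := by
      unfold sx
      have h6 : HasDerivAt (fun u : ℝ => (u : ℂ)) 1 u := Complex.ofRealCLM.hasDerivAt
      have h7 := (h6.mul_const (x - Q.1)).const_add Q.1
      rwa [one_mul] at h7
    have h6 := HasDerivAt.comp (h₂ := fun z => kap m b t Y (bp m b t Q z)) u h4 h5
    rw [mul_comm] at h6
    exact h6
  have h4 := intervalIntegral.integral_eq_sub_of_hasDerivAt h3 (icc_int (D.contB hL hm))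
  rw [h4]
  have e1 : sx Q.1 x 1 = x := by unfold sx; push_cast; ring
  have e0 : sx Q.1 x 0 = Q.1 := by unfold sx; push_cast; ring
  rw [e1, e0, D.hbQ hL hm]

theorem Dat.val (D : Dat m b t Q Y x C ε) (h1 : S_Id1) (h2 : S_Id2) (hL : S_Loc)
    (hcv : Cvb m b) (hm : 1 ≤ m) :
    ∫ u in (0 : ℝ)..1, dF m b t Q Y x Y.1 u =
      sgi m b t Q x (fun X => Qf m b t (om2 m b t X) (om2 m b t Y)) -
        (kap m b t Y (bp m b t Q x) - kap m b t Y Q) := by
  rw [← D.ftc h1 h2 hL hcv hm]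
  unfold sgi
  rw [← intervalIntegral.integral_sub (icc_int (D.contA hL hm)) (icc_int (D.contB hL hm))]
  refine intervalIntegral.integral_congr fun u _ => ?_
  show dF m b t Q Y x Y.1 u = _
  unfold dF
  rw [D.hbY hL hm, mul_sub]

/-- One segment. -/
theorem Dat.one (D : Dat m b t Q Y x C ε) (h1 : S_Id1) (h2 : S_Id2) (hL : S_Loc)
    (hcv : Cvb m b) (hm : 1 ≤ m) :
    HasDerivAt (fun a => sgi m b t Q x (eta m b t (bp m b t Y a)))
      (sgi m b t Q x (fun X => Qf m b t (om2 m b t X) (om2 m b t Y)) -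
        (kap m b t Y (bp m b t Q x) - kap m b t Y Q)) Y.1 := by
  have key := h2 h1 hL m r b t hcv Q D.hQ Y D.hY C (ball Y.1 ε) D.hC D.hC' D.hCo isOpen_ball
    D.hQC D.hYC
  rw [← D.val h1 h2 hL hcv hm]
  refine dui (F := fun a u => (x - Q.1) *
    eta m b t (bp m b t Y a) (bp m b t Q (sx Q.1 x u))) (F' := dF m b t Q Y x) D.hε
    (fun a ha => D.cont1 hL hm a ha) (D.cont2 hL hm) ?_
  intro u hu a ha
  exact ((key (sx Q.1 x u) (D.hmap hu) a ha (D.hne u hu a ha)).2).const_mul (x - Q.1)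

end

/-- `om2` is continuous over the path. -/
theorem covr (S : Set ℂ) (q : Ix2 m r) :
    ContinuousOn (fun X => om2 m b t X q) (ovr m b t S) := by
  have hne : ∀ X ∈ ovr m b t S, ∀ j, X.1 - t j ≠ 0 := by
    intro X hX j h0
    exact hX.1.1 ⟨j, (sub_eq_zero.1 h0).symm⟩
  have hf : ContinuousOn (fun X : ℂ × ℂ => X.1) (ovr m b t S) := continuous_fst.continuousOn
  have hs : ContinuousOn (fun X : ℂ × ℂ => X.2) (ovr m b t S) := continuous_snd.continuousOn
  unfold om2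
  refine ContinuousOn.div ((hf.pow (e2 q)).mul ?_) (cqq hf) ?_
  · unfold gu
    refine ContinuousOn.div (hs.pow _) ?_ ?_
    · exact continuousOn_finset_prod _ fun j _ => ((hf.sub continuousOn_const).pow _)
    · intro X hX
      exact Finset.prod_ne_zero_iff.2 fun j _ => pow_ne_zero _ (hne X hX j)
  · intro X hX
    exact Finset.prod_ne_zero_iff.2 fun j _ => hne X hX j

/-- The pairing part. -/
theorem lin (hL : S_Loc) (hS : S_Seg) (hLn : S_Lnr) (hm : 1 ≤ m) {A B : ℂ × ℂ}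
    (p : Path m b t A B) (w : Ix2 m r → ℂ) :
    p.int (fun X => Qf m b t (om2 m b t X) w) = Qf m b t p.v w := by
  have h3 := (hLn hL hS m r b t hm A B p).1 (Ix2 m r) Finset.univ
    (fun p' => ∑ q : Ix2 m r, if c2 p' + c2 q = m then
      sf m b t (c2 p') (e2 p') (e2 q) * w q else 0)
    (fun p' X => om2 m b t X p') (fun q _ => covr _ q)
  have e1 : (fun X => Qf m b t (om2 m b t X) w) = fun X => ∑ p' : Ix2 m r,
      (∑ q : Ix2 m r, if c2 p' + c2 q = m then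
        sf m b t (c2 p') (e2 p') (e2 q) * w q else 0) * om2 m b t X p' := by
    funext X
    unfold Qf
    refine Finset.sum_congr rfl fun p' _ => ?_
    rw [Finset.sum_mul]
    refine Finset.sum_congr rfl fun q _ => ?_
    split_ifs
    · ring
    · rw [zero_mul]
  rw [e1, h3]
  unfold Qf
  refine Finset.sum_congr rfl fun p' _ => ?_
  rw [Finset.sum_mul]
  refine Finset.sum_congr rfl fun q _ => ?_
  split_ifs
  · show _ = sf m b t (c2 p') (e2 p') (e2 q) * p.int (fun X => om2 m b t X p') * w q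
    ring
  · rw [zero_mul]

theorem int_nil {A : ℂ × ℂ} (h : A ∈ Pts m b t) (f : ℂ × ℂ → ℂ) :
    (Path.nil A h : Path m b t A A).int f = 0 := by rw [Path.int]

theorem int_snoc {A Q R : ℂ × ℂ} (p : Path m b t A Q) (h : Sg m b t Q R) (f : ℂ × ℂ → ℂ) :
    (Path.snoc p h).int f = p.int f + sgi m b t Q R.1 f := by rw [Path.int]

theorem on_snoc {A Q R : ℂ × ℂ} (p : Path m b t A Q) (h : Sg m b t Q R) :
    (Path.snoc p h).on = p.on ∪ sx Q.1 R.1 '' Set.Icc (0 : ℝ) 1 := by rw [Path.on]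

/-- The derivative, with the pairing under the integral. -/
theorem main (h1 : S_Id1) (h2 : S_Id2) (hL : S_Loc) (hS : S_Seg) (hcv : Cvb m b) (hm : 1 ≤ m)
    {A B : ℂ × ℂ} (p : Path m b t A B) {Y : ℂ × ℂ} (hY : Y ∈ Pts m b t) (hYp : Y.1 ∉ p.on) :
    HasDerivAt (fun a => p.int (eta m b t (bp m b t Y a)))
      (p.int (fun X => Qf m b t (om2 m b t X) (om2 m b t Y)) -
        (kap m b t Y B - kap m b t Y A)) Y.1 := by
  induction p with
  | nil h =>
    simp only [int_nil]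
    rw [sub_self, sub_zero]
    exact hasDerivAt_const _ _
  | snoc p h ih =>
    rename_i Q R
    rw [on_snoc] at hYp
    have hon : Y.1 ∉ p.on := fun hc => hYp (Or.inl hc)
    have hQ := pend hL hS hm p
    have hQt : ∀ j, t j ≠ Q.1 := fun j hj => hQ.1 ⟨j, hj⟩
    have hCx := (hS r t Q.1 R.1 hQt).1.1 h.1
    have hYs : Y.1 ∉ segment ℝ Q.1 R.1 := by
      rw [(hS r t Q.1 R.1 hQt).2]
      exact fun hc => hYp (Or.inr hc)
    have hbR : bp m b t Q R.1 = R := Prod.ext rfl h.2.symm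
    obtain ⟨C, ε, D⟩ := dat hQ hY hCx hYs
    have h3 := D.one h1 h2 hL hcv hm
    rw [hbR] at h3
    have h4 := (ih hon).add h3
    simp only [int_snoc]
    have e : p.int (fun X => Qf m b t (om2 m b t X) (om2 m b t Y)) +
        sgi m b t Q R.1 (fun X => Qf m b t (om2 m b t X) (om2 m b t Y)) -
        (kap m b t Y R - kap m b t Y A) =
        (p.int (fun X => Qf m b t (om2 m b t X) (om2 m b t Y)) -
          (kap m b t Y Q - kap m b t Y A)) +
        (sgi m b t Q R.1 (fun X => Qf m b t (om2 m b t X) (om2 m b t Y)) -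
          (kap m b t Y R - kap m b t Y Q)) := by ring
    rw [e]
    exact h4

end DerM

theorem tDer : S_Der := by
  intro h1 h2 hL hS hLn m r b t hcv A B p Y hY hYp
  have hm : 1 ≤ m := le_trans (by norm_num) hcv.1
  rw [← DerM.lin hL hS hLn hm p (om2 m b t Y)]
  exact DerM.main h1 h2 hL hS hcv hm p hY hYp

end TNF.AB
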