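import Pool.Agent.Lib.TNF.AB.SpecA

/-!
# TNF/AB/Dsl: the integral of difference quotients is holomorphic
-/

set_option autoImplicit false

open Topology Metric MeasureTheory

noncomputable section

namespace TNF.AB

open SEJ TATE

namespace DslM

theorem dslope_symm (F : ℂ → ℂ) (x z : ℂ) : dslope F x z = dslope F z x := by
  rcases eq_or_ne x z with rfl | h
  · rfl
  · rw [dslope_of_ne F h.symm, dslope_of_ne F h, slope_comm]

/-- difference quotients are bounded on smaller closed balls -/
theorem bound {x₀ : ℂ} {ρ : ℝ} {F : ℂ → ℂ} (hF : DifferentiableOn ℂ F (ball x₀ ρ)) {r : ℝ}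
    (hr : r < ρ) : ∃ M : ℝ, ∀ x ∈ closedBall x₀ r, ∀ z ∈ closedBall x₀ r, ‖dslope F x z‖ ≤ M := by
  have hsub : closedBall x₀ r ⊆ ball x₀ ρ := closedBall_subset_ball hr
  have hd : ContinuousOn (deriv F) (closedBall x₀ r) :=
    ((hF.deriv isOpen_ball).continuousOn).mono hsub
  obtain ⟨M, hM⟩ := (isCompact_closedBall x₀ r).exists_bound_of_continuousOn hd
  refine ⟨M, fun x hx z hz => ?_⟩
  rcases eq_or_ne z x with rfl | h
  · rw [dslope_same]
    exact hM _ hz
  · rw [dslope_of_ne F h, slope_def_module, norm_smul, norm_inv]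
    have h1 : ‖F z - F x‖ ≤ M * ‖z - x‖ :=
      Convex.norm_image_sub_le_of_norm_deriv_le
        (fun y hy => hF.differentiableAt (isOpen_ball.mem_nhds (hsub hy))) hM
        (convex_closedBall x₀ r) hx hz
    have h2 : 0 < ‖z - x‖ := norm_pos_iff.2 (sub_ne_zero.2 h)
    rw [inv_mul_le_iff₀ h2, mul_comm]
    exact h1

theorem differentiableOn_dslope_ball {x₀ : ℂ} {ρ : ℝ} {F : ℂ → ℂ}
    (hF : DifferentiableOn ℂ F (ball x₀ ρ)) {z : ℂ} (hz : z ∈ ball x₀ ρ) :
    DifferentiableOn ℂ (dslope F z) (ball x₀ ρ) :=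
  (Complex.differentiableOn_dslope (isOpen_ball.mem_nhds hz)).2 hF

theorem sx_mem {x₀ α β : ℂ} {r : ℝ} (hα : α ∈ closedBall x₀ r) (hβ : β ∈ closedBall x₀ r) {u : ℝ}
    (hu : u ∈ Set.Icc (0 : ℝ) 1) : sx α β u ∈ closedBall x₀ r := by
  have h := (convex_closedBall x₀ r).add_smul_sub_mem hα hβ hu
  have e : α + u • (β - α) = sx α β u := by
    rw [sx, Complex.real_smul]
  rwa [e] at h

theorem continuous_sx (α β : ℂ) : Continuous (sx α β) := by
  unfold sx
  fun_prop

end DslM

open DslM in
theorem tDsl : S_Dsl := by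
  intro x₀ ρ F hF α hα β hβ x₁ hx₁
  refine DifferentiableAt.differentiableWithinAt ?_
  obtain ⟨r, hr1, hr⟩ : ∃ r : ℝ, max (max (dist α x₀) (dist β x₀)) (dist x₁ x₀) < r ∧ r < ρ :=
    exists_between (max_lt (max_lt (mem_ball.1 hα) (mem_ball.1 hβ)) (mem_ball.1 hx₁))
  have hαr : dist α x₀ < r := lt_of_le_of_lt ((le_max_left _ _).trans (le_max_left _ _)) hr1
  have hβr : dist β x₀ < r := lt_of_le_of_lt ((le_max_right _ _).trans (le_max_left _ _)) hr1
  have hxr : dist x₁ x₀ < r := lt_of_le_of_lt (le_max_right _ _) hr1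
  have hsub : closedBall x₀ r ⊆ ball x₀ ρ := closedBall_subset_ball hr
  obtain ⟨M, hM⟩ := bound hF hr
  set ε : ℝ := (r - dist x₁ x₀) / 2 with hε
  have hε0 : 0 < ε := by rw [hε]; linarith
  have hin : ∀ x ∈ ball x₁ ε, closedBall x ε ⊆ closedBall x₀ r := by
    intro x hx y hy
    rw [mem_closedBall] at hy ⊢
    have h1 := dist_triangle4 y x x₁ x₀
    have h2 := mem_ball.1 hx
    rw [hε] at h2 hy
    linarith
  have hz : ∀ u ∈ Set.Icc (0 : ℝ) 1, sx α β u ∈ closedBall x₀ r := fun u hu =>
    sx_mem (mem_closedBall.2 hαr.le) (mem_closedBall.2 hβr.le) hu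
  have hIoc : ∀ u ∈ Set.uIoc (0 : ℝ) 1, u ∈ Set.Icc (0 : ℝ) 1 := by
    intro u hu
    rw [Set.uIoc_of_le zero_le_one] at hu
    exact Set.Ioc_subset_Icc_self hu
  -- continuity in `u`
  have hcont : ∀ x ∈ ball x₀ ρ, ContinuousOn (fun u : ℝ => dslope F x (sx α β u))
      (Set.Icc 0 1) := by
    intro x hx
    exact (differentiableOn_dslope_ball hF hx).continuousOn.comp (continuous_sx α β).continuousOn
      fun u hu => hsub (hz u hu)
  have hmeas : ∀ x ∈ ball x₀ ρ, AEStronglyMeasurable (fun u : ℝ => dslope F x (sx α β u))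
      (volume.restrict (Set.uIoc 0 1)) := by
    intro x hx
    have h := (hcont x hx).aestronglyMeasurable measurableSet_Icc (μ := volume)
    exact h.mono_set fun u hu => hIoc u hu
  -- derivative in `x`
  have hder : ∀ u ∈ Set.Icc (0 : ℝ) 1, ∀ x ∈ ball x₀ ρ,
      HasDerivAt (fun x' => (β - α) * dslope F x' (sx α β u))
        ((β - α) * deriv (dslope F (sx α β u)) x) x := by
    intro u hu x hx
    have h1 : HasDerivAt (dslope F (sx α β u)) (deriv (dslope F (sx α β u)) x) x :=
      ((differentiableOn_dslope_ball hF (hsub (hz u hu))).differentiableAt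
        (isOpen_ball.mem_nhds hx)).hasDerivAt
    have h2 : (fun x' => (β - α) * dslope F x' (sx α β u)) =
        fun x' => (β - α) * dslope F (sx α β u) x' := by
      funext x'
      rw [dslope_symm]
    rw [h2]
    exact h1.const_mul _
  have hx₁' : x₁ ∈ ball x₀ ρ := hx₁
  have hballs : ∀ x ∈ ball x₁ ε, x ∈ ball x₀ ρ := fun x hx =>
    hsub (hin x hx (mem_closedBall_self hε0.le))
  have hd' : HasDerivAt (fun x => ∫ u in (0 : ℝ)..1, (β - α) * dslope F x (sx α β u))
      (∫ u in (0 : ℝ)..1, (β - α) * deriv (dslope F (sx α β u)) x₁) x₁ := by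
    refine (intervalIntegral.hasDerivAt_integral_of_dominated_loc_of_deriv_le
      (F := fun x u => (β - α) * dslope F x (sx α β u))
      (F' := fun x u => (β - α) * deriv (dslope F (sx α β u)) x)
      (s := ball x₁ ε) (bound := fun _ => ‖β - α‖ * (M / ε)) (ball_mem_nhds x₁ hε0)
      ?_ ?_ ?_ ?_ ?_ ?_).2
    · filter_upwards [isOpen_ball.mem_nhds hx₁'] with x hx
      exact (hmeas x hx).const_mul _
    · have h := (hcont x₁ hx₁').const_smul (β - α)
      have h2 : ContinuousOn (fun u : ℝ => (β - α) * dslope F x₁ (sx α β u))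
          (Set.uIcc 0 1) := by
        rw [Set.uIcc_of_le zero_le_one]
        exact h
      exact h2.intervalIntegrable
    · -- measurability of the derivative: limit of difference quotients
      refine AEStronglyMeasurable.const_mul ?_ _
      refine aestronglyMeasurable_of_tendsto_ae (Filter.atTop : Filter ℕ)
        (f := fun (n : ℕ) (u : ℝ) => ((ε / (n + 2) : ℝ) : ℂ)⁻¹ *
          (dslope F (x₁ + ((ε / (n + 2) : ℝ) : ℂ)) (sx α β u) - dslope F x₁ (sx α β u))) ?_ ?_
      · intro n
        have hn : (0 : ℝ) < n + 2 := by positivity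
        have hmem : x₁ + ((ε / (n + 2) : ℝ) : ℂ) ∈ ball x₁ ε := by
          rw [mem_ball, dist_eq_norm, add_sub_cancel_left, Complex.norm_real, Real.norm_eq_abs,
            abs_of_pos (div_pos hε0 hn), div_lt_iff₀ hn]
          nlinarith
        exact ((hmeas _ (hballs _ hmem)).sub (hmeas _ hx₁')).const_mul _
      · rw [ae_restrict_iff' measurableSet_uIoc]
        refine Filter.Eventually.of_forall fun u hu => ?_
        have hu' := hIoc u hu
        have h1 : HasDerivAt (dslope F (sx α β u)) (deriv (dslope F (sx α β u)) x₁) x₁ :=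
          ((differentiableOn_dslope_ball hF (hsub (hz u hu'))).differentiableAt
            (isOpen_ball.mem_nhds hx₁')).hasDerivAt
        have h2 := h1.tendsto_slope_zero
        have h3 : Filter.Tendsto (fun n : ℕ => ((ε / (n + 2) : ℝ) : ℂ)) Filter.atTop
            (𝓝[≠] (0 : ℂ)) := by
          refine tendsto_nhdsWithin_iff.2 ⟨?_, Filter.Eventually.of_forall fun n => ?_⟩
          · have h4 : Filter.Tendsto (fun n : ℕ => ε / ((n : ℝ) + 2)) Filter.atTop (𝓝 0) :=
              Filter.Tendsto.const_div_atTop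
                (Filter.tendsto_atTop_add_const_right _ _ tendsto_natCast_atTop_atTop) ε
            have h5 := (Complex.continuous_ofReal.tendsto 0).comp h4
            rw [Complex.ofReal_zero] at h5
            exact h5
          · have hn : (0 : ℝ) < n + 2 := by positivity
            exact Complex.ofReal_ne_zero.2 (div_pos hε0 hn).ne'
        have h6 := h2.comp h3
        refine h6.congr fun n => ?_
        simp only [Function.comp_apply, smul_eq_mul]
        rw [dslope_symm F (x₁ + _) _, dslope_symm F x₁ _]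
    · refine Filter.Eventually.of_forall fun u hu x hx => ?_
      rw [norm_mul]
      refine mul_le_mul_of_nonneg_left ?_ (norm_nonneg _)
      have hu' := hIoc u hu
      refine Complex.norm_deriv_le_of_forall_mem_sphere_norm_le hε0 ?_ ?_
      · refine DifferentiableOn.diffContOnCl ?_
        rw [closure_ball x hε0.ne']
        exact (differentiableOn_dslope_ball hF (hsub (hz u hu'))).mono fun y hy =>
          hsub (hin x hx hy)
      · intro y hy
        exact hM _ (hz u hu') _ (hin x hx (sphere_subset_closedBall hy))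
    · exact intervalIntegrable_const
    · exact Filter.Eventually.of_forall fun u hu x hx => hder u (hIoc u hu) x (hballs x hx)
  exact hd'.differentiableAt

end TNF.AB
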