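import Pool.Agent.Lib.TNF.AB.SpecA

/-!
# PROJECT TNF, package AB: general position (`S_Gp`)
-/

set_option autoImplicit false

open Topology Metric

noncomputable section

namespace TNF.AB

open SEJ TATE

namespace GpM

variable {m r : ℕ} {b : Fin (r + 1) → ℕ} {t : Fin (r + 1) → ℂ}

/-- The integrals along a segment. -/
def V (m : ℕ) (b : Fin (r + 1) → ℕ) (t : Fin (r + 1) → ℂ) (Y : ℂ × ℂ) (x : ℂ) (q : Ix2 m r) : ℂ :=
  sgi m b t Y x (fun X => om2 m b t X q)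

theorem V_self (Y : ℂ × ℂ) (q : Ix2 m r) : V m b t Y Y.1 q = 0 := by
  unfold V sgi
  simp

/-- The relation for the chain principle. -/
def Rl (m : ℕ) (b : Fin (r + 1) → ℕ) (t : Fin (r + 1) → ℂ) (A : Set ℂ) (P Q : ℂ × ℂ) (v : Ix2 m r → ℂ) : Prop :=
  P ∈ Pts m b t ∧ Q ∈ Pts m b t ∧ ∃ δ > 0, ∀ x ∈ ball P.1 δ, x ∉ A → ∀ z ∈ ball Q.1 δ, z ∉ A →
    ∃ p : Path m b t (bp m b t P x) (bp m b t Q z), Disjoint p.on A ∧
      ∀ q, p.v q = v q + V m b t Q z q - V m b t P x q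

/-- A point of a ball off a finite set. -/
theorem off (A : Set ℂ) (hA : A.Finite) (x₀ : ℂ) {δ : ℝ} (hδ : 0 < δ) : ∃ x ∈ ball x₀ δ, x ∉ A := by
  by_contra hcon
  push Not at hcon
  have h0 : MeasureTheory.volume (ball x₀ δ) = 0 :=
    MeasureTheory.measure_mono_null (fun x hx => hcon x hx) (hA.measure_zero _)
  exact absurd h0 (measure_ball_pos _ x₀ hδ).ne'

theorem cx_ball {Y : ℂ × ℂ} (hY : Y ∈ Pts m b t) : ∃ ρ > 0, Cx t (ball Y.1 ρ) := by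
  have hcl : IsClosed (Set.range t) := (Set.finite_range t).isClosed
  obtain ⟨ρ, hρ, h⟩ := Metric.isOpen_iff.1 hcl.isOpen_compl Y.1 hY.1
  exact ⟨ρ, hρ, convex_ball _ _, fun j hj => h hj ⟨j, rfl⟩⟩

theorem rl_local (hL : S_Loc) (hS : S_Seg) (hP : S_Prm) (hG : S_Gp0) (hm : 1 ≤ m) (A : Set ℂ) (hA : A.Finite)
    {Y : ℂ × ℂ} (hY : Y ∈ Pts m b t) {ρ : ℝ} (hC : Cx t (ball Y.1 ρ)) {g : ℂ → (Ix2 m r → ℂ)}
    (hg : IsPm m b t Y (ball Y.1 ρ) g) {x x' : ℂ} (hx : x ∈ ball Y.1 ρ) (hx' : x' ∈ ball Y.1 ρ) :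
    Rl m b t A (bp m b t Y x) (bp m b t Y x') (g x' - g x) := by
  have hρ : 0 < ρ := pos_of_mem_ball hx
  have hYb : Y.1 ∈ ball Y.1 ρ := mem_ball_self hρ
  obtain ⟨l1, l2, l3, l4, l5, l6, l7⟩ := hL m r b t hm _ hC Y hY hYb
  obtain ⟨-, hint⟩ := hP hL m r b t hm Y.1 ρ hC Y hY hYb
  obtain ⟨δ₁, hδ₁, hb₁⟩ := Metric.isOpen_iff.1 isOpen_ball x hx
  obtain ⟨δ₂, hδ₂, hb₂⟩ := Metric.isOpen_iff.1 isOpen_ball x' hx'
  refine ⟨l3 x hx, l3 x' hx', min δ₁ δ₂, lt_min hδ₁ hδ₂, ?_⟩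
  intro y hy hyA z hz hzA
  have hy' : y ∈ ball Y.1 ρ := hb₁ (ball_subset_ball (min_le_left _ _) hy)
  have hz' : z ∈ ball Y.1 ρ := hb₂ (ball_subset_ball (min_le_right _ _) hz)
  obtain ⟨p, hp1, -, hp3⟩ := hG hL hS hP m r b t hm A hA Y.1 ρ hC Y hY hYb y hy' z hz' hyA hzA
  have e1 : bp m b t (bp m b t Y x) y = bp m b t Y y := Prod.ext rfl (l4 x hx y hy')
  have e2 : bp m b t (bp m b t Y x') z = bp m b t Y z := Prod.ext rfl (l4 x' hx' z hz')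
  rw [e1, e2]
  refine ⟨p, hp1, fun q => ?_⟩
  have h1 : p.v q = g z q - g y q := by rw [hp3 g hg]; rfl
  have h2 : V m b t (bp m b t Y x) y q = g y q - g x q := hint g hg x hx y hy' q
  have h3 : V m b t (bp m b t Y x') z q = g z q - g x' q := hint g hg x' hx' z hz' q
  rw [h1, h2, h3, Pi.sub_apply]
  ring

theorem rl_trans (hAl : S_Alg2) (hm : 1 ≤ m) (A : Set ℂ) (hA : A.Finite) {P Q S : ℂ × ℂ} {v w : Ix2 m r → ℂ}
    (h1 : Rl m b t A P Q v) (h2 : Rl m b t A Q S w) : Rl m b t A P S (v + w) := by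
  obtain ⟨hP, hQ, δ₁, hδ₁, k1⟩ := h1
  obtain ⟨-, hS, δ₂, hδ₂, k2⟩ := h2
  refine ⟨hP, hS, min δ₁ δ₂, lt_min hδ₁ hδ₂, ?_⟩
  intro x hx hxA z hz hzA
  obtain ⟨y, hy, hyA⟩ := off A hA Q.1 (lt_min hδ₁ hδ₂)
  obtain ⟨p, p1, p2⟩ := k1 x (ball_subset_ball (min_le_left _ _) hx) hxA y
    (ball_subset_ball (min_le_left _ _) hy) hyA
  obtain ⟨p', p1', p2'⟩ := k2 y (ball_subset_ball (min_le_right _ _) hy) hyA z
    (ball_subset_ball (min_le_right _ _) hz) hzA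
  obtain ⟨p'', q1, q2⟩ := (hAl m r b t hm).2.1 _ _ _ p p'
  refine ⟨p'', ?_, fun q => ?_⟩
  · exact Set.disjoint_of_subset_left q2 (Set.disjoint_union_left.2 ⟨p1, p1'⟩)
  · have e : p''.v q = p.v q + p'.v q := q1 _
    rw [e, p2 q, p2' q, Pi.add_apply]
    ring

theorem rl_all (hL : S_Loc) (hS : S_Seg) (hSub : S_Sub) (hAl : S_Alg2) (hP : S_Prm) (hCh : S_Chn) (hG : S_Gp0)
    (hm : 1 ≤ m) (A : Set ℂ) (hA : A.Finite) {P Q : ℂ × ℂ} (p : Path m b t P Q) : Rl m b t A P Q p.v := by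
  refine hCh hL hS hSub hP m r b t hm (Rl m b t A) ?_ ?_ ?_ P Q p
  · intro P hPP
    obtain ⟨ρ, hρ, hC⟩ := cx_ball hPP
    have hPb : P.1 ∈ ball P.1 ρ := mem_ball_self hρ
    obtain ⟨⟨g, hg⟩, -⟩ := hP hL m r b t hm P.1 ρ hC P hPP hPb
    have h := rl_local hL hS hP hG hm A hA hPP hC hg hPb hPb
    have e : bp m b t P P.1 = P := Prod.ext rfl (hL m r b t hm _ hC P hPP hPb).2.1
    rwa [e, sub_self] at h
  · intro P Q S v w h1 h2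
    exact rl_trans hAl hm A hA h1 h2
  · intro Y hY
    obtain ⟨ρ, hρ, hC⟩ := cx_ball hY
    exact ⟨ρ, hρ, hC, fun g hg x hx x' hx' => rl_local hL hS hP hG hm A hA hY hC hg hx hx'⟩

theorem bp_self (hL : S_Loc) (hm : 1 ≤ m) {P : ℂ × ℂ} (hPP : P ∈ Pts m b t) : bp m b t P P.1 = P := by
  obtain ⟨ρ, hρ, hC⟩ := cx_ball hPP
  exact Prod.ext rfl (hL m r b t hm _ hC P hPP (mem_ball_self hρ)).2.1

/-- A path with end points off the finite set. -/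
theorem first (hL : S_Loc) (hS : S_Seg) (hSub : S_Sub) (hAl : S_Alg2) (hP : S_Prm) (hCh : S_Chn) (hG : S_Gp0)
    (hm : 1 ≤ m) (A : Set ℂ) (hA : A.Finite) {P Q : ℂ × ℂ} (p : Path m b t P Q) (hPA : P.1 ∉ A) (hQA : Q.1 ∉ A) :
    ∃ p' : Path m b t P Q, p'.v = p.v ∧ Disjoint p'.on A := by
  obtain ⟨hPP, hQQ, δ, hδ, k⟩ := rl_all hL hS hSub hAl hP hCh hG hm A hA p
  obtain ⟨p', h1, h2⟩ := k P.1 (mem_ball_self hδ) hPA Q.1 (mem_ball_self hδ) hQA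
  have key : ∀ P' Q' : ℂ × ℂ, P' = P → Q' = Q → ∀ p' : Path m b t P' Q', Disjoint p'.on A →
      (∀ q, p'.v q = p.v q) → ∃ p' : Path m b t P Q, p'.v = p.v ∧ Disjoint p'.on A := by
    rintro P' Q' rfl rfl p' h1 h2
    exact ⟨p', funext h2, h1⟩
  refine key _ _ (bp_self hL hm hPP) (bp_self hL hm hQQ) p' h1 (fun q => ?_)
  rw [h2 q, V_self, V_self]
  ring

end GpM

open GpM in
theorem tGp : S_Loc → S_Seg → S_Sub → S_Alg2 → S_Prm → S_Chn → S_Gp0 → S_Itp → TATE.FA.S_Con → S_Gp := by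
  intro hL hS hSub hAl hP hCh hG hI hCon m r b t hb ht A hA
  have hm : 1 ≤ m := by
    have := hb.1
    omega
  have h1 : ∀ (P Q : ℂ × ℂ) (p : Path m b t P Q), P.1 ∉ A → Q.1 ∉ A →
      ∃ p' : Path m b t P Q, p'.v = p.v ∧ Disjoint p'.on A :=
    fun P Q p hPA hQA => first hL hS hSub hAl hP hCh hG hm A hA p hPA hQA
  refine ⟨h1, ?_, ?_⟩
  · rintro β ⟨P, p, rfl⟩
    obtain ⟨hPP, -, δ, hδ, k⟩ := rl_all hL hS hSub hAl hP hCh hG hm A hA p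
    obtain ⟨x, hx, hxA⟩ := off A hA P.1 hδ
    obtain ⟨p', k1, k2⟩ := k x hx hxA x hx hxA
    refine ⟨bp m b t P x, p', funext (fun q => ?_), k1⟩
    rw [k2 q]
    ring
  · intro P hPP Q hQQ hPA hQA
    obtain ⟨v, hv⟩ := hCon m r b t hb ht P hPP Q hQQ
    obtain ⟨p, -⟩ := (hI m r b t hm P Q v).1 hv
    obtain ⟨p', -, hp'⟩ := h1 P Q p hPA hQA
    exact ⟨p', hp'⟩

end TNF.AB
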