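import Pool.Agent.Lib.TNF.AB.SpecA

/-!
# PROJECT TNF, package AB: two points in a ball off a finite set (`S_Gp0`)
-/

set_option autoImplicit false

open Topology Metric

noncomputable section

namespace TNF.AB

open SEJ TATE

namespace Gp0M

/-- A real line in the plane has measure zero. -/
theorem line_null (x a : ℂ) : MeasureTheory.volume (line[ℝ, x, a] : Set ℂ) = 0 := by
  refine MeasureTheory.Measure.addHaar_affineSubspace _ _ (fun h => ?_)
  have h1 : Collinear ℝ ({x, a} : Set ℂ) := collinear_pair ℝ x a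
  have h2 := h1.finrank_le_one
  have h3 : vectorSpan ℝ ({x, a} : Set ℂ) = ⊤ := by
    rw [← direction_affineSpan, h, AffineSubspace.direction_top]
  rw [h3, finrank_top, Complex.finrank_real_complex] at h2
  omega

/-- A point of the ball off finitely many lines. -/
theorem middle (A : Set ℂ) (hA : A.Finite) (x₀ : ℂ) (ρ : ℝ) (hρ : 0 < ρ) (x z : ℂ) :
    ∃ w ∈ ball x₀ ρ, w ∉ A ∧ ∀ a ∈ A, w ∉ line[ℝ, x, a] ∧ w ∉ line[ℝ, z, a] := by
  by_contra hcon
  push Not at hcon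
  have hsub : ball x₀ ρ ⊆ A ∪ ((⋃ a ∈ A, (line[ℝ, x, a] : Set ℂ)) ∪ ⋃ a ∈ A, (line[ℝ, z, a] : Set ℂ)) := by
    intro w hw
    by_cases hwA : w ∈ A
    · exact Or.inl hwA
    · obtain ⟨a, ha, h⟩ := hcon w hw hwA
      by_cases h1 : w ∈ line[ℝ, x, a]
      · exact Or.inr (Or.inl (Set.mem_biUnion ha h1))
      · exact Or.inr (Or.inr (Set.mem_biUnion ha (h h1)))
  have hnull : MeasureTheory.volume
      (A ∪ ((⋃ a ∈ A, (line[ℝ, x, a] : Set ℂ)) ∪ ⋃ a ∈ A, (line[ℝ, z, a] : Set ℂ))) = 0 := by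
    refine MeasureTheory.measure_union_null (hA.measure_zero _) (MeasureTheory.measure_union_null ?_ ?_)
    · exact (MeasureTheory.measure_biUnion_null_iff hA.countable).2 (fun a _ => line_null x a)
    · exact (MeasureTheory.measure_biUnion_null_iff hA.countable).2 (fun a _ => line_null z a)
  have h0 : MeasureTheory.volume (ball x₀ ρ) = 0 := MeasureTheory.measure_mono_null hsub hnull
  exact absurd h0 (measure_ball_pos _ x₀ hρ).ne'

/-- The segment avoids the point. -/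
theorem seg_avoid {x w a : ℂ} (hxa : x ≠ a) (hw : w ∉ line[ℝ, x, a]) : a ∉ segment ℝ x w := by
  intro h
  rw [segment_eq_image_lineMap] at h
  obtain ⟨s, -, hs⟩ := h
  have hs0 : s ≠ 0 := by
    rintro rfl
    rw [AffineMap.lineMap_apply_zero] at hs
    exact hxa hs
  apply hw
  have h1 : AffineMap.lineMap x a s⁻¹ = w := by
    rw [← hs]
    simp only [AffineMap.lineMap_apply, vsub_eq_sub, vadd_eq_add, smul_smul, add_sub_cancel_right]
    rw [inv_mul_cancel₀ hs0, one_smul, sub_add_cancel]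
  rw [← h1]
  exact AffineMap.lineMap_mem_affineSpan_pair _ _ _

end Gp0M

open Gp0M in
theorem tGp0 : S_Gp0 := by
  intro hL hS hPrm m r b t hm A hA x₀ ρ hC Y hY hYb x hx z hz hxA hzA
  have hρ : 0 < ρ := pos_of_mem_ball hx
  obtain ⟨w, hw, hwA, hwl⟩ := middle A hA x₀ ρ hρ x z
  obtain ⟨l1, l2, l3, l4, l5, l6, l7⟩ := hL m r b t hm _ hC Y hY hYb
  have hsub : ∀ {u v : ℂ}, u ∈ ball x₀ ρ → v ∈ ball x₀ ρ → segment ℝ u v ⊆ ball x₀ ρ :=
    fun hu hv => hC.cvx.segment_subset hu hv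
  have hst : ∀ {u v : ℂ}, u ∈ ball x₀ ρ → v ∈ ball x₀ ρ → v ∈ st t u := fun hu hv => l1 _ hu hv
  have hsg : ∀ {u v : ℂ}, u ∈ ball x₀ ρ → v ∈ ball x₀ ρ → Sg m b t (bp m b t Y u) (bp m b t Y v) := by
    intro u v hu hv
    exact ⟨hst hu hv, (l4 u hu v hv).symm⟩
  have hne : ∀ {u : ℂ}, u ∈ ball x₀ ρ → ∀ j, t j ≠ u := fun hu j h => hC.not j (h ▸ hu)
  have himg : ∀ {u v : ℂ}, u ∈ ball x₀ ρ → v ∈ ball x₀ ρ → sx u v '' Set.Icc (0 : ℝ) 1 = segment ℝ u v :=
    fun {u v} hu hv => ((hS r t u v (hne hu)).2).symm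
  let p : Path m b t (bp m b t Y x) (bp m b t Y z) :=
    Path.snoc (Path.snoc (Path.nil _ (l3 x hx)) (hsg hx hw)) (hsg hw hz)
  have hon : p.on = ({x} ∪ segment ℝ x w) ∪ segment ℝ w z := by
    simp only [p, Path.on]
    show ({x} ∪ sx x w '' Set.Icc (0 : ℝ) 1) ∪ sx w z '' Set.Icc (0 : ℝ) 1 = _
    rw [himg hx hw, himg hw hz]
  refine ⟨p, ?_, ?_, ?_⟩
  · rw [hon, Set.disjoint_left]
    rintro a ((h | h) | h) haA
    · rw [Set.mem_singleton_iff] at h
      exact hxA (h ▸ haA)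
    · exact seg_avoid (x := x) (a := a) (fun e => hxA (by rw [e]; exact haA)) (hwl a haA).1 h
    · rw [segment_symm] at h
      exact seg_avoid (x := z) (a := a) (fun e => hzA (by rw [e]; exact haA)) (hwl a haA).2 h
  · rw [hon]
    refine Set.union_subset (Set.union_subset ?_ (hsub hx hw)) (hsub hw hz)
    exact Set.singleton_subset_iff.2 hx
  · intro g hg
    obtain ⟨-, hint⟩ := hPrm hL m r b t hm x₀ ρ hC Y hY hYb
    funext q
    have e1 := hint g hg x hx w hw q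
    have e2 := hint g hg w hw z hz q
    simp only [Path.v, p, Path.int]
    show 0 + sgi m b t (bp m b t Y x) w _ + sgi m b t (bp m b t Y w) z _ = g z q - g x q
    rw [e1, e2]
    ring

end TNF.AB
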