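import Pool.Agent.Lib.TNF.AB.SpecA

/-!
# The polynomial identity
-/

set_option autoImplicit false

namespace TNF.AB

open SEJ TATE

noncomputable section

namespace Id1M

theorem inner (r k : ℕ) (hk : k ≤ r) (x a : ℂ) (w : ℕ → ℂ) :
    ∑ i ∈ Finset.range r, ∑ j ∈ Finset.range r,
      (if i + j + 1 = k then w j * (x ^ i * a ^ j) else 0) =
      ∑ i ∈ Finset.range k, w (k - 1 - i) * (x ^ i * a ^ (k - 1 - i)) := by
  rw [← Finset.sum_subset (Finset.range_mono hk)]
  · refine Finset.sum_congr rfl fun i hi => ?_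
    rw [Finset.mem_range] at hi
    rw [Finset.sum_eq_single (k - 1 - i)]
    · rw [if_pos (by omega)]
    · intro j _ hj
      rw [if_neg (by omega)]
    · intro h
      exact absurd (Finset.mem_range.2 (by omega)) h
  · intro i _ hi
    rw [Finset.mem_range] at hi
    refine Finset.sum_eq_zero fun j _ => ?_
    rw [if_neg (by omega)]

theorem outer (r : ℕ) (x a : ℂ) (w c : ℕ → ℂ) (hc : ∀ n, r < n → c n = 0) :
    ∑ i ∈ Finset.range r, ∑ j ∈ Finset.range r, c (i + j + 1) * (w j * (x ^ i * a ^ j)) =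
      ∑ k ∈ Finset.range (r + 1), c k *
        ∑ i ∈ Finset.range k, w (k - 1 - i) * (x ^ i * a ^ (k - 1 - i)) := by
  have h1 : ∀ i ∈ Finset.range r, ∀ j ∈ Finset.range r,
      c (i + j + 1) * (w j * (x ^ i * a ^ j)) =
        ∑ k ∈ Finset.range (r + 1), c k *
          (if i + j + 1 = k then w j * (x ^ i * a ^ j) else 0) := by
    intro i _ j _
    by_cases h : i + j + 1 < r + 1
    · rw [Finset.sum_eq_single (i + j + 1)]
      · rw [if_pos rfl]
      · intro k _ hk
        rw [if_neg (fun h' => hk h'.symm), mul_zero]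
      · intro h'
        exact absurd (Finset.mem_range.2 h) h'
    · rw [hc _ (by omega), zero_mul]
      refine (Finset.sum_eq_zero fun k hk => ?_).symm
      rw [Finset.mem_range] at hk
      rw [if_neg (by omega), mul_zero]
  rw [Finset.sum_congr rfl fun i hi => Finset.sum_congr rfl (h1 i hi)]
  rw [Finset.sum_congr rfl fun i _ => Finset.sum_comm, Finset.sum_comm]
  refine Finset.sum_congr rfl fun k hk => ?_
  rw [Finset.mem_range] at hk
  rw [← inner r k (by omega) x a w, Finset.mul_sum]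
  refine Finset.sum_congr rfl fun i _ => ?_
  rw [Finset.mul_sum]

theorem geo1 (x a : ℂ) (k : ℕ) :
    (x - a) * ∑ i ∈ Finset.range k, (1 : ℂ) * (x ^ i * a ^ (k - 1 - i)) = x ^ k - a ^ k := by
  simp only [one_mul]
  rw [mul_comm]
  exact (Commute.all x a).geom_sum₂_mul k

theorem geo2 (x a : ℂ) (k : ℕ) :
    (x - a) ^ 2 * ∑ i ∈ Finset.range k, (((k - 1 - i : ℕ) : ℂ) + 1) * (x ^ i * a ^ (k - 1 - i)) =
      x ^ (k + 1) - a ^ (k + 1) - (k + 1) * a ^ k * (x - a) := by
  induction k with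
  | zero => simp
  | succ k ih =>
    have h1 : ∑ i ∈ Finset.range (k + 1),
        (((k + 1 - 1 - i : ℕ) : ℂ) + 1) * (x ^ i * a ^ (k + 1 - 1 - i)) =
        a * (∑ i ∈ Finset.range k, (((k - 1 - i : ℕ) : ℂ) + 1) * (x ^ i * a ^ (k - 1 - i))) +
          ∑ i ∈ Finset.range (k + 1), (1 : ℂ) * (x ^ i * a ^ (k + 1 - 1 - i)) := by
      rw [Finset.sum_range_succ, Finset.sum_range_succ _ k, Finset.mul_sum, ← add_assoc,
        ← Finset.sum_add_distrib]
      refine congrArg₂ _ (Finset.sum_congr rfl fun i hi => ?_) ?_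
      · rw [Finset.mem_range] at hi
        obtain ⟨n, rfl⟩ : ∃ n, k = i + n + 1 := ⟨k - i - 1, by omega⟩
        have e1 : i + n + 1 + 1 - 1 - i = n + 1 := by omega
        have e2 : i + n + 1 - 1 - i = n := by omega
        rw [e1, e2, Nat.cast_add, Nat.cast_one]
        ring
      · have e1 : k + 1 - 1 - k = 0 := by omega
        rw [e1]
        simp
    have h2 := geo1 x a (k + 1)
    rw [h1]
    generalize ∑ i ∈ Finset.range (k + 1), (1 : ℂ) * (x ^ i * a ^ (k + 1 - 1 - i)) = S at h2 ⊢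
    generalize ∑ i ∈ Finset.range k, (((k - 1 - i : ℕ) : ℂ) + 1) * (x ^ i * a ^ (k - 1 - i)) = U
      at ih ⊢
    push_cast
    linear_combination a * ih + (x - a) * h2

theorem main (r : ℕ) (p q : Polynomial ℂ) (hp : p.natDegree ≤ r) (hq : q.natDegree ≤ r + 1)
    (x a : ℂ) (hx : x ≠ a) :
    ∑ i ∈ Finset.range r, ∑ j ∈ Finset.range r,
      (p.coeff (i + j + 1) - (j + 1) * q.coeff (i + j + 2)) * x ^ i * a ^ j =
      (q.eval a - q.eval x) / (x - a) ^ 2 +
        ((Polynomial.derivative q).eval a - p.eval a + p.eval x) / (x - a) := by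
  have hxa : x - a ≠ 0 := sub_ne_zero.2 hx
  have hA := outer r x a (fun _ => 1) (fun n => p.coeff n)
    (fun n hn => Polynomial.coeff_eq_zero_of_natDegree_lt (by omega))
  have hB := outer r x a (fun j => (j : ℂ) + 1) (fun n => q.coeff (n + 1))
    (fun n hn => Polynomial.coeff_eq_zero_of_natDegree_lt (by omega))
  have h0 : ∑ i ∈ Finset.range r, ∑ j ∈ Finset.range r,
      (p.coeff (i + j + 1) - (j + 1) * q.coeff (i + j + 2)) * x ^ i * a ^ j =
      (∑ i ∈ Finset.range r, ∑ j ∈ Finset.range r, p.coeff (i + j + 1) * (1 * (x ^ i * a ^ j))) -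
        ∑ i ∈ Finset.range r, ∑ j ∈ Finset.range r,
          q.coeff (i + j + 1 + 1) * (((j : ℂ) + 1) * (x ^ i * a ^ j)) := by
    rw [← Finset.sum_sub_distrib]
    refine Finset.sum_congr rfl fun i _ => ?_
    rw [← Finset.sum_sub_distrib]
    refine Finset.sum_congr rfl fun j _ => ?_
    ring
  rw [h0, hA, hB]
  have h1 : (x - a) * ∑ k ∈ Finset.range (r + 1), p.coeff k *
      ∑ i ∈ Finset.range k, (1 : ℂ) * (x ^ i * a ^ (k - 1 - i)) = p.eval x - p.eval a := by
    rw [Polynomial.eval_eq_sum_range' (n := r + 1) (by omega),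
      Polynomial.eval_eq_sum_range' (n := r + 1) (by omega), ← Finset.sum_sub_distrib,
      Finset.mul_sum]
    refine Finset.sum_congr rfl fun k _ => ?_
    linear_combination p.coeff k * geo1 x a k
  have h2 : (x - a) ^ 2 * ∑ k ∈ Finset.range (r + 1), q.coeff (k + 1) *
      ∑ i ∈ Finset.range k, (((k - 1 - i : ℕ) : ℂ) + 1) * (x ^ i * a ^ (k - 1 - i)) =
      q.eval x - q.eval a - (Polynomial.derivative q).eval a * (x - a) := by
    have hd : (Polynomial.derivative q).natDegree < r + 1 := by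
      have := Polynomial.natDegree_derivative_le q
      omega
    rw [Polynomial.eval_eq_sum_range' (n := r + 1 + 1) (by omega),
      Polynomial.eval_eq_sum_range' (n := r + 1 + 1) (by omega),
      Polynomial.eval_eq_sum_range' hd, Finset.sum_range_succ' _ (r + 1),
      Finset.sum_range_succ' _ (r + 1), pow_zero, pow_zero, add_sub_add_right_eq_sub,
      ← Finset.sum_sub_distrib, Finset.sum_mul, ← Finset.sum_sub_distrib, Finset.mul_sum]
    refine Finset.sum_congr rfl fun k _ => ?_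
    rw [Polynomial.coeff_derivative]
    linear_combination q.coeff (k + 1) * geo2 x a k
  rw [div_add_div _ _ (pow_ne_zero 2 hxa) hxa, eq_div_iff (mul_ne_zero (pow_ne_zero 2 hxa) hxa)]
  linear_combination (x - a) ^ 2 * h1 - (x - a) * h2

theorem deg_q {r : ℕ} (t : Fin (r + 1) → ℂ) : (qp t).natDegree ≤ r + 1 := by
  unfold qp
  refine le_trans (Polynomial.natDegree_prod_le _ _) ?_
  simp

theorem deg_p (m : ℕ) {r : ℕ} (b : Fin (r + 1) → ℕ) (t : Fin (r + 1) → ℂ) (u : ℕ) :
    (pp m b t u).natDegree ≤ r := by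
  unfold pp
  refine Polynomial.natDegree_sum_le_of_forall_le _ _ fun j _ => ?_
  refine le_trans (Polynomial.natDegree_C_mul_le _ _) ?_
  refine le_trans (Polynomial.natDegree_prod_le _ _) ?_
  simp

end Id1M

open Id1M

theorem tId1 : S_Id1 := by
  intro m r b t u x a hx
  have h := main r (pp m b t u) (qp t) (deg_p m b t u) (deg_q t) x a hx
  rw [← h, ← Fin.sum_univ_eq_sum_range (fun i => ∑ j ∈ Finset.range r,
    ((pp m b t u).coeff (i + j + 1) - (j + 1) * (qp t).coeff (i + j + 2)) * x ^ i * a ^ j) r]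
  refine Finset.sum_congr rfl fun i _ => ?_
  rw [← Fin.sum_univ_eq_sum_range (fun j =>
    ((pp m b t u).coeff ((i : ℕ) + j + 1) - (j + 1) * (qp t).coeff ((i : ℕ) + j + 2)) *
      x ^ (i : ℕ) * a ^ j) r]
  rfl

end

end TNF.AB
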