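import Pool.Agent.Lib.TNF.AB.SpecA

/-!
# **Itp**: `Itg` and paths
-/

set_option autoImplicit false

open Topology Metric

noncomputable section

namespace TNF.AB

open SEJ TATE

namespace ItpM

variable {m r : ℕ} {b : Fin (r + 1) → ℕ} {t : Fin (r + 1) → ℂ}

theorem om_eq (X : ℂ × ℂ) (q : Ix m b) : om m b t X q = om2 m b t X (inc q) := by
  have h1 : ∏ j, (X.1 - t j) ^ (1 + ch q * b j / m)
      = (∏ j, (X.1 - t j)) * ∏ j, (X.1 - t j) ^ (ch q * b j / m) := by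
    rw [← Finset.prod_mul_distrib]
    apply Finset.prod_congr rfl
    intro j _
    rw [pow_add, pow_one]
  unfold om om2 gu qq
  rw [h1]
  change X.1 ^ ex q * X.2 ^ ch q / ((∏ j, (X.1 - t j)) * ∏ j, (X.1 - t j) ^ (ch q * b j / m))
    = X.1 ^ ex q * (X.2 ^ ch q / ∏ j, (X.1 - t j) ^ (ch q * b j / m)) / ∏ j, (X.1 - t j)
  rw [mul_div_assoc', div_div, mul_comm (∏ j, (X.1 - t j))]

theorem sx_zero (a c : ℂ) : sx a c 0 = a := by
  unfold sx
  simp

theorem sx_one (a c : ℂ) : sx a c 1 = c := by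
  unfold sx
  simp

theorem end_mem (h : S_Brs) (hm : 1 ≤ m) {P Q : ℂ × ℂ} (p : Path m b t P Q) : Q ∈ Pts m b t := by
  induction p with
  | nil h0 => exact h0
  | @snoc Q R p hs ih =>
    have h7 := (h m r b t hm Q ih).2.2.2.2.2.2.1 R.1 hs.1
    have h8 : bp m b t Q R.1 = R := Prod.ext rfl hs.2.symm
    rw [← h8]
    exact h7.1

theorem seg_of (h : S_Brs) (hm : 1 ≤ m) {Q R : ℂ × ℂ} (hQ : Q ∈ Pts m b t) (hs : Sg m b t Q R) :
    Seg m b t Q R (fun q => sgi m b t Q R.1 fun X => om2 m b t X (inc q)) := by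
  obtain ⟨h1, h2, h3, h4, h5, h6, h7, h8, h9, h10⟩ := h m r b t hm Q hQ
  have hst : ∀ u ∈ Set.Icc (0 : ℝ) 1, sx Q.1 R.1 u ∈ st t Q.1 := h3 R.1 hs.1
  refine ⟨fun u => br m b t Q (sx Q.1 R.1 (Set.projIcc (0 : ℝ) 1 zero_le_one u)), ?_, ?_, ?_, ?_, ?_⟩
  · rw [continuous_iff_continuousAt]
    intro u
    have ha : ContinuousAt (br m b t Q) (sx Q.1 R.1 (Set.projIcc (0 : ℝ) 1 zero_le_one u)) :=
      (h7 _ (hst _ (Set.projIcc (0 : ℝ) 1 zero_le_one u).2)).2.continuousAt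
    have hb : Continuous fun u : ℝ => sx Q.1 R.1 (Set.projIcc (0 : ℝ) 1 zero_le_one u) := by
      unfold sx
      exact continuous_const.add ((Complex.continuous_ofReal.comp
        (continuous_subtype_val.comp continuous_projIcc)).mul continuous_const)
    exact ContinuousAt.comp (g := br m b t Q) ha hb.continuousAt
  · change br m b t Q (sx Q.1 R.1 (Set.projIcc (0 : ℝ) 1 zero_le_one 0)) = Q.2
    rw [Set.projIcc_left]
    change br m b t Q (sx Q.1 R.1 0) = Q.2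
    rw [sx_zero]
    exact congrArg Prod.snd h6
  · change br m b t Q (sx Q.1 R.1 (Set.projIcc (0 : ℝ) 1 zero_le_one 1)) = R.2
    rw [Set.projIcc_right]
    change br m b t Q (sx Q.1 R.1 1) = R.2
    rw [sx_one]
    exact hs.2.symm
  · intro u hu
    have hu' : ((Set.projIcc (0 : ℝ) 1 zero_le_one u : Set.Icc (0 : ℝ) 1) : ℝ) = u := by
      rw [Set.projIcc_of_mem zero_le_one hu]
    change (sx Q.1 R.1 u, br m b t Q (sx Q.1 R.1 (Set.projIcc (0 : ℝ) 1 zero_le_one u))) ∈ Pts m b t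
    rw [hu']
    exact (h7 _ (hst u hu)).1
  · intro q
    unfold sgi
    apply intervalIntegral.integral_congr
    intro u hu
    rw [Set.uIcc_of_le zero_le_one] at hu
    have hu' : ((Set.projIcc (0 : ℝ) 1 zero_le_one u : Set.Icc (0 : ℝ) 1) : ℝ) = u := by
      rw [Set.projIcc_of_mem zero_le_one hu]
    change (R.1 - Q.1) * om2 m b t (bp m b t Q (sx Q.1 R.1 u)) (inc q) = (R.1 - Q.1) *
      om m b t (sx Q.1 R.1 u, br m b t Q (sx Q.1 R.1 (Set.projIcc (0 : ℝ) 1 zero_le_one u))) q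
    rw [hu', om_eq]
    rfl

theorem of_seg (h : S_Brs) (hm : 1 ≤ m) {Q R : ℂ × ℂ} {w : Ix m b → ℂ} (hs : Seg m b t Q R w) :
    Sg m b t Q R ∧ w = fun q => sgi m b t Q R.1 fun X => om2 m b t X (inc q) := by
  obtain ⟨y, hy, hy0, hy1, hmem, hint⟩ := hs
  have hQ : Q ∈ Pts m b t := by
    have h0 := hmem 0 ⟨le_refl _, zero_le_one⟩
    have h1 : ((Q.1 + ((0 : ℝ) : ℂ) * (R.1 - Q.1), y 0) : ℂ × ℂ) = Q := by
      rw [hy0]
      refine Prod.ext ?_ rfl
      change Q.1 + ((0 : ℝ) : ℂ) * (R.1 - Q.1) = Q.1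
      simp
    rwa [h1] at h0
  obtain ⟨h1, h2, h3, h4, h5, h6, h7, h8, h9, h10⟩ := h m r b t hm Q hQ
  obtain ⟨hR, hyu⟩ := h9 y R.1 hy.continuousOn hy0 hmem
  refine ⟨⟨hR, ?_⟩, ?_⟩
  · have h11 := hyu 1 ⟨zero_le_one, le_refl _⟩
    rw [sx_one, hy1] at h11
    exact h11
  · funext q
    rw [hint q]
    unfold sgi
    apply intervalIntegral.integral_congr
    intro u hu
    rw [Set.uIcc_of_le zero_le_one] at hu
    change (R.1 - Q.1) * om m b t (sx Q.1 R.1 u, y u) q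
      = (R.1 - Q.1) * om2 m b t (bp m b t Q (sx Q.1 R.1 u)) (inc q)
    rw [hyu u hu, om_eq]
    rfl

theorem pr_nil {P : ℂ × ℂ} (hP : P ∈ Pts m b t) :
    (pr (Path.nil P hP : Path m b t P P).v : Ix m b → ℂ) = 0 := by
  funext q
  unfold pr Path.v Path.int
  rfl

theorem pr_snoc {P Q R : ℂ × ℂ} (p : Path m b t P Q) (hs : Sg m b t Q R) :
    (pr (Path.snoc p hs).v : Ix m b → ℂ)
      = (pr p.v : Ix m b → ℂ) + fun q => sgi m b t Q R.1 fun X => om2 m b t X (inc q) := by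
  funext q
  change (Path.snoc p hs).int (fun X => om2 m b t X (inc q))
    = p.int (fun X => om2 m b t X (inc q)) + sgi m b t Q R.1 fun X => om2 m b t X (inc q)
  rw [Path.int]

end ItpM

theorem tItp : S_Brs → S_Itp := by
  intro h m r b t hm P Q v
  constructor
  · intro hI
    induction hI with
    | refl hP =>
      exact ⟨.nil P hP, ItpM.pr_nil hP⟩
    | @step Q R v w hI hs ih =>
      obtain ⟨p, rfl⟩ := ih
      obtain ⟨hsg, rfl⟩ := ItpM.of_seg h hm hs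
      exact ⟨.snoc p hsg, ItpM.pr_snoc p hsg⟩
  · rintro ⟨p, rfl⟩
    induction p with
    | nil hP =>
      rw [ItpM.pr_nil]
      exact Itg.refl P hP
    | @snoc Q R p hs ih =>
      rw [ItpM.pr_snoc]
      exact Itg.step ih (ItpM.seg_of h hm (ItpM.end_mem h hm p) hs)

end TNF.AB
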