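import Pool.Agent.Lib.TNF.AB.SpecA

/-!
# PROJECT TNF, package AB: the key formula (helper5)

From `S_Val` and the chain principle.
-/

set_option autoImplicit false

open Topology Metric

noncomputable section

namespace TNF.AB

open SEJ TATE

namespace KeyM

theorem qadd {m r : ℕ} (b : Fin (r + 1) → ℕ) (t : Fin (r + 1) → ℂ) (β v w : Ix2 m r → ℂ) :
    Qf m b t β (v + w) = Qf m b t β v + Qf m b t β w := by
  unfold Qf
  rw [← Finset.sum_add_distrib]
  refine Finset.sum_congr rfl fun p _ => ?_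
  rw [← Finset.sum_add_distrib]
  refine Finset.sum_congr rfl fun q _ => ?_
  by_cases h : c2 p + c2 q = m
  · rw [if_pos h, if_pos h, if_pos h, Pi.add_apply]; ring
  · rw [if_neg h, if_neg h, if_neg h, add_zero]

theorem qsub {m r : ℕ} (b : Fin (r + 1) → ℕ) (t : Fin (r + 1) → ℂ) (β v w : Ix2 m r → ℂ) :
    Qf m b t β (v - w) = Qf m b t β v - Qf m b t β w := by
  have h := qadd b t β (v - w) w
  rw [sub_add_cancel] at h
  rw [h]; ring

theorem qzero {m r : ℕ} (b : Fin (r + 1) → ℕ) (t : Fin (r + 1) → ℂ) (β : Ix2 m r → ℂ) :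
    Qf m b t β 0 = 0 := by
  have h := qadd b t β 0 0
  rw [add_zero] at h
  have h2 : Qf m b t β 0 + Qf m b t β 0 = Qf m b t β 0 + 0 := by rw [← h, add_zero]
  exact add_left_cancel h2

theorem main (hL : S_Loc) (hS : S_Seg) (hU : S_Sub) (hP : S_Prm) (hC : S_Chn) {m r : ℕ}
    {b : Fin (r + 1) → ℕ} {t : Fin (r + 1) → ℂ} (hm : 1 ≤ m) {A : ℂ × ℂ} (β : Path m b t A A)
    {Φ : ℂ × ℂ → ℂ} (hΦ : IsVal m b t β Φ) (P Q : ℂ × ℂ) (c : Path m b t P Q) :
    Φ Q = Φ P * Complex.exp (Qf m b t β.v c.v) := by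
  refine hC hL hS hU hP m r b t hm
    (fun P Q v => Φ Q = Φ P * Complex.exp (Qf m b t β.v v)) ?_ ?_ ?_ P Q c
  · intro P _
    show Φ P = Φ P * Complex.exp (Qf m b t β.v 0)
    rw [qzero, Complex.exp_zero, mul_one]
  · intro P Q S v w h1 h2
    show Φ S = Φ P * Complex.exp (Qf m b t β.v (v + w))
    rw [qadd, Complex.exp_add, ← mul_assoc, ← h1]
    exact h2
  · intro Y hY
    obtain ⟨ρ, hρ, hcx, hg⟩ := hΦ.loc Y hY
    refine ⟨ρ, hρ, hcx, fun g hgp x hx x' hx' => ?_⟩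
    show Φ (bp m b t Y x') = Φ (bp m b t Y x) * Complex.exp (Qf m b t β.v (g x' - g x))
    rw [hg g hgp x hx, hg g hgp x' hx', mul_assoc, ← Complex.exp_add, ← qadd]
    have e : g x - g Y.1 + (g x' - g x) = g x' - g Y.1 := by abel
    rw [e]

end KeyM

/-- **Key**. -/
theorem tKey : S_Loc → S_Seg → S_Sub → S_Alg2 → S_Prm → S_Chn → S_Val → S_Key := by
  intro hL hS hU hA hP hC hV m r b t hb ht X P Q β c hPn hQn
  have hm : 1 ≤ m := by have := hb.1; omega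
  obtain ⟨Φ, hΦ⟩ := hV m r b t hb X β
  have h := KeyM.main hL hS hU hP hC hm β hΦ P Q c
  obtain ⟨hPP, hQP⟩ := (hA m r b t hm).1 P Q c
  rw [hΦ.off P hPP hPn, hΦ.off Q hQP hQn, ← Complex.exp_add, Complex.exp_eq_exp_iff_exists_int] at h
  obtain ⟨n, hn⟩ := h
  refine ⟨n, ?_⟩
  rw [hn]; ring

/-- **Qz**. -/
theorem tQz : S_Loc → S_Seg → S_Sub → S_Alg2 → S_Prm → S_Chn → S_Val → S_Qz := by
  intro hL hS hU hA hP hC hV m r b t hb ht β hβ c hc
  have hm : 1 ≤ m := by have := hb.1; omega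
  obtain ⟨X, p, rfl⟩ := hβ
  obtain ⟨P, q, rfl⟩ := hc
  obtain ⟨Φ, hΦ⟩ := hV m r b t hb X p
  have h := KeyM.main hL hS hU hP hC hm p hΦ P P q
  have hPP := ((hA m r b t hm).1 P P q).1
  have h1 : Complex.exp (Qf m b t p.v q.v) = 1 := by
    have h2 : Φ P * Complex.exp (Qf m b t p.v q.v) = Φ P * 1 := by rw [← h, mul_one]
    exact mul_left_cancel₀ (hΦ.ne P hPP) h2
  obtain ⟨n, hn⟩ := Complex.exp_eq_one_iff.1 h1
  exact ⟨n, by rw [hn]; ring⟩

end TNF.AB
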