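import Pool.Agent.Lib.TNF.AB.SpecA

/-! TNF AB, module Lgi: the logarithmic integral. -/

set_option autoImplicit false

namespace TNF.AB

open SEJ TATE

noncomputable section

namespace LgiM

/-- if g is continuous and nonzero on the line and has derivative g', then exp of the integral of g'/g is the quotient -/
lemma exp_int (c d x : ℂ) (h : ∀ u ∈ Set.Icc (0 : ℝ) 1, c + (u : ℂ) * d - x ≠ 0) :
    Complex.exp (∫ u in (0 : ℝ)..1, d / (c + (u : ℂ) * d - x)) = (c + d - x) / (c - x) := by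
  -- a continuous extension of the integrand: clamp u to [0,1]
  obtain ⟨g, hg⟩ : ∃ g : ℝ → ℂ, g = fun u => c + ((max 0 (min 1 u) : ℝ) : ℂ) * d - x := ⟨_, rfl⟩
  have hcl : ∀ u : ℝ, max 0 (min 1 u) ∈ Set.Icc (0 : ℝ) 1 := fun u =>
    ⟨le_max_left _ _, max_le zero_le_one (min_le_left _ _)⟩
  have hg0 : ∀ u, g u ≠ 0 := fun u => by
    rw [hg]
    exact h _ (hcl u)
  have hgc : Continuous g := by
    rw [hg]
    fun_prop
  have hge : ∀ u ∈ Set.Icc (0 : ℝ) 1, g u = c + (u : ℂ) * d - x := by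
    intro u hu
    rw [hg]
    simp only
    rw [min_eq_right hu.2, max_eq_right hu.1]
  have hq : Continuous fun u => d / g u := continuous_const.div hgc hg0
  have hI : (∫ u in (0 : ℝ)..1, d / (c + (u : ℂ) * d - x)) = ∫ u in (0 : ℝ)..1, d / g u := by
    refine intervalIntegral.integral_congr fun u hu => ?_
    rw [Set.uIcc_of_le zero_le_one] at hu
    rw [hge u hu]
  rw [hI]
  obtain ⟨J, hJ⟩ : ∃ J : ℝ → ℂ, J = fun t => ∫ u in (0 : ℝ)..t, d / g u := ⟨_, rfl⟩
  have hJd : ∀ t, HasDerivAt J (d / g t) t := by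
    intro t
    rw [hJ]
    exact intervalIntegral.integral_hasDerivAt_right (hq.intervalIntegrable _ _)
      (hq.stronglyMeasurableAtFilter _ _) hq.continuousAt
  -- the function (c + t d - x) exp(-J t) is constant on [0,1]
  obtain ⟨f, hf⟩ : ∃ f : ℝ → ℂ, f = fun t : ℝ => (c + (t : ℂ) * d - x) * Complex.exp (-J t) := ⟨_, rfl⟩
  have hfd : ∀ t : ℝ, HasDerivAt f (d * Complex.exp (-J t) +
      (c + (t : ℂ) * d - x) * (Complex.exp (-J t) * (-(d / g t)))) t := by
    intro t
    rw [hf]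
    have h1 : HasDerivAt (fun t : ℝ => c + (t : ℂ) * d - x) d t := by
      have h2 : HasDerivAt (fun t : ℝ => (t : ℂ)) 1 t := Complex.ofRealCLM.hasDerivAt
      have h3 := ((h2.mul_const d).const_add c).sub_const x
      simpa using h3
    exact h1.mul ((hJd t).neg.cexp)
  have hf0 : ∀ t ∈ Set.Icc (0 : ℝ) 1, d * Complex.exp (-J t) +
      (c + (t : ℂ) * d - x) * (Complex.exp (-J t) * (-(d / g t))) = 0 := by
    intro t ht
    have h4 := hg0 t
    rw [← hge t ht]
    field_simp
    ring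
  have hcon : f 1 = f 0 := by
    have h5 : ContinuousOn f (Set.Icc 0 1) := fun t _ => (hfd t).continuousAt.continuousWithinAt
    refine constant_of_has_deriv_right_zero h5 (fun t ht => ?_) 1 ⟨zero_le_one, le_rfl⟩
    have h6 := (hfd t).hasDerivWithinAt (s := Set.Ici t)
    rwa [hf0 t ⟨ht.1, ht.2.le⟩] at h6
  have hJ0 : J 0 = 0 := by
    rw [hJ]
    simp
  have hJ1 : J 1 = ∫ u in (0 : ℝ)..1, d / g u := by rw [hJ]
  rw [hf] at hcon
  simp only [hJ0, Complex.ofReal_zero, Complex.ofReal_one, zero_mul, one_mul, neg_zero, Complex.exp_zero,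
    mul_one, add_zero] at hcon
  rw [← hJ1]
  have h7 : c - x ≠ 0 := by
    have := h 0 ⟨le_rfl, zero_le_one⟩
    simpa using this
  rw [eq_div_iff h7, ← hcon, mul_comm, mul_assoc, ← Complex.exp_add]
  simp

end LgiM

theorem tLgi : S_Lgi := by
  intro α β x hx
  have hseg : ∀ u ∈ Set.Icc (0 : ℝ) 1, α + (u : ℂ) * (β - α) - x ≠ 0 := by
    intro u hu h0
    apply hx
    rw [segment_eq_image']
    refine ⟨u, hu, ?_⟩
    simp only
    rw [Complex.real_smul]
    linear_combination h0
  have h1 := LgiM.exp_int α (β - α) x hseg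
  have h2 : α + (β - α) - x = β - x := by ring
  rw [h2] at h1
  rw [← h1]
  congr 1

end

end TNF.AB
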