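import Pool.Agent.Lib.TNF.AB.SpecA

/-!
# PROJECT TNF, package AB: linearity of the integral (`S_Lnr`)
-/

set_option autoImplicit false

open Topology Metric

noncomputable section

namespace TNF.AB

open SEJ TATE

namespace LnrM

variable {m r : ℕ} {b : Fin (r + 1) → ℕ} {t : Fin (r + 1) → ℂ}

theorem ne_of_pts {P : ℂ × ℂ} (hP : P ∈ Pts m b t) : ∀ j, t j ≠ P.1 :=
  fun j h => hP.1 ⟨j, h⟩

/-- The lift of a segment. -/
theorem lift (hL : S_Loc) (hS : S_Seg) (hm : 1 ≤ m) {Q : ℂ × ℂ} (hQ : Q ∈ Pts m b t) {x : ℂ} (hx : x ∈ st t Q.1) :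
    bp m b t Q x ∈ Pts m b t ∧
    ContinuousOn (fun u : ℝ => bp m b t Q (sx Q.1 x u)) (Set.Icc (0 : ℝ) 1) ∧
      ∀ u ∈ Set.Icc (0 : ℝ) 1, bp m b t Q (sx Q.1 x u) ∈ ovr m b t (sx Q.1 x '' Set.Icc (0 : ℝ) 1) := by
  obtain ⟨h1, h2⟩ := hS r t Q.1 x (ne_of_pts hQ)
  have hC := h1.1 hx
  obtain ⟨l1, l2, l3, l4, l5, l6, l7⟩ := hL m r b t hm _ hC Q hQ (left_mem_segment ℝ _ _)
  have hmem : ∀ u ∈ Set.Icc (0 : ℝ) 1, sx Q.1 x u ∈ segment ℝ Q.1 x := by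
    intro u hu
    rw [h2]
    exact ⟨u, hu, rfl⟩
  have hsx : Continuous (fun u : ℝ => sx Q.1 x u) := by
    unfold sx
    fun_prop
  refine ⟨l3 x (right_mem_segment ℝ _ _), ?_, ?_⟩
  · exact hsx.continuousOn.prodMk (l6.comp hsx.continuousOn hmem)
  · intro u hu
    exact ⟨l3 _ (hmem u hu), ⟨u, hu, rfl⟩⟩

theorem ivl (hL : S_Loc) (hS : S_Seg) (hm : 1 ≤ m) {Q : ℂ × ℂ} (hQ : Q ∈ Pts m b t) {x : ℂ} (hx : x ∈ st t Q.1)
    {h : ℂ × ℂ → ℂ} (hh : ContinuousOn h (ovr m b t (sx Q.1 x '' Set.Icc (0 : ℝ) 1))) :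
    IntervalIntegrable (fun u : ℝ => h (bp m b t Q (sx Q.1 x u))) MeasureTheory.volume 0 1 := by
  obtain ⟨-, h1, h2⟩ := lift hL hS hm hQ hx
  refine ContinuousOn.intervalIntegrable ?_
  rw [Set.uIcc_of_le zero_le_one]
  exact hh.comp h1 h2

theorem ovr_mono {S T : Set ℂ} (h : S ⊆ T) : ovr m b t S ⊆ ovr m b t T := fun _ hX => ⟨hX.1, h hX.2⟩

theorem sgi_sum (hL : S_Loc) (hS : S_Seg) (hm : 1 ≤ m) {Q : ℂ × ℂ} (hQ : Q ∈ Pts m b t) {x : ℂ} (hx : x ∈ st t Q.1)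
    {ι : Type} (s : Finset ι) (c : ι → ℂ) (h : ι → ℂ × ℂ → ℂ)
    (hh : ∀ i ∈ s, ContinuousOn (h i) (ovr m b t (sx Q.1 x '' Set.Icc (0 : ℝ) 1))) :
    sgi m b t Q x (fun X => ∑ i ∈ s, c i * h i X) = ∑ i ∈ s, c i * sgi m b t Q x (h i) := by
  unfold sgi
  have e1 : ∀ u : ℝ, (x - Q.1) * (∑ i ∈ s, c i * h i (bp m b t Q (sx Q.1 x u))) =
      ∑ i ∈ s, c i * ((x - Q.1) * h i (bp m b t Q (sx Q.1 x u))) := by
    intro u
    rw [Finset.mul_sum]
    refine Finset.sum_congr rfl (fun i _ => ?_)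
    ring
  simp only [e1]
  rw [intervalIntegral.integral_finsetSum]
  · refine Finset.sum_congr rfl (fun i _ => ?_)
    rw [intervalIntegral.integral_const_mul]
  · intro i hi
    exact ((ivl hL hS hm hQ hx (hh i hi)).const_mul _).const_mul _

theorem sgi_congr (hL : S_Loc) (hS : S_Seg) (hm : 1 ≤ m) {Q : ℂ × ℂ} (hQ : Q ∈ Pts m b t) {x : ℂ} (hx : x ∈ st t Q.1)
    {h h' : ℂ × ℂ → ℂ} (hh : ∀ X ∈ ovr m b t (sx Q.1 x '' Set.Icc (0 : ℝ) 1), h X = h' X) :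
    sgi m b t Q x h = sgi m b t Q x h' := by
  obtain ⟨-, -, h2⟩ := lift hL hS hm hQ hx
  unfold sgi
  refine intervalIntegral.integral_congr (fun u hu => ?_)
  rw [Set.uIcc_of_le zero_le_one] at hu
  show (x - Q.1) * h _ = (x - Q.1) * h' _
  rw [hh _ (h2 u hu)]

end LnrM

open LnrM in
theorem tLnr : S_Lnr := by
  intro hL hS m r b t hm P Q p
  have key : Q ∈ Pts m b t ∧
      (∀ (ι : Type) (s : Finset ι) (c : ι → ℂ) (h : ι → ℂ × ℂ → ℂ), (∀ i ∈ s, ContinuousOn (h i) (ovr m b t p.on)) →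
        p.int (fun X => ∑ i ∈ s, c i * h i X) = ∑ i ∈ s, c i * p.int (h i)) ∧
      ∀ h h' : ℂ × ℂ → ℂ, (∀ X ∈ ovr m b t p.on, h X = h' X) → p.int h = p.int h' := by
    induction p with
    | nil hP =>
      refine ⟨hP, ?_, fun _ _ _ => by rw [Path.int, Path.int]⟩
      intro ι s c h _
      simp only [Path.int, mul_zero, Finset.sum_const_zero]
    | @snoc Q R p hs ih =>
      obtain ⟨hQ, ih1, ih2⟩ := ih
      have hon : (Path.snoc p hs).on = p.on ∪ sx Q.1 R.1 '' Set.Icc (0 : ℝ) 1 := by rw [Path.on]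
      have hon1 : p.on ⊆ (Path.snoc p hs).on := by rw [hon]; exact Set.subset_union_left
      have hon2 : sx Q.1 R.1 '' Set.Icc (0 : ℝ) 1 ⊆ (Path.snoc p hs).on := by
        rw [hon]; exact Set.subset_union_right
      refine ⟨?_, ?_, ?_⟩
      · have h1 := (lift hL hS hm hQ hs.1).1
        have h2 : bp m b t Q R.1 = R := Prod.ext rfl hs.2.symm
        rwa [h2] at h1
      · intro ι s c h hh
        have e1 := ih1 ι s c h (fun i hi => (hh i hi).mono (ovr_mono hon1))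
        have e2 := sgi_sum hL hS hm hQ hs.1 s c h (fun i hi => (hh i hi).mono (ovr_mono hon2))
        simp only [Path.int]
        rw [e1, e2, ← Finset.sum_add_distrib]
        refine Finset.sum_congr rfl (fun i _ => ?_)
        ring
      · intro h h' hh
        rw [Path.int, Path.int, ih2 h h' (fun X hX => hh X (ovr_mono hon1 hX)),
          sgi_congr hL hS hm hQ hs.1 (fun X hX => hh X (ovr_mono hon2 hX))]
  exact key.2

end TNF.AB
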