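import Pool.Agent.Lib.TNF.AB.SpecA

/-!
# PROJECT TNF, package AB, module Loc: branches of the curve on convex sets (helper6)
-/

set_option autoImplicit false

open Topology Metric

noncomputable section

namespace TNF.AB

open SEJ TATE

namespace LocM

/-- Slit plane condition on convex sets. -/
theorem slit {C : Set ℂ} (hC : Convex ℝ C) {s x z : ℂ} (hs : s ∉ C) (hx : x ∈ C) (hz : z ∈ C) :
    (z - s) / (x - s) ∈ Complex.slitPlane := by
  by_contra hn
  have hxs : x - s ≠ 0 := fun h => hs (by rwa [← sub_eq_zero.mp h])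
  rw [Complex.mem_slitPlane_iff, not_or, not_lt, not_not] at hn
  obtain ⟨hre, him⟩ := hn
  set l : ℝ := -((z - s) / (x - s)).re with hl
  have hl0 : 0 ≤ l := by rw [hl]; linarith
  have hw : (z - s) / (x - s) = -(l : ℂ) := by
    apply Complex.ext
    · simp [hl]
    · simp [him]
  have h1 : z - s = -(l : ℂ) * (x - s) := by
    rw [← hw, div_mul_cancel₀ _ hxs]
  have hp : (0 : ℝ) < 1 + l := by linarith
  have hp' : (1 + (l : ℂ)) ≠ 0 := by
    intro h
    have h2 : ((1 + l : ℝ) : ℂ) = 0 := by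
      push_cast
      exact h
    exact hp.ne' (Complex.ofReal_eq_zero.mp h2)
  have h3 : s = (1 / (1 + l) : ℝ) • z + (l / (1 + l) : ℝ) • x := by
    rw [Complex.real_smul, Complex.real_smul]
    push_cast
    field_simp
    linear_combination -h1
  refine hs ?_
  rw [h3]
  refine hC hz hx (by positivity) (by positivity) ?_
  field_simp

section

variable {m r : ℕ} {b : Fin (r + 1) → ℕ} {t : Fin (r + 1) → ℂ}

theorem nz {x₀ x : ℂ} (hx : x ∈ st t x₀) (j : Fin (r + 1)) : (x - t j) / (x₀ - t j) ≠ 0 :=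
  Complex.slitPlane_ne_zero (hx j)

theorem nz2 {x₀ x : ℂ} (hx : x ∈ st t x₀) (j : Fin (r + 1)) : x - t j ≠ 0 := fun h => by
  refine nz hx j ?_
  rw [h, zero_div]

theorem nz3 {x₀ x : ℂ} (hx : x ∈ st t x₀) (j : Fin (r + 1)) : x₀ - t j ≠ 0 := fun h => by
  refine nz hx j ?_
  rw [h, div_zero]

/-- The value at the base point. -/
theorem self {Y : ℂ × ℂ} (hY : ∀ j, Y.1 - t j ≠ 0) : br m b t Y Y.1 = Y.2 := by
  unfold br
  rw [Finset.prod_eq_one, mul_one]
  intro j _
  rw [div_self (hY j), Complex.one_cpow]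

/-- The power. -/
theorem pw (hm : m ≠ 0) {Y : ℂ × ℂ} (hY : Y ∈ Pts m b t) (hY' : ∀ j, Y.1 - t j ≠ 0) (x : ℂ) :
    br m b t Y x ^ m = ∏ j, (x - t j) ^ b j := by
  unfold br
  rw [mul_pow, hY.2, ← Finset.prod_pow, ← Finset.prod_mul_distrib]
  refine Finset.prod_congr rfl fun j _ => ?_
  rw [← Complex.cpow_nat_mul]
  have hm' : (m : ℂ) ≠ 0 := Nat.cast_ne_zero.mpr hm
  rw [mul_div_cancel₀ _ hm', Complex.cpow_natCast, div_pow,
    mul_div_cancel₀ _ (pow_ne_zero _ (hY' j))]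

theorem ne0 (hm : m ≠ 0) {Y : ℂ × ℂ} (hY : Y ∈ Pts m b t) {x : ℂ} (hx : x ∈ st t Y.1) :
    br m b t Y x ≠ 0 := by
  intro h
  have h1 := pw hm hY (nz3 hx) x
  rw [h, zero_pow hm] at h1
  have h2 : ∏ j, (x - t j) ^ b j ≠ 0 := Finset.prod_ne_zero_iff.mpr fun j _ => pow_ne_zero _ (nz2 hx j)
  exact h2 h1.symm

/-- The derivative of one factor. -/
theorem der1 {x₀ x s β : ℂ} (h : (x - s) / (x₀ - s) ∈ Complex.slitPlane) :
    HasDerivAt (fun x => ((x - s) / (x₀ - s)) ^ β) (((x - s) / (x₀ - s)) ^ β * (β / (x - s))) x := by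
  have h0 : (x - s) / (x₀ - s) ≠ 0 := Complex.slitPlane_ne_zero h
  have h1 : x - s ≠ 0 := fun h' => h0 (by rw [h', zero_div])
  have h2 : x₀ - s ≠ 0 := fun h' => h0 (by rw [h', div_zero])
  have h3 : HasDerivAt (fun x => (x - s) / (x₀ - s)) (1 / (x₀ - s)) x :=
    ((hasDerivAt_id x).sub_const s).div_const (x₀ - s)
  have h4 := h3.cpow_const (c := β) h
  refine h4.congr_deriv ?_
  rw [Complex.cpow_sub _ _ h0, Complex.cpow_one]
  field_simp

/-- The derivative of the product. -/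
theorem derp {x₀ x : ℂ} (hx : x ∈ st t x₀) (β : Fin (r + 1) → ℂ) (S : Finset (Fin (r + 1))) :
    HasDerivAt (fun x => ∏ j ∈ S, ((x - t j) / (x₀ - t j)) ^ β j)
      ((∏ j ∈ S, ((x - t j) / (x₀ - t j)) ^ β j) * ∑ j ∈ S, β j / (x - t j)) x := by
  classical
  induction S using Finset.induction_on with
  | empty =>
    simpa using hasDerivAt_const x (1 : ℂ)
  | insert a S ha ih =>
    have h1 := (der1 (β := β a) (hx a)).mul ih
    have h2 : (fun x => ∏ j ∈ insert a S, ((x - t j) / (x₀ - t j)) ^ β j) =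
        (fun x => ((x - t a) / (x₀ - t a)) ^ β a) * fun x => ∏ j ∈ S, ((x - t j) / (x₀ - t j)) ^ β j := by
      funext z
      rw [Finset.prod_insert ha]
      rfl
    rw [h2]
    refine h1.congr_deriv ?_
    rw [Finset.prod_insert ha, Finset.sum_insert ha]
    ring

/-- The derivative of the branch. -/
theorem derb (m : ℕ) (b : Fin (r + 1) → ℕ) {Y : ℂ × ℂ} {x : ℂ} (hx : x ∈ st t Y.1) :
    HasDerivAt (br m b t Y) (br m b t Y x * ∑ j, (b j : ℂ) / (m * (x - t j))) x := by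
  have h1 := (derp hx (fun j => (b j : ℂ) / m) Finset.univ).const_mul Y.2
  have h2 : (fun x => Y.2 * ∏ j, ((x - t j) / (Y.1 - t j)) ^ ((b j : ℂ) / m)) = br m b t Y := by
    funext z
    rfl
  rw [h2] at h1
  refine h1.congr_deriv ?_
  unfold br
  rw [mul_assoc]
  congr 2
  refine Finset.sum_congr rfl fun j _ => ?_
  rw [div_div]

/-- Roots of unity are discrete. -/
theorem cst (hm : m ≠ 0) {C : Set ℂ} (hC : IsPreconnected C) {f g : ℂ → ℂ} (hf : ContinuousOn f C)
    (hg : ContinuousOn g C) (h0 : ∀ z ∈ C, g z ≠ 0) (hp : ∀ z ∈ C, f z ^ m = g z ^ m) {x z : ℂ}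
    (hx : x ∈ C) (hz : z ∈ C) (he : f x = g x) : f z = g z := by
  have hfin : ({z : ℂ | z ^ m = 1}).Finite := by
    refine Set.Finite.subset (Polynomial.nthRoots m (1 : ℂ)).toFinset.finite_toSet ?_
    intro z hz
    simp only [Finset.mem_coe, Multiset.mem_toFinset]
    exact (Polynomial.mem_nthRoots (Nat.pos_of_ne_zero hm)).mpr hz
  have h1 : Set.MapsTo (fun z => f z / g z) C {z : ℂ | z ^ m = 1} := by
    intro w hw
    change (f w / g w) ^ m = 1
    rw [div_pow, hp w hw, div_self (pow_ne_zero _ (h0 w hw))]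
  have h2 := hC.constant_of_mapsTo hfin.isDiscrete (hf.div hg h0) h1 hz hx
  change f z / g z = f x / g x at h2
  rw [he, div_self (h0 x hx), div_eq_one_iff_eq (h0 z hz)] at h2
  exact h2

theorem prim (hm : m ≠ 0) : IsPrimitiveRoot (ze m 1) m := by
  have h := Complex.isPrimitiveRoot_exp m hm
  have h2 : ze m 1 = Complex.exp (2 * Real.pi * Complex.I / m) := by
    unfold ze
    congr 1
    push_cast
    ring
  rw [h2]
  exact h

end

end LocM

open LocM in
theorem tLoc : S_Loc := by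
  intro m r b t hm C hC Y hY hYC
  have hm0 : m ≠ 0 := Nat.pos_iff_ne_zero.mp hm
  have hst : ∀ x ∈ C, C ⊆ st t x := fun x hx z hz j => slit hC.cvx (hC.not j) hx hz
  have hne : ∀ x ∈ C, ∀ j, x - t j ≠ 0 := fun x hx j h => hC.not j (by rwa [← sub_eq_zero.mp h])
  have hpts : ∀ x ∈ C, bp m b t Y x ∈ Pts m b t := by
    intro x hx
    refine ⟨?_, pw hm0 hY (hne _ hYC) x⟩
    rintro ⟨j, hj⟩
    refine hC.not j ?_
    rw [hj]
    exact hx
  have hder : ∀ x ∈ C, ∀ z ∈ C, HasDerivAt (br m b t (bp m b t Y x))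
      (br m b t (bp m b t Y x) z * ∑ j, (b j : ℂ) / (m * (z - t j))) z := fun x hx z hz =>
    derb m b (hst x hx hz)
  have hder' : ∀ z ∈ C, HasDerivAt (br m b t Y) (br m b t Y z * ∑ j, (b j : ℂ) / (m * (z - t j))) z :=
    fun z hz => derb m b (hst _ hYC hz)
  have hcont : ContinuousOn (br m b t Y) C := fun z hz => (hder' z hz).continuousAt.continuousWithinAt
  refine ⟨hst, self (hne _ hYC), hpts, ?_, ?_, hcont, fun x hx => hder' x (interior_subset hx)⟩
  · intro x hx z hz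
    have h1 : ContinuousOn (br m b t (bp m b t Y x)) C := fun z hz =>
      (hder x hx z hz).continuousAt.continuousWithinAt
    refine cst hm0 hC.cvx.isPreconnected h1 hcont (fun w hw => ne0 hm0 hY (hst _ hYC hw)) ?_ hx hz ?_
    · intro w hw
      rw [pw hm0 hY (hne _ hYC), pw hm0 (hpts x hx) (hne x hx)]
    · exact self (hne x hx)
  · intro x hx y hy
    have h0 : br m b t Y x ≠ 0 := ne0 hm0 hY (hst _ hYC hx)
    have h1 : (y / br m b t Y x) ^ m = 1 := by
      rw [div_pow, pw hm0 hY (hne _ hYC)]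
      have h2 : y ^ m = ∏ j, (x - t j) ^ b j := hy.2
      rw [h2, div_self]
      exact Finset.prod_ne_zero_iff.mpr fun j _ => pow_ne_zero _ (hne x hx j)
    have : NeZero m := ⟨hm0⟩
    obtain ⟨i, hi, h3⟩ := (prim hm0).eq_pow_of_pow_eq_one h1
    refine ⟨i, hi, ?_⟩
    rw [h3, div_mul_cancel₀ _ h0]

end TNF.AB
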