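import Pool.Agent.Lib.TNF.AB.SpecA

/-!
# TNF/AB, module Lzg2: the set of all periods is a group, stable under the automorphism
-/

set_option autoImplicit false

open Topology Metric

noncomputable section

namespace TNF.AB

open SEJ TATE

namespace Lzg2M

theorem ze_pow (m u : ℕ) : ze m u = ze m 1 ^ u := by
  unfold ze
  rw [← Complex.exp_nat_mul]
  congr 1
  push_cast
  ring

theorem exists_pt (m r : ℕ) (b : Fin (r + 1) → ℕ) (t : Fin (r + 1) → ℂ) (hm : 1 ≤ m) :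
    ∃ P : ℂ × ℂ, P ∈ Pts m b t := by
  obtain ⟨x, hx⟩ := ((Set.finite_range t).infinite_compl).nonempty
  obtain ⟨y, hy⟩ := IsAlgClosed.exists_pow_nat_eq (∏ j, (x - t j) ^ b j) (n := m) (by omega)
  exact ⟨(x, y), hx, hy⟩

theorem int_smul {m r : ℕ} {b : Fin (r + 1) → ℕ} {t : Fin (r + 1) → ℂ} (c : ℂ) (h : ℂ × ℂ → ℂ) :
    ∀ {P Q : ℂ × ℂ} (p : Path m b t P Q), p.int (fun X => c * h X) = c * p.int h
  | _, _, .nil _ _ => by
    unfold Path.int
    rw [mul_zero]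
  | _, R, .snoc (Q := Q) p _ => by
    unfold Path.int
    rw [int_smul c h p, mul_add]
    congr 1
    unfold sgi
    rw [← intervalIntegral.integral_const_mul]
    congr 1
    funext u
    ring

theorem om2_sheet (m r : ℕ) (b : Fin (r + 1) → ℕ) (t : Fin (r + 1) → ℂ) (n : ℕ) (X : ℂ × ℂ)
    (q : Ix2 m r) :
    om2 m b t (X.1, ze m 1 ^ n * X.2) q = ze m (c2 q) ^ n * om2 m b t X q := by
  have h1 : (ze m 1 ^ n * X.2) ^ c2 q = ze m (c2 q) ^ n * X.2 ^ c2 q := by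
    rw [ze_pow m (c2 q), mul_pow, ← pow_mul, ← pow_mul, mul_comm n]
  unfold om2 gu
  rw [h1]
  ring

end Lzg2M

theorem tLzg2 : S_Alg2 → S_Itp → S_Gp → S_Lzg2 := by
  intro hAlg hItp hGp m r b t hC ht
  have hm : 1 ≤ m := by
    have := hC.1
    omega
  obtain ⟨hpts, hcat, hrev, hsh, -⟩ := hAlg m r b t hm
  obtain ⟨P0, hP0⟩ := Lzg2M.exists_pt m r b t hm
  refine ⟨⟨P0, .nil P0 hP0, ?_⟩, ?_, ?_, ?_⟩
  · funext q
    unfold Path.v Path.int
    rfl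
  · rintro u ⟨P, p, rfl⟩ v ⟨Q, p', rfl⟩
    obtain ⟨c, -⟩ := (hGp m r b t hC ht ∅ Set.finite_empty).2.2 P (hpts P P p).1 Q
      (hpts Q Q p').1 (Set.notMem_empty _) (Set.notMem_empty _)
    obtain ⟨c', hc', -⟩ := hrev P Q c
    obtain ⟨p'', hp'', -⟩ := hrev Q Q p'
    obtain ⟨a1, h1, -⟩ := hcat P P Q p c
    obtain ⟨a2, h2, -⟩ := hcat P Q Q a1 p''
    obtain ⟨a3, h3, -⟩ := hcat P Q P a2 c'
    refine ⟨P, a3, ?_⟩
    funext q
    show a3.int (fun X => om2 m b t X q) =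
      p.int (fun X => om2 m b t X q) - p'.int (fun X => om2 m b t X q)
    rw [h3, h2, h1, hc', hp'']
    ring
  · rintro n v ⟨P, p, rfl⟩
    obtain ⟨p', h', -⟩ := hsh P P p n
    refine ⟨_, p', ?_⟩
    funext q
    show p'.int (fun X => om2 m b t X q) = ze m (c2 q) ^ n * p.int (fun X => om2 m b t X q)
    rw [h', ← Lzg2M.int_smul]
    congr 1
    funext X
    exact Lzg2M.om2_sheet m r b t n X q
  · ext v
    constructor
    · rintro ⟨P, hP⟩
      obtain ⟨p, hp⟩ := (hItp m r b t hm P P v).1 hP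
      exact ⟨p.v, ⟨P, p, rfl⟩, hp⟩
    · rintro ⟨w, ⟨P, p, rfl⟩, rfl⟩
      exact ⟨P, (hItp m r b t hm P P _).2 ⟨p, rfl⟩⟩

end TNF.AB
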