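import Pool.Agent.Lib.TNF.AB.SpecA

/-!
# PROJECT TNF, package AB: the pairing is nondegenerate (helper57)
-/

set_option autoImplicit false

noncomputable section

namespace TNF.AB

open SEJ TATE

namespace NdM

variable {m r : ℕ}

theorem sr (b : Fin (r + 1) → ℕ) (t : Fin (r + 1) → ℂ) (β : Ix2 m r → ℂ) (q0 : Ix2 m r) :
    Qf m b t β (Pi.single q0 1) =
      ∑ p : Ix2 m r, if c2 p + c2 q0 = m then sf m b t (c2 p) (e2 p) (e2 q0) * β p else 0 := by
  unfold Qf
  refine Finset.sum_congr rfl fun p _ => ?_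
  rw [Finset.sum_eq_single q0]
  · rw [Pi.single_eq_same, mul_one]
  · intro q _ hq
    rw [Pi.single_eq_of_ne hq, mul_zero, ite_self]
  · intro h
    exact absurd (Finset.mem_univ _) h

theorem sl (b : Fin (r + 1) → ℕ) (t : Fin (r + 1) → ℂ) (c : Ix2 m r → ℂ) (p0 : Ix2 m r) :
    Qf m b t (Pi.single p0 1) c =
      ∑ q : Ix2 m r, if c2 p0 + c2 q = m then sf m b t (c2 p0) (e2 p0) (e2 q) * c q else 0 := by
  unfold Qf
  rw [Finset.sum_eq_single p0]
  · refine Finset.sum_congr rfl fun q _ => ?_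
    rw [Pi.single_eq_same, mul_one]
  · intro p _ hp
    refine Finset.sum_eq_zero fun q _ => ?_
    rw [Pi.single_eq_of_ne hp, mul_zero, zero_mul, ite_self]
  · intro h
    exact absurd (Finset.mem_univ _) h

/-- the smallest exponent and the opposite index -/
theorem opp (hm : 3 ≤ m) (β : Ix2 m r → ℂ) (p0 : Ix2 m r) (h0 : β p0 ≠ 0) :
    ∃ p1 q1 : Ix2 m r, β p1 ≠ 0 ∧ c2 p1 + c2 q1 = m ∧ e2 p1 + e2 q1 + 1 = r ∧
      ∀ p, c2 p + c2 q1 = m → p ≠ p1 → β p = 0 ∨ e2 p1 < e2 p := by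
  classical
  obtain ⟨⟨u, i0⟩, hu⟩ := p0
  have hu' : (u : ℕ).Coprime m := hu
  let S : Finset (Fin r) := Finset.univ.filter fun i => β ⟨(u, i), hu⟩ ≠ 0
  have hS : S.Nonempty := ⟨i0, Finset.mem_filter.2 ⟨Finset.mem_univ _, h0⟩⟩
  have hi := Finset.mem_filter.1 (Finset.min'_mem S hS)
  set i := S.min' hS with hidef
  have hu0 : 0 < (u : ℕ) := by
    rcases Nat.eq_zero_or_pos (u : ℕ) with h | h
    · rw [h, Nat.coprime_zero_left] at hu'
      omega
    · exact h
  have hul : (u : ℕ) < m := u.2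
  have hil : (i : ℕ) < r := i.2
  have hc : (m - (u : ℕ)).Coprime m := (Nat.coprime_self_sub_left hul.le).2 hu'
  refine ⟨⟨(u, i), hu⟩, ⟨(⟨m - (u : ℕ), by omega⟩, ⟨r - 1 - (i : ℕ), by omega⟩), hc⟩, hi.2, ?_, ?_, ?_⟩
  · show (u : ℕ) + (m - (u : ℕ)) = m
    omega
  · show (i : ℕ) + (r - 1 - (i : ℕ)) + 1 = r
    omega
  · rintro ⟨⟨v, i'⟩, hv⟩ h1 h2
    have h3 : (v : ℕ) + (m - (u : ℕ)) = m := h1
    have h4 : v = u := Fin.ext (by omega)
    subst h4
    by_cases h5 : β ⟨(v, i'), hv⟩ = 0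
    · exact Or.inl h5
    · right
      have h6 : i ≤ i' := Finset.min'_le S i' (Finset.mem_filter.2 ⟨Finset.mem_univ _, h5⟩)
      have h7 : (i : ℕ) ≠ i' := fun h => h2 (by rw [Fin.ext h])
      have h8 : (i : ℕ) ≤ i' := h6
      show (i : ℕ) < i'
      omega

theorem mem {p : Ix2 m r} : c2 p ∈ Us m :=
  Finset.mem_filter.2 ⟨Finset.mem_range.2 p.1.1.2, p.2⟩

end NdM

theorem tNd (h : S_Sfc) : S_Nd := by
  classical
  intro m r b t hC
  have hS := h m r b t hC
  refine ⟨fun β hβ => ?_, fun c hc => ?_⟩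
  · by_contra hne
    obtain ⟨p0, hp0⟩ := Function.ne_iff.1 hne
    obtain ⟨p1, q1, a1, a2, a3, a4⟩ := NdM.opp hC.1 β p0 hp0
    have h1 := hβ (Pi.single q1 1)
    rw [NdM.sr, Finset.sum_eq_single p1] at h1
    · rw [if_pos a2] at h1
      rcases mul_eq_zero.1 h1 with h2 | h2
      · exact (hS (c2 p1) NdM.mem (e2 p1) (e2 q1)).2 a3 h2
      · exact a1 h2
    · intro p _ hp
      by_cases hq : c2 p + c2 q1 = m
      · rw [if_pos hq]
        rcases a4 p hq hp with h2 | h2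
        · rw [h2, mul_zero]
        · rw [(hS (c2 p) NdM.mem (e2 p) (e2 q1)).1 (by omega), zero_mul]
      · rw [if_neg hq]
    · intro h2
      exact absurd (Finset.mem_univ _) h2
  · by_contra hne
    obtain ⟨p0, hp0⟩ := Function.ne_iff.1 hne
    obtain ⟨p1, q1, a1, a2, a3, a4⟩ := NdM.opp hC.1 c p0 hp0
    have h1 := hc (Pi.single q1 1)
    rw [NdM.sl, Finset.sum_eq_single p1] at h1
    · rw [if_pos (by omega)] at h1
      rcases mul_eq_zero.1 h1 with h2 | h2
      · exact (hS (c2 q1) NdM.mem (e2 q1) (e2 p1)).2 (by omega) h2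
      · exact a1 h2
    · intro p _ hp
      by_cases hq : c2 q1 + c2 p = m
      · rw [if_pos hq]
        rcases a4 p (by omega) hp with h2 | h2
        · rw [h2, mul_zero]
        · rw [(hS (c2 q1) NdM.mem (e2 q1) (e2 p)).1 (by omega), zero_mul]
      · rw [if_neg hq]
    · intro h2
      exact absurd (Finset.mem_univ _) h2

end TNF.AB
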