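import Pool.Agent.Lib.TNF.AB.SpecA

set_option autoImplicit false

open Topology Metric

noncomputable section

namespace TNF.AB

open SEJ TATE

namespace PrmM

/-- the component functions -/
def Fq (m : ℕ) {r : ℕ} (b : Fin (r + 1) → ℕ) (t : Fin (r + 1) → ℂ) (Y : ℂ × ℂ) (q : Ix2 m r)
    (x : ℂ) : ℂ := om2 m b t (bp m b t Y x) q

lemma diff (hL : S_Loc) {m r : ℕ} {b : Fin (r + 1) → ℕ} {t : Fin (r + 1) → ℂ} (hm : 1 ≤ m)
    {C : Set ℂ} (hC : Cx t C) (ho : IsOpen C) {Y : ℂ × ℂ} (hY : Y ∈ Pts m b t) (hYC : Y.1 ∈ C)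
    (q : Ix2 m r) : DifferentiableOn ℂ (Fq m b t Y q) C := by
  intro x hx
  have h := (hL m r b t hm C hC Y hY hYC).2.2.2.2.2.2 x (by rwa [ho.interior_eq])
  have hbr : DifferentiableAt ℂ (br m b t Y) x := h.differentiableAt
  have hne : ∀ j, x - t j ≠ 0 := by
    intro j h0
    apply hC.not j
    rw [sub_eq_zero] at h0
    rwa [← h0]
  apply DifferentiableAt.differentiableWithinAt
  unfold Fq om2 gu qq bp
  apply DifferentiableAt.div
  · apply DifferentiableAt.mul
    · exact differentiableAt_id.pow _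
    · apply DifferentiableAt.div
      · exact hbr.pow _
      · apply DifferentiableAt.fun_finsetProd
        intro j _
        exact (differentiableAt_id.sub_const _).pow _
      · rw [Finset.prod_ne_zero_iff]
        intro j _
        exact pow_ne_zero _ (hne j)
  · apply DifferentiableAt.fun_finsetProd
    intro j _
    exact differentiableAt_id.sub_const _
  · rw [Finset.prod_ne_zero_iff]
    intro j _
    exact hne j

lemma sxC {C : Set ℂ} (hc : Convex ℝ C) {x z : ℂ} (hx : x ∈ C) (hz : z ∈ C) {u : ℝ}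
    (hu : u ∈ Set.Icc (0 : ℝ) 1) : sx x z u ∈ C := by
  have h := hc.add_smul_sub_mem hx hz hu
  have : x + u • (z - x) = sx x z u := by
    unfold sx
    rw [Complex.real_smul]
  rwa [this] at h

end PrmM

open PrmM

theorem tPrm : S_Prm := by
  intro hL m r b t hm x₀ ρ hC Y hY hYC
  have hopen : IsOpen (ball x₀ ρ) := isOpen_ball
  have hd : ∀ q, DifferentiableOn ℂ (Fq m b t Y q) (ball x₀ ρ) := fun q =>
    diff hL hm hC hopen hY hYC q
  refine ⟨?_, ?_⟩
  · have hex : ∀ q, ∃ g : ℂ → ℂ, ∀ z ∈ ball x₀ ρ, HasDerivAt g (Fq m b t Y q z) z := fun q =>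
      (hd q).isExactOn_ball
    choose g hg using hex
    refine ⟨fun x q => g q x, ?_⟩
    intro x hx
    rw [hasDerivAt_pi]
    intro q
    exact hg q x hx
  · intro g hg x hx z hz q
    have hcp : ∀ u ∈ Set.Icc (0 : ℝ) 1, sx x z u ∈ ball x₀ ρ := fun u hu =>
      sxC hC.cvx hx hz hu
    have hbb : ∀ w ∈ ball x₀ ρ, bp m b t (bp m b t Y x) w = bp m b t Y w := by
      intro w hw
      have := (hL m r b t hm _ hC Y hY hYC).2.2.2.1 x hx w hw
      unfold bp at this ⊢
      rw [this]
    have hsx : ∀ u : ℝ, HasDerivAt (fun v : ℝ => sx x z v) (z - x) u := by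
      intro u
      unfold sx
      have h1 : HasDerivAt (fun v : ℝ => (v : ℂ)) 1 u := Complex.ofRealCLM.hasDerivAt
      have h2 := (h1.mul_const (z - x)).const_add x
      simpa using h2
    have hgq : ∀ w ∈ ball x₀ ρ, HasDerivAt (fun v => g v q) (Fq m b t Y q w) w := by
      intro w hw
      exact (hasDerivAt_pi.mp (hg w hw)) q
    have hder : ∀ u ∈ Set.uIcc (0 : ℝ) 1, HasDerivAt (fun v : ℝ => g (sx x z v) q)
        ((z - x) * Fq m b t Y q (sx x z u)) u := by
      intro u hu
      rw [Set.uIcc_of_le zero_le_one] at hu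
      have h3 := (hgq _ (hcp u hu)).comp u (hsx u)
      rw [mul_comm] at h3
      exact h3
    have hcont : ContinuousOn (fun u : ℝ => (z - x) * Fq m b t Y q (sx x z u))
        (Set.uIcc (0 : ℝ) 1) := by
      apply ContinuousOn.mul continuousOn_const
      apply (hd q).continuousOn.comp
      · intro u _
        exact (hsx u).continuousAt.continuousWithinAt
      · intro u hu
        rw [Set.uIcc_of_le zero_le_one] at hu
        exact hcp u hu
    have hint := intervalIntegral.integral_eq_sub_of_hasDerivAt hder hcont.intervalIntegrable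
    have h0 : sx x z 0 = x := by
      unfold sx
      simp
    have h1 : sx x z 1 = z := by
      unfold sx
      simp
    rw [h0, h1] at hint
    rw [← hint]
    unfold sgi
    apply intervalIntegral.integral_congr
    intro u hu
    rw [Set.uIcc_of_le zero_le_one] at hu
    have h4 : (bp m b t Y x).1 = x := rfl
    simp only [h4]
    rw [hbb _ (hcp u hu)]
    rfl

end TNF.AB
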