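import Pool.Agent.Lib.TNF.AB.SpecA

set_option autoImplicit false

open Topology Metric

noncomputable section

namespace TNF.AB

open SEJ TATE

namespace PthM

theorem sx_cont (a c : ℂ) : Continuous (sx a c) := by
  unfold sx
  fun_prop

theorem dir_empty (S : Set ℂ) (d : ℂ) (h : ∀ z ∈ S, ∀ δ : ℝ, δ ≠ 0 → z + δ * d ∉ S) :
    interior S = ∅ := by
  rw [Set.eq_empty_iff_forall_notMem]
  intro z hz
  have hc : Filter.Tendsto (fun δ : ℝ => z + (δ : ℂ) * d) (𝓝 0) (𝓝 z) := by
    have h1 : Continuous (fun δ : ℝ => z + (δ : ℂ) * d) := by fun_prop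
    have h2 := h1.tendsto 0
    simpa using h2
  have he : ∀ᶠ δ : ℝ in 𝓝 0, z + (δ : ℂ) * d ∈ interior S :=
    hc (isOpen_interior.mem_nhds hz)
  have he' : ∀ᶠ δ : ℝ in 𝓝[≠] 0, z + (δ : ℂ) * d ∈ interior S :=
    he.filter_mono nhdsWithin_le_nhds
  have hne : ∀ᶠ δ : ℝ in 𝓝[≠] (0 : ℝ), δ ≠ 0 := eventually_mem_nhdsWithin
  obtain ⟨δ, h1, h2⟩ := (he'.and hne).exists
  exact h z (interior_subset hz) δ h2 (interior_subset h1)

theorem seg_empty (a c : ℂ) : interior (sx a c '' Set.Icc (0 : ℝ) 1) = ∅ := by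
  by_cases hac : c = a
  · refine dir_empty _ 1 ?_
    rintro z ⟨u, _, rfl⟩ δ hδ ⟨v, _, hv⟩
    subst hac
    simp only [sx, sub_self, mul_zero, add_zero, mul_one] at hv
    have : (δ : ℂ) = 0 := by linear_combination -hv
    exact hδ (by exact_mod_cast this)
  · refine dir_empty _ (Complex.I * (c - a)) ?_
    rintro z ⟨u, _, rfl⟩ δ hδ ⟨v, _, hv⟩
    have hca : c - a ≠ 0 := sub_ne_zero.mpr hac
    simp only [sx] at hv
    have h1 : ((v : ℂ) - u - δ * Complex.I) * (c - a) = 0 := by linear_combination hv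
    have h2 : (v : ℂ) - u - δ * Complex.I = 0 := by
      rcases mul_eq_zero.mp h1 with h | h
      · exact h
      · exact absurd h hca
    have h3 := congrArg Complex.im h2
    simp at h3
    exact hδ h3

end PthM

open PthM

theorem tPth : S_Pth := by
  intro hLoc hSeg m r b t hm P Q p
  induction p with
  | nil h =>
    refine ⟨h, h, ?_, ?_, ?_, ?_, ?_⟩
    · simp [Path.on]
    · simp [Path.on]
    · simpa [Path.on] using isCompact_singleton
    · intro j hj
      simp only [Path.on, Set.mem_singleton_iff] at hj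
      exact h.1 ⟨j, hj⟩
    · simp [Path.on]
  | @snoc Q R p h ih =>
    obtain ⟨hP, hQ, hPo, hQo, hcp, hav, hint⟩ := ih
    have hne : ∀ j, t j ≠ Q.1 := fun j hj => hQ.1 ⟨j, hj⟩
    obtain ⟨hs1, hs2⟩ := hSeg r t Q.1 R.1 hne
    have hCx : Cx t (segment ℝ Q.1 R.1) := hs1.mp h.1
    have hL := hLoc m r b t hm (segment ℝ Q.1 R.1) hCx Q hQ (left_mem_segment ℝ _ _)
    have hR : R ∈ Pts m b t := by
      have h1 := hL.2.2.1 R.1 (right_mem_segment ℝ _ _)
      have h2 : bp m b t Q R.1 = R := Prod.ext rfl h.2.symm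
      rwa [h2] at h1
    have hci : IsCompact (sx Q.1 R.1 '' Set.Icc (0 : ℝ) 1) := isCompact_Icc.image (sx_cont _ _)
    have hon : (Path.snoc p h).on = p.on ∪ sx Q.1 R.1 '' Set.Icc (0 : ℝ) 1 := by
      simp only [Path.on]
    rw [hon]
    refine ⟨hP, hR, ?_, ?_, ?_, ?_, ?_⟩
    · exact Or.inl hPo
    · refine Or.inr ?_
      rw [← hs2]
      exact right_mem_segment ℝ _ _
    · exact hcp.union hci
    · intro j hj
      rcases hj with hj | hj
      · exact hav j hj
      · rw [← hs2] at hj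
        exact hCx.not j hj
    · have h3 := interior_union_isClosed_of_interior_empty (s := p.on) hcp.isClosed
        (seg_empty Q.1 R.1)
      rw [hint] at h3
      exact h3

end TNF.AB
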