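import Pool.Agent.Lib.TNF.AB.SpecA

/-!
# TNF/AB/Ram: Ramanujan sums are integers

The indicator of `gcd u m = 1` is the sum of the Moebius function over the common divisors, and the
sums of `ζ ^ (u c)` over the multiples `u < m` of a divisor `d` of `m` are geometric.
-/

set_option autoImplicit false

open Topology Metric

noncomputable section

namespace TNF.AB

open SEJ TATE

namespace RamM

open ArithmeticFunction

theorem ze_pow {m : ℕ} (hm : m ≠ 0) : ze m 1 ^ m = 1 := by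
  unfold ze
  rw [← Complex.exp_nat_mul]
  have hm' : (m : ℂ) ≠ 0 := by exact_mod_cast hm
  have e : (m : ℂ) * (2 * Real.pi * Complex.I * (1 : ℕ) / m) = 2 * Real.pi * Complex.I := by
    field_simp
    push_cast
    ring
  rw [e, Complex.exp_two_pi_mul_I]

/-- the sum over the multiples of `d` -/
theorem geo {m d : ℕ} (hm : m ≠ 0) (hd : d ∣ m) (c : ℕ) :
    ∃ n : ℤ, ∑ u ∈ (Finset.range m).filter (fun u => d ∣ u), ze m 1 ^ (u * c) = n := by
  obtain ⟨k, rfl⟩ := hd
  have hd0 : 0 < d := Nat.pos_of_ne_zero (left_ne_zero_of_mul hm)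
  have e1 : (Finset.range (d * k)).filter (fun u => d ∣ u) =
      (Finset.range k).image (fun j => d * j) := by
    ext u
    simp only [Finset.mem_filter, Finset.mem_range, Finset.mem_image]
    constructor
    · rintro ⟨h1, j, rfl⟩
      exact ⟨j, lt_of_mul_lt_mul_left h1 (Nat.zero_le d), rfl⟩
    · rintro ⟨j, h1, rfl⟩
      exact ⟨Nat.mul_lt_mul_of_pos_left h1 hd0, dvd_mul_right d j⟩
  have hinj : Set.InjOn (fun j => d * j) (Finset.range k : Set ℕ) := by
    intro a _ b _ h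
    exact Nat.eq_of_mul_eq_mul_left hd0 h
  rw [e1, Finset.sum_image hinj]
  have e2 : ∀ j ∈ Finset.range k, ze (d * k) 1 ^ (d * j * c) = (ze (d * k) 1 ^ (d * c)) ^ j := by
    intro j _
    rw [← pow_mul]
    congr 1
    ring
  rw [Finset.sum_congr rfl e2]
  have hx : (ze (d * k) 1 ^ (d * c)) ^ k = 1 := by
    rw [← pow_mul, show d * c * k = d * k * c by ring, pow_mul, ze_pow hm, one_pow]
  by_cases h1 : ze (d * k) 1 ^ (d * c) = 1
  · refine ⟨k, ?_⟩
    rw [h1]
    simp
  · refine ⟨0, ?_⟩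
    rw [geom_sum_eq h1, hx, sub_self, zero_div, Int.cast_zero]

theorem mob (n : ℕ) (hn : n ≠ 0) : ∑ d ∈ n.divisors, (moebius d : ℤ) = if n = 1 then 1 else 0 := by
  have h := congrArg (fun f : ArithmeticFunction ℤ => f n) coe_zeta_mul_moebius
  have h2 : ((zeta : ArithmeticFunction ℤ) * moebius) n = (1 : ArithmeticFunction ℤ) n := h
  rw [coe_zeta_mul_apply, one_apply] at h2
  exact h2

theorem ind {m : ℕ} (hm : m ≠ 0) (u : ℕ) :
    (if u.Coprime m then (1 : ℂ) else 0) = ∑ d ∈ m.divisors, if d ∣ u then ((moebius d : ℤ) : ℂ) else 0 := by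
  have hg : u.gcd m ≠ 0 := by
    intro h
    exact hm (Nat.eq_zero_of_gcd_eq_zero_right h)
  have h := mob (u.gcd m) hg
  have e : (u.gcd m).divisors = m.divisors.filter (fun d => d ∣ u) := by
    ext d
    simp only [Nat.mem_divisors, Finset.mem_filter, Nat.dvd_gcd_iff]
    constructor
    · rintro ⟨⟨h1, h2⟩, _⟩
      exact ⟨⟨h2, hm⟩, h1⟩
    · rintro ⟨⟨h1, _⟩, h2⟩
      exact ⟨⟨h2, h1⟩, hg⟩
  rw [e, Finset.sum_filter] at h
  have h' := congrArg (fun z : ℤ => (z : ℂ)) h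
  simp only [Int.cast_sum, apply_ite (fun z : ℤ => (z : ℂ)), Int.cast_one, Int.cast_zero] at h'
  rw [h']

theorem int {m : ℕ} (hm : m ≠ 0) (c : ℕ) : ∃ n : ℤ, ∑ u ∈ Us m, ze m 1 ^ (u * c) = n := by
  choose f hf using fun d : ℕ => fun hd : d ∣ m => geo hm hd c
  refine ⟨∑ d ∈ m.divisors.attach, moebius d.1 * f d.1 (Nat.dvd_of_mem_divisors d.2), ?_⟩
  have e1 : ∑ u ∈ Us m, ze m 1 ^ (u * c) = ∑ u ∈ Finset.range m,
      ∑ d ∈ m.divisors, (if d ∣ u then ((moebius d : ℤ) : ℂ) else 0) * ze m 1 ^ (u * c) := by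
    unfold Us
    rw [Finset.sum_filter]
    refine Finset.sum_congr rfl fun u _ => ?_
    rw [← Finset.sum_mul, ← ind hm u]
    split_ifs
    · rw [one_mul]
    · rw [zero_mul]
  rw [e1, Finset.sum_comm, ← Finset.sum_attach]
  push_cast
  refine Finset.sum_congr rfl fun d _ => ?_
  rw [← hf d.1 (Nat.dvd_of_mem_divisors d.2), Finset.sum_filter, Finset.mul_sum]
  refine Finset.sum_congr rfl fun u _ => ?_
  split_ifs
  · rfl
  · rw [zero_mul, mul_zero]

end RamM

theorem tRam : S_Ram := by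
  intro m hm c
  have hm0 : m ≠ 0 := by omega
  obtain ⟨n, hn⟩ := RamM.int hm0 c
  refine ⟨n, hn, ?_⟩
  have hnorm : ‖ze m 1‖ = 1 := Complex.norm_eq_one_of_pow_eq_one (RamM.ze_pow hm0) hm0
  have e : ∀ u ∈ Us m, ze m 1 ^ ((m - u) * c) = (starRingEnd ℂ) (ze m 1 ^ (u * c)) := by
    intro u hu
    have hu' : u < m := by
      unfold Us at hu
      exact Finset.mem_range.1 (Finset.mem_filter.1 hu).1
    have h1 : ze m 1 ^ ((m - u) * c) * ze m 1 ^ (u * c) = 1 := by
      rw [← pow_add, ← add_mul, Nat.sub_add_cancel hu'.le, pow_mul, RamM.ze_pow hm0, one_pow]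
    have h2 : (starRingEnd ℂ) (ze m 1 ^ (u * c)) * ze m 1 ^ (u * c) = 1 := by
      rw [mul_comm, Complex.mul_conj, Complex.normSq_eq_norm_sq, norm_pow, hnorm, one_pow, one_pow,
        Complex.ofReal_one]
    have h3 : ze m 1 ^ (u * c) ≠ 0 := by
      intro h0
      rw [h0, mul_zero] at h1
      exact zero_ne_one h1
    exact mul_right_cancel₀ h3 (h1.trans h2.symm)
  rw [Finset.sum_congr rfl e, ← map_sum, hn]
  exact Complex.conj_ofReal (n : ℝ)

end TNF.AB
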