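import Pool.Agent.Lib.TNF.AB.SpecA

/-!
# Segments and the star
-/

set_option autoImplicit false

open Topology Metric

noncomputable section

namespace TNF.AB

open SEJ TATE

namespace SegM

/-- The segment through `t`. -/
theorem mem_iff {x y t : ℂ} (h : t ≠ x) :
    (y - t) / (x - t) ∈ Complex.slitPlane ↔ t ∉ segment ℝ x y := by
  have hx : x - t ≠ 0 := sub_ne_zero.2 (Ne.symm h)
  constructor
  · rintro hw ⟨a, b, ha, hb, hab, ht⟩
    have ht' : (a : ℂ) * x + (b : ℂ) * y = t := by
      rw [← Complex.real_smul, ← Complex.real_smul]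
      exact ht
    have hab' : (a : ℂ) + (b : ℂ) = 1 := by exact_mod_cast hab
    have hb0 : b ≠ 0 := by
      intro hb0
      rw [hb0] at ht' hab'
      apply h
      rw [← ht']
      have : (a : ℂ) = 1 := by simpa using hab'
      rw [this]
      simp
    have hbc : (b : ℂ) ≠ 0 := Complex.ofReal_ne_zero.2 hb0
    have hw' : (y - t) / (x - t) = ((-(a / b) : ℝ) : ℂ) := by
      rw [div_eq_iff hx]
      push_cast
      field_simp
      rw [← ht']
      linear_combination (-((b:ℂ) * y + (a:ℂ) * x)) * hab'
    rw [hw', Complex.mem_slitPlane_iff] at hw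
    rcases hw with hw | hw
    · rw [Complex.ofReal_re] at hw
      have : 0 ≤ a / b := div_nonneg ha hb
      linarith
    · exact hw (Complex.ofReal_im _)
  · intro hs
    rw [Complex.mem_slitPlane_iff]
    by_contra hc
    push Not at hc
    obtain ⟨hre, him⟩ := hc
    apply hs
    set l : ℝ := -((y - t) / (x - t)).re with hl
    have hl0 : 0 ≤ l := by rw [hl]; linarith
    have hw : (y - t) / (x - t) = ((-l : ℝ) : ℂ) := by
      apply Complex.ext
      · rw [Complex.ofReal_re, hl, neg_neg]
      · rw [Complex.ofReal_im, him]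
    rw [div_eq_iff hx] at hw
    push_cast at hw
    have h1 : (0 : ℝ) < 1 + l := by linarith
    have h1c : (1 : ℂ) + (l : ℂ) ≠ 0 := by
      have := Complex.ofReal_ne_zero.2 h1.ne'
      push_cast at this
      exact this
    refine ⟨l / (1 + l), 1 / (1 + l), by positivity, by positivity, by field_simp; ring, ?_⟩
    rw [Complex.real_smul, Complex.real_smul]
    push_cast
    field_simp
    linear_combination hw

end SegM

theorem tSeg : S_Seg := by
  intro r t x y hx
  constructor
  · constructor
    · intro hy
      exact ⟨convex_segment x y, fun j => (SegM.mem_iff (hx j)).1 (hy j)⟩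
    · intro hC j
      exact (SegM.mem_iff (hx j)).2 (hC.not j)
  · rw [segment_eq_image']
    rfl

end TNF.AB
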