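import Pool.Agent.Lib.TNF.AB.SpecA

/-!
# PROJECT TNF, package AB: the antidiagonal coefficients (helper51)
-/

set_option autoImplicit false

noncomputable section

namespace TNF.AB

open SEJ TATE Polynomial

namespace SfcM

variable {m r : ℕ}

theorem monic_part (t : Fin (r + 1) → ℂ) (s : Finset (Fin (r + 1))) :
    (∏ l ∈ s, (X - C (t l))).Monic :=
  monic_prod_of_monic _ _ fun l _ => monic_X_sub_C (t l)

theorem deg_part (t : Fin (r + 1) → ℂ) (s : Finset (Fin (r + 1))) :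
    (∏ l ∈ s, (X - C (t l))).natDegree = s.card := by
  rw [natDegree_prod_of_monic _ _ fun l _ => monic_X_sub_C (t l)]
  simp

theorem coeff_part_top (t : Fin (r + 1) → ℂ) (s : Finset (Fin (r + 1))) :
    (∏ l ∈ s, (X - C (t l))).coeff s.card = 1 := by
  have h := (monic_part t s).coeff_natDegree
  rwa [deg_part] at h

theorem coeff_part_zero (t : Fin (r + 1) → ℂ) (s : Finset (Fin (r + 1))) {k : ℕ}
    (hk : s.card < k) : (∏ l ∈ s, (X - C (t l))).coeff k = 0 :=
  coeff_eq_zero_of_natDegree_lt (by rwa [deg_part])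

theorem card_erase (j : Fin (r + 1)) : (Finset.univ.erase j).card = r := by
  rw [Finset.card_erase_of_mem (Finset.mem_univ j), Finset.card_univ, Fintype.card_fin]
  rfl

theorem qp_top (t : Fin (r + 1) → ℂ) : (qp t).coeff (r + 1) = 1 := by
  have h := coeff_part_top t Finset.univ
  rwa [Finset.card_univ, Fintype.card_fin] at h

theorem qp_zero (t : Fin (r + 1) → ℂ) {k : ℕ} (hk : r + 1 < k) : (qp t).coeff k = 0 :=
  coeff_part_zero t Finset.univ (by rwa [Finset.card_univ, Fintype.card_fin])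

theorem pp_top (m : ℕ) (b : Fin (r + 1) → ℕ) (t : Fin (r + 1) → ℂ) (u : ℕ) :
    (pp m b t u).coeff r = ∑ j, fj m b u j := by
  unfold pp
  rw [finsetSum_coeff]
  refine Finset.sum_congr rfl fun j _ => ?_
  have h := coeff_part_top t (Finset.univ.erase j)
  rw [card_erase] at h
  rw [coeff_C_mul, h, mul_one]

theorem pp_zero (m : ℕ) (b : Fin (r + 1) → ℕ) (t : Fin (r + 1) → ℂ) (u : ℕ) {k : ℕ}
    (hk : r < k) : (pp m b t u).coeff k = 0 := by
  unfold pp
  rw [finsetSum_coeff]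
  refine Finset.sum_eq_zero fun j _ => ?_
  rw [coeff_C_mul, coeff_part_zero t _ (by rwa [card_erase]), mul_zero]

theorem sum_ne (b : Fin (r + 1) → ℕ) (hC : Cvb m b) {u : ℕ} (hu : u ∈ Us m) (n : ℕ) :
    ∑ j, fj m b u j ≠ (n : ℂ) := by
  intro h
  obtain ⟨h3, -, hs, -⟩ := hC
  have hm : (m : ℂ) ≠ 0 := Nat.cast_ne_zero.2 (by omega)
  have hcop : u.Coprime m := (Finset.mem_filter.1 hu).2
  have h1 : ∑ j, fj m b u j = ((∑ j, u * b j % m : ℕ) : ℂ) / m := by
    unfold fj
    rw [Nat.cast_sum, Finset.sum_div]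
  rw [h1, div_eq_iff hm] at h
  have h2 : ∑ j, u * b j % m = n * m := by exact_mod_cast h
  have h4 : m ∣ ∑ j, u * b j := by
    rw [Nat.dvd_iff_mod_eq_zero, Finset.sum_nat_mod, h2, Nat.mul_mod_left]
  rw [← Finset.mul_sum] at h4
  exact hs (Nat.Coprime.dvd_of_dvd_mul_left hcop.symm h4)

end SfcM

theorem tSfc : S_Sfc := by
  intro m r b t hC u hu i j
  refine ⟨fun h => ?_, fun h => ?_⟩
  · unfold sf
    rw [SfcM.pp_zero m b t u h, SfcM.qp_zero t (by omega), mul_zero, sub_zero]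
  · unfold sf
    have h1 : i + j + 2 = r + 1 := by omega
    rw [h, h1, SfcM.pp_top, SfcM.qp_top, mul_one, sub_ne_zero]
    have h2 := SfcM.sum_ne b hC hu (j + 1)
    rwa [Nat.cast_add, Nat.cast_one] at h2

end TNF.AB
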