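import Pool.Agent.Lib.TNF.AB.SpecA

/-!
# TNF/AB/Sub: subdivision of a segment
-/

set_option autoImplicit false

open Topology Metric

noncomputable section

namespace TNF.AB

open SEJ TATE

namespace SubM

theorem sx_left (a x : ℂ) (v u : ℝ) : sx a (sx a x v) u = sx a x (v * u) := by
  unfold sx
  push_cast
  ring

theorem sx_right (a x : ℂ) (v u : ℝ) : sx (sx a x v) x u = sx a x ((1 - v) * u + v) := by
  unfold sx
  push_cast
  ring

theorem sx_cont (a x : ℂ) : Continuous (sx a x) := by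
  unfold sx
  fun_prop

end SubM

open SubM

/-- **Sub** -/
theorem tSub : S_Sub := by
  intro hLoc hSeg m r b t hm Q x z hQ hx hz
  have hne : ∀ j, t j ≠ Q.1 := fun j h => hQ.1 ⟨j, h⟩
  obtain ⟨hseg, himg⟩ := hSeg r t Q.1 x hne
  have hC := hseg.1 hx
  obtain ⟨h1, h2, h3, h4, -, h6, -⟩ := hLoc m r b t hm _ hC Q hQ (left_mem_segment ℝ Q.1 x)
  refine ⟨h1 _ (left_mem_segment ℝ Q.1 x) hz, h1 z hz (right_mem_segment ℝ Q.1 x),
    fun h hh => ?_⟩
  have hz' := hz
  rw [himg] at hz'
  obtain ⟨v, hv, rfl⟩ := hz'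
  have hγ : ∀ u ∈ Set.Icc (0 : ℝ) 1, sx Q.1 x u ∈ segment ℝ Q.1 x := by
    intro u hu
    rw [himg]
    exact ⟨u, hu, rfl⟩
  set F : ℝ → ℂ := fun u => (x - Q.1) * h (bp m b t Q (sx Q.1 x u)) with hF
  have hFc : ContinuousOn F (Set.Icc 0 1) := by
    refine continuousOn_const.mul (hh.comp (t := ovr m b t (segment ℝ Q.1 x)) ?_ ?_)
    · exact (sx_cont Q.1 x).continuousOn.prodMk
        (h6.comp (sx_cont Q.1 x).continuousOn fun u hu => hγ u hu)
    · intro u hu
      exact ⟨h3 _ (hγ u hu), hγ u hu⟩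
  have hI1 : IntervalIntegrable F MeasureTheory.volume 0 v := by
    refine (hFc.mono ?_).intervalIntegrable
    rw [Set.uIcc_of_le hv.1]
    exact Set.Icc_subset_Icc le_rfl hv.2
  have hI2 : IntervalIntegrable F MeasureTheory.volume v 1 := by
    refine (hFc.mono ?_).intervalIntegrable
    rw [Set.uIcc_of_le hv.2]
    exact Set.Icc_subset_Icc hv.1 le_rfl
  have e1 : sgi m b t Q (sx Q.1 x v) h = ∫ u in (0 : ℝ)..v, F u := by
    have h5 : sgi m b t Q (sx Q.1 x v) h = ∫ u in (0 : ℝ)..1, v • F (v * u) := by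
      unfold sgi
      refine intervalIntegral.integral_congr fun u _ => ?_
      change (sx Q.1 x v - Q.1) * h (bp m b t Q (sx Q.1 (sx Q.1 x v) u)) = v • F (v * u)
      rw [sx_left, Complex.real_smul, hF]
      change _ = (v : ℂ) * ((x - Q.1) * h (bp m b t Q (sx Q.1 x (v * u))))
      rw [← mul_assoc]
      congr 1
      unfold sx
      ring
    rw [h5, intervalIntegral.integral_smul, intervalIntegral.smul_integral_comp_mul_left,
      mul_zero, mul_one]
  have e2 : sgi m b t (bp m b t Q (sx Q.1 x v)) x h = ∫ u in v..1, F u := by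
    have h5 : sgi m b t (bp m b t Q (sx Q.1 x v)) x h =
        ∫ u in (0 : ℝ)..1, (1 - v) • F ((1 - v) * u + v) := by
      unfold sgi
      refine intervalIntegral.integral_congr fun u hu => ?_
      rw [Set.uIcc_of_le zero_le_one] at hu
      have hu' : (1 - v) * u + v ∈ Set.Icc (0 : ℝ) 1 := by
        constructor
        · nlinarith [hu.1, hv.1, hv.2]
        · nlinarith [hu.2, hv.1, hv.2]
      change (x - sx Q.1 x v) * h (bp m b t (bp m b t Q (sx Q.1 x v)) (sx (sx Q.1 x v) x u)) =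
        (1 - v) • F ((1 - v) * u + v)
      rw [sx_right, Complex.real_smul, hF]
      have h7 : bp m b t (bp m b t Q (sx Q.1 x v)) (sx Q.1 x ((1 - v) * u + v)) =
          bp m b t Q (sx Q.1 x ((1 - v) * u + v)) :=
        Prod.ext rfl (h4 _ hz _ (hγ _ hu'))
      rw [h7]
      change _ = ((1 - v : ℝ) : ℂ) * ((x - Q.1) * h (bp m b t Q (sx Q.1 x ((1 - v) * u + v))))
      rw [← mul_assoc]
      congr 1
      unfold sx
      push_cast
      ring
    rw [h5, intervalIntegral.integral_smul, intervalIntegral.smul_integral_comp_mul_add]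
    congr 1
    · ring
    · ring
  rw [e1, e2, intervalIntegral.integral_add_adjacent_intervals hI1 hI2]
  rfl

end TNF.AB
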