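import Pool.Agent.Lib.TNF.AB.SpecA

/-!
# PROJECT TNF, package AB: Va0, the continuation of exp of the integrals of the form of the third kind (helper97)
-/

set_option autoImplicit false

open Topology Metric

noncomputable section

namespace TNF.AB

open SEJ TATE

namespace Va0M

/-- Continuous functions on an open set which agree off a set with empty interior are equal. -/
theorem agree {S U : Set ℂ} (hS : interior S = ∅) (hU : IsOpen U) {f g : ℂ → ℂ}
    (hf : ContinuousOn f U) (hg : ContinuousOn g U) (h : ∀ x ∈ U, x ∉ S → f x = g x) :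
    ∀ x ∈ U, f x = g x := by
  intro x hx
  by_contra hne
  have hopen : IsOpen (U ∩ (fun y => f y - g y) ⁻¹' {0}ᶜ) :=
    (hf.sub hg).isOpen_inter_preimage hU isOpen_compl_singleton
  have hsub : U ∩ (fun y => f y - g y) ⁻¹' {0}ᶜ ⊆ S := by
    rintro y ⟨hy, hy'⟩
    by_contra hyS
    exact hy' (sub_eq_zero.2 (h y hy hyS))
  have hx' : x ∈ interior S := mem_interior.2 ⟨_, hsub, hopen, hx, fun h0 => hne (sub_eq_zero.1 h0)⟩
  rw [hS] at hx'
  exact hx'

theorem Qf_lin {m r : ℕ} (b : Fin (r + 1) → ℕ) (t : Fin (r + 1) → ℂ) (β : Ix2 m r → ℂ) :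
    ∃ c : Ix2 m r → ℂ, ∀ w, Qf m b t β w = ∑ q, c q * w q := by
  refine ⟨fun q => ∑ p : Ix2 m r, if c2 p + c2 q = m then sf m b t (c2 p) (e2 p) (e2 q) * β p else 0, fun w => ?_⟩
  rw [Qf, Finset.sum_comm]
  refine Finset.sum_congr rfl fun q _ => ?_
  rw [Finset.sum_mul]
  refine Finset.sum_congr rfl fun p _ => ?_
  split_ifs
  · rfl
  · rw [zero_mul]

end Va0M

open Va0M

theorem tVa0 : S_Va0 := by
  intro hLoc _hSeg hPth m r b t hcv A β h1 h2
  have hm : 1 ≤ m := le_trans (by norm_num) hcv.1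
  obtain ⟨-, -, -, -, hcomp, hnot, hint⟩ := hPth hLoc _hSeg m r b t hm A A β
  have hclosed : IsClosed β.on := hcomp.isClosed
  -- the choice
  have h1' : ∀ Y : ℂ × ℂ, ∃ ρ : ℝ, ∃ h : ℂ → ℂ, Y ∈ Pts m b t → 0 < ρ ∧ Cx t (ball Y.1 ρ) ∧
      DifferentiableOn ℂ h (ball Y.1 ρ) ∧ (∀ x ∈ ball Y.1 ρ, h x ≠ 0) ∧
      ∀ x ∈ ball Y.1 ρ, x ∉ β.on → Complex.exp (β.int (eta m b t (bp m b t Y x))) = h x := by
    intro Y
    by_cases hY : Y ∈ Pts m b t
    · obtain ⟨ρ, hρ, hC, h, hd, hne, he⟩ := h1 Y hY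
      refine ⟨ρ, h, fun _ => ⟨hρ, hC, hd, hne, fun x hx hxs => ?_⟩⟩
      rw [he x hx hxs, zpow_zero, one_mul]
    · exact ⟨0, fun _ => 0, fun h => (hY h).elim⟩
  choose ρ H hH using h1'
  -- the values do not depend on the base point of the ball
  have key : ∀ Y ∈ Pts m b t, ∀ x ∈ ball Y.1 (ρ Y), H (bp m b t Y x) x = H Y x := by
    intro Y hY x hx
    obtain ⟨hρ, hC, hd, hne, he⟩ := hH Y hY
    have hYm : Y.1 ∈ ball Y.1 (ρ Y) := mem_ball_self hρ
    obtain ⟨-, -, hpt, hbr, -, -, -⟩ := hLoc m r b t hm _ hC Y hY hYm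
    have hW : bp m b t Y x ∈ Pts m b t := hpt x hx
    obtain ⟨hρ', hC', hd', hne', he'⟩ := hH _ hW
    have hxW : x ∈ ball (bp m b t Y x).1 (ρ (bp m b t Y x)) := mem_ball_self hρ'
    refine agree (S := β.on) (U := ball (bp m b t Y x).1 (ρ (bp m b t Y x)) ∩ ball Y.1 (ρ Y)) hint
      (isOpen_ball.inter isOpen_ball) (hd'.continuousOn.mono Set.inter_subset_left)
      (hd.continuousOn.mono Set.inter_subset_right) (fun z hz hzs => ?_) x ⟨hxW, hx⟩
    rw [← he' z hz.1 hzs, ← he z hz.2 hzs]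
    have hb : bp m b t (bp m b t Y x) z = bp m b t Y z := by
      show (z, _) = (z, _)
      rw [hbr x hx z hz.2]
    rw [hb]
  refine ⟨fun Y => H Y Y.1, ⟨fun Y hY => ?_, fun Y hY hYs => ?_, fun Y hY => ?_⟩⟩
  · obtain ⟨hρ, -, -, hne, -⟩ := hH Y hY
    exact hne _ (mem_ball_self hρ)
  · obtain ⟨hρ, hC, -, -, he⟩ := hH Y hY
    obtain ⟨-, hbr, -⟩ := hLoc m r b t hm _ hC Y hY (mem_ball_self hρ)
    have := he Y.1 (mem_ball_self hρ) hYs
    have hb : bp m b t Y Y.1 = Y := by
      show (Y.1, br m b t Y Y.1) = Y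
      rw [hbr]
    rw [hb] at this
    exact this.symm
  · obtain ⟨hρ, hC, hd, hne, he⟩ := hH Y hY
    have hYm : Y.1 ∈ ball Y.1 (ρ Y) := mem_ball_self hρ
    obtain ⟨-, -, hpt, hbr, -, -, -⟩ := hLoc m r b t hm _ hC Y hY hYm
    refine ⟨ρ Y, hρ, hC, fun g hg x hx => ?_⟩
    obtain ⟨c, hc⟩ := Qf_lin b t β.v
    -- the derivative of `H Y` off the path
    have hder : ∀ z ∈ ball Y.1 (ρ Y), z ∉ β.on →
        HasDerivAt (H Y) (H Y z * Qf m b t β.v (om2 m b t (bp m b t Y z))) z := by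
      intro z hz hzs
      have hD := h2 (bp m b t Y z) (hpt z hz) hzs
      have hD' := hD.cexp
      have hev : ∀ᶠ a in 𝓝 z, H Y a = Complex.exp (β.int (eta m b t (bp m b t (bp m b t Y z) a))) := by
        have ho : IsOpen (ball Y.1 (ρ Y) ∩ β.onᶜ) := isOpen_ball.inter hclosed.isOpen_compl
        filter_upwards [ho.mem_nhds ⟨hz, hzs⟩] with a ha
        rw [← he a ha.1 ha.2]
        have hb : bp m b t (bp m b t Y z) a = bp m b t Y a := by
          show (a, _) = (a, _)
          rw [hbr z hz a ha.1]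
        rw [hb]
      have hz0 := hev.self_of_nhds
      have := hD'.congr_of_eventuallyEq hev
      rw [hz0]
      exact this
    -- the quotient
    have hQd : ∀ z ∈ ball Y.1 (ρ Y), HasDerivAt (fun z => Qf m b t β.v (g z))
        (Qf m b t β.v (om2 m b t (bp m b t Y z))) z := by
      intro z hz
      have hg' := hasDerivAt_pi.1 (hg z hz)
      have : HasDerivAt (fun z => ∑ q, c q * g z q) (∑ q, c q * om2 m b t (bp m b t Y z) q) z :=
        HasDerivAt.fun_sum fun q _ => (hg' q).const_mul (c q)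
      rw [hc]
      refine this.congr_of_eventuallyEq (Filter.Eventually.of_forall fun a => ?_)
      exact hc _
    set k : ℂ → ℂ := fun z => H Y z * Complex.exp (-Qf m b t β.v (g z)) with hk
    have hkd : DifferentiableOn ℂ k (ball Y.1 (ρ Y)) := by
      intro z hz
      have h1 := (hd z hz).differentiableAt (isOpen_ball.mem_nhds hz)
      exact (h1.mul ((hQd z hz).neg.cexp.differentiableAt)).differentiableWithinAt
    have hk0 : ∀ z ∈ ball Y.1 (ρ Y), z ∉ β.on → deriv k z = 0 := by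
      intro z hz hzs
      have h1 := (hder z hz hzs).mul (hQd z hz).neg.cexp
      have h2 : HasDerivAt k 0 z := by
        refine h1.congr_deriv ?_
        ring
      exact h2.deriv
    have hk1 : ∀ z ∈ ball Y.1 (ρ Y), deriv k z = 0 :=
      agree hint isOpen_ball (hkd.deriv isOpen_ball).continuousOn continuousOn_const hk0
    have hkc : k x = k Y.1 := by
      refine (convex_ball Y.1 (ρ Y)).is_const_of_fderivWithin_eq_zero (𝕜 := ℂ) hkd (fun z hz => ?_) hx hYm
      rw [fderivWithin_of_isOpen isOpen_ball hz]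
      ext
      simp [hk1 z hz]
    show H (bp m b t Y x) x = H Y Y.1 * _
    rw [key Y hY x hx]
    have hlin : Qf m b t β.v (g x - g Y.1) = Qf m b t β.v (g x) + -Qf m b t β.v (g Y.1) := by
      rw [hc, hc, hc, ← sub_eq_add_neg, ← Finset.sum_sub_distrib]
      refine Finset.sum_congr rfl fun q _ => ?_
      rw [Pi.sub_apply]
      ring
    rw [hlin, Complex.exp_add]
    have h3 : H Y x * Complex.exp (-Qf m b t β.v (g x)) = H Y Y.1 * Complex.exp (-Qf m b t β.v (g Y.1)) := hkc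
    calc H Y x = (H Y x * Complex.exp (-Qf m b t β.v (g x))) * Complex.exp (Qf m b t β.v (g x)) := by
          rw [mul_assoc, ← Complex.exp_add, neg_add_cancel, Complex.exp_zero, mul_one]
      _ = _ := by rw [h3]; ring

end TNF.AB
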