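import Pool.Agent.Lib.TNF.AB.SpecA

/-!
# PROJECT TNF, package AB, module X1: crossing of a segment in a small ball (helper6)
-/

set_option autoImplicit false

open Topology Metric

noncomputable section

namespace TNF.AB

open SEJ TATE

namespace X1M

variable {m r : ℕ} {b : Fin (r + 1) → ℕ} {t : Fin (r + 1) → ℂ}

/-- The branch from another point of the fibre. -/
theorem brz (w y x z : ℂ) : br m b t (x, w * y) z = w * br m b t (x, y) z := by
  unfold br
  rw [mul_assoc]

/-- Arithmetic of the exponents. -/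
theorem exps (hb : Cvb m b) {u : ℕ} (hu : u ∈ Us m) (j : Fin (r + 1)) :
    u * b j / m + (m - u) * b j / m + 1 = b j := by
  have hm : 0 < m := by have := hb.1; omega
  unfold Us at hu
  rw [Finset.mem_filter, Finset.mem_range] at hu
  obtain ⟨hu1, hu2⟩ := hu
  have h1 : ¬ m ∣ u * b j := fun h => hb.2.1 j (hu2.symm.dvd_of_dvd_mul_left h)
  obtain ⟨k, rfl⟩ := Nat.exists_eq_add_of_lt hu1
  have h2 : u * b j + (u + k + 1 - u) * b j = (u + k + 1) * b j := by
    rw [← add_mul]
    congr 1
    omega
  set M := u + k + 1 with hM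
  set A := u * b j with hA
  set B := (M - u) * b j with hB
  have h3 := Nat.div_add_mod A M
  have h4 := Nat.div_add_mod B M
  have h5 : A % M < M := Nat.mod_lt _ hm
  have h6 : B % M < M := Nat.mod_lt _ hm
  have h7 : A % M ≠ 0 := fun h => h1 (Nat.dvd_of_mod_eq_zero h)
  have h8 : M * (A / M + B / M) + (A % M + B % M) = M * b j := by
    rw [mul_add]
    omega
  have h9 : A % M + B % M < 2 * M := by omega
  have h10 : M ∣ A % M + B % M := by
    rw [← Nat.dvd_add_right (Dvd.intro _ rfl : M ∣ M * (A / M + B / M)), h8]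
    exact Dvd.intro _ rfl
  obtain ⟨q, hq⟩ := h10
  have hq1 : q = 1 := by
    have a1 : 0 < q := by
      rcases Nat.eq_zero_or_pos q with h | h
      · rw [h, mul_zero] at hq
        omega
      · exact h
    have a2 : q < 2 := by
      by_contra hc
      have : M * 2 ≤ M * q := Nat.mul_le_mul_left _ (by omega)
      omega
    omega
  rw [hq, hq1, ← mul_add] at h8
  exact Nat.eq_of_mul_eq_mul_left hm h8

/-- The residues. -/
theorem resd (hb : Cvb m b) {u : ℕ} (hu : u ∈ Us m) {x y w : ℂ} (hP : (x, y) ∈ Pts m b t) :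
    gu m b t u (x, w * y) / qq t x * gu m b t (m - u) (x, y) = w ^ u := by
  have hx : ∀ j, x - t j ≠ 0 := fun j h => hP.1 ⟨j, (sub_eq_zero.mp h).symm⟩
  have hy : y ^ m = ∏ j, (x - t j) ^ b j := hP.2
  have hum : u < m := by
    unfold Us at hu
    rw [Finset.mem_filter, Finset.mem_range] at hu
    exact hu.1
  have h1 : (∏ j, (x - t j) ^ (u * b j / m)) * (∏ j, (x - t j) ^ ((m - u) * b j / m)) * qq t x =
      y ^ m := by
    unfold qq
    rw [hy, ← Finset.prod_mul_distrib, ← Finset.prod_mul_distrib]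
    refine Finset.prod_congr rfl fun j _ => ?_
    rw [← pow_add, ← pow_succ, exps hb hu j]
  have hA : (∏ j, (x - t j) ^ (u * b j / m)) ≠ 0 :=
    Finset.prod_ne_zero_iff.mpr fun j _ => pow_ne_zero _ (hx j)
  have hB : (∏ j, (x - t j) ^ ((m - u) * b j / m)) ≠ 0 :=
    Finset.prod_ne_zero_iff.mpr fun j _ => pow_ne_zero _ (hx j)
  have hQ : qq t x ≠ 0 := Finset.prod_ne_zero_iff.mpr fun j _ => hx j
  have hpp : y ^ m = y ^ u * y ^ (m - u) := by
    rw [← pow_add]
    congr 1
    omega
  unfold gu
  change (w * y) ^ u / (∏ j, (x - t j) ^ (u * b j / m)) / qq t x *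
    (y ^ (m - u) / ∏ j, (x - t j) ^ ((m - u) * b j / m)) = w ^ u
  rw [div_div, div_mul_div_comm, div_eq_iff (by positivity), mul_pow]
  · rw [hpp] at h1
    linear_combination (-w ^ u) * h1

/-- `gu` on a branch is holomorphic. -/
theorem gud {S : Set ℂ} (hS : ∀ x ∈ S, ∀ j, x - t j ≠ 0) {g : ℂ → ℂ} (hg : DifferentiableOn ℂ g S)
    (u : ℕ) : DifferentiableOn ℂ (fun z => gu m b t u (z, g z)) S := by
  unfold gu
  refine DifferentiableOn.fun_div (hg.fun_pow u) ?_ ?_
  · refine DifferentiableOn.fun_finsetProd fun j _ => ?_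
    exact (differentiableOn_id.sub_const (t j)).fun_pow _
  · intro x hx
    exact Finset.prod_ne_zero_iff.mpr fun j _ => pow_ne_zero _ (hS x hx j)

theorem qqd {S : Set ℂ} : DifferentiableOn ℂ (qq t) S := by
  unfold qq
  refine DifferentiableOn.fun_finsetProd fun j _ => ?_
  exact differentiableOn_id.sub_const (t j)

theorem sxc (α β : ℂ) : Continuous (fun u : ℝ => sx α β u) := by
  unfold sx
  fun_prop

theorem sxm {α β : ℂ} {S : Set ℂ} (hS : Convex ℝ S) (hα : α ∈ S) (hβ : β ∈ S) {u : ℝ}
    (hu : u ∈ Set.Icc (0 : ℝ) 1) : sx α β u ∈ S := by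
  have h : sx α β u = (1 - u) • α + u • β := by
    unfold sx
    rw [Complex.real_smul, Complex.real_smul]
    push_cast
    ring
  rw [h]
  exact hS hα hβ (by linarith [hu.2]) hu.1 (by ring)

theorem sxs {α β : ℂ} {u : ℝ} (hu : u ∈ Set.Icc (0 : ℝ) 1) : sx α β u ∈ segment ℝ α β :=
  sxm (convex_segment α β) (left_mem_segment ℝ α β) (right_mem_segment ℝ α β) hu

end X1M

open X1M in
theorem tX1 : S_X1 := by
  intro _ hLoc hDsl hLgi m r b t hb Y hY ρ hρ hC c n hn α hα β hβ
  have hm : 1 ≤ m := by have := hb.1; omega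
  have hY0 : Y.1 ∈ ball Y.1 ρ := mem_ball_self hρ
  have hne : ∀ x ∈ ball Y.1 ρ, ∀ j, x - t j ≠ 0 := fun x hx j h =>
    hC.not j (by rwa [← sub_eq_zero.mp h])
  obtain ⟨_, _, hpts, hcmp, _, _, hder⟩ := hLoc m r b t hm (ball Y.1 ρ) hC Y hY hY0
  have hbr : DifferentiableOn ℂ (br m b t Y) (ball Y.1 ρ) := fun x hx =>
    (hder x (by rwa [isOpen_ball.interior_eq])).differentiableAt.differentiableWithinAt
  set ζ : ℂ := ze m 1 ^ c with hζ
  set F : ℕ → ℂ → ℂ := fun u z => gu m b t u (z, ζ * br m b t Y z) / qq t z with hF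
  set K : ℕ → ℂ → ℂ := fun u x => gu m b t (m - u) (bp m b t Y x) with hK
  have hFd : ∀ u, DifferentiableOn ℂ (F u) (ball Y.1 ρ) := fun u => by
    refine DifferentiableOn.fun_div (gud hne (hbr.const_mul ζ) u) qqd fun x hx => ?_
    exact Finset.prod_ne_zero_iff.mpr fun j _ => hne x hx j
  have hKd : ∀ u, DifferentiableOn ℂ (K u) (ball Y.1 ρ) := fun u => gud hne hbr (m - u)
  set L : ℕ → ℂ → ℂ := fun u x => ∫ v in (0 : ℝ)..1, (β - α) * dslope (F u) x (sx α β v) with hL
  have hLd : ∀ u, DifferentiableOn ℂ (L u) (ball Y.1 ρ) := fun u =>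
    hDsl Y.1 ρ (F u) (hFd u) α hα β hβ
  refine ⟨fun x => Complex.exp (∑ u ∈ Us m, K u x * L u x), ?_, fun x _ => Complex.exp_ne_zero _, ?_⟩
  · refine DifferentiableOn.cexp ?_
    exact DifferentiableOn.fun_sum fun u _ => (hKd u).mul (hLd u)
  · intro x hx hxs
    have hsx : ∀ v ∈ Set.Icc (0 : ℝ) 1, sx α β v ∈ ball Y.1 ρ := fun v hv =>
      sxm (convex_ball _ _) hα hβ hv
    have hsn : ∀ v ∈ Set.Icc (0 : ℝ) 1, sx α β v ≠ x := fun v hv h => hxs (h ▸ sxs hv)
    -- the integrand
    have hint : ∀ v ∈ Set.Icc (0 : ℝ) 1, (β - α) * eta m b t (bp m b t Y x)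
        (bp m b t (α, ζ * br m b t Y α) (sx α β v)) = n * ((β - α) / (sx α β v - x)) +
          ∑ u ∈ Us m, K u x * ((β - α) * dslope (F u) x (sx α β v)) := by
      intro v hv
      set z := sx α β v with hz
      have hzb : z ∈ ball Y.1 ρ := hsx v hv
      have hzx : z ≠ x := hsn v hv
      have hzx' : z - x ≠ 0 := sub_ne_zero.mpr hzx
      have h1 : bp m b t (α, ζ * br m b t Y α) z = (z, ζ * br m b t Y z) := by
        have h2 := hcmp α hα z hzb
        unfold bp at h2
        change (z, br m b t (α, ζ * br m b t Y α) z) = (z, ζ * br m b t Y z)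
        rw [brz, h2]
      rw [h1]
      have h3 : eta m b t (bp m b t Y x) (z, ζ * br m b t Y z) =
          ∑ u ∈ Us m, F u z * K u x / (z - x) := by
        unfold eta
        refine Finset.sum_congr rfl fun u _ => ?_
        change gu m b t u (z, ζ * br m b t Y z) * gu m b t (m - u) (bp m b t Y x) /
          (qq t z * (z - x)) = gu m b t u (z, ζ * br m b t Y z) / qq t z *
            gu m b t (m - u) (bp m b t Y x) / (z - x)
        rw [div_mul_eq_mul_div, div_div]
      have h4 : ∀ u ∈ Us m, F u x * K u x = ze m 1 ^ (u * c) := by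
        intro u hu
        have h5 := resd (w := ζ) hb hu (hpts x hx)
        rw [hζ, ← pow_mul, mul_comm c u] at h5
        rw [← h5]
        rfl
      have h6 : ∀ u, dslope (F u) x z = (F u z - F u x) / (z - x) := fun u => by
        rw [dslope_of_ne _ hzx, slope_def_field]
      rw [h3, ← hn, Finset.sum_mul, Finset.mul_sum, ← Finset.sum_add_distrib]
      refine Finset.sum_congr rfl fun u hu => ?_
      rw [h6, ← h4 u hu]
      field_simp
      ring
    have hI1 : IntervalIntegrable (fun v : ℝ => (β - α) / (sx α β v - x)) MeasureTheory.volume 0 1 := by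
      refine ContinuousOn.intervalIntegrable ?_
      rw [Set.uIcc_of_le zero_le_one]
      exact continuousOn_const.div ((sxc α β).continuousOn.sub continuousOn_const) fun v hv =>
        sub_ne_zero.mpr (hsn v hv)
    have hI2 : ∀ u, IntervalIntegrable (fun v : ℝ => (β - α) * dslope (F u) x (sx α β v))
        MeasureTheory.volume 0 1 := by
      intro u
      refine ContinuousOn.intervalIntegrable ?_
      rw [Set.uIcc_of_le zero_le_one]
      have h1 : ContinuousOn (fun v : ℝ => (β - α) * ((F u (sx α β v) - F u x) / (sx α β v - x)))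
          (Set.Icc 0 1) := by
        refine continuousOn_const.mul (ContinuousOn.div ?_
          ((sxc α β).continuousOn.sub continuousOn_const) fun v hv => sub_ne_zero.mpr (hsn v hv))
        exact ((hFd u).continuousOn.comp (sxc α β).continuousOn hsx).sub continuousOn_const
      refine h1.congr fun v hv => ?_
      rw [dslope_of_ne _ (hsn v hv), slope_def_field]
    have hsgi : sgi m b t (α, ζ * br m b t Y α) β (eta m b t (bp m b t Y x)) =
        n * (∫ v in (0 : ℝ)..1, (β - α) / (sx α β v - x)) + ∑ u ∈ Us m, K u x * L u x := by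
      unfold sgi
      have h1 : ∫ v in (0 : ℝ)..1, (β - (α, ζ * br m b t Y α).1) * eta m b t (bp m b t Y x)
          (bp m b t (α, ζ * br m b t Y α) (sx (α, ζ * br m b t Y α).1 β v)) =
          ∫ v in (0 : ℝ)..1, (n * ((β - α) / (sx α β v - x)) +
          ∑ u ∈ Us m, K u x * ((β - α) * dslope (F u) x (sx α β v))) := by
        refine intervalIntegral.integral_congr fun v hv => ?_
        rw [Set.uIcc_of_le zero_le_one] at hv
        exact hint v hv
      have hI3 : IntervalIntegrable (fun v : ℝ => ∑ u ∈ Us m, K u x *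
          ((β - α) * dslope (F u) x (sx α β v))) MeasureTheory.volume 0 1 := by
        have h2 := IntervalIntegrable.sum (Us m) (f := fun u (v : ℝ) => K u x *
          ((β - α) * dslope (F u) x (sx α β v))) fun u _ => (hI2 u).const_mul (K u x)
        refine h2.congr fun v _ => ?_
        exact Finset.sum_apply v _ _
      rw [h1, intervalIntegral.integral_add (hI1.const_mul _) hI3,
        intervalIntegral.integral_const_mul, intervalIntegral.integral_finsetSum fun u _ =>
          (hI2 u).const_mul _]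
      congr 1
      refine Finset.sum_congr rfl fun u _ => ?_
      rw [intervalIntegral.integral_const_mul]
    rw [hsgi, Complex.exp_add, Complex.exp_int_mul, hLgi α β x hxs]

end TNF.AB
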