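import Pool.Agent.Lib.TNF.AB.SpecA

/-!
# PROJECT TNF, package AB: module X2 (crossing, one segment)
-/

set_option autoImplicit false

open Topology Metric

noncomputable section

namespace TNF.AB

open SEJ TATE

namespace X2M

/-- A point near the end of a segment. -/
theorem near_end {a y : ℂ} (h : a ≠ y) {ρ : ℝ} (hρ : 0 < ρ) :
    ∃ z ∈ segment ℝ a y, z ∈ ball y ρ ∧ y ∉ segment ℝ a z := by
  have hd : 0 < ‖a - y‖ := norm_pos_iff.2 (sub_ne_zero.2 h)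
  obtain ⟨δ, hδ0, hδ1, hδ2⟩ : ∃ δ : ℝ, 0 < δ ∧ δ ≤ 1 ∧ δ * ‖a - y‖ < ρ := by
    refine ⟨min 1 (ρ / (2 * ‖a - y‖)), lt_min one_pos (by positivity), min_le_left _ _, ?_⟩
    calc min 1 (ρ / (2 * ‖a - y‖)) * ‖a - y‖ ≤ ρ / (2 * ‖a - y‖) * ‖a - y‖ :=
          mul_le_mul_of_nonneg_right (min_le_right _ _) hd.le
      _ = ρ / 2 := by field_simp
      _ < ρ := by linarith
  refine ⟨(δ : ℂ) * a + (1 - δ : ℂ) * y, ⟨δ, 1 - δ, hδ0.le, by linarith, by ring, ?_⟩, ?_, ?_⟩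
  · rw [Complex.real_smul, Complex.real_smul]
    push_cast
    ring
  · rw [mem_ball, dist_eq_norm]
    have e : (δ : ℂ) * a + (1 - δ : ℂ) * y - y = (δ : ℂ) * (a - y) := by ring
    rw [e, norm_mul, Complex.norm_real, Real.norm_of_nonneg hδ0.le]
    exact hδ2
  · rintro ⟨p, q, hp, hq, hpq, e⟩
    rw [Complex.real_smul, Complex.real_smul] at e
    have e2 : ((p + q * δ : ℝ) : ℂ) * (a - y) = 0 := by
      have e3 : (p : ℂ) + q = 1 := by exact_mod_cast hpq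
      push_cast
      linear_combination e - y * e3
    rcases mul_eq_zero.1 e2 with h1 | h1
    · have h2 : p + q * δ = 0 := by exact_mod_cast h1
      have h3 : 0 ≤ q * δ := by positivity
      have h4 : p = 0 := by linarith
      have h5 : q = 1 := by linarith
      rw [h4, h5] at h2
      linarith
    · exact h (sub_eq_zero.1 h1)

theorem seg_closed (a c : ℂ) : IsClosed (segment ℝ a c) := by
  rw [segment_eq_image]
  exact (isCompact_Icc.image (by fun_prop)).isClosed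

/-- The factor `γ - x` near `y`. -/
theorem fac (y γ : ℂ) : ∃ δ > 0, ∃ k : ℂ → ℂ, DifferentiableOn ℂ k (ball y δ) ∧
    (∀ x ∈ ball y δ, k x ≠ 0) ∧
    ∀ x ∈ ball y δ, γ - x = (x - y) ^ (if γ = y then (1 : ℤ) else 0) * k x := by
  by_cases h : γ = y
  · refine ⟨1, one_pos, fun _ => -1, differentiableOn_const _, fun _ _ => by norm_num,
      fun x _ => ?_⟩
    rw [if_pos h, zpow_one, h]
    ring
  · refine ⟨‖γ - y‖, norm_pos_iff.2 (sub_ne_zero.2 h), fun x => γ - x, by fun_prop,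
      fun x hx h0 => ?_, fun x _ => ?_⟩
    · rw [mem_ball, dist_eq_norm, ← sub_eq_zero.1 h0] at hx
      exact lt_irrefl _ hx
    · rw [if_neg h, zpow_zero, one_mul]

theorem zp {a : ℂ} {n₁ n₂ : ℤ} (h1 : a ^ n₁ ≠ 0) (h2 : a ^ n₂ ≠ 0) :
    a ^ n₁ * a ^ n₂ = a ^ (n₁ + n₂) := by
  by_cases ha : a = 0
  · subst ha
    have e1 : n₁ = 0 := by
      by_contra h
      exact h1 (zero_zpow _ h)
    have e2 : n₂ = 0 := by
      by_contra h
      exact h2 (zero_zpow _ h)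
    rw [e1, e2]
    simp
  · rw [zpow_add₀ ha]

variable {m r : ℕ} {b : Fin (r + 1) → ℕ} {t : Fin (r + 1) → ℂ}

/-- The statement for the segment from `Q` to the point over `x'`. -/
def XX (m : ℕ) {r : ℕ} (b : Fin (r + 1) → ℕ) (t : Fin (r + 1) → ℂ) (Y : ℂ × ℂ)
    (ν : ℂ × ℂ → ℤ) (Q : ℂ × ℂ) (x' : ℂ) : Prop :=
  Xg m b t Y (segment ℝ Q.1 x') (ν (bp m b t Q x') - ν Q)
    fun x => sgi m b t Q x' (eta m b t (bp m b t Y x))

theorem cx_ball {Y : ℂ × ℂ} (hY : Y ∈ Pts m b t) : ∃ ρ > 0, Cx t (ball Y.1 ρ) := by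
  have ho : IsOpen (Set.range t)ᶜ := (Set.finite_range t).isClosed.isOpen_compl
  obtain ⟨ρ, hρ, hb⟩ := Metric.isOpen_iff.1 ho Y.1 hY.1
  exact ⟨ρ, hρ, convex_ball _ _, fun j hj => hb hj ⟨j, rfl⟩⟩

theorem cx_mono {y : ℂ} {ρ ρ' : ℝ} (h : Cx t (ball y ρ)) (h' : ρ' ≤ ρ) : Cx t (ball y ρ') :=
  ⟨convex_ball _ _, fun j hj => h.not j (ball_subset_ball h' hj)⟩

theorem sub_ne {X : ℂ × ℂ} (hX : X ∈ Pts m b t) (j : Fin (r + 1)) : X.1 - t j ≠ 0 :=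
  fun h => hX.1 ⟨j, (sub_eq_zero.1 h).symm⟩

theorem gu_cont (u : ℕ) (S : Set ℂ) : ContinuousOn (gu m b t u) (ovr m b t S) := by
  unfold gu
  refine ContinuousOn.div (by fun_prop) (by fun_prop) fun X hX => ?_
  exact Finset.prod_ne_zero_iff.2 fun j _ => pow_ne_zero _ (sub_ne hX.1 j)

theorem eta_cont {P : ℂ × ℂ} {S : Set ℂ} (h : P.1 ∉ S) :
    ContinuousOn (eta m b t P) (ovr m b t S) := by
  unfold eta
  refine continuousOn_finsetSum _ fun u _ => ?_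
  refine ContinuousOn.div ((gu_cont u S).mul continuousOn_const) ?_ fun X hX => ?_
  · unfold qq
    fun_prop
  · refine mul_ne_zero ?_ ?_
    · unfold qq
      exact Finset.prod_ne_zero_iff.2 fun j _ => sub_ne hX.1 j
    · intro h0
      exact h (by rw [← sub_eq_zero.1 h0]; exact hX.2)

/-- The pole is not on the segment. -/
theorem off (hL : S_Loc) (hm : 1 ≤ m)
    (hd : ∀ (Q : ℂ × ℂ) (x' : ℂ), Q ∈ Pts m b t → x' ∈ st t Q.1 → ∀ Y ∈ Pts m b t,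
      Y.1 ∉ segment ℝ Q.1 x' →
      DifferentiableAt ℂ (fun a => sgi m b t Q x' (eta m b t (bp m b t Y a))) Y.1)
    {Y : ℂ × ℂ} (hY : Y ∈ Pts m b t) {ν : ℂ × ℂ → ℤ} (hν : IsNu m b t Y ν) {Q : ℂ × ℂ} {x' : ℂ}
    (hQ : Q ∈ Pts m b t) (hx : x' ∈ st t Q.1) (hYs : Y.1 ∉ segment ℝ Q.1 x') :
    XX m b t Y ν Q x' := by
  have ho : IsOpen ((Set.range t)ᶜ ∩ (segment ℝ Q.1 x')ᶜ) :=
    ((Set.finite_range t).isClosed.isOpen_compl).inter (seg_closed _ _).isOpen_compl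
  obtain ⟨ρ, hρ, hb⟩ := Metric.isOpen_iff.1 ho Y.1 ⟨hY.1, hYs⟩
  have hC : Cx t (ball Y.1 ρ) := ⟨convex_ball _ _, fun j hj => (hb hj).1 ⟨j, rfl⟩⟩
  obtain ⟨-, -, hpts, hcomp, -⟩ := hL m r b t hm _ hC Y hY (mem_ball_self hρ)
  have hn : ν (bp m b t Q x') - ν Q = 0 := by
    rw [hν.1 (bp m b t Q x') ?_, hν.1 Q ?_, sub_zero]
    · intro h
      exact hYs (h ▸ left_mem_segment ℝ _ _)
    · intro h
      have h' : x' = Y.1 := h
      exact hYs (h' ▸ right_mem_segment ℝ _ _)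
  refine ⟨ρ, hρ, hC, fun x => Complex.exp (sgi m b t Q x' (eta m b t (bp m b t Y x))), ?_,
    fun x _ => Complex.exp_ne_zero _, fun x _ _ => ?_⟩
  · intro x hxb
    have h1 : DifferentiableAt ℂ
        (fun a => sgi m b t Q x' (eta m b t (bp m b t (bp m b t Y x) a))) x :=
      hd Q x' hQ hx (bp m b t Y x) (hpts x hxb) (hb hxb).2
    have h2 : (fun a => sgi m b t Q x' (eta m b t (bp m b t (bp m b t Y x) a))) =ᶠ[𝓝 x]
        fun a => sgi m b t Q x' (eta m b t (bp m b t Y a)) := by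
      filter_upwards [isOpen_ball.mem_nhds hxb] with a ha
      have h3 : bp m b t (bp m b t Y x) a = bp m b t Y a := Prod.ext rfl (hcomp x hxb a ha)
      rw [h3]
    exact ((h2.differentiableAt_iff.1 h1).cexp).differentiableWithinAt
  · rw [hn, zpow_zero, one_mul]

/-- Composition. -/
theorem comp (hL : S_Loc) (hSeg : S_Seg) (hSub : S_Sub) (hm : 1 ≤ m) {Y : ℂ × ℂ}
    {ν : ℂ × ℂ → ℤ} {Q : ℂ × ℂ} {x' z : ℂ} (hQ : Q ∈ Pts m b t) (hx : x' ∈ st t Q.1)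
    (hz : z ∈ segment ℝ Q.1 x') (h1 : XX m b t Y ν Q z) (h2 : XX m b t Y ν (bp m b t Q z) x') :
    XX m b t Y ν Q x' := by
  have hne : ∀ j, t j ≠ Q.1 := fun j h => hQ.1 ⟨j, h⟩
  have hC : Cx t (segment ℝ Q.1 x') := ((hSeg r t Q.1 x' hne).1).1 hx
  obtain ⟨-, -, -, hcomp, -⟩ := hL m r b t hm _ hC Q hQ (left_mem_segment ℝ _ _)
  have hb : bp m b t (bp m b t Q z) x' = bp m b t Q x' :=
    Prod.ext rfl (hcomp z hz x' (right_mem_segment ℝ _ _))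
  obtain ⟨ρ₁, hρ₁, hC₁, h₁, hd₁, hn₁, he₁⟩ := h1
  obtain ⟨ρ₂, hρ₂, hC₂, h₂, hd₂, hn₂, he₂⟩ := h2
  obtain ⟨-, -, hsub⟩ := hSub hL hSeg m r b t hm Q x' z hQ hx hz
  have hb₁ : ball Y.1 (min ρ₁ ρ₂) ⊆ ball Y.1 ρ₁ := ball_subset_ball (min_le_left _ _)
  have hb₂ : ball Y.1 (min ρ₁ ρ₂) ⊆ ball Y.1 ρ₂ := ball_subset_ball (min_le_right _ _)
  refine ⟨min ρ₁ ρ₂, lt_min hρ₁ hρ₂, cx_mono hC₁ (min_le_left _ _), fun x => h₁ x * h₂ x,
    (hd₁.mono hb₁).mul (hd₂.mono hb₂),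
    fun x hxb => mul_ne_zero (hn₁ x (hb₁ hxb)) (hn₂ x (hb₂ hxb)), fun x hxb hxs => ?_⟩
  have hx1 : Complex.exp (sgi m b t Q z (eta m b t (bp m b t Y x))) =
      (x - Y.1) ^ (ν (bp m b t Q z) - ν Q) * h₁ x := he₁ x (hb₁ hxb) fun h =>
    hxs ((convex_segment _ _).segment_subset (left_mem_segment ℝ _ _) hz h)
  have hx2 : Complex.exp (sgi m b t (bp m b t Q z) x' (eta m b t (bp m b t Y x))) =
      (x - Y.1) ^ (ν (bp m b t (bp m b t Q z) x') - ν (bp m b t Q z)) * h₂ x :=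
    he₂ x (hb₂ hxb) fun h =>
      hxs ((convex_segment _ _).segment_subset hz (right_mem_segment ℝ _ _) h)
  have e0 : sgi m b t Q x' (eta m b t (bp m b t Y x)) =
      sgi m b t Q z (eta m b t (bp m b t Y x)) +
        sgi m b t (bp m b t Q z) x' (eta m b t (bp m b t Y x)) :=
    hsub _ (eta_cont (P := bp m b t Y x) hxs)
  have hz1 : (x - Y.1) ^ (ν (bp m b t Q z) - ν Q) ≠ 0 := by
    have h := Complex.exp_ne_zero (sgi m b t Q z (eta m b t (bp m b t Y x)))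
    rw [hx1] at h
    exact left_ne_zero_of_mul h
  rw [hb] at hx2
  have hz2 : (x - Y.1) ^ (ν (bp m b t Q x') - ν (bp m b t Q z)) ≠ 0 := by
    have h := Complex.exp_ne_zero (sgi m b t (bp m b t Q z) x' (eta m b t (bp m b t Y x)))
    rw [hx2] at h
    exact left_ne_zero_of_mul h
  have e1 : ν (bp m b t Q x') - ν Q =
      (ν (bp m b t Q z) - ν Q) + (ν (bp m b t Q x') - ν (bp m b t Q z)) := by ring
  show Complex.exp (sgi m b t Q x' (eta m b t (bp m b t Y x))) = _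
  rw [e0, Complex.exp_add, hx1, hx2, e1, ← zp hz1 hz2]
  ring

/-- A segment in a small ball. -/
theorem base (hR : S_Ram) (hL : S_Loc) (hDsl : S_Dsl) (hLgi : S_Lgi) (hX1 : S_X1)
    (hcv : Cvb m b) (hm : 1 ≤ m) {Y : ℂ × ℂ} (hY : Y ∈ Pts m b t) {ν : ℂ × ℂ → ℤ}
    (hν : IsNu m b t Y ν) {ρ : ℝ} (hρ : 0 < ρ) (hC : Cx t (ball Y.1 ρ)) {Q : ℂ × ℂ} {x' : ℂ}
    (hQ : Q ∈ Pts m b t) (hQb : Q.1 ∈ ball Y.1 ρ) (hxb : x' ∈ ball Y.1 ρ) :
    XX m b t Y ν Q x' := by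
  obtain ⟨-, hY2, -, hcomp, hsh, -⟩ := hL m r b t hm _ hC Y hY (mem_ball_self hρ)
  obtain ⟨c, -, hc⟩ := hsh Q.1 hQb Q.2 hQ
  obtain ⟨n, hn⟩ : ∃ n : ℤ, n = ν (Y.1, ze m 1 ^ c * Y.2) := ⟨_, rfl⟩
  have hQe : (Q.1, ze m 1 ^ c * br m b t Y Q.1) = Q := Prod.ext rfl hc.symm
  obtain ⟨h, hdh, hnh, heh⟩ := hX1 hR hL hDsl hLgi m r b t hcv Y hY ρ hρ hC c n
    (by rw [hn]; exact hν.2 c) Q.1 hQb x' hxb
  rw [hQe] at heh
  have hbr : br m b t Q x' = ze m 1 ^ c * br m b t Y x' := by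
    have e1 : br m b t Q x' = Q.2 * ∏ j, ((x' - t j) / (Q.1 - t j)) ^ ((b j : ℂ) / m) := rfl
    have e2 : br m b t (bp m b t Y Q.1) x' =
        br m b t Y Q.1 * ∏ j, ((x' - t j) / (Q.1 - t j)) ^ ((b j : ℂ) / m) := rfl
    rw [← hcomp Q.1 hQb x' hxb, e1, e2, hc, mul_assoc]
  have hν1 : ν Q = (if Q.1 = Y.1 then (1 : ℤ) else 0) * n := by
    split_ifs with h1
    · have e : Q = (Y.1, ze m 1 ^ c * Y.2) := by
        refine Prod.ext h1 ?_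
        show Q.2 = ze m 1 ^ c * Y.2
        rw [hc, h1, hY2]
      rw [one_mul, hn, ← e]
    · rw [zero_mul]
      exact hν.1 Q h1
  have hν2 : ν (bp m b t Q x') = (if x' = Y.1 then (1 : ℤ) else 0) * n := by
    split_ifs with h1
    · have e : bp m b t Q x' = (Y.1, ze m 1 ^ c * Y.2) := by
        refine Prod.ext h1 ?_
        show br m b t Q x' = ze m 1 ^ c * Y.2
        rw [hbr, h1, hY2]
      rw [one_mul, hn, ← e]
    · rw [zero_mul]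
      exact hν.1 _ h1
  obtain ⟨δ₁, hδ₁, k₁, hk₁d, hk₁n, hk₁⟩ := fac Y.1 Q.1
  obtain ⟨δ₂, hδ₂, k₂, hk₂d, hk₂n, hk₂⟩ := fac Y.1 x'
  have hb0 : ball Y.1 (min ρ (min δ₁ δ₂)) ⊆ ball Y.1 ρ := ball_subset_ball (min_le_left _ _)
  have hb₁ : ball Y.1 (min ρ (min δ₁ δ₂)) ⊆ ball Y.1 δ₁ :=
    ball_subset_ball ((min_le_right _ _).trans (min_le_left _ _))
  have hb₂ : ball Y.1 (min ρ (min δ₁ δ₂)) ⊆ ball Y.1 δ₂ :=
    ball_subset_ball ((min_le_right _ _).trans (min_le_right _ _))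
  refine ⟨min ρ (min δ₁ δ₂), lt_min hρ (lt_min hδ₁ hδ₂), cx_mono hC (min_le_left _ _),
    fun x => k₂ x ^ n * (k₁ x ^ n)⁻¹ * h x, ?_, ?_, ?_⟩
  · intro x hx
    have d1 : DifferentiableWithinAt ℂ k₁ (ball Y.1 (min ρ (min δ₁ δ₂))) x :=
      (hk₁d.mono hb₁) x hx
    have d2 : DifferentiableWithinAt ℂ k₂ (ball Y.1 (min ρ (min δ₁ δ₂))) x :=
      (hk₂d.mono hb₂) x hx
    exact ((d2.zpow (Or.inl (hk₂n x (hb₂ hx)))).mul
      ((d1.zpow (Or.inl (hk₁n x (hb₁ hx)))).inv (zpow_ne_zero _ (hk₁n x (hb₁ hx))))).mul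
      ((hdh.mono hb0) x hx)
  · intro x hx
    exact mul_ne_zero (mul_ne_zero (zpow_ne_zero _ (hk₂n x (hb₂ hx)))
      (inv_ne_zero (zpow_ne_zero _ (hk₁n x (hb₁ hx))))) (hnh x (hb0 hx))
  · intro x hx hxs
    rw [hν1, hν2]
    show Complex.exp (sgi m b t Q x' (eta m b t (bp m b t Y x))) = _
    rw [heh x (hb0 hx) hxs, hk₂ x (hb₂ hx), hk₁ x (hb₁ hx), div_zpow, mul_zpow, mul_zpow,
      ← zpow_mul, ← zpow_mul]
    have e : (x - Y.1) ^ ((if x' = Y.1 then (1 : ℤ) else 0) * n) *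
        ((x - Y.1) ^ ((if Q.1 = Y.1 then (1 : ℤ) else 0) * n))⁻¹ =
        (x - Y.1) ^ ((if x' = Y.1 then (1 : ℤ) else 0) * n -
          (if Q.1 = Y.1 then (1 : ℤ) else 0) * n) := by
      by_cases hxy : x = Y.1
      · have h1 : ¬ x' = Y.1 := fun h => hxs (by rw [hxy, ← h]; exact right_mem_segment ℝ _ _)
        have h2 : ¬ Q.1 = Y.1 := fun h => hxs (by rw [hxy, ← h]; exact left_mem_segment ℝ _ _)
        rw [if_neg h1, if_neg h2]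
        simp
      · rw [zpow_sub₀ (sub_ne_zero.2 hxy), div_eq_mul_inv]
    rw [← e, div_eq_mul_inv, mul_inv]
    ring

end X2M

open X2M in
theorem tX2 (hDsl : S_Dsl) (hLgi : S_Lgi) : S_X2 := by
  intro hR hL hSeg hSub hX1 m r b t hcv hd Y hY ν hν Q x' hQ hx
  have hm : 1 ≤ m := le_trans (by norm_num) hcv.1
  obtain ⟨ρ, hρ, hC⟩ := cx_ball hY
  have hpt : ∀ (Q : ℂ × ℂ) (x' : ℂ), Q ∈ Pts m b t → x' ∈ st t Q.1 → ∀ z ∈ segment ℝ Q.1 x',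
      bp m b t Q z ∈ Pts m b t ∧ z ∈ st t Q.1 ∧ x' ∈ st t z := by
    intro Q x' hQ hx z hz
    have hne : ∀ j, t j ≠ Q.1 := fun j h => hQ.1 ⟨j, h⟩
    have hCs : Cx t (segment ℝ Q.1 x') := ((hSeg r t Q.1 x' hne).1).1 hx
    obtain ⟨-, -, hpts, -⟩ := hL m r b t hm _ hCs Q hQ (left_mem_segment ℝ _ _)
    obtain ⟨h1, h2, -⟩ := hSub hL hSeg m r b t hm Q x' z hQ hx hz
    exact ⟨hpts z hz, h1, h2⟩
  have hend : ∀ Q : ℂ × ℂ, Q ∈ Pts m b t → Y.1 ∈ st t Q.1 → XX m b t Y ν Q Y.1 := by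
    intro Q hQ hx
    by_cases hQY : Q.1 = Y.1
    · exact base hR hL hDsl hLgi hX1 hcv hm hY hν hρ hC hQ (by rw [hQY]; exact mem_ball_self hρ)
        (mem_ball_self hρ)
    · obtain ⟨z, hz, hzb, hzn⟩ := near_end hQY hρ
      obtain ⟨h1, h2, h3⟩ := hpt Q Y.1 hQ hx z hz
      exact comp hL hSeg hSub hm hQ hx hz (off hL hm hd hY hν hQ h2 hzn)
        (base hR hL hDsl hLgi hX1 hcv hm hY hν hρ hC h1 hzb (mem_ball_self hρ))
  have hstart : ∀ (Q : ℂ × ℂ) (x' : ℂ), Q ∈ Pts m b t → x' ∈ st t Q.1 → Q.1 = Y.1 →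
      XX m b t Y ν Q x' := by
    intro Q x' hQ hx hQY
    have hQb : Q.1 ∈ ball Y.1 ρ := by rw [hQY]; exact mem_ball_self hρ
    by_cases hxY : x' = Y.1
    · exact base hR hL hDsl hLgi hX1 hcv hm hY hν hρ hC hQ hQb
        (by rw [hxY]; exact mem_ball_self hρ)
    · obtain ⟨z, hz, hzb, hzn⟩ := near_end hxY hρ
      rw [segment_symm, ← hQY] at hz
      rw [segment_symm] at hzn
      obtain ⟨h1, h2, h3⟩ := hpt Q x' hQ hx z hz
      exact comp hL hSeg hSub hm hQ hx hz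
        (base hR hL hDsl hLgi hX1 hcv hm hY hν hρ hC hQ hQb hzb)
        (off hL hm hd hY hν h1 h3 hzn)
  by_cases hYs : Y.1 ∈ segment ℝ Q.1 x'
  · obtain ⟨h1, h2, h3⟩ := hpt Q x' hQ hx Y.1 hYs
    exact comp hL hSeg hSub hm hQ hx hYs (hend Q hQ h2) (hstart _ x' h1 h3 rfl)
  · exact off hL hm hd hY hν hQ hx hYs

end TNF.AB
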