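import Pool.Agent.Lib.TNF.AB.SpecA

/-!
# TNF/AB/Xr: crossing, the induction over the path (helper85)
-/

set_option autoImplicit false

open Topology Metric

noncomputable section

namespace TNF.AB

open SEJ TATE

namespace XrM

variable {m r : ℕ} {b : Fin (r + 1) → ℕ} {t : Fin (r + 1) → ℂ}

/-- The second coordinate of a point does not vanish. -/
theorem y_ne (hm : 1 ≤ m) {Y : ℂ × ℂ} (hY : Y ∈ Pts m b t) : Y.2 ≠ 0 := by
  intro h0
  have h1 : Y.2 ^ m = ∏ j, (Y.1 - t j) ^ b j := hY.2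
  rw [h0, zero_pow (by omega)] at h1
  refine (Finset.prod_ne_zero_iff.2 fun j _ => ?_) h1.symm
  refine pow_ne_zero _ (sub_ne_zero.2 fun h => hY.1 ⟨j, h.symm⟩)

/-- The index exists. -/
theorem ex_nu (hR : S_Ram) (hm : 1 ≤ m) {Y : ℂ × ℂ} (hY : Y ∈ Pts m b t) :
    ∃ ν : ℂ × ℂ → ℤ, IsNu m b t Y ν := by
  classical
  have hy := y_ne hm hY
  choose n hn using fun c : ℕ => hR m hm c
  have key : ∀ c c' : ℕ, ze m 1 ^ c * Y.2 = ze m 1 ^ c' * Y.2 → n c = n c' := by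
    intro c c' h
    have h1 : ze m 1 ^ c = ze m 1 ^ c' := mul_right_cancel₀ hy h
    have h2 : ((n c : ℤ) : ℂ) = n c' := by
      rw [← (hn c).1, ← (hn c').1]
      refine Finset.sum_congr rfl fun u _ => ?_
      rw [mul_comm u c, mul_comm u c', pow_mul, pow_mul, h1]
    exact_mod_cast h2
  refine ⟨fun X => if h : X.1 = Y.1 ∧ ∃ c : ℕ, X.2 = ze m 1 ^ c * Y.2 then
    n (Classical.choose h.2) else 0, ?_, ?_⟩
  · intro X hX
    exact dif_neg (fun h => hX h.1)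
  · intro c
    have hc : ((Y.1, ze m 1 ^ c * Y.2) : ℂ × ℂ).1 = Y.1 ∧
        ∃ c' : ℕ, ((Y.1, ze m 1 ^ c * Y.2) : ℂ × ℂ).2 = ze m 1 ^ c' * Y.2 := ⟨rfl, c, rfl⟩
    have h3 := Classical.choose_spec hc.2
    have h4 : (if h : ((Y.1, ze m 1 ^ c * Y.2) : ℂ × ℂ).1 = Y.1 ∧
        ∃ c' : ℕ, ((Y.1, ze m 1 ^ c * Y.2) : ℂ × ℂ).2 = ze m 1 ^ c' * Y.2 then
        n (Classical.choose h.2) else 0) = n c := by
      rw [dif_pos hc]
      exact (key _ _ h3).symm
    rw [(hn c).1]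
    exact congrArg (fun z : ℤ => (z : ℂ)) h4.symm

/-- The end points of a path. -/
theorem ends (hL : S_Loc) (hS : S_Seg) (hm : 1 ≤ m) {A B : ℂ × ℂ} (p : Path m b t A B) :
    B ∈ Pts m b t := by
  induction p with
  | nil h => exact h
  | @snoc Q R p h ih =>
    have hne : ∀ j, t j ≠ Q.1 := fun j hj => ih.1 ⟨j, hj⟩
    have hC : Cx t (segment ℝ Q.1 R.1) := (hS r t Q.1 R.1 hne).1.1 h.1
    obtain ⟨-, -, h3, -⟩ := hL m r b t hm _ hC Q ih (left_mem_segment ℝ _ _)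
    have h4 := h3 R.1 (right_mem_segment ℝ _ _)
    have h5 : bp m b t Q R.1 = R := by
      unfold bp
      rw [← h.2]
    rwa [h5] at h4

/-- Products. -/
theorem Xg_add {Y : ℂ × ℂ} {S S' : Set ℂ} {n n' : ℤ} {I I' : ℂ → ℂ} (h : Xg m b t Y S n I)
    (h' : Xg m b t Y S' n' I') : Xg m b t Y (S ∪ S') (n + n') fun x => I x + I' x := by
  obtain ⟨ρ, hρ, hC, f, hf, hf0, hfe⟩ := h
  obtain ⟨ρ', hρ', hC', g, hg, hg0, hge⟩ := h'
  have s1 : ball Y.1 (min ρ ρ') ⊆ ball Y.1 ρ := ball_subset_ball (min_le_left _ _)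
  have s2 : ball Y.1 (min ρ ρ') ⊆ ball Y.1 ρ' := ball_subset_ball (min_le_right _ _)
  refine ⟨min ρ ρ', lt_min hρ hρ', ⟨convex_ball _ _, fun j hj => hC.not j (s1 hj)⟩,
    fun x => f x * g x, (hf.mono s1).mul (hg.mono s2),
    fun x hx => mul_ne_zero (hf0 x (s1 hx)) (hg0 x (s2 hx)), ?_⟩
  intro x hx hxS
  have e1 := hfe x (s1 hx) (fun h => hxS (Or.inl h))
  have e2 := hge x (s2 hx) (fun h => hxS (Or.inr h))
  rw [Complex.exp_add, e1, e2]
  by_cases hxy : x - Y.1 = 0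
  · have n1 : n = 0 := by
      by_contra hn
      rw [hxy, zero_zpow _ hn, zero_mul] at e1
      exact Complex.exp_ne_zero _ e1
    have n2 : n' = 0 := by
      by_contra hn
      rw [hxy, zero_zpow _ hn, zero_mul] at e2
      exact Complex.exp_ne_zero _ e2
    rw [n1, n2]
    simp only [zpow_zero, one_mul, add_zero]
  · rw [zpow_add₀ hxy]
    ring

end XrM

open XrM in
/-- **Xr**. -/
theorem tXr : S_Xr := by
  intro hR m r b t hb hx hL hS Y hY
  have hm : 1 ≤ m := le_trans (by norm_num) hb.1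
  obtain ⟨ν, hν⟩ := ex_nu hR hm hY
  refine ⟨ν, ?_⟩
  intro A B p
  induction p with
  | nil h =>
    have hself : Y.1 ∈ st t Y.1 := by
      intro j
      rw [div_self (sub_ne_zero.2 fun h => hY.1 ⟨j, h.symm⟩)]
      exact Complex.one_mem_slitPlane
    obtain ⟨ρ, hρ, hC, -⟩ := hx Y hY ν hν Y Y.1 hY hself
    refine ⟨ρ, hρ, hC, fun _ => 1, differentiableOn_const 1, fun _ _ => one_ne_zero, ?_⟩
    intro x _ _
    simp only [Path.int, sub_self, zpow_zero, Complex.exp_zero, mul_one]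
  | @snoc Q R p h ih =>
    have hQ := ends hL hS hm p
    have hne : ∀ j, t j ≠ Q.1 := fun j hj => hQ.1 ⟨j, hj⟩
    have h2 := hx Y hY ν hν Q R.1 hQ h.1
    have h5 : bp m b t Q R.1 = R := by
      unfold bp
      rw [← h.2]
    rw [h5, (hS r t Q.1 R.1 hne).2] at h2
    have h3 := Xg_add ih h2
    have e : ν Q - ν A + (ν R - ν Q) = ν R - ν A := by ring
    rw [e] at h3
    simp only [Path.on, Path.int]
    exact h3

end TNF.AB
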