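import Pool.Agent.Lib.TNF.AB.AsA
import Pool.Agent.Lib.TNF.AB.Ram
import Pool.Agent.Lib.TNF.AB.Id1
import Pool.Agent.Lib.TNF.AB.Sfc
import Pool.Agent.Lib.TNF.AB.Crd
import Pool.Agent.Lib.TNF.AB.Loc
import Pool.Agent.Lib.TNF.AB.Seg
import Pool.Agent.Lib.TNF.AB.Prm
import Pool.Agent.Lib.TNF.AB.Pth
import Pool.Agent.Lib.TNF.AB.Lnr
import Pool.Agent.Lib.TNF.AB.Sub
import Pool.Agent.Lib.TNF.AB.Chn
import Pool.Agent.Lib.TNF.AB.Gp0
import Pool.Agent.Lib.TNF.AB.Id2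
import Pool.Agent.Lib.TNF.AB.Der
import Pool.Agent.Lib.TNF.AB.Dsl
import Pool.Agent.Lib.TNF.AB.Lgi
import Pool.Agent.Lib.TNF.AB.X1
import Pool.Agent.Lib.TNF.AB.X2
import Pool.Agent.Lib.TNF.AB.Xr
import Pool.Agent.Lib.TNF.AB.Va0
import Pool.Agent.Lib.TNF.AB.Brs
import Pool.Agent.Lib.TNF.AB.Alg2
import Pool.Agent.Lib.TNF.AB.Itp
import Pool.Agent.Lib.TNF.AB.Gp
import Pool.Agent.Lib.TNF.AB.Lzg2
import Pool.Agent.Lib.TNF.AB.Nd
import Pool.Agent.Lib.TNF.AB.Qw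
import Pool.Agent.Lib.TNF.AB.Key
import Pool.Agent.Lib.TATE.FA.All

/-!
# PROJECT TNF, package AB: the first part without hypotheses (helper12)
-/

set_option autoImplicit false

namespace TNF.AB

theorem aVal : S_Val :=
  asVal tRam tId1 tLoc tSeg tId2 tSub tLnr tPth tDer tX1 (tX2 tDsl tLgi) tXr tVa0

theorem aBrs : S_Brs := tBrs tLoc tSeg

theorem aAlg2 : S_Alg2 := tAlg2 tLoc tSeg

theorem aItp : S_Itp := tItp aBrs

theorem aGp : S_Gp := tGp tLoc tSeg tSub aAlg2 tPrm tChn tGp0 aItp TATE.FA.aCon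

theorem aLzg2 : S_Lzg2 := tLzg2 aAlg2 aItp aGp

theorem aNd : S_Nd := tNd tSfc

theorem aQw : S_Qw := tQw tSfc tCrd

theorem aKey : S_Key := tKey tLoc tSeg tSub aAlg2 tPrm tChn aVal

theorem aQz : S_Qz := tQz tLoc tSeg tSub aAlg2 tPrm tChn aVal

end TNF.AB
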