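import Pool.Agent.Lib.TNF.AB.SpecA

/-!
# PROJECT TNF, package AB: assembly of `S_Val`
-/

set_option autoImplicit false

open Topology Metric

noncomputable section

namespace TNF.AB

open SEJ TATE

theorem asVal (hRam : S_Ram) (hId1 : S_Id1) (hLoc : S_Loc) (hSeg : S_Seg) (hId2 : S_Id2) (hSub : S_Sub)
    (hLnr : S_Lnr) (hPth : S_Pth) (hDer : S_Der) (hX1 : S_X1) (hX2 : S_X2) (hXr : S_Xr) (hVa0 : S_Va0) :
    S_Val := by
  intro m r b t hb A β
  have hd : ∀ (Q : ℂ × ℂ) (x' : ℂ), Q ∈ Pts m b t → x' ∈ st t Q.1 → ∀ Y ∈ Pts m b t,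
      Y.1 ∉ segment ℝ Q.1 x' →
      DifferentiableAt ℂ (fun a => sgi m b t Q x' (eta m b t (bp m b t Y a))) Y.1 := by
    intro Q x' hQ hx' Y hY hn
    have hs := (hSeg r t Q.1 x' fun j h => hQ.1 ⟨j, h⟩).2
    have h1 := hDer hId1 hId2 hLoc hSeg hLnr m r b t hb Q (bp m b t Q x')
      ((Path.nil Q hQ).snoc ⟨hx', rfl⟩) Y hY (by
        simp only [Path.on]
        have e : (bp m b t Q x').1 = x' := rfl
        rw [e, ← hs]
        rintro (h | h)
        · exact hn ((Set.mem_singleton_iff.1 h).symm ▸ left_mem_segment ℝ Q.1 x')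
        · exact hn h)
    have h2 := h1.differentiableAt
    have e : (fun a => ((Path.nil (m := m) (b := b) (t := t) Q hQ).snoc (R := bp m b t Q x')
        ⟨hx', rfl⟩).int (eta m b t (bp m b t Y a))) =
        fun a => sgi m b t Q x' (eta m b t (bp m b t Y a)) := by
      funext a
      simp only [Path.int, zero_add]
      rfl
    rw [e] at h2
    exact h2
  refine hVa0 hLoc hSeg hPth m r b t hb A β ?_ ?_
  · intro Y hY
    obtain ⟨ν, hν⟩ := hXr hRam m r b t hb
      (fun Y hY ν hν Q x' hQ hx' => hX2 hRam hLoc hSeg hSub hX1 m r b t hb hd Y hY ν hν Q x' hQ hx')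
      hLoc hSeg Y hY
    have h1 := hν A A β
    rwa [sub_self] at h1
  · intro Y hY hn
    have h1 := hDer hId1 hId2 hLoc hSeg hLnr m r b t hb A A β Y hY hn
    rwa [sub_self, sub_zero] at h1

end TNF.AB
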