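import Pool.Agent.Lib.TATE.Iface

/-!
# PROJECT TNF, package AB (Abel's theorem for the new parts): definitions (helper45, helper12)

`om2`: all forms `x^i g_u / q`, `u` prime to `m`, `0 <= i < r` (first kind iff the index is in `Ix m b`);
`eta P`: the form of the third kind with integral residues at the points over `P.1`; `Qf`: the
pairing of the kernel identity. Paths: polygons on the curve, given by their vertices
(`br P` is the branch of `y` with the value `P.2` at `P.1` on the star `st t P.1`).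
-/

set_option autoImplicit false

open Topology Metric

noncomputable section

namespace TNF.AB

open SEJ TATE

/-! ## 1. Forms -/

/-- The characters prime to `m` with all exponents `i < r`. -/
abbrev Ix2 (m r : ℕ) : Type := {p : Fin m × Fin r // (p.1 : ℕ).Coprime m}

section forms

variable {m r : ℕ}

/-- The character. -/
def c2 (p : Ix2 m r) : ℕ := (p.1.1 : ℕ)

/-- The exponent. -/
def e2 (p : Ix2 m r) : ℕ := (p.1.2 : ℕ)

/-- The index of the first kind as an index. -/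
def inc {b : Fin (r + 1) → ℕ} (p : Ix m b) : Ix2 m r := ⟨p.1, p.2.1⟩

/-- The projection to the coordinates of the first kind. -/
def pr {b : Fin (r + 1) → ℕ} (v : Ix2 m r → ℂ) : Ix m b → ℂ := fun p => v (inc p)

/-- `∏ (x - t_j)` -/
def qq (t : Fin (r + 1) → ℂ) (x : ℂ) : ℂ := ∏ j, (x - t j)

/-- `g_u = y^u / ∏ (x - t_j)^[u b_j / m]` -/
def gu (m : ℕ) (b : Fin (r + 1) → ℕ) (t : Fin (r + 1) → ℂ) (u : ℕ) (P : ℂ × ℂ) : ℂ :=
  P.2 ^ u / ∏ j, (P.1 - t j) ^ (u * b j / m)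

/-- The forms `x^i g_u / q`. -/
def om2 (m : ℕ) (b : Fin (r + 1) → ℕ) (t : Fin (r + 1) → ℂ) (P : ℂ × ℂ) (p : Ix2 m r) : ℂ :=
  P.1 ^ e2 p * gu m b t (c2 p) P / qq t P.1

/-- The numbers `u < m` prime to `m`. -/
def Us (m : ℕ) : Finset ℕ := (Finset.range m).filter fun u => u.Coprime m

/-- The form of the third kind with poles at the points over `P.1` (residue `∑_u ζ^(u c)` at
`(P.1, ζ^c P.2)`). -/
def eta (m : ℕ) (b : Fin (r + 1) → ℕ) (t : Fin (r + 1) → ℂ) (P X : ℂ × ℂ) : ℂ :=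
  ∑ u ∈ Us m, gu m b t u X * gu m b t (m - u) P / (qq t X.1 * (X.1 - P.1))

/-- The exact part of the kernel identity. -/
def kap (m : ℕ) (b : Fin (r + 1) → ℕ) (t : Fin (r + 1) → ℂ) (P X : ℂ × ℂ) : ℂ :=
  ∑ u ∈ Us m, gu m b t u X * gu m b t (m - u) P / (qq t P.1 * (X.1 - P.1))

/-- `∏ (X - t_j)` -/
def qp (t : Fin (r + 1) → ℂ) : Polynomial ℂ := ∏ j, (Polynomial.X - Polynomial.C (t j))

/-- `f_j = (u b_j mod m) / m` -/
def fj (m : ℕ) (b : Fin (r + 1) → ℕ) (u : ℕ) (j : Fin (r + 1)) : ℂ := ((u * b j % m : ℕ) : ℂ) / m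

/-- `∑_j f_j ∏_(l ≠ j) (X - t_l)` -/
def pp (m : ℕ) (b : Fin (r + 1) → ℕ) (t : Fin (r + 1) → ℂ) (u : ℕ) : Polynomial ℂ :=
  ∑ j, Polynomial.C (fj m b u j) * ∏ l ∈ Finset.univ.erase j, (Polynomial.X - Polynomial.C (t l))

/-- The coefficients of the kernel identity. -/
def sf (m : ℕ) (b : Fin (r + 1) → ℕ) (t : Fin (r + 1) → ℂ) (u i k : ℕ) : ℂ :=
  (pp m b t u).coeff (i + k + 1) - (k + 1) * (qp t).coeff (i + k + 2)

/-- The pairing. -/
def Qf (m : ℕ) (b : Fin (r + 1) → ℕ) (t : Fin (r + 1) → ℂ) (β c : Ix2 m r → ℂ) : ℂ :=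
  ∑ p : Ix2 m r, ∑ q : Ix2 m r,
    if c2 p + c2 q = m then sf m b t (c2 p) (e2 p) (e2 q) * β p * c q else 0

end forms

/-! ## 2. Paths -/

section paths

variable (m : ℕ) {r : ℕ} (b : Fin (r + 1) → ℕ) (t : Fin (r + 1) → ℂ)

/-- The branch of `y` with the value `P.2` at `P.1` (on `st t P.1`). -/
def br (P : ℂ × ℂ) (x : ℂ) : ℂ := P.2 * ∏ j, ((x - t j) / (P.1 - t j)) ^ ((b j : ℂ) / m)

/-- The points `x` such that the segment from `x₀` to `x` does not meet the branch points. -/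
def st (x₀ : ℂ) : Set ℂ := {x | ∀ j, (x - t j) / (x₀ - t j) ∈ Complex.slitPlane}

/-- The point over `x`. -/
def bp (P : ℂ × ℂ) (x : ℂ) : ℂ × ℂ := (x, br m b t P x)

/-- The point of the segment. -/
def sx (a c : ℂ) (u : ℝ) : ℂ := a + u * (c - a)

/-- The integral of the form `h dx` along the lift of the segment from `P.1` to `x`. -/
def sgi (P : ℂ × ℂ) (x : ℂ) (h : ℂ × ℂ → ℂ) : ℂ :=
  ∫ u in (0 : ℝ)..1, (x - P.1) * h (bp m b t P (sx P.1 x u))

/-- `R` is the end point of the lift of the segment from `Q.1` to `R.1` which starts at `Q`. -/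
def Sg (Q R : ℂ × ℂ) : Prop := R.1 ∈ st t Q.1 ∧ R.2 = br m b t Q R.1

/-- Polygonal paths on the curve. -/
inductive Path : ℂ × ℂ → ℂ × ℂ → Type
  | nil (P : ℂ × ℂ) (h : P ∈ Pts m b t) : Path P P
  | snoc {P Q R : ℂ × ℂ} (p : Path P Q) (h : Sg m b t Q R) : Path P R

variable {m b t}

/-- The integral of the form `h dx`. -/
def Path.int : {P Q : ℂ × ℂ} → Path m b t P Q → (ℂ × ℂ → ℂ) → ℂ
  | _, _, .nil _ _, _ => 0
  | _, R, .snoc (Q := Q) p _, h => p.int h + sgi m b t Q R.1 h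

/-- The projection of the path to the line. -/
def Path.on : {P Q : ℂ × ℂ} → Path m b t P Q → Set ℂ
  | P, _, .nil _ _ => {P.1}
  | _, R, .snoc (Q := Q) p _ => p.on ∪ sx Q.1 R.1 '' Set.Icc (0 : ℝ) 1

/-- The integrals of the forms of the first and second kind. -/
def Path.v {P Q : ℂ × ℂ} (p : Path m b t P Q) : Ix2 m r → ℂ := fun q =>
  p.int fun X => om2 m b t X q

variable (m b t)

/-- The periods of all forms. -/
def LZ2 : Set (Ix2 m r → ℂ) := {v | ∃ (P : ℂ × ℂ) (p : Path m b t P P), p.v = v}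

/-- The dual of `LZ2`. -/
def LD2 : Set (Ix2 m r → ℂ) :=
  {c | ∀ β ∈ LZ2 m b t, ∃ n : ℤ, Qf m b t β c = 2 * Real.pi * Complex.I * n}

/-- THE LATTICE: `LZ ⊆ LP ⊆ LQ`. -/
def LP : Set (Ix m b → ℂ) := {v | ∃ c ∈ LD2 m b t, pr c = v}

end paths

end TNF.AB
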