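import Pool.Agent.Lib.TNF.AB.SpecA

set_option autoImplicit false

open Topology Metric

noncomputable section

namespace TNF.AB

open SEJ TATE

namespace Id2M

/-- `f` has the logarithmic derivative `g` at `x`. -/
def LD (f : ℂ → ℂ) (g x : ℂ) : Prop := HasDerivAt f (f x * g) x

theorem LD.mul {f f' : ℂ → ℂ} {g g' x : ℂ} (h : LD f g x) (h' : LD f' g' x) :
    LD (fun z => f z * f' z) (g + g') x := by
  have h1 := HasDerivAt.mul h h'
  unfold LD
  have h2 : f x * g * f' x + f x * (f' x * g') = f x * f' x * (g + g') := by ring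
  rw [← h2]
  exact h1

theorem LD.inv {f : ℂ → ℂ} {g x : ℂ} (h : LD f g x) (hx : f x ≠ 0) :
    LD (fun z => (f z)⁻¹) (-g) x := by
  have h1 := HasDerivAt.fun_inv h hx
  unfold LD
  have h2 : -(f x * g) / f x ^ 2 = (f x)⁻¹ * (-g) := by
    field_simp
  rw [← h2]
  exact h1

theorem LD.const (c x : ℂ) : LD (fun _ => c) 0 x := by
  unfold LD
  rw [mul_zero]
  exact hasDerivAt_const x c

theorem LD.pow {f : ℂ → ℂ} {g x : ℂ} (h : LD f g x) (n : ℕ) :
    LD (fun z => f z ^ n) (n * g) x := by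
  induction n with
  | zero => simpa using LD.const 1 x
  | succ n ih =>
    have h1 := ih.mul h
    have h2 : ((n + 1 : ℕ) : ℂ) * g = n * g + g := by push_cast; ring
    rw [h2]
    simpa [pow_succ] using h1

theorem LD.prod {ι : Type} (s : Finset ι) {f : ι → ℂ → ℂ} {g : ι → ℂ} {x : ℂ}
    (h : ∀ i ∈ s, LD (f i) (g i) x) : LD (fun z => ∏ i ∈ s, f i z) (∑ i ∈ s, g i) x := by
  classical
  induction s using Finset.induction_on with
  | empty => simpa using LD.const 1 x
  | insert a s ha ih =>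
    have h1 := (h a (Finset.mem_insert_self a s)).mul (ih fun i hi => h i (Finset.mem_insert_of_mem hi))
    rw [Finset.sum_insert ha]
    have h2 : (fun z => ∏ i ∈ insert a s, f i z) = fun z => f a z * ∏ i ∈ s, f i z := by
      funext z
      rw [Finset.prod_insert ha]
    rw [h2]
    exact h1

theorem LD.sub_const {x c : ℂ} (h : x ≠ c) : LD (fun z => z - c) (1 / (x - c)) x := by
  unfold LD
  have h0 : x - c ≠ 0 := sub_ne_zero.mpr h
  have h1 : (x - c) * (1 / (x - c)) = 1 := by field_simp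
  rw [h1]
  exact (hasDerivAt_id x).sub_const c

theorem LD.const_sub {x c : ℂ} (h : c ≠ x) : LD (fun z => c - z) (-(1 / (c - x))) x := by
  unfold LD
  have h0 : c - x ≠ 0 := sub_ne_zero.mpr h
  have h1 : (c - x) * (-(1 / (c - x))) = -1 := by field_simp
  rw [h1]
  exact (hasDerivAt_id x).const_sub c

theorem fjEq (m : ℕ) (hm : 1 ≤ m) {r : ℕ} (b : Fin (r + 1) → ℕ) (u : ℕ) (j : Fin (r + 1)) :
    fj m b u j = (u : ℂ) * (b j : ℂ) / m - ((u * b j / m : ℕ) : ℂ) := by
  have hm0 : (m : ℂ) ≠ 0 := by exact_mod_cast (by omega : m ≠ 0)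
  have h1 : m * (u * b j / m) + u * b j % m = u * b j := Nat.div_add_mod _ _
  have h2 : (m : ℂ) * ((u * b j / m : ℕ) : ℂ) + ((u * b j % m : ℕ) : ℂ) = (u : ℂ) * (b j : ℂ) := by
    exact_mod_cast h1
  unfold fj
  rw [← h2]
  field_simp
  ring

theorem guD (m : ℕ) (hm : 1 ≤ m) {r : ℕ} (b : Fin (r + 1) → ℕ) (t : Fin (r + 1) → ℂ) (u : ℕ)
    (Y : ℂ × ℂ) (x : ℂ) (hx : ∀ j, x ≠ t j)
    (hb : HasDerivAt (br m b t Y) (br m b t Y x * ∑ j, (b j : ℂ) / (m * (x - t j))) x) :
    LD (fun z => gu m b t u (bp m b t Y z)) (∑ j, fj m b u j / (x - t j)) x := by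
  have hm0 : (m : ℂ) ≠ 0 := by exact_mod_cast (by omega : m ≠ 0)
  have h1 : LD (fun z => br m b t Y z ^ u) (u * ∑ j, (b j : ℂ) / (m * (x - t j))) x :=
    LD.pow (f := br m b t Y) hb u
  have h2 : LD (fun z => ∏ j, (z - t j) ^ (u * b j / m))
      (∑ j, ((u * b j / m : ℕ) : ℂ) * (1 / (x - t j))) x :=
    LD.prod Finset.univ (fun j _ => (LD.sub_const (hx j)).pow (u * b j / m))
  have hne : (∏ j, (x - t j) ^ (u * b j / m)) ≠ 0 := by
    rw [Finset.prod_ne_zero_iff]
    intro j _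
    exact pow_ne_zero _ (sub_ne_zero.mpr (hx j))
  have h3 := h1.mul (h2.inv hne)
  have h4 : (u * ∑ j, (b j : ℂ) / (m * (x - t j))) +
      -(∑ j, ((u * b j / m : ℕ) : ℂ) * (1 / (x - t j))) = ∑ j, fj m b u j / (x - t j) := by
    rw [Finset.mul_sum, ← Finset.sum_neg_distrib, ← Finset.sum_add_distrib]
    refine Finset.sum_congr rfl fun j _ => ?_
    rw [fjEq m hm b u j]
    have h0 : x - t j ≠ 0 := sub_ne_zero.mpr (hx j)
    field_simp
    ring
  rw [← h4]
  have h5 : (fun z => gu m b t u (bp m b t Y z)) =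
      fun z => br m b t Y z ^ u * (∏ j, (z - t j) ^ (u * b j / m))⁻¹ := by
    funext z
    simp only [gu, bp, div_eq_mul_inv]
  rw [h5]
  exact h3

theorem UsMem {m u : ℕ} (hm : 3 ≤ m) (hu : u ∈ Us m) : 1 ≤ u ∧ u < m ∧ u.Coprime m ∧ m - u ∈ Us m := by
  unfold Us at hu ⊢
  rw [Finset.mem_filter, Finset.mem_range] at hu ⊢
  obtain ⟨h1, h2⟩ := hu
  have h3 : 1 ≤ u := by
    rcases Nat.eq_zero_or_pos u with h | h
    · rw [h, Nat.coprime_zero_left] at h2
      omega
    · exact h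
  exact ⟨h3, h1, h2, by omega, (Nat.coprime_self_sub_left h1.le).mpr h2⟩

theorem fjCompl {m : ℕ} (hm : 3 ≤ m) {r : ℕ} (b : Fin (r + 1) → ℕ) (u : ℕ) (hu : u ∈ Us m)
    (j : Fin (r + 1)) (hb : ¬ m ∣ b j) : fj m b (m - u) j = 1 - fj m b u j := by
  obtain ⟨h1, h2, h3, -⟩ := UsMem hm hu
  have hm0 : (m : ℂ) ≠ 0 := by exact_mod_cast (by omega : m ≠ 0)
  have hnd : ¬ m ∣ u * b j := fun h => hb ((Nat.Coprime.dvd_mul_left h3.symm).mp h)
  have hpos : 0 < u * b j % m := Nat.pos_of_ne_zero fun h => hnd (Nat.dvd_of_mod_eq_zero h)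
  have hlt : u * b j % m < m := Nat.mod_lt _ (by omega)
  have hsum : (u * b j + (m - u) * b j) % m = 0 := by
    rw [← Nat.add_mul, Nat.add_sub_cancel' h2.le]
    exact Nat.mul_mod_right m (b j)
  have hlt' : (m - u) * b j % m < m := Nat.mod_lt _ (by omega)
  have hadd : u * b j % m + (m - u) * b j % m = m := by
    rw [Nat.add_mod] at hsum
    have hd := Nat.dvd_of_mod_eq_zero hsum
    obtain ⟨k, hk⟩ := hd
    have hk1 : 0 < k := by
      rcases Nat.eq_zero_or_pos k with h | h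
      · rw [h, mul_zero] at hk
        omega
      · exact h
    have hk2 : k < 2 := by
      by_contra hcon
      push Not at hcon
      have : m * 2 ≤ m * k := Nat.mul_le_mul_left m hcon
      omega
    have hk3 : k = 1 := by omega
    rw [hk3, mul_one] at hk
    exact hk
  have hC : ((u * b j % m : ℕ) : ℂ) + (((m - u) * b j % m : ℕ) : ℂ) = m := by exact_mod_cast hadd
  unfold fj
  rw [eq_sub_iff_add_eq, ← add_div, add_comm, hC, div_self hm0]

theorem qpEval {r : ℕ} (t : Fin (r + 1) → ℂ) (x : ℂ) : (qp t).eval x = qq t x := by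
  simp [qp, qq, Polynomial.eval_prod]

theorem prodErase {r : ℕ} (t : Fin (r + 1) → ℂ) (x : ℂ) (hx : ∀ j, x ≠ t j) (j : Fin (r + 1)) :
    ∏ l ∈ Finset.univ.erase j, (x - t l) = qq t x / (x - t j) := by
  have h0 : x - t j ≠ 0 := sub_ne_zero.mpr (hx j)
  rw [eq_div_iff h0]
  unfold qq
  exact Finset.prod_erase_mul _ _ (Finset.mem_univ j)

theorem ppEval (m : ℕ) {r : ℕ} (b : Fin (r + 1) → ℕ) (t : Fin (r + 1) → ℂ) (u : ℕ) (x : ℂ)
    (hx : ∀ j, x ≠ t j) : (pp m b t u).eval x = qq t x * ∑ j, fj m b u j / (x - t j) := by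
  simp only [pp, Polynomial.eval_finsetSum, Polynomial.eval_mul, Polynomial.eval_C,
    Polynomial.eval_prod, Polynomial.eval_sub, Polynomial.eval_X]
  rw [Finset.mul_sum]
  refine Finset.sum_congr rfl fun j _ => ?_
  rw [prodErase t x hx j]
  ring

theorem dqpEval {r : ℕ} (t : Fin (r + 1) → ℂ) (x : ℂ) (hx : ∀ j, x ≠ t j) :
    (Polynomial.derivative (qp t)).eval x = qq t x * ∑ j, 1 / (x - t j) := by
  unfold qp
  rw [Polynomial.derivative_prod_finset]
  simp only [Polynomial.eval_finsetSum, Polynomial.eval_mul, Polynomial.eval_prod,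
    Polynomial.eval_sub, Polynomial.eval_X, Polynomial.eval_C, Polynomial.derivative_sub,
    Polynomial.derivative_X, Polynomial.derivative_C, sub_zero, Polynomial.eval_one, mul_one]
  rw [Finset.mul_sum]
  refine Finset.sum_congr rfl fun j _ => ?_
  rw [prodErase t x hx j]
  ring

theorem sumIx {m r : ℕ} (F : ℕ → Fin r → ℂ) :
    ∑ p : Ix2 m r, F (c2 p) p.1.2 = ∑ u ∈ Us m, ∑ i : Fin r, F u i := by
  classical
  have h1 : ∑ p : Ix2 m r, F (c2 p) p.1.2 =
      ∑ p ∈ ((Finset.univ : Finset (Fin m × Fin r)).filter fun p => (p.1 : ℕ).Coprime m),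
        F (p.1 : ℕ) p.2 :=
    (Finset.sum_subtype
      ((Finset.univ : Finset (Fin m × Fin r)).filter fun p => (p.1 : ℕ).Coprime m)
      (by simp) (fun p : Fin m × Fin r => F (p.1 : ℕ) p.2)).symm
  rw [h1, Finset.sum_filter, Fintype.sum_prod_type]
  unfold Us
  rw [Finset.sum_filter, Finset.sum_range]
  refine Finset.sum_congr rfl fun a _ => ?_
  by_cases h : (a : ℕ).Coprime m
  · simp [h]
  · simp [h]

theorem QfEq (m : ℕ) (hm : 3 ≤ m) {r : ℕ} (b : Fin (r + 1) → ℕ) (t : Fin (r + 1) → ℂ) (X P : ℂ × ℂ) :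
    Qf m b t (om2 m b t X) (om2 m b t P) =
      ∑ u ∈ Us m, gu m b t u X * gu m b t (m - u) P / (qq t X.1 * qq t P.1) *
        ∑ i : Fin r, ∑ j : Fin r, sf m b t u i j * X.1 ^ (i : ℕ) * P.1 ^ (j : ℕ) := by
  classical
  have h1 : ∀ p : Ix2 m r, (∑ q : Ix2 m r,
      if c2 p + c2 q = m then sf m b t (c2 p) (e2 p) (e2 q) * om2 m b t X p * om2 m b t P q else 0) =
      ∑ j : Fin r, sf m b t (c2 p) (e2 p) j * om2 m b t X p *
        (P.1 ^ (j : ℕ) * gu m b t (m - c2 p) P / qq t P.1) := by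
    intro p
    have hp : c2 p ∈ Us m := by
      unfold Us
      rw [Finset.mem_filter, Finset.mem_range]
      exact ⟨p.1.1.2, p.2⟩
    obtain ⟨g1, g2, -, g4⟩ := UsMem hm hp
    have h2 := sumIx (m := m) (r := r) (fun v j =>
      if c2 p + v = m then sf m b t (c2 p) (e2 p) j * om2 m b t X p *
        (P.1 ^ (j : ℕ) * gu m b t v P / qq t P.1) else 0)
    have h3 : (∑ q : Ix2 m r,
      if c2 p + c2 q = m then sf m b t (c2 p) (e2 p) (e2 q) * om2 m b t X p * om2 m b t P q else 0) =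
      ∑ q : Ix2 m r, (if c2 p + c2 q = m then sf m b t (c2 p) (e2 p) (q.1.2 : ℕ) * om2 m b t X p *
        (P.1 ^ (q.1.2 : ℕ) * gu m b t (c2 q) P / qq t P.1) else 0) := rfl
    rw [h3, h2, Finset.sum_eq_single (m - c2 p)]
    · refine Finset.sum_congr rfl fun j _ => ?_
      rw [if_pos (by omega)]
    · intro v hv hne
      refine Finset.sum_eq_zero fun j _ => ?_
      rw [if_neg (by omega)]
    · intro h
      exact absurd g4 h
  unfold Qf
  rw [Finset.sum_congr rfl fun p _ => h1 p]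
  have h4 := sumIx (m := m) (r := r) (fun u i => ∑ j : Fin r, sf m b t u i j *
    (X.1 ^ (i : ℕ) * gu m b t u X / qq t X.1) * (P.1 ^ (j : ℕ) * gu m b t (m - u) P / qq t P.1))
  have h5 : (∑ p : Ix2 m r, ∑ j : Fin r, sf m b t (c2 p) (e2 p) j * om2 m b t X p *
        (P.1 ^ (j : ℕ) * gu m b t (m - c2 p) P / qq t P.1)) =
      ∑ p : Ix2 m r, ∑ j : Fin r, sf m b t (c2 p) (p.1.2 : ℕ) j *
    (X.1 ^ (p.1.2 : ℕ) * gu m b t (c2 p) X / qq t X.1) *
      (P.1 ^ (j : ℕ) * gu m b t (m - c2 p) P / qq t P.1) := rfl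
  rw [h5, h4]
  refine Finset.sum_congr rfl fun u _ => ?_
  rw [Finset.mul_sum]
  refine Finset.sum_congr rfl fun i _ => ?_
  rw [Finset.mul_sum]
  refine Finset.sum_congr rfl fun j _ => ?_
  simp only [div_eq_mul_inv, mul_inv]
  ring

end Id2M

theorem tId2 : S_Id2 := by
  classical
  intro hId hLoc m r b t hC Y hY Y' hY' C C' hCx hCx' hO hO' hYC hYC' x hx a ha hxa
  obtain ⟨hm, hb, -, -⟩ := hC
  have hm1 : 1 ≤ m := by omega
  have hxt : ∀ j, x ≠ t j := fun j h => hCx.not j (h ▸ hx)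
  have hat : ∀ j, a ≠ t j := fun j h => hCx'.not j (h ▸ ha)
  have hqx : qq t x ≠ 0 := by
    unfold qq
    rw [Finset.prod_ne_zero_iff]
    exact fun j _ => sub_ne_zero.mpr (hxt j)
  have hqa : qq t a ≠ 0 := by
    unfold qq
    rw [Finset.prod_ne_zero_iff]
    exact fun j _ => sub_ne_zero.mpr (hat j)
  have hxa0 : x - a ≠ 0 := sub_ne_zero.mpr hxa
  obtain ⟨-, -, -, -, -, -, hd⟩ := hLoc m r b t hm1 C hCx Y hY hYC
  obtain ⟨-, -, -, -, -, -, hd'⟩ := hLoc m r b t hm1 C' hCx' Y' hY' hYC'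
  have hdx := hd x (by rw [hO.interior_eq]; exact hx)
  have hda := hd' a (by rw [hO'.interior_eq]; exact ha)
  have hg : ∀ u, Id2M.LD (fun z => gu m b t u (bp m b t Y z)) (∑ j, fj m b u j / (x - t j)) x :=
    fun u => Id2M.guD m hm1 b t u Y x hxt hdx
  have hg' : ∀ u, Id2M.LD (fun z => gu m b t u (bp m b t Y' z)) (∑ j, fj m b u j / (a - t j)) a :=
    fun u => Id2M.guD m hm1 b t u Y' a hat hda
  constructor
  · have h1 : ∀ u ∈ Us m, HasDerivAt (fun x' => gu m b t u (bp m b t Y x') *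
        gu m b t (m - u) (bp m b t Y' a) / (qq t (bp m b t Y' a).1 * ((bp m b t Y x').1 - (bp m b t Y' a).1)))
        (gu m b t u (bp m b t Y x) * gu m b t (m - u) (bp m b t Y' a) /
          (qq t (bp m b t Y' a).1 * ((bp m b t Y x).1 - (bp m b t Y' a).1)) *
          (∑ j, fj m b u j / ((bp m b t Y x).1 - t j) - 1 / ((bp m b t Y x).1 - (bp m b t Y' a).1))) x := by
      intro u _
      have h2 := ((hg u).mul (Id2M.LD.const (gu m b t (m - u) (bp m b t Y' a) / qq t a) x)).mul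
        ((Id2M.LD.sub_const hxa).inv hxa0)
      unfold Id2M.LD at h2
      have e1 : (fun x' => gu m b t u (bp m b t Y x') *
        gu m b t (m - u) (bp m b t Y' a) / (qq t (bp m b t Y' a).1 * ((bp m b t Y x').1 - (bp m b t Y' a).1))) =
        fun z => gu m b t u (bp m b t Y z) * (gu m b t (m - u) (bp m b t Y' a) / qq t a) * (z - a)⁻¹ := by
        funext z
        simp only [bp, div_eq_mul_inv, mul_inv]
        ring
      rw [e1]
      have e2 : gu m b t u (bp m b t Y x) * gu m b t (m - u) (bp m b t Y' a) /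
          (qq t (bp m b t Y' a).1 * ((bp m b t Y x).1 - (bp m b t Y' a).1)) *
          (∑ j, fj m b u j / ((bp m b t Y x).1 - t j) - 1 / ((bp m b t Y x).1 - (bp m b t Y' a).1)) =
          gu m b t u (bp m b t Y x) * (gu m b t (m - u) (bp m b t Y' a) / qq t a) * (x - a)⁻¹ *
            (∑ j, fj m b u j / (x - t j) + 0 + -(1 / (x - a))) := by
        simp only [bp, div_eq_mul_inv, mul_inv]
        ring
      rw [e2]
      exact h2
    have h3 := HasDerivAt.fun_sum h1
    exact h3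
  · have h1 : ∀ u ∈ Us m, HasDerivAt (fun a' => gu m b t u (bp m b t Y x) *
        gu m b t (m - u) (bp m b t Y' a') / (qq t (bp m b t Y x).1 * ((bp m b t Y x).1 - (bp m b t Y' a').1)))
        (gu m b t u (bp m b t Y x) * gu m b t (m - u) (bp m b t Y' a) / (qq t x * (x - a)) *
          (∑ j, fj m b (m - u) j / (a - t j) + 1 / (x - a))) a := by
      intro u _
      have h2 := ((hg' (m - u)).mul (Id2M.LD.const (gu m b t u (bp m b t Y x) / qq t x) a)).mul
        ((Id2M.LD.const_sub hxa).inv hxa0)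
      unfold Id2M.LD at h2
      have e1 : (fun a' => gu m b t u (bp m b t Y x) *
        gu m b t (m - u) (bp m b t Y' a') / (qq t (bp m b t Y x).1 * ((bp m b t Y x).1 - (bp m b t Y' a').1))) =
        fun z => gu m b t (m - u) (bp m b t Y' z) * (gu m b t u (bp m b t Y x) / qq t x) * (x - z)⁻¹ := by
        funext z
        simp only [bp, div_eq_mul_inv, mul_inv]
        ring
      rw [e1]
      have e2 : gu m b t u (bp m b t Y x) * gu m b t (m - u) (bp m b t Y' a) / (qq t x * (x - a)) *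
          (∑ j, fj m b (m - u) j / (a - t j) + 1 / (x - a)) =
          gu m b t (m - u) (bp m b t Y' a) * (gu m b t u (bp m b t Y x) / qq t x) * (x - a)⁻¹ *
            (∑ j, fj m b (m - u) j / (a - t j) + 0 + - -(1 / (x - a))) := by
        simp only [div_eq_mul_inv, mul_inv]
        ring
      rw [e2]
      exact h2
    have h3 := HasDerivAt.fun_sum h1
    have h4 : Qf m b t (om2 m b t (bp m b t Y x)) (om2 m b t (bp m b t Y' a)) -
        dkap m b t (bp m b t Y' a) (bp m b t Y x) =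
        ∑ u ∈ Us m, gu m b t u (bp m b t Y x) * gu m b t (m - u) (bp m b t Y' a) / (qq t x * (x - a)) *
          (∑ j, fj m b (m - u) j / (a - t j) + 1 / (x - a)) := by
      rw [Id2M.QfEq m hm b t, dkap, ← Finset.sum_sub_distrib]
      refine Finset.sum_congr rfl fun u hu => ?_
      have hI := hId m r b t u x a hxa
      have b1 : (bp m b t Y x).1 = x := rfl
      have b2 : (bp m b t Y' a).1 = a := rfl
      rw [b1, b2, hI, Id2M.qpEval, Id2M.qpEval, Id2M.dqpEval t a hat, Id2M.ppEval m b t u a hat,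
        Id2M.ppEval m b t u x hxt]
      have hs : ∑ j, fj m b (m - u) j / (a - t j) = ∑ j, 1 / (a - t j) - ∑ j, fj m b u j / (a - t j) := by
        rw [← Finset.sum_sub_distrib]
        refine Finset.sum_congr rfl fun j _ => ?_
        rw [Id2M.fjCompl hm b u hu j (hb j)]
        ring
      rw [hs]
      generalize (∑ j, 1 / (a - t j)) = s1
      generalize (∑ j, fj m b u j / (a - t j)) = s2
      generalize (∑ j, fj m b u j / (x - t j)) = s3
      generalize gu m b t u (bp m b t Y x) = g1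
      generalize gu m b t (m - u) (bp m b t Y' a) = g2
      field_simp
      ring
    rw [h4]
    exact h3

end TNF.AB
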