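import Pool.Agent.Lib.TNF.AB.Defs

/-!
# PROJECT TNF, package AB: the statements which SpecA (helper12) proves and SpecB (helper45) uses

Every module: file `TNF/AB/Xyz.lean`, `theorem tXyz : S_Xyz` (with the statements `From …` as
hypotheses), namespace `TNF.AB`. Standing hypotheses: `Cvb m b` (or only `1 ≤ m`), `t` injective.
-/

set_option autoImplicit false

open Topology Metric

noncomputable section

namespace TNF.AB

open SEJ TATE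

/-! ## 1. Branches and paths -/

/-- **Brs**: THE BRANCHES. PROOF. `(x - t_j)/(x₀ - t_j)` is in the slit plane; powers of the principal
logarithm; `(w^(b/m))^m = w^b`. (3): `1 + u w`, `w = (x - x₀)/(x₀ - t_j)`, is real only for `w` real or
`u = 0`. (4): real part `> 0`. (7): the quotient `y / br P x` is continuous, an `m`-th root of unity,
`1` at `P.1`: equal to `1` near `P.1`. (8): a lift `y` of a segment as in `Seg`: the quotient is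
constant on `[0, 1]`. -/
def S_Brs : Prop :=
  ∀ (m r : ℕ) (b : Fin (r + 1) → ℕ) (t : Fin (r + 1) → ℂ), 1 ≤ m → ∀ P ∈ Pts m b t,
    IsOpen (st t P.1) ∧ P.1 ∈ st t P.1 ∧
    (∀ x ∈ st t P.1, ∀ u ∈ Set.Icc (0 : ℝ) 1, sx P.1 x u ∈ st t P.1) ∧
    (∀ x, (∀ u ∈ Set.Icc (0 : ℝ) 1, ∀ j, sx P.1 x u ≠ t j) → x ∈ st t P.1) ∧
    (∀ ε > 0, (∀ j, t j ∉ ball P.1 ε) → ball P.1 ε ⊆ st t P.1) ∧
    bp m b t P P.1 = P ∧
    (∀ x ∈ st t P.1, bp m b t P x ∈ Pts m b t ∧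
      HasDerivAt (br m b t P) (br m b t P x * ∑ j, (b j : ℂ) / (m * (x - t j))) x) ∧
    (∀ x ∈ st t P.1, ∀ᶠ x' in 𝓝 x, br m b t (bp m b t P x) x' = br m b t P x') ∧
    (∀ y : ℝ → ℂ, ∀ x, ContinuousOn y (Set.Icc 0 1) → y 0 = P.2 →
      (∀ u ∈ Set.Icc (0 : ℝ) 1, (sx P.1 x u, y u) ∈ Pts m b t) →
      x ∈ st t P.1 ∧ ∀ u ∈ Set.Icc (0 : ℝ) 1, y u = br m b t P (sx P.1 x u)) ∧
    ∀ y, (P.1, y) ∈ Pts m b t → ∃ c : ℕ, y = ze m 1 ^ c * P.2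

/-- **Alg2**: ALGEBRA OF PATHS. PROOF. End points are on the curve; constant path; concatenation (induction on
the second path); reversal (the segment backwards: `br` of the end point is the same branch, `u ↦ 1 - u`);
sheets: `br (x₀, ζ^n y₀) = ζ^n br (x₀, y₀)`, `om2` at `(x, ζ^n y)` is `ζ^(n u) om2`. -/
def S_Alg2 : Prop :=
  ∀ (m r : ℕ) (b : Fin (r + 1) → ℕ) (t : Fin (r + 1) → ℂ), 1 ≤ m →
    (∀ (P Q : ℂ × ℂ) (p : Path m b t P Q), P ∈ Pts m b t ∧ Q ∈ Pts m b t) ∧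
    (∀ (P Q R : ℂ × ℂ) (p : Path m b t P Q) (p' : Path m b t Q R), ∃ p'' : Path m b t P R,
      (∀ h, p''.int h = p.int h + p'.int h) ∧ p''.on ⊆ p.on ∪ p'.on) ∧
    (∀ (P Q : ℂ × ℂ) (p : Path m b t P Q), ∃ p' : Path m b t Q P,
      (∀ h, p'.int h = -p.int h) ∧ p'.on ⊆ p.on) ∧
    (∀ (P Q : ℂ × ℂ) (p : Path m b t P Q) (n : ℕ),
      ∃ p' : Path m b t (P.1, ze m 1 ^ n * P.2) (Q.1, ze m 1 ^ n * Q.2),
        (∀ h, p'.int h = p.int fun X => h (X.1, ze m 1 ^ n * X.2)) ∧ p'.on ⊆ p.on) ∧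
    ∀ (P Q : ℂ × ℂ) (p : Path m b t P Q), IsCompact p.on ∧ p.on ⊆ {x | ∀ j, x ≠ t j} ∧
      P.1 ∈ p.on ∧ Q.1 ∈ p.on

/-- **Itp**: `Itg` AND PATHS. From `S_Brs`. PROOF. `om P q = om2 P (inc q)`. A `Seg` with the lift `y` is `Sg`
(`S_Brs`, (8)); conversely `y u = br P (sx ..)` on `[0, 1]`, extended by `Set.projIcc`. Induction. -/
def S_Itp : Prop :=
  ∀ (m r : ℕ) (b : Fin (r + 1) → ℕ) (t : Fin (r + 1) → ℂ), 1 ≤ m → ∀ (P Q : ℂ × ℂ)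
    (v : Ix m b → ℂ), Itg m b t P Q v ↔ ∃ p : Path m b t P Q, pr p.v = v

/-- **Gp**: GENERAL POSITION. Every path can be replaced by a path with the same integrals of `om2`
which avoids a finite set `A` (the end points are not over `A`). By the chain principle. -/
def S_Gp : Prop :=
  ∀ (m r : ℕ) (b : Fin (r + 1) → ℕ) (t : Fin (r + 1) → ℂ), Cvb m b → Function.Injective t →
    ∀ A : Set ℂ, A.Finite →
    (∀ (P Q : ℂ × ℂ) (p : Path m b t P Q), P.1 ∉ A → Q.1 ∉ A →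
      ∃ p' : Path m b t P Q, p'.v = p.v ∧ Disjoint p'.on A) ∧
    (∀ β ∈ LZ2 m b t, ∃ (P : ℂ × ℂ) (p : Path m b t P P), p.v = β ∧ Disjoint p.on A) ∧
    ∀ P ∈ Pts m b t, ∀ Q ∈ Pts m b t, P.1 ∉ A → Q.1 ∉ A →
      ∃ p : Path m b t P Q, Disjoint p.on A

/-- **Lzg2**: `LZ2` IS A GROUP, stable under `Z`. From `S_Alg2`, `S_Gp`. -/
def S_Lzg2 : Prop :=
  ∀ (m r : ℕ) (b : Fin (r + 1) → ℕ) (t : Fin (r + 1) → ℂ), Cvb m b → Function.Injective t →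
    (0 : Ix2 m r → ℂ) ∈ LZ2 m b t ∧
    (∀ u ∈ LZ2 m b t, ∀ v ∈ LZ2 m b t, u - v ∈ LZ2 m b t) ∧
    (∀ n : ℕ, ∀ v ∈ LZ2 m b t, (fun p => ze m (c2 p) ^ n * v p) ∈ LZ2 m b t) ∧
    LZ m b t = pr '' LZ2 m b t

/-! ## 2. The pairing -/

/-- **Nd**: NONDEGENERATE. -/
def S_Nd : Prop :=
  ∀ (m r : ℕ) (b : Fin (r + 1) → ℕ) (t : Fin (r + 1) → ℂ), Cvb m b →
    (∀ β, (∀ c, Qf m b t β c = 0) → β = 0) ∧ ∀ c, (∀ β, Qf m b t β c = 0) → c = 0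

/-- **Qw**: THE FIRST KIND. -/
def S_Qw : Prop :=
  ∀ (m r : ℕ) (b : Fin (r + 1) → ℕ) (t : Fin (r + 1) → ℂ), Cvb m b →
    (∀ c : Ix2 m r → ℂ, (pr c : Ix m b → ℂ) = 0 → ∃ w : Ix m b → ℂ, ∀ β,
      Qf m b t β c = ∑ p, w p * pr β p) ∧
    (∀ w : Ix m b → ℂ, ∃ c : Ix2 m r → ℂ, (pr c : Ix m b → ℂ) = 0 ∧ ∀ β,
      Qf m b t β c = ∑ p, w p * pr β p) ∧
    ∀ β : Ix2 m r → ℂ, (pr β : Ix m b → ℂ) = 0 → ∃ w : Ix m b → ℂ, ∀ c,
      Qf m b t β c = ∑ p, w p * pr c p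

/-! ## 3. The key formula -/

/-- **Key**: periods of the form of the third kind. `β` closed, `c` a path from `P` to `Q`, `P.1`, `Q.1` not
on `β`. -/
def S_Key : Prop :=
  ∀ (m r : ℕ) (b : Fin (r + 1) → ℕ) (t : Fin (r + 1) → ℂ), Cvb m b → Function.Injective t →
    ∀ (X P Q : ℂ × ℂ) (β : Path m b t X X) (c : Path m b t P Q), P.1 ∉ β.on → Q.1 ∉ β.on →
    ∃ n : ℤ, β.int (eta m b t Q) - β.int (eta m b t P) - Qf m b t β.v c.v =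
      2 * Real.pi * Complex.I * n

/-- **Qz**: INTEGRALITY. From `S_Key`. -/
def S_Qz : Prop :=
  ∀ (m r : ℕ) (b : Fin (r + 1) → ℕ) (t : Fin (r + 1) → ℂ), Cvb m b → Function.Injective t →
    ∀ β ∈ LZ2 m b t, ∀ c ∈ LZ2 m b t, ∃ n : ℤ, Qf m b t β c = 2 * Real.pi * Complex.I * n

end TNF.AB
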