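import Pool.Agent.Lib.TNF.AB.SpecB

/-!
# TNF / AB: regular forms and linearity of the integrals
-/

set_option autoImplicit false

open SEJ TATE Topology Metric MeasureTheory

noncomputable section

namespace TNF.AB

namespace Lin_aux

variable {m r : ℕ} {b : Fin (r + 1) → ℕ} {t : Fin (r + 1) → ℂ}

theorem om_eq (X : ℂ × ℂ) (p : Ix m b) : om m b t X p = om2 m b t X (inc p) := by
  have h1 : e2 (inc p) = ex p := rfl
  have h2 : c2 (inc p) = ch p := rfl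
  unfold om om2 gu qq
  rw [h1, h2]
  simp only [pow_add, pow_one, Finset.prod_mul_distrib]
  rw [← mul_div_assoc, div_div, mul_comm (∏ j, (X.1 - t j))]

theorem ne_of_st (h1 : S_Brs) (hm : 1 ≤ m) {P : ℂ × ℂ} (hP : P ∈ Pts m b t) {x : ℂ} (hx : x ∈ st t P.1)
    (j : Fin (r + 1)) : x - t j ≠ 0 := by
  obtain ⟨-, -, -, -, -, -, h7, -⟩ := h1 m r b t hm P hP
  have h2 := (h7 x hx).1
  intro h3
  exact h2.1 ⟨j, (sub_eq_zero.1 h3).symm⟩

theorem dbr (h1 : S_Brs) (hm : 1 ≤ m) {P : ℂ × ℂ} (hP : P ∈ Pts m b t) {x : ℂ} (hx : x ∈ st t P.1) :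
    DifferentiableAt ℂ (br m b t P) x := by
  obtain ⟨-, -, -, -, -, -, h7, -⟩ := h1 m r b t hm P hP
  exact (h7 x hx).2.differentiableAt

theorem dprod {x : ℂ} (k : Fin (r + 1) → ℕ) :
    DifferentiableAt ℂ (fun x' : ℂ => ∏ j, (x' - t j) ^ k j) x := by
  fun_prop

theorem dgu (h1 : S_Brs) (hm : 1 ≤ m) {P : ℂ × ℂ} (hP : P ∈ Pts m b t) {x : ℂ} (hx : x ∈ st t P.1) (u : ℕ) :
    DifferentiableAt ℂ (fun x' => gu m b t u (bp m b t P x')) x := by
  have h2 := dbr h1 hm hP hx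
  have h3 : DifferentiableAt ℂ (fun x' : ℂ => (br m b t P x') ^ u) x := h2.pow u
  have h4 : (∏ j, (x - t j) ^ (u * b j / m)) ≠ 0 :=
    Finset.prod_ne_zero_iff.2 fun j _ => pow_ne_zero _ (ne_of_st h1 hm hP hx j)
  exact h3.div (dprod _) h4

theorem dqq {x : ℂ} : DifferentiableAt ℂ (fun x' : ℂ => qq t x') x := by
  unfold qq
  fun_prop

theorem nqq (h1 : S_Brs) (hm : 1 ≤ m) {P : ℂ × ℂ} (hP : P ∈ Pts m b t) {x : ℂ} (hx : x ∈ st t P.1) :
    qq t x ≠ 0 := by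
  unfold qq
  exact Finset.prod_ne_zero_iff.2 fun j _ => ne_of_st h1 hm hP hx j

theorem rom2 (h1 : S_Brs) (hm : 1 ≤ m) (q : Ix2 m r) : Reg m b t ∅ fun X => om2 m b t X q := by
  intro P hP x hx _
  have h2 := dgu h1 hm hP hx (c2 q)
  have h3 : DifferentiableAt ℂ (fun x' : ℂ => x' ^ e2 q) x := by fun_prop
  exact (h3.mul h2).div dqq (nqq h1 hm hP hx)

theorem rom (h1 : S_Brs) (hm : 1 ≤ m) (q : Ix m b) : Reg m b t ∅ fun X => om m b t X q := by
  have h2 := rom2 (b := b) (t := t) h1 hm (inc q)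
  have h3 : (fun X : ℂ × ℂ => om m b t X q) = fun X => om2 m b t X (inc q) := by
    funext X
    exact om_eq X q
  rw [h3]
  exact h2

theorem reta (h1 : S_Brs) (hm : 1 ≤ m) (P : ℂ × ℂ) : Reg m b t {P.1} (eta m b t P) := by
  intro R hR x hx hxA
  have hxP : x - P.1 ≠ 0 := fun h => hxA (sub_eq_zero.1 h)
  unfold eta
  refine DifferentiableAt.fun_sum fun u _ => ?_
  have h2 := dgu h1 hm hR hx u
  have h3 : DifferentiableAt ℂ (fun x' : ℂ => qq t x' * (x' - P.1)) x :=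
    dqq.mul (by fun_prop)
  exact (h2.mul_const _).div h3 (mul_ne_zero (nqq h1 hm hR hx) hxP)

theorem rmono {A A' : Set ℂ} {h : ℂ × ℂ → ℂ} (hA : A ⊆ A') (hr : Reg m b t A h) : Reg m b t A' h :=
  fun P hP x hx hxA => hr P hP x hx fun h2 => hxA (hA h2)

theorem rsum {ι : Type} {s : Finset ι} {c : ι → ℂ} {h : ι → (ℂ × ℂ → ℂ)} {A : Set ℂ}
    (hr : ∀ i ∈ s, Reg m b t A (h i)) : Reg m b t A (fun X => ∑ i ∈ s, c i * h i X) := by
  intro P hP x hx hxA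
  refine DifferentiableAt.fun_sum fun i hi => ?_
  exact (hr i hi P hP x hx hxA).const_mul (c i)

theorem endp (h1 : S_Brs) (hm : 1 ≤ m) {P Q : ℂ × ℂ} (p : Path m b t P Q) : Q ∈ Pts m b t := by
  induction p with
  | nil h => exact h
  | snoc p h ih =>
    obtain ⟨-, -, -, -, -, -, h7, -⟩ := h1 m r b t hm _ ih
    have h2 := (h7 _ h.1).1
    unfold bp at h2
    rw [← h.2] at h2
    exact h2

theorem cont (h1 : S_Brs) (hm : 1 ≤ m) {Q R : ℂ × ℂ} (hQ : Q ∈ Pts m b t) (hs : Sg m b t Q R) {A : Set ℂ}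
    (hA : Disjoint (sx Q.1 R.1 '' Set.Icc (0 : ℝ) 1) A) {h : ℂ × ℂ → ℂ} (hr : Reg m b t A h) :
    ContinuousOn (fun u : ℝ => (R.1 - Q.1) * h (bp m b t Q (sx Q.1 R.1 u))) (Set.Icc (0 : ℝ) 1) := by
  obtain ⟨-, -, h3, -⟩ := h1 m r b t hm Q hQ
  intro u hu
  have h4 : sx Q.1 R.1 u ∈ st t Q.1 := h3 R.1 hs.1 u hu
  have h5 : sx Q.1 R.1 u ∉ A := Set.disjoint_left.1 hA ⟨u, hu, rfl⟩
  have h6 : ContinuousAt (fun x' : ℂ => h (bp m b t Q x')) (sx Q.1 R.1 u) := (hr Q hQ _ h4 h5).continuousAt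
  have h7 : ContinuousAt (fun v : ℝ => sx Q.1 R.1 v) u := by
    unfold sx
    fun_prop
  have h8 : ContinuousAt (fun v : ℝ => h (bp m b t Q (sx Q.1 R.1 v))) u :=
    ContinuousAt.comp (g := fun x' : ℂ => h (bp m b t Q x')) (f := fun v : ℝ => sx Q.1 R.1 v) h6 h7
  exact (continuousAt_const.mul h8).continuousWithinAt

theorem sgsum (h1 : S_Brs) (hm : 1 ≤ m) {Q R : ℂ × ℂ} (hQ : Q ∈ Pts m b t) (hs : Sg m b t Q R) {A : Set ℂ}
    (hA : Disjoint (sx Q.1 R.1 '' Set.Icc (0 : ℝ) 1) A) {ι : Type} {s : Finset ι} {c : ι → ℂ}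
    {h : ι → (ℂ × ℂ → ℂ)} (hr : ∀ i ∈ s, Reg m b t A (h i)) :
    sgi m b t Q R.1 (fun X => ∑ i ∈ s, c i * h i X) = ∑ i ∈ s, c i * sgi m b t Q R.1 (h i) := by
  unfold sgi
  have h2 : ∀ u : ℝ, (R.1 - Q.1) * ∑ i ∈ s, c i * h i (bp m b t Q (sx Q.1 R.1 u)) =
      ∑ i ∈ s, c i * ((R.1 - Q.1) * h i (bp m b t Q (sx Q.1 R.1 u))) := by
    intro u
    rw [Finset.mul_sum]
    exact Finset.sum_congr rfl fun i _ => by ring
  simp only [h2]
  rw [intervalIntegral.integral_finsetSum]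
  · refine Finset.sum_congr rfl fun i _ => ?_
    exact intervalIntegral.integral_const_mul _ _
  · intro i hi
    refine ContinuousOn.intervalIntegrable ?_
    rw [Set.uIcc_of_le zero_le_one]
    exact continuousOn_const.mul (cont h1 hm hQ hs hA (hr i hi))

theorem lin (h1 : S_Brs) (hm : 1 ≤ m) {ι : Type} {s : Finset ι} {c : ι → ℂ} {h : ι → (ℂ × ℂ → ℂ)} {A : Set ℂ}
    (hr : ∀ i ∈ s, Reg m b t A (h i)) {P Q : ℂ × ℂ} (p : Path m b t P Q) (hp : Disjoint p.on A) :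
    p.int (fun X => ∑ i ∈ s, c i * h i X) = ∑ i ∈ s, c i * p.int (h i) := by
  induction p with
  | nil h => simp [Path.int]
  | snoc p hs ih =>
    simp only [Path.on, Set.disjoint_union_left] at hp
    simp only [Path.int]
    rw [ih hp.1, sgsum h1 hm (endp h1 hm p) hs hp.2 hr, ← Finset.sum_add_distrib]
    exact Finset.sum_congr rfl fun i _ => by ring

end Lin_aux

theorem tLin (h1 : S_Brs) : S_Lin := by
  intro m r b t hm
  refine ⟨fun q => Lin_aux.rom2 h1 hm q, fun q => Lin_aux.rom h1 hm q, fun P _ => Lin_aux.reta h1 hm P,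
    fun A A' h hA hr => Lin_aux.rmono hA hr, fun ι s c h A hr => ⟨Lin_aux.rsum hr, fun P Q p hp =>
      Lin_aux.lin h1 hm hr p hp⟩, fun P Q p q => ?_⟩
  have h3 : (fun X : ℂ × ℂ => om m b t X q) = fun X => om2 m b t X (inc q) := by
    funext X
    exact Lin_aux.om_eq X q
  rw [h3]
  rfl

end TNF.AB
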