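import Pool.Agent.Lib.TNF.AB.SpecB

/-!
# TNF/AB/Lpg: the lattice `LP`
-/

set_option autoImplicit false

open SEJ TATE Topology Metric MeasureTheory

noncomputable section

namespace TNF.AB

namespace Lpg_aux

variable {m r : ℕ} {b : Fin (r + 1) → ℕ} {t : Fin (r + 1) → ℂ}

theorem ze_pow (hm : m ≠ 0) (u : ℕ) : ze m u ^ m = 1 := by
  have hm' : (m : ℂ) ≠ 0 := Nat.cast_ne_zero.mpr hm
  unfold ze
  rw [← Complex.exp_nat_mul]
  have h : (m : ℂ) * (2 * Real.pi * Complex.I * u / m) = u * (2 * Real.pi * Complex.I) := by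
    field_simp
  rw [h]
  exact Complex.exp_nat_mul_two_pi_mul_I u

theorem ze_mul (hm : m ≠ 0) (u v : ℕ) (h : u + v = m) : ze m u * ze m v = 1 := by
  have hm' : (m : ℂ) ≠ 0 := Nat.cast_ne_zero.mpr hm
  unfold ze
  rw [← Complex.exp_add]
  have h1 : 2 * Real.pi * Complex.I * (u : ℂ) / m + 2 * Real.pi * Complex.I * (v : ℂ) / m =
      2 * Real.pi * Complex.I := by
    rw [← add_div, ← mul_add, ← Nat.cast_add, h, mul_div_assoc, div_self hm', mul_one]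
  rw [h1]
  exact Complex.exp_two_pi_mul_I

theorem ze_inv (hm : m ≠ 0) (u v : ℕ) (h : u + v = m) : ze m u ^ (m - 1) = ze m v := by
  have h1 := ze_pow hm u
  have h2 := ze_mul hm u v h
  obtain ⟨k, rfl⟩ := Nat.exists_eq_succ_of_ne_zero hm
  rw [Nat.succ_eq_add_one, Nat.add_sub_cancel]
  rw [Nat.succ_eq_add_one, pow_succ] at h1
  calc ze (k + 1) u ^ k = ze (k + 1) u ^ k * (ze (k + 1) u * ze (k + 1) v) := by
        rw [show ze (k + 1) u * ze (k + 1) v = 1 from h2, mul_one]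
    _ = ze (k + 1) u ^ k * ze (k + 1) u * ze (k + 1) v := by ring
    _ = ze (k + 1) v := by rw [h1, one_mul]

theorem Qf_zero (β : Ix2 m r → ℂ) : Qf m b t β 0 = 0 := by
  unfold Qf
  refine Finset.sum_eq_zero fun p _ => Finset.sum_eq_zero fun q _ => ?_
  split_ifs
  · rw [Pi.zero_apply, mul_zero]
  · rfl

theorem Qf_sub (β c d : Ix2 m r → ℂ) : Qf m b t β (c - d) = Qf m b t β c - Qf m b t β d := by
  unfold Qf
  rw [← Finset.sum_sub_distrib]
  refine Finset.sum_congr rfl fun p _ => ?_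
  rw [← Finset.sum_sub_distrib]
  refine Finset.sum_congr rfl fun q _ => ?_
  split_ifs
  · rw [Pi.sub_apply]
    ring
  · rw [sub_zero]

theorem Qf_ze (hm : m ≠ 0) (β c : Ix2 m r → ℂ) :
    Qf m b t β (fun p => ze m (c2 p) * c p) =
      Qf m b t (fun p => ze m (c2 p) ^ (m - 1) * β p) c := by
  unfold Qf
  refine Finset.sum_congr rfl fun p _ => Finset.sum_congr rfl fun q _ => ?_
  split_ifs with h
  · beta_reduce
    rw [ze_inv hm _ _ h]
    ring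
  · rfl

end Lpg_aux

open Lpg_aux

/-- **Lpg** -/
theorem tLpg (h1 : S_Lzg2) (h2 : S_Qz) (h3 : S_Fin2) : S_Lpg := by
  intro m r b t hb ht
  have hm : m ≠ 0 := by have := hb.1; omega
  obtain ⟨-, -, hZ, hpr⟩ := h1 m r b t hb ht
  obtain ⟨N, hN, hNc⟩ := h3 m r b t hb ht
  refine ⟨?_, ?_, ?_, ⟨N, hN, ?_⟩, ?_⟩
  · refine ⟨0, fun β _ => ⟨0, ?_⟩, rfl⟩
    rw [Qf_zero, Int.cast_zero, mul_zero]
  · rintro _ ⟨c, hc, rfl⟩ _ ⟨d, hd, rfl⟩
    refine ⟨c - d, fun β hβ => ?_, rfl⟩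
    obtain ⟨n, hn⟩ := hc β hβ
    obtain ⟨k, hk⟩ := hd β hβ
    refine ⟨n - k, ?_⟩
    rw [Qf_sub, hn, hk, Int.cast_sub]
    ring
  · intro v hv
    rw [hpr] at hv
    obtain ⟨c, hc, rfl⟩ := hv
    exact ⟨c, fun β hβ => h2 m r b t hb ht β hβ c hc, rfl⟩
  · rintro _ ⟨c, hc, rfl⟩
    rw [hpr]
    refine ⟨(N : ℂ) • c, hNc c hc, ?_⟩
    funext p
    change (N : ℂ) • c (inc p) = N • c (inc p)
    rw [smul_eq_mul, nsmul_eq_mul]
  · rintro _ ⟨c, hc, rfl⟩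
    refine ⟨fun p => ze m (c2 p) * c p, fun β hβ => ?_, rfl⟩
    rw [Qf_ze hm]
    exact hc _ (hZ (m - 1) β hβ)

end TNF.AB
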