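import Pool.Agent.Lib.TNF.AB.SpecA

/-!
# TNF, package AB: module Qw, the pairing and the forms of the first kind (helper77)
-/

set_option autoImplicit false

noncomputable section

namespace TNF.AB

open SEJ TATE

namespace QwM

variable {m r : ℕ}

/-- the index is of the first kind -/
def Fk (b : Fin (r + 1) → ℕ) (p : Ix2 m r) : Prop :=
  m * e2 p + ∑ j, (c2 p * b j) % m < m * r

/-- the index of the first kind of an index -/
def toIx {b : Fin (r + 1) → ℕ} (p : Ix2 m r) (h : Fk b p) : Ix m b := ⟨p.1, p.2, h⟩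

lemma inc_toIx {b : Fin (r + 1) → ℕ} (p : Ix2 m r) (h : Fk b p) : inc (toIx p h) = p := rfl

lemma toIx_inc {b : Fin (r + 1) → ℕ} (p : Ix m b) (h : Fk b (inc p)) : toIx (inc p) h = p := rfl

lemma Fk_inc {b : Fin (r + 1) → ℕ} (p : Ix m b) : Fk b (inc p) := p.2.2

lemma inc_injective (b : Fin (r + 1) → ℕ) : Function.Injective (inc : Ix m b → Ix2 m r) := by
  intro p q h
  have h1 : (inc p).1 = (inc q).1 := by rw [h]
  exact Subtype.ext h1

lemma sumF (b : Fin (r + 1) → ℕ) (f : Ix2 m r → ℂ) (hf : ∀ p, ¬ Fk b p → f p = 0) :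
    ∑ p : Ix m b, f (inc p) = ∑ p : Ix2 m r, f p := by
  refine Fintype.sum_of_injective inc (inc_injective b) _ _ ?_ (fun _ => rfl)
  intro p hp
  refine hf p fun h => hp ⟨toIx p h, rfl⟩

/-- the weights of the first variable -/
def W (m : ℕ) {r : ℕ} (b : Fin (r + 1) → ℕ) (t : Fin (r + 1) → ℂ) (c : Ix2 m r → ℂ) (p : Ix2 m r) : ℂ :=
  ∑ q : Ix2 m r, if c2 p + c2 q = m then sf m b t (c2 p) (e2 p) (e2 q) * c q else 0

/-- the weights of the second variable -/
def W' (m : ℕ) {r : ℕ} (b : Fin (r + 1) → ℕ) (t : Fin (r + 1) → ℂ) (β : Ix2 m r → ℂ) (q : Ix2 m r) : ℂ :=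
  ∑ p : Ix2 m r, if c2 p + c2 q = m then sf m b t (c2 p) (e2 p) (e2 q) * β p else 0

lemma Qf_eq (b : Fin (r + 1) → ℕ) (t : Fin (r + 1) → ℂ) (β c : Ix2 m r → ℂ) :
    Qf m b t β c = ∑ p, W m b t c p * β p := by
  unfold Qf W
  refine Finset.sum_congr rfl fun p _ => ?_
  rw [Finset.sum_mul]
  refine Finset.sum_congr rfl fun q _ => ?_
  split_ifs with h
  · ring
  · ring

lemma Qf_eq' (b : Fin (r + 1) → ℕ) (t : Fin (r + 1) → ℂ) (β c : Ix2 m r → ℂ) :
    Qf m b t β c = ∑ q, W' m b t β q * c q := by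
  unfold Qf W'
  rw [Finset.sum_comm]
  refine Finset.sum_congr rfl fun q _ => ?_
  rw [Finset.sum_mul]
  refine Finset.sum_congr rfl fun p _ => ?_
  split_ifs with h
  · ring
  · ring

lemma c2_pos (hm : 3 ≤ m) (p : Ix2 m r) : 1 ≤ c2 p := by
  rcases Nat.eq_zero_or_pos (c2 p) with h | h
  · exfalso
    have h1 : (p.1.1 : ℕ).Coprime m := p.2
    have h2 : (p.1.1 : ℕ) = 0 := h
    rw [h2, Nat.coprime_zero_left] at h1
    omega
  · exact h

lemma c2_lt (p : Ix2 m r) : c2 p < m := p.1.1.2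

lemma e2_lt (p : Ix2 m r) : e2 p < r := p.1.2.2

lemma c2_mem (p : Ix2 m r) : c2 p ∈ Us m := by
  unfold Us
  rw [Finset.mem_filter, Finset.mem_range]
  exact ⟨c2_lt p, p.2⟩

/-- the opposite index -/
def du (hm : 3 ≤ m) (q : Ix2 m r) : Ix2 m r :=
  ⟨(⟨m - c2 q, by have := c2_pos hm q; have := c2_lt q; omega⟩,
    ⟨r - 1 - e2 q, by have := e2_lt q; omega⟩), by
    have h : (c2 q).Coprime m := q.2
    exact (Nat.coprime_self_sub_left (c2_lt q).le).2 h⟩

lemma c2_du (hm : 3 ≤ m) (q : Ix2 m r) : c2 (du hm q) = m - c2 q := rfl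

lemma e2_du (hm : 3 ≤ m) (q : Ix2 m r) : e2 (du hm q) = r - 1 - e2 q := rfl

lemma ext2 (p q : Ix2 m r) (h1 : c2 p = c2 q) (h2 : e2 p = e2 q) : p = q := by
  apply Subtype.ext
  exact Prod.ext (Fin.ext h1) (Fin.ext h2)

lemma du_du (hm : 3 ≤ m) (q : Ix2 m r) : du hm (du hm q) = q := by
  apply ext2
  · rw [c2_du, c2_du]
    have := c2_lt q
    omega
  · rw [e2_du, e2_du]
    have := e2_lt q
    omega

lemma Fk_du (hC : S_Crd) {b : Fin (r + 1) → ℕ} (hb : Cvb m b) (q : Ix2 m r) :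
    Fk b (du hb.1 q) ↔ ¬ Fk b q := by
  have h := hC m r b hb (c2 q) (c2_mem q) (e2 q) (r - 1 - e2 q) (by have := e2_lt q; omega)
  unfold Fk
  rw [c2_du, e2_du]
  tauto

lemma key0 (hS : S_Sfc) (hC : S_Crd) {b : Fin (r + 1) → ℕ} (t : Fin (r + 1) → ℂ) (hb : Cvb m b)
    (p q : Ix2 m r) (hpq : c2 p + c2 q = m) (hp : ¬ Fk b p) (hq : ¬ Fk b q) :
    sf m b t (c2 p) (e2 p) (e2 q) = 0 := by
  refine (hS m r b t hb (c2 p) (c2_mem p) (e2 p) (e2 q)).1 ?_
  by_contra hcon
  have hle : e2 p + e2 q + 1 ≤ r := by omega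
  have h1 : Fk b (du hb.1 p) := (Fk_du hC hb p).2 hp
  apply hq
  unfold Fk at h1 ⊢
  rw [c2_du, e2_du] at h1
  have h2 : m - c2 p = c2 q := by omega
  rw [h2] at h1
  have h3 : m * e2 q ≤ m * (r - 1 - e2 p) := Nat.mul_le_mul_left m (by omega)
  omega

lemma W_zero (hS : S_Sfc) (hC : S_Crd) {b : Fin (r + 1) → ℕ} (t : Fin (r + 1) → ℂ) (hb : Cvb m b)
    (c : Ix2 m r → ℂ) (hc : ∀ q, Fk b q → c q = 0) (p : Ix2 m r) (hp : ¬ Fk b p) :
    W m b t c p = 0 := by
  unfold W
  refine Finset.sum_eq_zero fun q _ => ?_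
  split_ifs with h
  · by_cases hq : Fk b q
    · rw [hc q hq, mul_zero]
    · rw [key0 hS hC t hb p q h hp hq, zero_mul]
  · rfl

lemma W'_zero (hS : S_Sfc) (hC : S_Crd) {b : Fin (r + 1) → ℕ} (t : Fin (r + 1) → ℂ) (hb : Cvb m b)
    (β : Ix2 m r → ℂ) (hβ : ∀ q, Fk b q → β q = 0) (q : Ix2 m r) (hq : ¬ Fk b q) :
    W' m b t β q = 0 := by
  unfold W'
  refine Finset.sum_eq_zero fun p _ => ?_
  split_ifs with h
  · by_cases hp : Fk b p
    · rw [hβ p hp, mul_zero]
    · rw [key0 hS hC t hb p q h hp hq, zero_mul]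
  · rfl

lemma pr_zero {b : Fin (r + 1) → ℕ} (c : Ix2 m r → ℂ) (hc : (pr c : Ix m b → ℂ) = 0) (q : Ix2 m r)
    (hq : Fk b q) : c q = 0 :=
  congrFun hc (toIx q hq)

lemma part1 (hS : S_Sfc) (hC : S_Crd) {b : Fin (r + 1) → ℕ} (t : Fin (r + 1) → ℂ) (hb : Cvb m b)
    (c : Ix2 m r → ℂ) (hc : ∀ q, Fk b q → c q = 0) (β : Ix2 m r → ℂ) :
    Qf m b t β c = ∑ p : Ix m b, W m b t c (inc p) * pr β p := by
  rw [Qf_eq]
  refine (sumF b (fun p => W m b t c p * β p) fun p hp => ?_).symm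
  rw [W_zero hS hC t hb c hc p hp, zero_mul]

lemma part3 (hS : S_Sfc) (hC : S_Crd) {b : Fin (r + 1) → ℕ} (t : Fin (r + 1) → ℂ) (hb : Cvb m b)
    (β : Ix2 m r → ℂ) (hβ : ∀ q, Fk b q → β q = 0) (c : Ix2 m r → ℂ) :
    Qf m b t β c = ∑ p : Ix m b, W' m b t β (inc p) * pr c p := by
  rw [Qf_eq']
  refine (sumF b (fun p => W' m b t β p * c p) fun p hp => ?_).symm
  rw [W'_zero hS hC t hb β hβ p hp, zero_mul]

open Classical in
/-- the extension -/
def xt {b : Fin (r + 1) → ℕ} (hm : 3 ≤ m) (x : Ix m b → ℂ) (q : Ix2 m r) : ℂ :=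
  if h : Fk b (du hm q) then x (toIx (du hm q) h) else 0

lemma xt_add {b : Fin (r + 1) → ℕ} (hm : 3 ≤ m) (x y : Ix m b → ℂ) (q : Ix2 m r) :
    xt hm (x + y) q = xt hm x q + xt hm y q := by
  unfold xt
  split_ifs with h
  · rfl
  · simp

lemma xt_smul {b : Fin (r + 1) → ℕ} (hm : 3 ≤ m) (a : ℂ) (x : Ix m b → ℂ) (q : Ix2 m r) :
    xt hm (a • x) q = a * xt hm x q := by
  unfold xt
  split_ifs with h
  · rfl
  · simp

/-- the linear map -/
def T {b : Fin (r + 1) → ℕ} (hm : 3 ≤ m) (t : Fin (r + 1) → ℂ) : (Ix m b → ℂ) →ₗ[ℂ] (Ix m b → ℂ) where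
  toFun x p := W m b t (xt hm x) (inc p)
  map_add' x y := by
    funext p
    change W m b t (xt hm (x + y)) (inc p) = W m b t (xt hm x) (inc p) + W m b t (xt hm y) (inc p)
    unfold W
    rw [← Finset.sum_add_distrib]
    refine Finset.sum_congr rfl fun q _ => ?_
    rw [xt_add]
    split_ifs with h
    · ring
    · ring
  map_smul' a x := by
    funext p
    change W m b t (xt hm (a • x)) (inc p) = a * W m b t (xt hm x) (inc p)
    unfold W
    rw [Finset.mul_sum]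
    refine Finset.sum_congr rfl fun q _ => ?_
    rw [xt_smul]
    split_ifs with h
    · ring
    · ring

lemma T_inj (hS : S_Sfc) {b : Fin (r + 1) → ℕ} (t : Fin (r + 1) → ℂ) (hb : Cvb m b) :
    Function.Injective (T (b := b) hb.1 t) := by
  classical
  rw [injective_iff_map_eq_zero]
  intro x hx
  by_contra hne
  have hex : ∃ p, x p ≠ 0 := by
    by_contra hcon
    push Not at hcon
    exact hne (funext hcon)
  obtain ⟨p₀, hp₀⟩ := hex
  obtain ⟨p, hp, hmax⟩ := Finset.exists_max_image (Finset.univ.filter fun p => x p ≠ 0)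
    (fun p => e2 (inc p)) ⟨p₀, by simp [hp₀]⟩
  have hp1 : x p ≠ 0 := (Finset.mem_filter.1 hp).2
  have h0 : W m b t (xt hb.1 x) (inc p) = 0 := congrFun hx p
  have hval : xt hb.1 x (du hb.1 (inc p)) = x p := by
    unfold xt
    have h1 : Fk b (du hb.1 (du hb.1 (inc p))) := by
      rw [du_du]
      exact Fk_inc p
    rw [dif_pos h1]
    have h2 : toIx (du hb.1 (du hb.1 (inc p))) h1 = p := by
      apply inc_injective b
      rw [inc_toIx, du_du]
    rw [h2]
  have h2 : W m b t (xt hb.1 x) (inc p) =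
      sf m b t (c2 (inc p)) (e2 (inc p)) (e2 (du hb.1 (inc p))) * x p := by
    unfold W
    rw [Finset.sum_eq_single (du hb.1 (inc p))]
    · rw [if_pos, hval]
      rw [c2_du]
      have := c2_lt (inc p)
      omega
    · intro q _ hq
      split_ifs with h
      · rcases lt_trichotomy (e2 (inc p) + e2 q + 1) r with h3 | h3 | h3
        · have h4 : xt hb.1 x q = 0 := by
            unfold xt
            split_ifs with h5
            · by_contra h6
              have h7 := hmax (toIx (du hb.1 q) h5) (by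
                rw [Finset.mem_filter]
                exact ⟨Finset.mem_univ _, h6⟩)
              rw [inc_toIx, e2_du] at h7
              omega
            · rfl
          rw [h4, mul_zero]
        · exfalso
          apply hq
          apply ext2
          · rw [c2_du]
            omega
          · rw [e2_du]
            omega
        · rw [(hS m r b t hb (c2 (inc p)) (c2_mem (inc p)) (e2 (inc p)) (e2 q)).1 h3, zero_mul]
      · rfl
    · intro h
      exact absurd (Finset.mem_univ _) h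
  have h3 : sf m b t (c2 (inc p)) (e2 (inc p)) (e2 (du hb.1 (inc p))) ≠ 0 := by
    refine (hS m r b t hb (c2 (inc p)) (c2_mem (inc p)) (e2 (inc p)) (e2 (du hb.1 (inc p)))).2 ?_
    rw [e2_du]
    have := e2_lt (inc p)
    omega
  rw [h2] at h0
  exact (mul_ne_zero h3 hp1) h0

end QwM

open QwM in
theorem tQw : S_Sfc → S_Crd → S_Qw := by
  intro hS hC m r b t hb
  refine ⟨fun c hc => ⟨fun p => W m b t c (inc p), fun β => ?_⟩, fun w => ?_,
    fun β hβ => ⟨fun p => W' m b t β (inc p), fun c => ?_⟩⟩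
  · exact part1 hS hC t hb c (pr_zero c hc) β
  · obtain ⟨x, hx⟩ := (LinearMap.injective_iff_surjective.1 (T_inj hS t hb)) w
    have hz : ∀ q, Fk b q → xt hb.1 x q = 0 := by
      intro q hq
      unfold xt
      rw [dif_neg]
      rw [Fk_du hC hb q]
      exact fun h => h hq
    refine ⟨xt hb.1 x, ?_, fun β => ?_⟩
    · funext p
      exact hz (inc p) (Fk_inc p)
    · rw [part1 hS hC t hb _ hz β]
      refine Finset.sum_congr rfl fun p _ => ?_
      have h1 : W m b t (xt hb.1 x) (inc p) = w p := congrFun hx p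
      rw [h1]
  · exact part3 hS hC t hb β (pr_zero β hβ) c

end TNF.AB
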