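import Pool.Agent.Lib.TNF.AB.SpecB

/-!
# Comparison of coefficients
-/

set_option autoImplicit false

open SEJ TATE Topology Metric MeasureTheory

noncomputable section

namespace TNF.AB

namespace Spc_aux

open Polynomial

lemma four {m : ℕ} {z : ℂ} (hz : IsPrimitiveRoot z m) (α : ℕ → ℂ)
    (h : ∀ n < m, ∑ c ∈ Finset.range m, α c * (z ^ n) ^ c = 0) : ∀ c < m, α c = 0 := by
  set P : ℂ[X] := ∑ c ∈ Finset.range m, C (α c) * X ^ c with hP
  have h1 : P = 0 ∨ m = 0 := by
    by_cases hm : m = 0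
    · exact Or.inr hm
    left
    refine Polynomial.eq_zero_of_natDegree_lt_card_of_eval_eq_zero P
      (f := fun n : Fin m => z ^ (n : ℕ)) ?_ ?_ ?_
    · intro n n' hnn
      exact Fin.ext (hz.pow_inj n.2 n'.2 hnn)
    · intro n
      rw [hP, eval_finsetSum]
      simpa using h n n.2
    · rw [Fintype.card_fin]
      refine lt_of_le_of_lt (natDegree_sum_le_of_forall_le (n := m - 1) _ _ fun c hc => ?_)
        (Nat.sub_lt (Nat.pos_of_ne_zero hm) one_pos)
      exact (natDegree_C_mul_X_pow_le _ _).trans (Nat.le_sub_one_of_lt (Finset.mem_range.1 hc))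
  intro c hc
  rcases h1 with h1 | h1
  · have h2 : P.coeff c = α c := by
      rw [hP, finsetSum_coeff]
      simp only [coeff_C_mul, coeff_X_pow]
      rw [Finset.sum_eq_single c]
      · simp
      · intro c' _ hne
        rw [if_neg (Ne.symm hne), mul_zero]
      · intro hc'
        exact absurd (Finset.mem_range.2 hc) hc'
    rw [← h2, h1, coeff_zero]
  · omega

lemma dprod {ι : Type} (s : Finset ι) (t : ι → ℂ) (n : ι → ℕ) (x : ℂ) (hx : ∀ j ∈ s, x ≠ t j) :
    (derivative (∏ j ∈ s, (X - C (t j)) ^ n j)).eval x =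
      (∏ j ∈ s, (x - t j) ^ n j) * ∑ j ∈ s, (n j : ℂ) / (x - t j) := by
  classical
  induction s using Finset.induction_on with
  | empty => simp
  | insert a s ha ih =>
    have hxa : x - t a ≠ 0 := sub_ne_zero.2 (hx a (Finset.mem_insert_self a s))
    rw [Finset.prod_insert ha, Finset.prod_insert ha, Finset.sum_insert ha, derivative_mul,
      eval_add, eval_mul, eval_mul, ih fun j hj => hx j (Finset.mem_insert_of_mem hj),
      derivative_X_sub_C_pow, eval_prod]
    simp only [eval_mul, eval_pow, eval_sub, eval_X, eval_C]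
    have h1 : (n a : ℂ) * (x - t a) ^ (n a - 1) = (x - t a) ^ n a * ((n a : ℂ) / (x - t a)) := by
      rcases Nat.eq_zero_or_pos (n a) with h0 | h0
      · simp [h0]
      · obtain ⟨k, hk⟩ : ∃ k, n a = k + 1 := ⟨n a - 1, by omega⟩
        rw [hk, Nat.add_sub_cancel, pow_succ]
        field_simp
    rw [h1]
    ring

variable {m r : ℕ} {b : Fin (r + 1) → ℕ} {t : Fin (r + 1) → ℂ}

lemma om2_rot (x y w : ℂ) (q : Ix2 m r) :
    om2 m b t (x, w * y) q = om2 m b t (x, y) q * w ^ c2 q := by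
  simp only [om2, gu, mul_pow]
  ring

/-- The identity at a point. -/
lemma at_pt (h1 : S_Brs) (h2 : S_Dva) (hm : 1 ≤ m) (ℓ : Ix2 m r → ℂ) (f : ℂ × ℂ → ℂ)
    (A : ℕ → ℂ[X]) (B : ℂ[X]) (S : Finset ℂ)
    (hf : Dv m b t (S : Set ℂ) f fun X => ∑ q, ℓ q * om2 m b t X q)
    (hfB : ∀ X ∈ Pts m b t, X.1 ∉ S → f X * B.eval X.1 = evA m A X)
    (P : ℂ × ℂ) (hP : P ∈ Pts m b t) (hPS : P.1 ∉ S) :
    (∑ q, ℓ q * om2 m b t P q) * (B.eval P.1) ^ 2 =
      dvA m b t A P * B.eval P.1 - evA m A P * B.derivative.eval P.1 := by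
  obtain ⟨hop, h0, -, -, -, hbp, hder, -⟩ := h1 m r b t hm P hP
  have d1 := hf P hP hPS
  have d2 := h2 m r b t hm A P hP (Set.notMem_empty _)
  have d3 := B.hasDerivAt P.1
  have d4 := d1.mul d3
  have hev : (fun x => f (bp m b t P x) * B.eval x) =ᶠ[𝓝 P.1] fun x => evA m A (bp m b t P x) := by
    have e1 : ∀ᶠ x in 𝓝 P.1, x ∈ st t P.1 := hop.mem_nhds h0
    have e2 : ∀ᶠ x in 𝓝 P.1, x ∉ (S : Set ℂ) :=
      S.finite_toSet.isClosed.isOpen_compl.mem_nhds hPS
    filter_upwards [e1, e2] with x hx1 hx2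
    exact hfB (bp m b t P x) (hder x hx1).1 hx2
  have d5 := (d2.congr_of_eventuallyEq hev).unique d4
  have h3 : f P * B.eval P.1 = evA m A P := hfB P hP hPS
  rw [hbp] at d5
  rw [d5]
  have : (∑ q, ℓ q * om2 m b t P q) * (B.eval P.1) ^ 2 =
      ((∑ q, ℓ q * om2 m b t P q) * B.eval P.1 + f P * B.derivative.eval P.1) * B.eval P.1 -
        (f P * B.eval P.1) * B.derivative.eval P.1 := by ring
  rw [this, h3]

/-- The coefficient of a character at a point. -/
lemma coef (h1 : S_Brs) (h2 : S_Dva) (hm : 1 ≤ m) (ℓ : Ix2 m r → ℂ) (f : ℂ × ℂ → ℂ)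
    (A : ℕ → ℂ[X]) (B : ℂ[X]) (S : Finset ℂ)
    (hf : Dv m b t (S : Set ℂ) f fun X => ∑ q, ℓ q * om2 m b t X q)
    (hfB : ∀ X ∈ Pts m b t, X.1 ∉ S → f X * B.eval X.1 = evA m A X)
    (x y : ℂ) (hP : (x, y) ∈ Pts m b t) (hPS : x ∉ S) (u : ℕ) (hu : u < m) :
    (∑ q : Ix2 m r, if c2 q = u then ℓ q * om2 m b t (x, y) q else 0) * (B.eval x) ^ 2 =
      (((A u).derivative.eval x + (A u).eval x * (u * ∑ j, (b j : ℂ) / (m * (x - t j)))) *
        B.eval x - (A u).eval x * B.derivative.eval x) * y ^ u := by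
  set z : ℂ := Complex.exp (2 * Real.pi * Complex.I / m) with hz
  have hzp : IsPrimitiveRoot z m := Complex.isPrimitiveRoot_exp m (by omega)
  have key := four hzp (fun u => (∑ q : Ix2 m r, if c2 q = u then ℓ q * om2 m b t (x, y) q else 0) *
      (B.eval x) ^ 2 -
      (((A u).derivative.eval x + (A u).eval x * (u * ∑ j, (b j : ℂ) / (m * (x - t j)))) *
        B.eval x - (A u).eval x * B.derivative.eval x) * y ^ u) ?_ u hu
  · exact sub_eq_zero.1 key
  intro n hn
  have hPn : (x, z ^ n * y) ∈ Pts m b t := by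
    refine ⟨hP.1, ?_⟩
    have h3 : (z ^ n) ^ m = 1 := by rw [← pow_mul, mul_comm, pow_mul, hzp.pow_eq_one, one_pow]
    have h4 : y ^ m = ∏ j, (x - t j) ^ b j := hP.2
    show (z ^ n * y) ^ m = ∏ j, (x - t j) ^ b j
    rw [mul_pow, h3, one_mul, h4]
  have h5 := at_pt h1 h2 hm ℓ f A B S hf hfB _ hPn hPS
  have h6 : ∑ c ∈ Finset.range m, (∑ q : Ix2 m r, if c2 q = c then ℓ q * om2 m b t (x, y) q else 0) *
      (B.eval x) ^ 2 * (z ^ n) ^ c = (∑ q, ℓ q * om2 m b t (x, z ^ n * y) q) * (B.eval x) ^ 2 := by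
    simp only [Finset.sum_mul]
    rw [Finset.sum_comm]
    refine Finset.sum_congr rfl fun q _ => ?_
    rw [Finset.sum_eq_single (c2 q)]
    · rw [if_pos rfl, om2_rot]
      ring
    · intro c _ hc
      rw [if_neg (Ne.symm hc)]
      ring
    · intro hc
      exact absurd (Finset.mem_range.2 q.1.1.2) hc
  have h7 : ∑ c ∈ Finset.range m, (((A c).derivative.eval x + (A c).eval x *
      (c * ∑ j, (b j : ℂ) / (m * (x - t j)))) * B.eval x - (A c).eval x * B.derivative.eval x) *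
      y ^ c * (z ^ n) ^ c = dvA m b t A (x, z ^ n * y) * B.eval x -
        evA m A (x, z ^ n * y) * B.derivative.eval x := by
    simp only [dvA, evA]
    rw [Finset.sum_mul, Finset.sum_mul, ← Finset.sum_sub_distrib]
    refine Finset.sum_congr rfl fun c _ => ?_
    rw [mul_pow]
    ring
  rw [Finset.sum_congr rfl fun c _ => sub_mul _ _ ((z ^ n) ^ c), Finset.sum_sub_distrib, h6, h7, h5,
    sub_self]

end Spc_aux

open Spc_aux Polynomial in
theorem tSpc (h1 : S_Brs) (h2 : S_Dva) : S_Spc := by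
  intro m r b t hC ht ℓ f A B S hS hB hf hfB u hu hcop
  have hm : 1 ≤ m := by have := hC.1; omega
  have hm0 : (m : ℂ) ≠ 0 := by
    have : m ≠ 0 := by omega
    exact_mod_cast this
  set T : ℂ[X] := ∏ j, (X - C (t j)) ^ (u * b j / m) with hT
  refine ⟨A u * T, ?_⟩
  refine Polynomial.eq_of_infinite_eval_eq _ _ ((S.finite_toSet.infinite_compl).mono ?_)
  intro x hx
  have hxS : x ∉ S := hx
  have hxt : ∀ j, x ≠ t j := by
    intro j hj
    exact hxS (hS (Finset.mem_image.2 ⟨j, Finset.mem_univ j, hj.symm⟩))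
  have hxt' : ∀ j, x - t j ≠ 0 := fun j => sub_ne_zero.2 (hxt j)
  obtain ⟨y, hy⟩ := IsAlgClosed.exists_pow_nat_eq (∏ j, (x - t j) ^ b j) (n := m) (by omega)
  have hP : (x, y) ∈ Pts m b t := by
    refine ⟨?_, hy⟩
    rintro ⟨j, hj⟩
    exact hxt j hj.symm
  have hy0 : y ≠ 0 := by
    intro h0
    rw [h0, zero_pow (by omega)] at hy
    exact (Finset.prod_ne_zero_iff.2 fun j _ => pow_ne_zero _ (hxt' j)) hy.symm
  have key := coef h1 h2 hm ℓ f A B S hf hfB x y hP hxS u hu
  have hTx : T.eval x = ∏ j, (x - t j) ^ (u * b j / m) := by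
    rw [hT, eval_prod]
    simp
  have hT0 : T.eval x ≠ 0 := by
    rw [hTx]
    exact Finset.prod_ne_zero_iff.2 fun j _ => pow_ne_zero _ (hxt' j)
  have hTd : T.derivative.eval x = T.eval x * ∑ j, ((u * b j / m : ℕ) : ℂ) / (x - t j) := by
    rw [hTx, hT]
    exact dprod _ _ _ _ fun j _ => hxt j
  have hqx : (qp t).eval x = qq t x := by
    rw [qp, eval_prod, qq]
    simp
  have hq0 : qq t x ≠ 0 := Finset.prod_ne_zero_iff.2 fun j _ => hxt' j
  have hpx : (pp m b t u).eval x = qq t x * ∑ j, fj m b u j / (x - t j) := by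
    rw [pp, eval_finsetSum, Finset.mul_sum]
    refine Finset.sum_congr rfl fun j _ => ?_
    rw [eval_mul, eval_C, eval_prod, qq, ← Finset.mul_prod_erase _ _ (Finset.mem_univ j)]
    simp only [eval_sub, eval_X, eval_C]
    field_simp [hxt' j]
  have hsum : (u : ℂ) * ∑ j, (b j : ℂ) / (m * (x - t j)) =
      ∑ j, ((u * b j / m : ℕ) : ℂ) / (x - t j) + ∑ j, fj m b u j / (x - t j) := by
    rw [Finset.mul_sum, ← Finset.sum_add_distrib]
    refine Finset.sum_congr rfl fun j _ => ?_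
    have h3 : (m : ℂ) * ((u * b j / m : ℕ) : ℂ) + ((u * b j % m : ℕ) : ℂ) = u * b j := by
      exact_mod_cast Nat.div_add_mod (u * b j) m
    rw [fj]
    have h4 := hxt' j
    field_simp
    rw [← h3]
  have hom : ∀ q : Ix2 m r, (if c2 q = u then ℓ q * om2 m b t (x, y) q else 0) =
      (if c2 q = u then C (ℓ q) * X ^ e2 q else 0 : ℂ[X]).eval x * (y ^ u / (T.eval x * qq t x)) := by
    intro q
    by_cases hq : c2 q = u
    · rw [if_pos hq, if_pos hq, om2, gu, hq, hTx, eval_mul, eval_C, eval_pow, eval_X]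
      have h5 : ∏ j, (x - t j) ^ (u * b j / m) ≠ 0 := by rw [← hTx]; exact hT0
      field_simp
    · rw [if_neg hq, if_neg hq, eval_zero, zero_mul]
  rw [Finset.sum_congr rfl fun q _ => hom q, ← Finset.sum_mul, ← eval_finsetSum] at key
  set R : ℂ[X] := ∑ q : Ix2 m r, if c2 q = u then C (ℓ q) * X ^ e2 q else 0 with hR
  have key2 : R.eval x * (B.eval x) ^ 2 = (((A u).derivative.eval x + (A u).eval x *
      (u * ∑ j, (b j : ℂ) / (m * (x - t j)))) * B.eval x - (A u).eval x * B.derivative.eval x) *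
      (T.eval x * qq t x) := by
    have h6 : y ^ u ≠ 0 := pow_ne_zero _ hy0
    field_simp at key
    linear_combination key
  show eval x _ = eval x _
  rw [eval_mul, eval_pow, key2, hsum]
  simp only [eval_add, eval_mul, eval_sub, derivative_mul, hTd, hqx, hpx]
  ring

end TNF.AB
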