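import Pool.Agent.Lib.TNF.AB.Ifc
import Pool.Agent.Lib.TATE.FA.Spec
import Pool.Agent.Lib.SE.CR.Spec

/-!
# PROJECT TNF, package AB, first part (helper12): kernel, paths, the key formula

Every module: file `TNF/AB/Xyz.lean`, `theorem tXyz : S_Xyz` (the hypotheses `S_A → …` are already written inside `S_Xyz`), namespace
`TNF.AB`, auxiliary lemmas in the namespace `TNF.AB.XyzM`, import `Pool.Agent.Lib.TNF.AB.SpecA` only (and landed modules of TATE/FA,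
SE, if useful). For the statements of `Ifc.lean` the theorems are

* `tBrs : S_Loc → S_Seg → S_Brs`, `tAlg2 : S_Loc → S_Seg → S_Alg2`, `tItp : S_Brs → S_Itp`
* `tGp : S_Loc → S_Seg → S_Sub → S_Alg2 → S_Prm → S_Chn → S_Gp0 → S_Itp → TATE.FA.S_Con → S_Gp` (proof at `S_Gp0` below)
* `tLzg2 : S_Alg2 → S_Itp → S_Gp → S_Lzg2`
* `tNd : S_Sfc → S_Nd`, `tQw : S_Sfc → S_Crd → S_Qw` (proofs at `S_Crd` below)
* `tKey : S_Loc → S_Seg → S_Sub → S_Alg2 → S_Prm → S_Chn → S_Val → S_Key`, `tQz` with the same hypotheses (proof at `S_Val` below).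

`ζ = ze m 1`, `ze m u = ζ ^ u`, `ζ ^ m = 1`.

`bp m b t Y x = (x, br m b t Y x)`: the point over `x` on the branch through `Y`. On a convex set `C` without branch points this is a
branch of the curve (`S_Loc`).
-/

set_option autoImplicit false

open Topology Metric

noncomputable section

namespace TNF.AB

open SEJ TATE

/-- `C` is convex and contains no branch point. -/
structure Cx {r : ℕ} (t : Fin (r + 1) → ℂ) (C : Set ℂ) : Prop where
  cvx : Convex ℝ C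
  not : ∀ j, t j ∉ C

/-- The points over the path `p`. -/
def ovr (m : ℕ) {r : ℕ} (b : Fin (r + 1) → ℕ) (t : Fin (r + 1) → ℂ) (S : Set ℂ) : Set (ℂ × ℂ) :=
  {X | X ∈ Pts m b t ∧ X.1 ∈ S}

/-- `g` is a primitive of the forms `om2` on the branch through `Y` over `S`. -/
def IsPm (m : ℕ) {r : ℕ} (b : Fin (r + 1) → ℕ) (t : Fin (r + 1) → ℂ) (Y : ℂ × ℂ) (S : Set ℂ)
    (g : ℂ → (Ix2 m r → ℂ)) : Prop :=
  ∀ x ∈ S, HasDerivAt g (om2 m b t (bp m b t Y x)) x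

/-! ## 1. Arithmetic and algebra -/

/-- **Ram**: RAMANUJAN SUMS. PROOF. Strong induction on `m`: the sum over all `k < m` of `ζ ^ (k c)` is `m` or `0` (geometric series). Sort the `k`
by `d = m / gcd(k, m)`: `k = (m / d) u`, `u < d`, `(u, d) = 1` (for `k = 0`: `d = 1`, `u = 0`), `ζ_m ^ (k c) = ζ_d ^ (u c)`. So the sum of the Ramanujan
sums over the divisors `d` of `m` is an integer, and those with `d < m` are integers. Second: `u ↦ m - u` permutes `Us m` (`m ≥ 2`; for `m = 1` both sums are `1`). -/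
def S_Ram : Prop :=
  ∀ m : ℕ, 1 ≤ m → ∀ c : ℕ, ∃ n : ℤ, (∑ u ∈ Us m, ze m 1 ^ (u * c) = n) ∧
    ∑ u ∈ Us m, ze m 1 ^ ((m - u) * c) = n

/-- **Id1**: THE POLYNOMIAL IDENTITY. PROOF. Let `q = ∑ q_k X^k`, `P_+ = pp u = ∑ p_k X^k` (degree `≤ r`), `P_- = ∑_j (1 - f_j) ∏_(l ≠ j) (X - t_l) = q' - P_+`. So
`(q(a) - q(x)) / (x-a)^2 + (P_-(a) + P_+(x)) / (x-a) = (q(a) - q(x) + q'(a) (x-a)) / (x-a)^2 + (P_+(x) - P_+(a)) / (x-a)`. For a monomial:
`(x^k - a^k) / (x-a) = ∑_(i+j = k-1) x^i a^j`, `(x^k - a^k - k a^(k-1) (x-a)) / (x-a)^2 = ∑_(i+j = k-2) (j+1) x^i a^j` (multiply by `(x-a)^2`). Coefficient of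
`x^i a^j`: `p_(i+j+1) - (j+1) q_(i+j+2) = sf u i j`; it vanishes for `i + j ≥ r` (`deg q = r+1`, `deg P_+ ≤ r`), so the sum may be restricted to `i, j < r`. (Only polynomial
identities: after multiplication by `(x-a)^2` one may prove it for `q`, `P_+` replaced by monomials, by linearity.) -/
def S_Id1 : Prop :=
  ∀ (m r : ℕ) (b : Fin (r + 1) → ℕ) (t : Fin (r + 1) → ℂ) (u : ℕ) (x a : ℂ), x ≠ a →
    ∑ i : Fin r, ∑ j : Fin r, sf m b t u i j * x ^ (i : ℕ) * a ^ (j : ℕ) =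
      ((qp t).eval a - (qp t).eval x) / (x - a) ^ 2 +
        ((Polynomial.derivative (qp t)).eval a - (pp m b t u).eval a + (pp m b t u).eval x) / (x - a)

/-- **Sfc**: THE ANTIDIAGONAL. PROOF. `qp` is monic of degree `r + 1`, the coefficient of `X^r` in `pp u` is `∑_j f_j`, its degree is at most `r`. With `i + j + 1 = r`: `sf u i j = ∑ f - (j + 1)`. `∑ f` is not an integer: `m ∑_j f_j ≡ u ∑ b_j`
modulo `m`, `u` prime to `m`, `m ∤ ∑ b_j`. -/
def S_Sfc : Prop :=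
  ∀ (m r : ℕ) (b : Fin (r + 1) → ℕ) (t : Fin (r + 1) → ℂ), Cvb m b → ∀ u ∈ Us m, ∀ i j : ℕ,
    (r < i + j + 1 → sf m b t u i j = 0) ∧ (i + j + 1 = r → sf m b t u i j ≠ 0)

/-- **Crd**: THE INDICES OF THE FIRST KIND. `p_u + p_(m-u) = r`: for `i + k + 1 = r` exactly one of `(u, i)`, `(m-u, k)` is of the first kind. PROOF. `u b_j mod m + (m-u) b_j mod m = m` (`m ∤ u b_j`); let `S = ∑_j (u b_j) % m`; the other sum is `m (r+1) - S`.
`(u, i)`: `m i + S < m r`; `(m-u, k)`: `m k + m (r+1) - S < m r`, i.e. `m (k + 1) < S`, i.e. `m (r - i) < S` for `k + 1 = r - i`, i.e. `m r < m i + S`. `m r ≠ m i + S` because `m ∤ S` (`m ∤ u ∑ b_j`). -/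
def S_Crd : Prop :=
  ∀ (m r : ℕ) (b : Fin (r + 1) → ℕ), Cvb m b → ∀ u ∈ Us m, ∀ i k : ℕ, i + k + 1 = r →
    (m * i + ∑ j, (u * b j) % m < m * r ↔ ¬ m * k + ∑ j, ((m - u) * b j) % m < m * r)

/- **Nd** (`tNd : S_Sfc → S_Nd`): THE PAIRING IS NONDEGENERATE. PROOF. Let `β (u, i') ≠ 0` for some `u`, `i'`; `i` the SMALLEST exponent with `β (u, i) ≠ 0`, `k = r - 1 - i`, `c` = the unit vector of `(m-u, k)`: `Qf β c = ∑_(i') sf u i' k β (u, i')`; `i' < i`: `β = 0`;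
`i' > i`: `sf = 0` (`i' + k + 1 > r`); `i' = i`: `sf ≠ 0`. The same with the sides exchanged. (`u ∈ Us m` iff `m - u ∈ Us m`, `1 ≤ u < m`, because `m ≥ 3`.)

**Qw** (`tQw : S_Sfc → S_Crd → S_Qw`): THE PAIRING AND THE FORMS OF THE FIRST KIND. PROOF. If `pr c = 0` and `c (m-u, k) ≠ 0`, `(m-u, k)` is not of the first kind; `sf u i k ≠ 0` only for `i ≤ r - 1 - k`, and `(u, r-1-k)` is of the first kind (`S_Crd`), so `(u, i)` is (the condition is monotone in `i`).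
So `Qf β c = ∑_(p first kind) w p β p`, `w p = ∑_q sf * c q`. Second: given `w`, solve for `c` on the `(m-u, k)` which are not of the first kind: `∑_k sf u i k c (m-u, k) = w (u, i)` for the first kind `(u, i)`. The matrix `(i, r-1-i')` is triangular with nonzero diagonal: the linear map `c ↦ w` between spaces
of the same dimension (`(u, i) ↔ (m-u, r-1-i)`, `S_Crd`) is injective (as in Nd), so surjective (`LinearMap.injective_iff_surjective` on functions of the first kind indices), or recursion on `i` from the largest value downwards. Third part: as the first one with the sides exchanged. -/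

/-! ## 2. Branches -/

/-- **Loc**: BRANCHES. PROOF. If `z, x ∈ C`, `t_j ∉ C`: `(z - t_j) / (x - t_j) = 1 + (z-x)/(x-t_j)` is not real `≤ 0`: otherwise `t_j` is on the segment `[x, z]` (`t_j = (λ x + z)/(1 + λ)`, `-λ` the value). `(∏ …) ^ m`: `(w ^ (b/m)) ^ m = w ^ b` (`Complex.cpow_nat_mul` or
`Complex.cpow_mul_nat`), so `bp Y x ∈ Pts`. Compatibility: both sides are continuous in `z ∈ C` (`C ⊆ st t x`, principal powers are continuous on the slit plane), their `m`-th powers are equal and `≠ 0`, they agree at `z = x` (`1 ^ _ = 1`); `C` is preconnected: the quotient is a continuous function with values in the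
`m`-th roots of unity, constant (`IsPreconnected.constant_of_mapsTo`, or `SECR.Al.roots`). Sheets: quotient of two `m`-th roots; `Y ↦ (Y.1, w * Y.2)` multiplies `br` by `w`. Derivative: of principal powers. The primitive: `sgi Y x (om2 q)` for the components, or `DifferentiableOn.isExactOn_ball` on balls; here `C` is a ball. -/
def S_Loc : Prop :=
  ∀ (m r : ℕ) (b : Fin (r + 1) → ℕ) (t : Fin (r + 1) → ℂ), 1 ≤ m → ∀ C : Set ℂ, Cx t C → ∀ Y ∈ Pts m b t, Y.1 ∈ C →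
    (∀ x ∈ C, C ⊆ st t x) ∧ br m b t Y Y.1 = Y.2 ∧ (∀ x ∈ C, bp m b t Y x ∈ Pts m b t) ∧
    (∀ x ∈ C, ∀ z ∈ C, br m b t (bp m b t Y x) z = br m b t Y z) ∧
    (∀ x ∈ C, ∀ y, (x, y) ∈ Pts m b t → ∃ c < m, y = ze m 1 ^ c * br m b t Y x) ∧
    (ContinuousOn (br m b t Y) C) ∧
    ∀ x ∈ interior C, HasDerivAt (br m b t Y) (br m b t Y x * ∑ j, (b j : ℂ) / (m * (x - t j))) x

/-- **Seg**: SEGMENTS. PROOF. The segment from `Q.1` to `R.1 ∈ st t Q.1` is a convex set without branch points. Conversely if it is such a set, `R.1 ∈ st t Q.1`: both are the computation in `S_Loc`. -/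
def S_Seg : Prop :=
  ∀ (r : ℕ) (t : Fin (r + 1) → ℂ) (x y : ℂ), (∀ j, t j ≠ x) →
    (y ∈ st t x ↔ Cx t (segment ℝ x y)) ∧ segment ℝ x y = sx x y '' Set.Icc (0 : ℝ) 1

/-- **Prm**: PRIMITIVES. From `S_Loc`. PROOF. On a ball the components of `om2 (bp Y x)` are holomorphic (`x ^ i * gu / qq`, `br Y` holomorphic): `DifferentiableOn.isExactOn_ball` (or `Complex.IsExactOn…`). The integral along the lift of a segment in the ball: `sgi (bp Y x) z` integrates `om2 (bp (bp Y x) ·) = om2 (bp Y ·)`;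
fundamental theorem of calculus. -/
def S_Prm : Prop :=
  S_Loc → ∀ (m r : ℕ) (b : Fin (r + 1) → ℕ) (t : Fin (r + 1) → ℂ), 1 ≤ m → ∀ (x₀ : ℂ) (ρ : ℝ), Cx t (ball x₀ ρ) → ∀ Y ∈ Pts m b t, Y.1 ∈ ball x₀ ρ →
    (∃ g, IsPm m b t Y (ball x₀ ρ) g) ∧
    ∀ g, IsPm m b t Y (ball x₀ ρ) g → ∀ x ∈ ball x₀ ρ, ∀ z ∈ ball x₀ ρ, ∀ q,
      sgi m b t (bp m b t Y x) z (fun X => om2 m b t X q) = g z q - g x q

/-! ## 3. Paths -/

/-- **Pth**: POINTS OF A PATH. From `S_Loc`, `S_Seg`. PROOF. Induction on `p`; `R.2 = br Q R.1`, so `R = bp Q R.1 ∈ Pts`; `on` is a finite union of images of `[0, 1]`, without branch points. -/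
def S_Pth : Prop :=
  S_Loc → S_Seg → ∀ (m r : ℕ) (b : Fin (r + 1) → ℕ) (t : Fin (r + 1) → ℂ), 1 ≤ m → ∀ (P Q : ℂ × ℂ) (p : Path m b t P Q),
    P ∈ Pts m b t ∧ Q ∈ Pts m b t ∧ P.1 ∈ p.on ∧ Q.1 ∈ p.on ∧ IsCompact p.on ∧ (∀ j, t j ∉ p.on) ∧
    interior p.on = ∅

/-- **Lnr**: LINEARITY of the integral for functions which are continuous over the path. From `S_Loc`, `S_Seg`. PROOF. Induction; `u ↦ bp Q (sx Q.1 R.1 u)` is continuous on `[0, 1]` with values over `on`, so all functions are interval integrable. -/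
def S_Lnr : Prop :=
  S_Loc → S_Seg → ∀ (m r : ℕ) (b : Fin (r + 1) → ℕ) (t : Fin (r + 1) → ℂ), 1 ≤ m → ∀ (P Q : ℂ × ℂ) (p : Path m b t P Q),
    (∀ (ι : Type) (s : Finset ι) (c : ι → ℂ) (h : ι → ℂ × ℂ → ℂ), (∀ i ∈ s, ContinuousOn (h i) (ovr m b t p.on)) →
      p.int (fun X => ∑ i ∈ s, c i * h i X) = ∑ i ∈ s, c i * p.int (h i)) ∧
    ∀ h h' : ℂ × ℂ → ℂ, (∀ X ∈ ovr m b t p.on, h X = h' X) → p.int h = p.int h'

/-- **Sub**: SUBDIVISION. PROOF. (For `S_Alg2`, theorem `tAlg2 : S_Loc → S_Seg → S_Alg2`: concatenation: induction on the second path. Reversal of one segment: `Sg Q R → Sg R Q` (`S_Loc` on the segment: `br (bp Q R.1) Q.1 = br Q Q.1 = Q.2`), `bp R (sx R.1 Q.1 u) = bp Q (sx Q.1 R.1 (1 - u))`,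
`intervalIntegral.integral_comp_sub_left`; then induction with concatenation. Sheets: `br (Q.1, w Q.2) = w br Q`.) Subdivision of a segment at `z = sx Q.1 x v`: `bp (bp Q z) = bp Q` on the segment (`S_Loc` for `C` = the segment), substitution in the integral (`intervalIntegral.integral_comp_mul_add`-type), `integral_add_adjacent_intervals`
(`h ∘ bp` is continuous). -/
def S_Sub : Prop :=
  S_Loc → S_Seg → ∀ (m r : ℕ) (b : Fin (r + 1) → ℕ) (t : Fin (r + 1) → ℂ), 1 ≤ m →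
    ∀ (Q : ℂ × ℂ) (x z : ℂ), Q ∈ Pts m b t → x ∈ st t Q.1 → z ∈ segment ℝ Q.1 x → z ∈ st t Q.1 ∧ x ∈ st t z ∧
      ∀ h : ℂ × ℂ → ℂ, ContinuousOn h (ovr m b t (segment ℝ Q.1 x)) →
        sgi m b t Q x h = sgi m b t Q z h + sgi m b t (bp m b t Q z) x h

/-- **Chn**: THE CHAIN PRINCIPLE. From `S_Loc`, `S_Seg`, `S_Sub`, `S_Prm`. PROOF. Induction on `p` (additivity) reduces to one segment from `Q` to `R`, `C = [Q.1, R.1]`. Every `x ∈ C` has a radius for `Y = bp Q x` (hypothesis; make it smaller, so that the ball is `Cx`); Lebesgue number (`lebesgue_number_lemma_of_metric`, or induction along `[0, 1]`: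
`IsClosed.Icc_subset_of_forall_exists_gt` for the set of the `v ∈ [0, 1]` with `R Q (bp Q (sx v)) (integral to sx v)`). For `x, x'` in one ball around `Y.1`, both on `C`: `bp Y x = bp Q x` (`S_Loc` for the segment and for the ball), and the integral of `om2` from `x` to `x'` is `g x' - g x` (`S_Prm`). -/
def S_Chn : Prop :=
  S_Loc → S_Seg → S_Sub → S_Prm → ∀ (m r : ℕ) (b : Fin (r + 1) → ℕ) (t : Fin (r + 1) → ℂ), 1 ≤ m →
    ∀ R : ℂ × ℂ → ℂ × ℂ → (Ix2 m r → ℂ) → Prop, (∀ P ∈ Pts m b t, R P P 0) →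
      (∀ P Q S v w, R P Q v → R Q S w → R P S (v + w)) →
      (∀ Y ∈ Pts m b t, ∃ ρ > 0, Cx t (ball Y.1 ρ) ∧ ∀ g, IsPm m b t Y (ball Y.1 ρ) g →
        ∀ x ∈ ball Y.1 ρ, ∀ x' ∈ ball Y.1 ρ, R (bp m b t Y x) (bp m b t Y x') (g x' - g x)) →
      ∀ (P Q : ℂ × ℂ) (p : Path m b t P Q), R P Q p.v

/-- **Gp0** (for `tGp`, hypotheses see the header): TWO POINTS IN A BALL are joined by a path over the ball which avoids the finite set `A`. PROOF. Choose the middle point in the ball off the finitely many lines through `x` or `z` and a point of `A`; the segments are in the ball. Integrals: `S_Prm`.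
PROOF of `S_Gp`: write `V Y x` for the vector of the integrals `sgi Y x (om2 q)`. `S_Chn` for the relation `R P Q v`: there is `δ > 0` (balls `Cx`) such that for all `x ∈ ball P.1 δ`, `z ∈ ball Q.1 δ` not in `A` there is a path from `bp P x` to `bp Q z` which avoids `A`, with the integrals `v + V Q z - V P x`. Reflexive and local part: `S_Gp0`.
Additive: choose a middle point in the ball off `A`. For the given path take `x = P.1`, `z = Q.1`. Closed paths with the base point over `A`: conjugate by a short path to a point off `A`. Connectedness: `TATE.FA.S_Con`, `S_Itp`. -/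
def S_Gp0 : Prop :=
  S_Loc → S_Seg → S_Prm → ∀ (m r : ℕ) (b : Fin (r + 1) → ℕ) (t : Fin (r + 1) → ℂ), 1 ≤ m → ∀ A : Set ℂ, A.Finite →
    ∀ (x₀ : ℂ) (ρ : ℝ), Cx t (ball x₀ ρ) → ∀ Y ∈ Pts m b t, Y.1 ∈ ball x₀ ρ → ∀ x ∈ ball x₀ ρ, ∀ z ∈ ball x₀ ρ, x ∉ A → z ∉ A →
      ∃ p : Path m b t (bp m b t Y x) (bp m b t Y z), Disjoint p.on A ∧ p.on ⊆ ball x₀ ρ ∧
        ∀ g, IsPm m b t Y (ball x₀ ρ) g → p.v = g z - g x

/-! ## 4. The kernel identity and the derivative -/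

/-- `d kap / dX` -/
def dkap (m : ℕ) {r : ℕ} (b : Fin (r + 1) → ℕ) (t : Fin (r + 1) → ℂ) (P X : ℂ × ℂ) : ℂ :=
  ∑ u ∈ Us m, gu m b t u X * gu m b t (m - u) P / (qq t P.1 * (X.1 - P.1)) *
    (∑ j, fj m b u j / (X.1 - t j) - 1 / (X.1 - P.1))

/-- **Id2**: THE KERNEL IDENTITY. From `S_Id1`, `S_Loc`. PROOF. `g_u' / g_u = ∑ f_j(u) / (x - t_j)` (`y' / y = ∑ b_j / (m (x-t_j))`, `u b_j / m - [u b_j / m] = f_j(u)`), and `f_j(m-u) = 1 - f_j(u)` for `u ∈ Us m` (`m ∤ b_j`). First: product rule. Second: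
`d/dx [g_u(X) g_(m-u)(P) / (q(X) (X - P))]` in the variable `P` is `g_u g_(m-u) / q(X) * [∑ (1-f_j)/(a - t_j) / (x-a) + 1/(x-a)^2]`; the sum with the corresponding term of `dkap` is `g_u(X) g_(m-u)(P) / (q(x) q(a))` times the right side of `S_Id1`
(`q(x) ∑ f_j/(x-t_j) = pp u (x)`, `q(a) ∑ 1/(a-t_j) = q'(a)`), and `Qf (om2 X) (om2 P)` is the sum over `u` of `g_u(X) g_(m-u)(P) / (q(x) q(a))` times the left side (for `p` with `c2 p = u` the `q` with `c2 p + c2 q = m` are those with `c2 q = m - u`). -/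
def S_Id2 : Prop :=
  S_Id1 → S_Loc → ∀ (m r : ℕ) (b : Fin (r + 1) → ℕ) (t : Fin (r + 1) → ℂ), Cvb m b → ∀ Y ∈ Pts m b t, ∀ Y' ∈ Pts m b t, ∀ C C' : Set ℂ, Cx t C → Cx t C' → IsOpen C → IsOpen C' →
    Y.1 ∈ C → Y'.1 ∈ C' → ∀ x ∈ C, ∀ a ∈ C', x ≠ a →
      HasDerivAt (fun x' => kap m b t (bp m b t Y' a) (bp m b t Y x')) (dkap m b t (bp m b t Y' a) (bp m b t Y x)) x ∧
      HasDerivAt (fun a' => eta m b t (bp m b t Y' a') (bp m b t Y x))
        (Qf m b t (om2 m b t (bp m b t Y x)) (om2 m b t (bp m b t Y' a)) - dkap m b t (bp m b t Y' a) (bp m b t Y x)) a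

/-- **Der**: THE DERIVATIVE OF THE INTEGRAL. From `S_Id2`, `S_Loc`, `S_Seg`, `S_Lnr`. (`S_Id2` is used with its conclusion: the module gets `h : S_Id1`.) PROOF. One segment from `Q` to `R`, `a₀ ∉` the segment: differentiate under the integral (`intervalIntegral.hasDerivAt_integral_of_dominated_loc_of_deriv_le`; the derivative
of the integrand is continuous in `(u, a)`, `a` near `a₀`, bounded by compactness), `S_Id2` for open convex neighbourhoods: for every `x` on the segment there is an open convex `C ∋ x` without branch points, with `Y := bp Q x`. The part with `dkap` is `∫ (R.1 - Q.1) dkap du = kap R - kap Q` (fundamental theorem, chain rule). The part with `Qf`: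
linearity (`Qf (om2 X) w` is a finite sum of multiples of `om2 X p`). Induction over the path: the `kap`-terms telescope. -/
def S_Der : Prop :=
  S_Id1 → S_Id2 → S_Loc → S_Seg → S_Lnr → ∀ (m r : ℕ) (b : Fin (r + 1) → ℕ) (t : Fin (r + 1) → ℂ), Cvb m b → ∀ (A B : ℂ × ℂ) (p : Path m b t A B), ∀ Y ∈ Pts m b t, Y.1 ∉ p.on →
    HasDerivAt (fun a => p.int (eta m b t (bp m b t Y a)))
      (Qf m b t p.v (om2 m b t Y) - (kap m b t Y B - kap m b t Y A)) Y.1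

/-! ## 5. Crossing -/

/-- **Dsl**: DIFFERENCE QUOTIENTS. PROOF. Let `F` be holomorphic on the ball, `α, β` in the ball. For `|z - x₀| < ρ' < ρ`, `ρ'` big enough for `α, β` (and for `x` in a smaller ball): `dslope F x z = (2 π i)⁻¹ ∮ F(w) / ((w - z) (w - x)) dw` over `|w - x₀| = ρ'` (Cauchy for `dslope F x`, which is holomorphic; or partial fractions and Cauchy for `F`), so
`∫_0^1 (β - α) dslope F x (sx α β u) du = (2 π i)⁻¹ ∮ (w - x)⁻¹ F(w) (∫_0^1 (β-α) / (w - sx α β u) du) dw` (Fubini, continuous integrand), holomorphic in `x` (`hasFPowerSeriesOn_cauchy_integral`). Holomorphy is local, so `ρ'` may depend on `x`. -/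
def S_Dsl : Prop :=
  ∀ (x₀ : ℂ) (ρ : ℝ) (F : ℂ → ℂ), DifferentiableOn ℂ F (ball x₀ ρ) → ∀ α ∈ ball x₀ ρ, ∀ β ∈ ball x₀ ρ,
    DifferentiableOn ℂ (fun x => ∫ u in (0 : ℝ)..1, (β - α) * dslope F x (sx α β u)) (ball x₀ ρ)

/-- **Lgi**: THE LOGARITHMIC INTEGRAL. PROOF. `d/du [(sx α β u - x) exp (- ∫_0^u (β-α) / (sx α β v - x) dv)] = 0`. -/
def S_Lgi : Prop :=
  ∀ α β x : ℂ, x ∉ segment ℝ α β →
    Complex.exp (∫ u in (0 : ℝ)..1, (β - α) / (sx α β u - x)) = (β - x) / (α - x)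

/-- **X1**: A SEGMENT IN A SMALL BALL. From `S_Ram`, `S_Loc`, `S_Dsl`, `S_Lgi`. PROOF. `Y' = (Y.1, ζ^c Y.2)`; for `z` in the ball the point on the lift is `X = (z, ζ^c br Y z)`, the pole is `(x, br Y x)`. With `F_u(z) = gu u X / qq z`, `K_u(x) = gu (m-u) (bp Y x)`, holomorphic on the ball: `eta = ∑_u F_u(z) K_u(x) / (z - x)`,
`F_u(x) K_u(x) = ζ^(c u) g_u g_(m-u) / q = ζ^(c u)`, because `g_u g_(m-u) = y^m / ∏ (x-t_j)^([u b_j/m] + [(m-u) b_j/m]) = ∏ (x-t_j)^(b_j - (b_j - 1))`. So `eta = n / (z-x) + ∑_u K_u(x) dslope F_u x z` for `z ≠ x`, `n = ∑_u ζ^(c u)` (`S_Ram`), and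
`exp ∫ = ((β-x)/(α-x))^n h(x)`, `h = exp ∑_u K_u(x) ∫ (β-α) dslope F_u x (sx α β u) du` (`S_Lgi`, `S_Dsl`). -/
def S_X1 : Prop :=
  S_Ram → S_Loc → S_Dsl → S_Lgi → ∀ (m r : ℕ) (b : Fin (r + 1) → ℕ) (t : Fin (r + 1) → ℂ), Cvb m b → ∀ Y ∈ Pts m b t, ∀ ρ > 0, Cx t (ball Y.1 ρ) →
    ∀ c : ℕ, ∀ n : ℤ, ∑ u ∈ Us m, ze m 1 ^ (u * c) = n → ∀ α ∈ ball Y.1 ρ, ∀ β ∈ ball Y.1 ρ,
      ∃ h : ℂ → ℂ, DifferentiableOn ℂ h (ball Y.1 ρ) ∧ (∀ x ∈ ball Y.1 ρ, h x ≠ 0) ∧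
        ∀ x ∈ ball Y.1 ρ, x ∉ segment ℝ α β →
          Complex.exp (sgi m b t (α, ze m 1 ^ c * br m b t Y α) β (eta m b t (bp m b t Y x))) =
            ((β - x) / (α - x)) ^ n * h x

/-- The index of a point over `Y.1`: `∑_u ζ^(u c)` for `(Y.1, ζ^c Y.2)`, and `0` for the other points. -/
def IsNu (m : ℕ) {r : ℕ} (b : Fin (r + 1) → ℕ) (t : Fin (r + 1) → ℂ) (Y : ℂ × ℂ) (ν : ℂ × ℂ → ℤ) : Prop :=
  (∀ X : ℂ × ℂ, X.1 ≠ Y.1 → ν X = 0) ∧
  ∀ c : ℕ, ∑ u ∈ Us m, ze m 1 ^ (u * c) = (ν (Y.1, ze m 1 ^ c * Y.2) : ℂ)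

/-- The statement of the crossing for one segment (`Q`, `x'`). -/
def Xg (m : ℕ) {r : ℕ} (b : Fin (r + 1) → ℕ) (t : Fin (r + 1) → ℂ) (Y : ℂ × ℂ) (S : Set ℂ) (n : ℤ) (I : ℂ → ℂ) : Prop :=
  ∃ ρ > 0, Cx t (ball Y.1 ρ) ∧ ∃ h : ℂ → ℂ, DifferentiableOn ℂ h (ball Y.1 ρ) ∧ (∀ x ∈ ball Y.1 ρ, h x ≠ 0) ∧
    ∀ x ∈ ball Y.1 ρ, x ∉ S → Complex.exp (I x) = (x - Y.1) ^ n * h x

/-- **X2**: ONE SEGMENT. From `S_Ram`, `S_Loc`, `S_Seg`, `S_Sub`, `S_X1`, and the derivative away from the segment (`S_Der` for one segment, hypothesis `hd`). PROOF. Let `C = [Q.1, x']`. If `Y.1 ∉ C`: `h = exp (sgi …)`, holomorphic on a ball off `C` by `hd`, `ν = 0` at both ends. If `Y.1 ∈ C`: let `ρ` be small; cut `C` at `z₁, z₂` in the ball, `Y.1 ∈ [z₁, z₂]`,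
`z₁ = Y.1` iff `Q.1 = Y.1` (then `z₁ = Q.1`), `z₂ = Y.1` iff `x' = Y.1` (`z₁, z₂` not `Y.1` otherwise; if `Q.1 = x'` everything is trivial: the integral is `0`, `R = Q`). The outer parts do not contain `Y.1`: first case. The inner part: `bp Q z₁ = (z₁, ζ^c br Y z₁)` (`S_Loc`, sheets), `S_X1`: `((z₂ - x)/(z₁ - x))^n h`; a factor `(z_i - x)^(± n)` with
`z_i ≠ Y.1` is holomorphic and nonzero on a smaller ball, with `z_i = Y.1` it is `(-1)^(± n) (x - Y.1)^(± n)`. `ν` of the end points: `n` if the end point is over `Y.1` (it is `(Y.1, ζ^c Y.2)`). -/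
def S_X2 : Prop :=
  S_Ram → S_Loc → S_Seg → S_Sub → S_X1 → ∀ (m r : ℕ) (b : Fin (r + 1) → ℕ) (t : Fin (r + 1) → ℂ), Cvb m b →
    (∀ (Q : ℂ × ℂ) (x' : ℂ), Q ∈ Pts m b t → x' ∈ st t Q.1 → ∀ Y ∈ Pts m b t, Y.1 ∉ segment ℝ Q.1 x' →
      DifferentiableAt ℂ (fun a => sgi m b t Q x' (eta m b t (bp m b t Y a))) Y.1) →
    ∀ Y ∈ Pts m b t, ∀ ν, IsNu m b t Y ν → ∀ (Q : ℂ × ℂ) (x' : ℂ), Q ∈ Pts m b t → x' ∈ st t Q.1 →
      Xg m b t Y (segment ℝ Q.1 x') (ν (bp m b t Q x') - ν Q) fun x => sgi m b t Q x' (eta m b t (bp m b t Y x))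

/-- **Xr**: CROSSING. From `S_X2` (conclusion for all segments, hypothesis `hx`). PROOF. `ν` exists: `S_Ram` (`ζ^c Y.2` determines `c` modulo `m`; define `ν` by a choice: if `X.1 = Y.1` and `X.2 = ζ^c Y.2` for some `c` the integer of `S_Ram`, otherwise `0`; `ζ` has order `m`: `ze m 1 ^ c` depends only on `c % m` and is injective there; the sum is a function of `ζ^c`:
`∑_u (ζ^c)^u`). Induction on the path: products of the `h`, minimum of the radii, sum of the exponents. -/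
def S_Xr : Prop :=
  S_Ram → ∀ (m r : ℕ) (b : Fin (r + 1) → ℕ) (t : Fin (r + 1) → ℂ), Cvb m b →
    (∀ Y ∈ Pts m b t, ∀ ν, IsNu m b t Y ν → ∀ (Q : ℂ × ℂ) (x' : ℂ), Q ∈ Pts m b t → x' ∈ st t Q.1 →
      Xg m b t Y (segment ℝ Q.1 x') (ν (bp m b t Q x') - ν Q) fun x => sgi m b t Q x' (eta m b t (bp m b t Y x))) →
    S_Loc → S_Seg → ∀ Y ∈ Pts m b t, ∃ ν : ℂ × ℂ → ℤ, ∀ (A B : ℂ × ℂ) (p : Path m b t A B),
      Xg m b t Y p.on (ν B - ν A) fun x => p.int (eta m b t (bp m b t Y x))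

/-- `Φ Y` continues `exp ∫_β eta_Y` to all points of the curve. -/
structure IsVal (m : ℕ) {r : ℕ} (b : Fin (r + 1) → ℕ) (t : Fin (r + 1) → ℂ) {A : ℂ × ℂ} (β : Path m b t A A) (Φ : ℂ × ℂ → ℂ) : Prop where
  ne : ∀ Y ∈ Pts m b t, Φ Y ≠ 0
  off : ∀ Y ∈ Pts m b t, Y.1 ∉ β.on → Φ Y = Complex.exp (β.int (eta m b t Y))
  loc : ∀ Y ∈ Pts m b t, ∃ ρ > 0, Cx t (ball Y.1 ρ) ∧ ∀ g, IsPm m b t Y (ball Y.1 ρ) g → ∀ x ∈ ball Y.1 ρ,
    Φ (bp m b t Y x) = Φ Y * Complex.exp (Qf m b t β.v (g x - g Y.1))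

/-- **Va0**: CONTINUATION. From `S_Loc`, `S_Seg`, `S_Pth`, and the conclusions of `S_Xr`, `S_Der` for closed paths. PROOF. For `Y ∈ Pts` let `h_Y` be the function of the first hypothesis (exponent `0`) on a ball; off `β.on`, `h_Y(x) = exp (β.int (eta (bp Y x)))`, so `h_Y' = h_Y Qf β.v (om2 (bp Y x))` (second hypothesis at `bp Y x`, `bp (bp Y x) = bp Y`), and by
density of the complement of `β.on` (`interior = ∅`) and continuity on the whole ball: `h_Y(x) = h_Y(Y.1) exp (Qf β.v (g x - g Y.1))` (the quotient has derivative `0`; `Qf β.v` is linear). `Φ Y := h_Y(Y.1)`; if `x` is in the ball of `Y`, `h_(bp Y x) = h_Y` near `x` (off `β.on`, density), so `Φ (bp Y x) = h_Y(x)`. `off`: `x = Y.1`. -/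
def S_Va0 : Prop :=
  S_Loc → S_Seg → S_Pth → ∀ (m r : ℕ) (b : Fin (r + 1) → ℕ) (t : Fin (r + 1) → ℂ), Cvb m b → ∀ (A : ℂ × ℂ) (β : Path m b t A A),
    (∀ Y ∈ Pts m b t, Xg m b t Y β.on 0 fun x => β.int (eta m b t (bp m b t Y x))) →
    (∀ Y ∈ Pts m b t, Y.1 ∉ β.on → HasDerivAt (fun a => β.int (eta m b t (bp m b t Y a))) (Qf m b t β.v (om2 m b t Y)) Y.1) →
    ∃ Φ, IsVal m b t β Φ

/-- **Val** (assembly of `S_Va0`, `S_Xr`, `S_X2`, `S_Der`; helper12). THE KEY FORMULA from it (`tKey`, `tQz`, hypotheses see the header): `S_Chn` for the relation `R P Q v : Φ Q = Φ P * exp (Qf β.v v)`; `exp x = exp y` iff `x - y ∈ 2 π i ℤ` (`Complex.exp_eq_exp_iff_exists_int`).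
`S_Qz`: `c` a closed path at `P`: `Φ P = Φ P exp (Qf β.v c.v)`. -/
def S_Val : Prop :=
  ∀ (m r : ℕ) (b : Fin (r + 1) → ℕ) (t : Fin (r + 1) → ℂ), Cvb m b → ∀ (A : ℂ × ℂ) (β : Path m b t A A), ∃ Φ, IsVal m b t β Φ

end TNF.AB
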