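import Pool.Agent.Lib.TNF.AB.Ifc

/-!
# PROJECT TNF, package AB, part B (helper45): periods, algebraic functions, the lattice, `StmtAB`

Every module: file `TNF/AB/Xyz.lean`, `theorem tXyz : S_Xyz` (the statements listed after From are
hypotheses, in this order: `theorem tXyz (h1 : S_A) (h2 : S_B) : S_Xyz`), namespace `TNF.AB`; import only
`Pool.Agent.Lib.TNF.AB.SpecB` and Mathlib (Defs: `br P`, `bp P x = (x, br P x)`, `st`, `sx a c u = a + u (c - a)`,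
`Sg`, `sgi`, `Path`; Ifc: `S_Brs`, `S_Alg2`, `S_Itp`, `S_Gp`, `S_Lzg2`, `S_Nd`, `S_Qw`, `S_Key`, `S_Qz`).

A function `f` on the curve is differentiated along the branches: `Dv A f f'`.
-/

set_option autoImplicit false

open Topology Metric MeasureTheory

noncomputable section

namespace TNF.AB

open SEJ TATE

section defs

variable (m : ℕ) {r : ℕ} (b : Fin (r + 1) → ℕ) (t : Fin (r + 1) → ℂ)

/-- The form `h dx` is holomorphic on the curve outside the points over `A`. -/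
def Reg (A : Set ℂ) (h : ℂ × ℂ → ℂ) : Prop :=
  ∀ P ∈ Pts m b t, ∀ x ∈ st t P.1, x ∉ A → DifferentiableAt ℂ (fun x' => h (bp m b t P x')) x

/-- `f'` is the derivative of `f` with respect to `x` on the curve outside the points over `A`. -/
def Dv (A : Set ℂ) (f f' : ℂ × ℂ → ℂ) : Prop :=
  ∀ X ∈ Pts m b t, X.1 ∉ A → HasDerivAt (fun x => f (bp m b t X x)) (f' X) X.1

/-- The branch points. -/
def St (t : Fin (r + 1) → ℂ) : Finset ℂ := Finset.univ.image t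

/-- `∑ 1 / |x - a|` -/
def Kd (S : Finset ℂ) (x : ℂ) : ℝ := ∑ a ∈ S, 1 / ‖x - a‖

/-- `∑_(c < m) A_c(x) y^c` -/
def evA (A : ℕ → Polynomial ℂ) (X : ℂ × ℂ) : ℂ := ∑ c ∈ Finset.range m, (A c).eval X.1 * X.2 ^ c

/-- Its derivative with respect to `x` on the curve. -/
def dvA (A : ℕ → Polynomial ℂ) (X : ℂ × ℂ) : ℂ :=
  ∑ c ∈ Finset.range m, ((A c).derivative.eval X.1 +
    (A c).eval X.1 * (c * ∑ j, (b j : ℂ) / (m * (X.1 - t j)))) * X.2 ^ c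

/-- The form of the third kind of the divisor `∑ (Q_a) - (Q'_a)`, minus a form of the first kind. -/
def hD {k : ℕ} (Q' Q : Fin k → ℂ × ℂ) (w : Ix m b → ℂ) (X : ℂ × ℂ) : ℂ :=
  ∑ a, (eta m b t (Q a) X - eta m b t (Q' a) X) - ∑ q, w q * om m b t X q

/-- The points over which `hD` has poles. -/
def Ad {k : ℕ} (Q' Q : Fin k → ℂ × ℂ) : Set ℂ :=
  {x | ∃ a, x = (Q' a).1 ∨ x = (Q a).1}

/-- `m ∑ (Q_a) - (Q'_a)` is, up to the imprimitive part, the divisor of the function `f = evA A / B`: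
`f' = f h`, `h = hD`. An algebraic condition. -/
def PD {k : ℕ} (Q' Q : Fin k → ℂ × ℂ) : Prop :=
  ∃ (A : ℕ → Polynomial ℂ) (B : Polynomial ℂ) (w : Ix m b → ℂ), B ≠ 0 ∧
    (∃ X ∈ Pts m b t, X.1 ∉ Ad Q' Q ∧ B.eval X.1 ≠ 0 ∧ evA m A X ≠ 0) ∧
    ∀ X ∈ Pts m b t, X.1 ∉ Ad Q' Q →
      dvA m b t A X * B.eval X.1 - evA m A X * B.derivative.eval X.1 =
        evA m A X * B.eval X.1 * hD m b t Q' Q w X

/-- The point over `P.1` on the curve of `t'` near `P`. -/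
def rb (t' : Fin (r + 1) → ℂ) (P : ℂ × ℂ) : ℂ × ℂ :=
  (P.1, P.2 * ∏ j, ((P.1 - t' j) / (P.1 - t j)) ^ ((b j : ℂ) / m))

end defs

/-! ## 1. Integrals and potentials -/

/-- **Lin**: REGULAR FORMS, LINEARITY. From `S_Brs`. PROOF. `br P` is differentiable on `st t P.1`, so `om2`, `om`
(no poles: `x ≠ t_j` on `st`), `eta P` (`x ≠ P.1`) are regular; sums, multiples. On a segment of a path
which avoids `A` the integrand `u ↦ h (bp Q (sx ..))` is continuous on `[0, 1]`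
(`S_Brs`: the segment is in `st`), so interval integrable: `intervalIntegral.integral_finset_sum`,
`integral_const_mul`; induction on the path (`Path.on` is the union). -/
def S_Lin : Prop :=
  ∀ (m r : ℕ) (b : Fin (r + 1) → ℕ) (t : Fin (r + 1) → ℂ), 1 ≤ m →
    (∀ q : Ix2 m r, Reg m b t ∅ fun X => om2 m b t X q) ∧
    (∀ q : Ix m b, Reg m b t ∅ fun X => om m b t X q) ∧
    (∀ P ∈ Pts m b t, Reg m b t {P.1} (eta m b t P)) ∧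
    (∀ A A' h, A ⊆ A' → Reg m b t A h → Reg m b t A' h) ∧
    (∀ (ι : Type) (s : Finset ι) (c : ι → ℂ) (h : ι → (ℂ × ℂ → ℂ)) (A : Set ℂ),
      (∀ i ∈ s, Reg m b t A (h i)) → Reg m b t A (fun X => ∑ i ∈ s, c i * h i X) ∧
      ∀ (P Q : ℂ × ℂ) (p : Path m b t P Q), Disjoint p.on A →
        p.int (fun X => ∑ i ∈ s, c i * h i X) = ∑ i ∈ s, c i * p.int (h i)) ∧
    ∀ (P Q : ℂ × ℂ) (p : Path m b t P Q) (q : Ix m b),
      p.int (fun X => om m b t X q) = p.v (inc q)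

/-- **Ftc**: FUNDAMENTAL THEOREM. From `S_Brs`, `S_Alg2`. PROOF. One segment from `Q` to `x`: at
`x₁ = sx Q.1 x u`, `f (bp Q x')` is `f (bp (bp Q x₁) x')` for `x'` near `x₁` (`S_Brs`), so it has the
derivative `h (bp Q x₁)`; `intervalIntegral.integral_eq_sub_of_hasDerivAt` (composition with
`u ↦ sx Q.1 x u`). (2): the derivative of `u ↦ f exp (- ∫_0^u)` is `0`. Induction on the path. (3): `sgi X x h` is
a primitive near `X.1`: on a ball around `X.1` in `st t X.1` minus `A` (`A` closed) there is a primitive `g`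
of `x ↦ h (bp X x)` (`DifferentiableOn.isExactOn_ball`), `sgi X x h = g x - g X.1`. -/
def S_Ftc : Prop :=
  ∀ (m r : ℕ) (b : Fin (r + 1) → ℕ) (t : Fin (r + 1) → ℂ), 1 ≤ m → ∀ A : Set ℂ, A.Finite →
    ∀ h : ℂ × ℂ → ℂ, Reg m b t A h →
    (∀ f : ℂ × ℂ → ℂ, Dv m b t A f h → ∀ (P Q : ℂ × ℂ) (p : Path m b t P Q), Disjoint p.on A →
      p.int h = f Q - f P) ∧
    (∀ f : ℂ × ℂ → ℂ, (Dv m b t A f fun X => f X * h X) → ∀ (P Q : ℂ × ℂ) (p : Path m b t P Q),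
      Disjoint p.on A → f Q = f P * Complex.exp (p.int h)) ∧
    ∀ X ∈ Pts m b t, X.1 ∉ A → HasDerivAt (fun x => sgi m b t X x h) (h X) X.1

/-- **Pot**: POTENTIALS. From `S_Brs`, `S_Alg2`, `S_Gp`, `S_Ftc`. PROOF. A point `X₀` of the curve off `A` (an `m`-th root
over some `x ∉ A`, `x ≠ t_j`). `F X := p.int h` for a chosen path `p` from `X₀` to `X` which avoids `A` (`S_Gp`). Two
such paths differ by a closed path, so `F` is well defined (modulo `2 π i ℤ` for (2), `f = exp F`). For `x` near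
`X.1` the path `p` followed by the segment from `X` to `bp X x` avoids `A` (a small ball around `X.1`
does not meet `A`, and is contained in `st t X.1`): `F (bp X x) = F X + sgi X x h`; derivative by
`S_Ftc` (3). -/
def S_Pot : Prop :=
  ∀ (m r : ℕ) (b : Fin (r + 1) → ℕ) (t : Fin (r + 1) → ℂ), Cvb m b → Function.Injective t →
    ∀ A : Set ℂ, A.Finite → ∀ h : ℂ × ℂ → ℂ, Reg m b t A h →
    ((∀ (P : ℂ × ℂ) (p : Path m b t P P), Disjoint p.on A → p.int h = 0) →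
      ∃ f : ℂ × ℂ → ℂ, Dv m b t A f h) ∧
    ((∀ (P : ℂ × ℂ) (p : Path m b t P P), Disjoint p.on A →
        ∃ n : ℤ, p.int h = 2 * Real.pi * Complex.I * n) →
      ∃ f : ℂ × ℂ → ℂ, (Dv m b t A f fun X => f X * h X) ∧ ∀ X ∈ Pts m b t, X.1 ∉ A → f X ≠ 0)

/-! ## 2. Growth -/

/-- **Dst**: PARTIAL FRACTIONS. PROOF. Let `|x - a|` be the smallest distance, `a ∈ S`. For `c ∈ S`, `c ≠ a`:
`|x - c| ≥ |a - c| / 2 ≥ δ`, so `1 + |x| ≤ 1 + |c| + |x - c| ≤ C |x - c|`: `∏_(c ≠ a) |x - c| ≥ C^(-n) (1 + |x|)^n`. -/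
def S_Dst : Prop :=
  ∀ (S : Finset ℂ) (n : ℕ), S.card = n + 1 → ∃ C : ℝ, 0 ≤ C ∧ ∀ x ∉ S,
    (1 + ‖x‖) ^ n / ∏ a ∈ S, ‖x - a‖ ≤ C * Kd S x

/-- **Bhm**: BOUNDS OF THE FORMS. From `S_Dst`. PROOF. On the curve `|y|^m = ∏ |x - t_j|^(b_j)`, so
`|g_u| = ∏ |x - t_j|^(f_j)`, `f_j = (u b_j mod m)/m ∈ (0, 1)` (take `m`-th roots:
`|g_u|^m = ∏ |x - t_j|^(u b_j mod m)`), `|x - t_j| ≤ C (1 + |x|)`: `|g_u| ≤ C (1 + |x|)^(∑ f_j)`. (1): `N = 2 r + 2`,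
`|q| ` by `S_Dst` (`n = r`). (2): first kind: `i + ∑ f_j < r`, so `|x^i g_u| ≤ C (1 + |x|)^r`. (3):
`|g_u| ≤ C (1 + |x|)^(r+1)`, `S_Dst` for the `r + 2` points `t_j`, `P.1` (`P.1 ≠ t_j`). -/
def S_Bhm : Prop :=
  ∀ (m r : ℕ) (b : Fin (r + 1) → ℕ) (t : Fin (r + 1) → ℂ), Cvb m b → Function.Injective t →
    (∀ q : Ix2 m r, ∃ (C : ℝ) (N : ℕ), 0 ≤ C ∧ ∀ X ∈ Pts m b t,
      ‖om2 m b t X q‖ ≤ C * (1 + ‖X.1‖) ^ N * Kd (St t) X.1) ∧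
    (∀ q : Ix m b, ∃ C : ℝ, 0 ≤ C ∧ ∀ X ∈ Pts m b t, ‖om m b t X q‖ ≤ C * Kd (St t) X.1) ∧
    ∀ P ∈ Pts m b t, ∃ C : ℝ, 0 ≤ C ∧ ∀ X ∈ Pts m b t, X.1 ≠ P.1 →
      ‖eta m b t P X‖ ≤ C * Kd (insert P.1 (St t)) X.1

/-- **Grn**: GRÖNWALL on a segment. From `S_Brs`. PROOF. `g(u) = f (bp P (sx P.1 x u))` has the derivative
`(x - P.1) f'` on `[0, 1]` (as in `S_Ftc`), `φ = log (|g|^2 + E^2) / 2` the derivative
`Re (g' conj g) / (|g|^2 + E^2) ≤ C |x - P.1| Kd (|g| + E) |g| / (|g|^2 + E^2) ≤ 2 C |x - P.1| Kd`. Integrate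
(`Kd (sx ..)` is continuous on `[0, 1]`): `(|g(1)|^2 + E^2)^(1/2) ≤ (|g(0)|^2 + E^2)^(1/2) exp (2 C I)`. -/
def S_Grn : Prop :=
  ∀ (m r : ℕ) (b : Fin (r + 1) → ℕ) (t : Fin (r + 1) → ℂ), 1 ≤ m → ∀ (S : Finset ℂ)
    (f f' : ℂ × ℂ → ℂ) (C E : ℝ), St t ⊆ S → 0 ≤ C → 0 < E → Dv m b t (S : Set ℂ) f f' →
    ∀ P ∈ Pts m b t, ∀ x : ℂ, (∀ u ∈ Set.Icc (0 : ℝ) 1, sx P.1 x u ∉ S ∧
      ‖f' (bp m b t P (sx P.1 x u))‖ ≤
        C * Kd S (sx P.1 x u) * (‖f (bp m b t P (sx P.1 x u))‖ + E)) →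
    ‖f (bp m b t P x)‖ ≤ (‖f P‖ + E) *
      Real.exp (2 * C * ∫ u in (0 : ℝ)..1, ‖x - P.1‖ * Kd S (sx P.1 x u))

/-- **Rad**: RADIAL INTEGRALS. PROOF. (1): on the segment `|z - a| = s` runs from `ρ` to `|x - a|`, the other
distances are `≥ ρ`: `∫_(|x - a|)^ρ (1/s + card / ρ) ds ≤ log (ρ / |x - a|) + card`. (2): `|z| = s` runs from `R` to `|x|`,
`|z - a| ≥ s / 2`: `≤ 2 card log (|x| / R)`. -/
def S_Rad : Prop :=
  ∀ S : Finset ℂ,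
    (∀ a ∈ S, ∀ ρ > (0 : ℝ), (∀ c ∈ S, c ≠ a → 2 * ρ ≤ ‖c - a‖) → ∀ x : ℂ, x ≠ a → ‖x - a‖ ≤ ρ →
      (∀ u ∈ Set.Icc (0 : ℝ) 1, sx (a + (ρ / ‖x - a‖ : ℝ) * (x - a)) x u ∉ S) ∧
      ∫ u in (0 : ℝ)..1, ‖x - (a + (ρ / ‖x - a‖ : ℝ) * (x - a))‖ *
        Kd S (sx (a + (ρ / ‖x - a‖ : ℝ) * (x - a)) x u) ≤ Real.log (ρ / ‖x - a‖) + S.card) ∧
    ∀ R > (0 : ℝ), (∀ c ∈ S, 2 * ‖c‖ ≤ R) → ∀ x : ℂ, R ≤ ‖x‖ →
      (∀ u ∈ Set.Icc (0 : ℝ) 1, sx ((R / ‖x‖ : ℝ) * x) x u ∉ S) ∧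
      ∫ u in (0 : ℝ)..1, ‖x - (R / ‖x‖ : ℝ) * x‖ * Kd S (sx ((R / ‖x‖ : ℝ) * x) x u) ≤
        2 * S.card * Real.log (‖x‖ / R)

/-- **Cmp**: COMPACTNESS. From `S_Brs`. PROOF. `f` is continuous on `{X ∈ Pts | X.1 ∉ S}`: for `X` near `X₀` in this
set `X = bp X₀ X.1` (`X.2` and `br X₀ X.1` have the same `m`-th power, both near `X₀.2 ≠ 0`). The
set `{|x| ≤ R, |x - a| ≥ ρ}` is compact: closed and bounded (`|y|^m = ∏ |x - t_j|^(b_j)`). -/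
def S_Cmp : Prop :=
  ∀ (m r : ℕ) (b : Fin (r + 1) → ℕ) (t : Fin (r + 1) → ℂ), 1 ≤ m → ∀ (S : Finset ℂ)
    (f f' : ℂ × ℂ → ℂ), St t ⊆ S → Dv m b t (S : Set ℂ) f f' → ∀ R ρ : ℝ, 0 < ρ →
    ∃ M : ℝ, ∀ X ∈ Pts m b t, ‖X.1‖ ≤ R → (∀ a ∈ S, ρ ≤ ‖X.1 - a‖) → ‖f X‖ ≤ M

/-- **Grw**: GROWTH. From `S_Brs`, `S_Grn`, `S_Rad`, `S_Cmp`. PROOF. `ρ` small, `R` large (as in `S_Rad`), `M` from
`S_Cmp`. A point `X` with `|X.1 - a| < ρ`: `P := bp X x'`, `x' = a + ρ (x - a)/|x - a|`, `bp P x = X`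
(`S_Brs`; the segment from `x'` to `x` does not meet `S ⊇ t`); `S_Grn` with `E = (1 + R)^N` and `S_Rad`:
`|f X| ≤ (M + E) exp (2 C (log (ρ/|x - a|) + card)) ≤ C₁ |x - a|^(-N')` (`N' ≥ 2 C` a natural number), the other
factors of the product are bounded. `|X.1| > R`: `E = (1 + |x|)^N`, `|f X| ≤ C₂ |x|^(N + 4 C card)`,
`∏ |x - a|^N' ≤ (2 |x|)^(N' card)`. The remaining `X`: `|f X| ≤ M`, the product is bounded. -/
def S_Grw : Prop :=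
  ∀ (m r : ℕ) (b : Fin (r + 1) → ℕ) (t : Fin (r + 1) → ℂ), 1 ≤ m → ∀ (S : Finset ℂ)
    (f f' : ℂ × ℂ → ℂ) (C : ℝ) (N : ℕ), St t ⊆ S → 0 ≤ C → Dv m b t (S : Set ℂ) f f' →
    (∀ X ∈ Pts m b t, X.1 ∉ S → ‖f' X‖ ≤ C * Kd S X.1 * (‖f X‖ + (1 + ‖X.1‖) ^ N)) →
    ∃ (C' : ℝ) (N' M' : ℕ), 0 ≤ C' ∧ ∀ X ∈ Pts m b t, X.1 ∉ S →
      ‖f X‖ * ∏ a ∈ S, ‖X.1 - a‖ ^ N' ≤ C' * (1 + ‖X.1‖) ^ M'

/-! ## 3. Algebraic functions -/

/-- **Ent**: ONE VARIABLE. PROOF. `G = g ∏ (x - a)^N` is holomorphic off `S` and `|G| ≤ C (1 + |x|)^M`, so it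
extends to an entire function (removable singularities,
`Complex.differentiableOn_update_limUnder_of_bddAbove`, one point after the other); an entire function
with `|G| ≤ C (1 + |x|)^M` is a polynomial: induction on `M` with `dslope G 0` (Liouville for `M = 0`:
`Differentiable.apply_eq_apply_of_bounded`). -/
def S_Ent : Prop :=
  ∀ (S : Finset ℂ) (g : ℂ → ℂ) (C : ℝ) (N M : ℕ), (∀ x ∉ S, DifferentiableAt ℂ g x) →
    (∀ x ∉ S, ‖g x‖ * ∏ a ∈ S, ‖x - a‖ ^ N ≤ C * (1 + ‖x‖) ^ M) →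
    ∃ A : Polynomial ℂ, ∀ x ∉ S, g x * ∏ a ∈ S, (x - a) ^ N = A.eval x

/-- **Al3**: FUNCTIONS ON THE CURVE. From `S_Brs`, `S_Ent`. PROOF. `R_c(x) = m⁻¹ ∑_(n < m) f(x, ζ^n y) (ζ^n y)^(-c)`, `y` any
`m`-th root (independent of it), `c < m`; near `x₀ ∉ S` take `y = br P x`, `P` over `x₀`,
`br (P.1, ζ^n P.2) = ζ^n br P`: differentiable. `|y|^(-c) ≤ 1 + |y|^(-m) = 1 + ∏ |x - t_j|^(-b_j)`, so
`R_c` satisfies the bound of `S_Ent` with bigger exponents (`N + ∑ b_j`; `|x - a| ≤ C₁ (1 + |x|)`). `∑_c R_c(x) y^c = f(x, y)` (`∑_c ζ^(-n c) = 0` for `0 < n < m`). The same `N` for all `c`. -/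
def S_Al3 : Prop :=
  ∀ (m r : ℕ) (b : Fin (r + 1) → ℕ) (t : Fin (r + 1) → ℂ), 1 ≤ m → ∀ (S : Finset ℂ)
    (f f' : ℂ × ℂ → ℂ), St t ⊆ S → Dv m b t (S : Set ℂ) f f' →
    (∃ (C : ℝ) (N M : ℕ), 0 ≤ C ∧ ∀ X ∈ Pts m b t, X.1 ∉ S →
      ‖f X‖ * ∏ a ∈ S, ‖X.1 - a‖ ^ N ≤ C * (1 + ‖X.1‖) ^ M) →
    ∃ (A : ℕ → Polynomial ℂ) (N : ℕ), ∀ X ∈ Pts m b t, X.1 ∉ S →
      f X * ∏ a ∈ S, (X.1 - a) ^ N = evA m A X

/-- **Dva**: DERIVATIVE. From `S_Brs`. PROOF. `HasDerivAt` of `x ↦ ∑ (A c).eval x * (br X x)^c` at `X.1`. -/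
def S_Dva : Prop :=
  ∀ (m r : ℕ) (b : Fin (r + 1) → ℕ) (t : Fin (r + 1) → ℂ), 1 ≤ m → ∀ A : ℕ → Polynomial ℂ,
    Dv m b t ∅ (evA m A) (dvA m b t A)

/-! ## 4. The periods span `V2` -/

/-- **Spa**: ALGEBRA. PROOF. Divide `A`, `B` by their gcd: the identity persists; so `A`, `B` coprime. Let `ρ` be a
root of `B` of order `n ≥ 1`, `A(ρ) ≠ 0`. If `ρ ≠ t_j` for all `j`: `A B' q` has order `n - 1` at `ρ`, all the
other terms order `≥ n`. If `ρ = t_j`: `A' B q` has order `≥ n + 1`, `- A B' q + A B pp` has order exactly `n`: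
coefficient `(f_j - n) A(ρ) B_n q'(ρ)` (`pp(t_j) = f_j q'(t_j)`, `f_j ∉ ℤ`), `Pol B²` order `≥ 2 n > n`. So `B` is
constant: `(A' q + A pp) B = Pol B²`; if `A ≠ 0`, `d = deg A`: the coefficient of `X^(d + r)` on the left is
`(d + ∑ f_j) lc(A) B ≠ 0`, but `deg Pol < r`. So `A = 0`, `Pol = 0`. -/
def S_Spa : Prop :=
  ∀ (m r : ℕ) (b : Fin (r + 1) → ℕ) (t : Fin (r + 1) → ℂ), Cvb m b → Function.Injective t →
    ∀ u < m, u.Coprime m → ∀ A B G : Polynomial ℂ, B ≠ 0 → (∀ i, r ≤ i → G.coeff i = 0) →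
    (A.derivative * B - A * B.derivative) * qp t + A * B * pp m b t u = G * B ^ 2 → G = 0

/-- **Spc**: COEFFICIENTS. From `S_Brs`, `S_Dva`. PROOF. Let `G_u = ∑_i ℓ_(u,i) X^i`. At `(x, ζ^n y)` for all `n < m`:
`∑_c ((A_c/B)' + (A_c/B) c ∑ b_j/(m (x - t_j))) (ζ^n y)^c = ∑_(u ∈ U) G_u(x) g_u(x, ζ^n y)/q(x)`,
`g_u(x, ζ^n y) = ζ^(n u) g_u(x, y)`: compare the coefficients of `ζ^(n u)` (finite Fourier inversion):
`((A_u/B)' + (A_u/B) u ∑ b_j/(m (x - t_j))) y^u = G_u g_u/q`. With `T = ∏ (x - t_j)^[u b_j/m]`, `A = A_u T`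
this is the identity of `S_Spa` at all `x ∉ S` with `B(x) ≠ 0` (`u b_j/m - [u b_j/m] = f_j`), so an
identity of polynomials. -/
def S_Spc : Prop :=
  ∀ (m r : ℕ) (b : Fin (r + 1) → ℕ) (t : Fin (r + 1) → ℂ), Cvb m b → Function.Injective t →
    ∀ (ℓ : Ix2 m r → ℂ) (f : ℂ × ℂ → ℂ) (A : ℕ → Polynomial ℂ) (B : Polynomial ℂ) (S : Finset ℂ),
    St t ⊆ S → (∀ x ∉ S, B.eval x ≠ 0) →
    (Dv m b t (S : Set ℂ) f fun X => ∑ q, ℓ q * om2 m b t X q) →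
    (∀ X ∈ Pts m b t, X.1 ∉ S → f X * B.eval X.1 = evA m A X) →
    ∀ u < m, u.Coprime m → ∃ A' : Polynomial ℂ,
      (A'.derivative * B - A' * B.derivative) * qp t + A' * B * pp m b t u =
        (∑ q : Ix2 m r, if c2 q = u then Polynomial.C (ℓ q) * Polynomial.X ^ e2 q else 0) * B ^ 2

/-- **Spn**: THE PERIODS SPAN. From `S_Lin`, `S_Pot`, `S_Bhm`, `S_Grw`, `S_Al3`, `S_Spa`, `S_Spc`, `S_Gp`. PROOF. Otherwise a linear form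
`ℓ ≠ 0` vanishes on `LZ2` (`Submodule.exists_le_ker_of_lt_top`, coordinates `ℓ q`). `h = ∑ ℓ_q om2_q`
(`S_Lin`: closed integrals `= ℓ(p.v) = 0`), `S_Pot` (1) with `A = ∅`: `f' = h`. Growth: `S_Bhm` (1), `S_Grw` with
`S = St t`; `S_Al3`, `B = ∏ (X - a)^N`. `S_Spc`, `S_Spa`: all `ℓ_(u,i) = 0`. -/
def S_Spn : Prop :=
  ∀ (m r : ℕ) (b : Fin (r + 1) → ℕ) (t : Fin (r + 1) → ℂ), Cvb m b → Function.Injective t →
    Submodule.span ℂ (LZ2 m b t) = ⊤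

/-- **Inj**: INJECTIVITY. From `S_Nd`, `S_Qw`, `S_Qz`, `S_Lzg2`, `S_Spn`, `StmtFA1`. PROOF. `pr β = 0`:
`Qf β c = ∑ w_q (pr c)_q` (`S_Qw` (3)). For `c ∈ LZ2` it is in `2 π i ℤ`: `Re ∑ w_q v_q = 0` for `v ∈ LZ`, so for `v ∈ LQ`
and all `v ∈ V` (`FamD.spn`), so `w = 0` (`v` and `i v`). So `Qf β c = 0` for all `c`, `S_Nd`. -/
def S_Inj : Prop :=
  ∀ (m r : ℕ) (b : Fin (r + 1) → ℕ) (t : Fin (r + 1) → ℂ), Cvb m b → Function.Injective t →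
    ∀ β ∈ LZ2 m b t, (pr β : Ix m b → ℂ) = 0 → β = 0

/-- **Fin2**: FINITE INDEX. From `S_Nd`, `S_Qz`, `S_Lzg2`, `S_Spn`. PROOF. A `ℂ`-basis `β_i ∈ LZ2` of `V2`
(`exists_linearIndependent`, `Basis`), `Qf β_i β_j = 2 π i M_ij`, `M` an integral matrix with `det ≠ 0`
(`S_Nd`). `c = ∑ x_j β_j ∈ LD2`: `M x = n` integral, so `det M x` is integral: `N = |det M|`. -/
def S_Fin2 : Prop :=
  ∀ (m r : ℕ) (b : Fin (r + 1) → ℕ) (t : Fin (r + 1) → ℂ), Cvb m b → Function.Injective t →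
    ∃ N : ℕ, N ≠ 0 ∧ ∀ c ∈ LD2 m b t, (N : ℂ) • c ∈ LZ2 m b t

/-! ## 5. Abel's theorem -/

/-- **Tau**: CONJUGATION. PROOF. Map the coefficients of `A_c`, `B` and `w` by `σ`; `gu`, `eta`, `om`, `evA`, `dvA` are
rational expressions with rational coefficients in the coordinates: `σ (eta t P X) = eta (σ t) (σ P) (σ X)`
and so on; every point of the curve of `σ t` is `σ X`. (`Polynomial.eval_map`, `derivative_map`.) -/
def S_Tau : Prop :=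
  ∀ (m r : ℕ) (b : Fin (r + 1) → ℕ) (t : Fin (r + 1) → ℂ) (σ : ℂ ≃+* ℂ) (k : ℕ)
    (Q' Q : Fin k → ℂ × ℂ), PD m b t Q' Q →
    PD m b (fun j => σ (t j)) (fun a => (σ (Q' a).1, σ (Q' a).2)) fun a => (σ (Q a).1, σ (Q a).2)

/-- **Per**: PERIODS OF AN ALGEBRAIC SOLUTION. From `S_Alg2`, `S_Gp`, `S_Lin`, `S_Ftc`, `S_Dva`. PROOF. `G = evA A / B`,
`A' = Ad ∪ roots of B` (finite): `Dv A' G (G h)` by the identity. `S_Ftc` (2): `G Q = G P exp (p.int h)` for the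
paths which avoid `A'`. `G ≠ 0` at one point off `A'`, so at all (`S_Gp` (3)); a closed path: `exp (p.int h) = 1`. -/
def S_Per : Prop :=
  ∀ (m r : ℕ) (b : Fin (r + 1) → ℕ) (t : Fin (r + 1) → ℂ), Cvb m b → Function.Injective t →
    ∀ (k : ℕ) (Q' Q : Fin k → ℂ × ℂ), (∀ a, Q' a ∈ Pts m b t ∧ Q a ∈ Pts m b t) →
    PD m b t Q' Q → ∃ (w : Ix m b → ℂ) (A' : Set ℂ), A'.Finite ∧ Ad Q' Q ⊆ A' ∧
      ∀ (P : ℂ × ℂ) (p : Path m b t P P), Disjoint p.on A' →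
        ∃ n : ℤ, p.int (hD m b t Q' Q w) = 2 * Real.pi * Complex.I * n

/-- **Hdi**: THE PERIODS OF `hD`. From `S_Lin`, `S_Alg2`, `S_Key`. PROOF. Linearity of `p.int`, `S_Key` for every `a`;
`Qf` is linear. -/
def S_Hdi : Prop :=
  ∀ (m r : ℕ) (b : Fin (r + 1) → ℕ) (t : Fin (r + 1) → ℂ), Cvb m b → Function.Injective t →
    ∀ (k : ℕ) (Q' Q : Fin k → ℂ × ℂ) (w : Ix m b → ℂ) (c : ∀ a, Path m b t (Q' a) (Q a)),
    Reg m b t (Ad Q' Q) (hD m b t Q' Q w) ∧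
    ∀ (P : ℂ × ℂ) (p : Path m b t P P), Disjoint p.on (Ad Q' Q) →
      ∃ n : ℤ, p.int (hD m b t Q' Q w) = Qf m b t p.v (∑ a, (c a).v) - ∑ q, w q * p.v (inc q) +
        2 * Real.pi * Complex.I * n

/-- **Ab1**: ABEL, existence. From `S_Alg2`, `S_Qw`, `S_Lin`, `S_Pot`, `S_Bhm`, `S_Grw`, `S_Al3`, `S_Dva`, `S_Hdi`. PROOF.
`c = ∑ (c a).v`, `pr c = pr c'`, `c' ∈ LD2`; `S_Qw` (1) for `c - c'`: `w`. By `S_Hdi` the closed integrals of `h = hD w`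
(off `Ad`) are `Qf β c' + 2 π i n ∈ 2 π i ℤ`. `S_Pot` (2): `f`. `|h| ≤ C Kd S` with `S = St t ∪ Ad` (`S_Bhm` (2), (3);
`Kd` is monotone in `S`): `S_Grw` (`N = 0`), `S_Al3`: `f B = evA A`, `B = ∏_(a ∈ S) (X - a)^N`. Differentiate
(`S_Dva`, `Dv f (f h)`): `f h B + f B' = dvA A`; multiply by `B`. `f ≠ 0` at a point off `S`. -/
def S_Ab1 : Prop :=
  ∀ (m r : ℕ) (b : Fin (r + 1) → ℕ) (t : Fin (r + 1) → ℂ), Cvb m b → Function.Injective t →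
    ∀ (k : ℕ) (Q' Q : Fin k → ℂ × ℂ) (c : ∀ a, Path m b t (Q' a) (Q a)),
    pr (∑ a, (c a).v) ∈ LP m b t → PD m b t Q' Q

/-- **Ab2**: ABEL, the converse. From `S_Alg2`, `S_Gp`, `S_Qw`, `S_Per`, `S_Hdi`. PROOF. `w`, `A'` from `S_Per`. For `β ∈ LZ2` a closed
path `p` which avoids `A'`, `p.v = β` (`S_Gp` (2)): by `S_Per`, `S_Hdi`: `Qf β c - ∑ w_q (pr β)_q ∈ 2 π i ℤ`. `S_Qw` (2): `c_w` with
`pr c_w = 0`: `c - c_w ∈ LD2`, `pr (c - c_w) = pr c`. -/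
def S_Ab2 : Prop :=
  ∀ (m r : ℕ) (b : Fin (r + 1) → ℕ) (t : Fin (r + 1) → ℂ), Cvb m b → Function.Injective t →
    ∀ (k : ℕ) (Q' Q : Fin k → ℂ × ℂ) (c : ∀ a, Path m b t (Q' a) (Q a)),
    PD m b t Q' Q → pr (∑ a, (c a).v) ∈ LP m b t

/-! ## 6. Flatness -/

/-- **Prp**: DEFORMATION OF PATHS. From `S_Brs`, `S_Alg2`. PROOF. Induction on the path: `rb t' P` is on the curve of `t'`
near `t`, depends continuously on `t'`, `rb t P = P`. The segment from `Q` to `R`: `R.1 ∈ st t' Q.1` for `t'` near `t`;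
`(rb t' R).2` and `br t' (rb t' Q) R.1` are continuous in `t'`, have the same `m`-th power `≠ 0`, and
are equal at `t`: equal near `t`. The integral `sgi t' (rb t' Q) R.1 (om2 t' q)` is continuous in `t'` on a
small ball: the integrand is jointly continuous in `(t', u)`, `u ∈ [0, 1]`
(`intervalIntegral.continuousWithinAt_of_dominated_interval` or `continuous_parametric…` after a cut
off; near every point of the small ball). -/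
def S_Prp : Prop :=
  ∀ (m r : ℕ) (b : Fin (r + 1) → ℕ) (t : Fin (r + 1) → ℂ), 1 ≤ m → ∀ (P Q : ℂ × ℂ)
    (p : Path m b t P Q), ∃ δ > 0, ∃ V : (Fin (r + 1) → ℂ) → (Ix2 m r → ℂ),
    ContinuousOn V (ball t δ) ∧ V t = p.v ∧ ∀ t' ∈ ball t δ,
      ∃ p' : Path m b t' (rb m b t t' P) (rb m b t t' Q), p'.v = V t'

/-- **Cnt2**: CONTINUITY OF THE PAIRING. PROOF. The coefficients of `∏ (X - t_j)` are continuous in `t`
(induction, `Polynomial.coeff_mul`); finite sums. -/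
def S_Cnt2 : Prop :=
  ∀ (m r : ℕ) (b : Fin (r + 1) → ℕ), Continuous fun z : (Fin (r + 1) → ℂ) × (Ix2 m r → ℂ) ×
    (Ix2 m r → ℂ) => Qf m b z.1 z.2.1 z.2.2

/-- **Tin**: THE INVERSE TRANSPORT. PROOF. `t' ↦ τ t t'` is a continuous family of isomorphisms
(`Φ.hol` on a basis), so its inverse is continuous (matrices; or `ContinuousLinearEquiv` and
`Ring.inverse`). Second: a continuous map from a ball into a countable set is constant (balls are path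
connected; a countable connected subset of a metric space is a point). -/
def S_Tin : Prop :=
  ∀ (m r : ℕ) (b : Fin (r + 1) → ℕ) (Φ : FamD m b), Cvb m b → ∀ t, Function.Injective t →
    ∀ t₁ ∈ ball t (Φ.ρ t), ∀ δ > 0, ball t₁ δ ⊆ ball t (Φ.ρ t) →
    ∀ V : (Fin (r + 1) → ℂ) → (Ix m b → ℂ), ContinuousOn V (ball t₁ δ) →
    (∀ t' ∈ ball t₁ δ, V t' ∈ LZ m b t') → ∀ v, V t₁ = Φ.τ t t₁ v →
    ∀ t' ∈ ball t₁ δ, V t' = Φ.τ t t' v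

/-- **Fla**: THE PAIRING IS FLAT. From `S_Lzg2`, `S_Qz`, `S_Inj`, `S_Prp`, `S_Cnt2`, `S_Tin`. PROOF. Fix `β`, `c ∈ LZ2 t`. For `t'` in the
ball let `β(t')`, `c(t') ∈ LZ2 t'` be the elements with `pr = τ (pr β)`, `τ (pr c)` (`Φ.latZ`, `S_Lzg2`, unique by
`S_Inj`). At `t₁`: `S_Prp` for a closed path with `p.v = β(t₁)` (a closed path, `rb t₁ t₁ = id`) gives `V(t') ∈ LZ2 t'`
continuous near `t₁`; `S_Tin` for `pr V`: `pr V(t') = τ t t' (pr β)`, so `V(t') = β(t')` near `t₁` (`S_Inj`). So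
`t' ↦ Qf t' β(t') c(t') ∈ 2 π i ℤ` (`S_Qz`) is continuous on the ball (`S_Cnt2`), so constant. -/
def S_Fla : Prop :=
  ∀ (m r : ℕ) (b : Fin (r + 1) → ℕ) (Φ : FamD m b), Cvb m b → ∀ t, Function.Injective t →
    ∀ t' ∈ ball t (Φ.ρ t), ∀ β ∈ LZ2 m b t, ∀ c ∈ LZ2 m b t, ∀ β' ∈ LZ2 m b t',
    ∀ c' ∈ LZ2 m b t', pr β' = Φ.τ t t' (pr β) → pr c' = Φ.τ t t' (pr c) →
    Qf m b t' β' c' = Qf m b t β c

/-- **Flp**: THE LATTICE IS FLAT. From `S_Lzg2`, `S_Fin2`, `S_Fla`. PROOF. `⊆`: `v = pr c`, `c ∈ LD2 t`, `N c = c₁ ∈ LZ2 t`; `c₁' ∈ LZ2 t'`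
with `pr c₁' = τ (pr c₁)`, `c' = c₁'/N`, `pr c' = τ v`. For `β' ∈ LZ2 t'` there is `β ∈ LZ2 t` with `pr β' = τ (pr β)`:
`Qf t' β' c' = N⁻¹ Qf t β c₁ = Qf t β c ∈ 2 π i ℤ`. `⊇`: the same backwards. -/
def S_Flp : Prop :=
  ∀ (m r : ℕ) (b : Fin (r + 1) → ℕ) (Φ : FamD m b), Cvb m b → ∀ t, Function.Injective t →
    ∀ t' ∈ ball t (Φ.ρ t), Φ.τ t t' '' LP m b t = LP m b t'

/-- **Lpg**: THE LATTICE. From `S_Lzg2`, `S_Qz`, `S_Fin2`. PROOF. `Qf` is linear in `c`. `Z`: for `c2 p + c2 q = m`: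
`ze^(c2 q) = ze^((m - 1) c2 p)`, so `Qf β (Z c) = Qf (Z^(m-1) β) c`. -/
def S_Lpg : Prop :=
  ∀ (m r : ℕ) (b : Fin (r + 1) → ℕ) (t : Fin (r + 1) → ℂ), Cvb m b → Function.Injective t →
    (0 : Ix m b → ℂ) ∈ LP m b t ∧ (∀ u ∈ LP m b t, ∀ v ∈ LP m b t, u - v ∈ LP m b t) ∧
    LZ m b t ⊆ LP m b t ∧ (∃ N : ℕ, N ≠ 0 ∧ ∀ v ∈ LP m b t, N • v ∈ LZ m b t) ∧
    ∀ v ∈ LP m b t, Zd m b v ∈ LP m b t

/-! ## 7. The theorem

**Asm** (helper45): file `TNF/AB/Asm.lean`, `theorem tAsm : TNF.StmtAB`, `L = LP`. `aut`: `S_Itp` for the paths, `pr` is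
additive, `S_Ab1` at `t`, `S_Tau`, `S_Ab2` at `σ t`. -/

end TNF.AB
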